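import Mathlib
import Pool.Agent.DPX.StmtsXD
import Pool.Agent.RCB.DefsR

/-!
# Blocks over a block with cyclic defect groups of a component: definitions

`Pool/Agent/RCW/PAPER.md` is the plan. The refined classes: the central function modulo `𝔐` of an
extension together with its scalars (complex numbers) on a normal subgroup `W` of `B` which meets
`G` trivially (the kernel of a covering `B → B₀`).
-/

namespace Pool.Agent.RCW

open Pool.Agent.DP Pool.Agent.DPV Pool.Agent.DPW Pool.Agent.Lib_helper13 Representation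
open Pool.Agent.Lib_helper13.Dade (pCore DadeHolds dadeSum)

/-! ### Refined classes -/

section Loc

variable {G B C : Type*} [Group G] [Group B] [Group C]

/-- `W` is a normal subgroup of `B` which meets `G` trivially. -/
structure WC (ι : G →* B) (W : Subgroup B) : Prop where
  nor : W.Normal
  int : ∀ g, ι g ∈ W → g = 1

open Classical in
/-- The refined central function: the central function modulo `𝔐`, and the scalars on `W`. -/
noncomputable def cgW (𝔐 : Ideal (integralClosure ℤ ℂ)) [Fintype B] (ι : G →* B)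
    (W : Subgroup B) (f : B → ℂ) (x : B) : ((integralClosure ℤ ℂ) ⧸ 𝔐) × ℂ :=
  (cgT 𝔐 ι.range f x, if x ∈ W then f x / f 1 else 0)

/-- The class of the refined central functions of the extensions (compare `DP.bet`). -/
def betW (𝔐 : Ideal (integralClosure ℤ ℂ)) [Fintype B] (ι : G →* B) (κ : B →* MulAut G)
    (ρ : B →* C) (W : Subgroup B) (σ : Finset (Subgroup G)) (ψ : G → ℂ) (L : Subgroup C) :
    Set (B → ((integralClosure ℤ ℂ) ⧸ 𝔐) × ℂ) :=
  {b | ∃ f, ExtL ι κ ρ σ ψ L f ∧ b = cgW 𝔐 ι W f}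

open Classical in
/-- Truncation of a refined class to the inverse image of `L`, up to linear characters of `L`
(compare `DPV.trL`). -/
def trW (𝔐 : Ideal (integralClosure ℤ ℂ)) (ρ : B →* C) (L : Subgroup C)
    (β : Set (B → ((integralClosure ℤ ℂ) ⧸ 𝔐) × ℂ)) :
    Set (B → ((integralClosure ℤ ℂ) ⧸ 𝔐) × ℂ) :=
  {b | ∃ b0 ∈ β, ∃ lam : C → ℂ, LinOn L lam ∧
    b = fun x => if ρ x ∈ L then (red 𝔐 (lam (ρ x)) * (b0 x).1, lam (ρ x) * (b0 x).2) else (0, 0)}

open Classical in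
/-- The local sum for the refined classes (compare `DP.VS`). -/
noncomputable def VSW (𝔐 : Ideal (integralClosure ℤ ℂ)) (ℓ : ℕ) [Fintype G] [Fintype B]
    (ι : G →* B) (κ : B →* MulAut G) (ρ : B →* C) (W : Subgroup B) (L : Subgroup C)
    (β : Set (B → ((integralClosure ℤ ℂ) ⧸ 𝔐) × ℂ)) (e : ℕ) : ℚ :=
  ∑ σ ∈ Ch ℓ (⊥ : Subgroup G), (-1 : ℚ) ^ σ.card * ∑ ψ ∈ irrOn (stb σ),
    (Nat.card (stb σ) : ℚ) * (if L ≤ (Stx κ σ ψ).map ρ ∧ df ℓ (stb σ) ψ = e ∧
      betW 𝔐 ι κ ρ W σ ψ L = β then 1 else 0)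

/-- A refined class whose restrictions to `G` have the property `Pr` (compare `DPW.gT`). -/
def gTW {F : Type*} (ι : G →* B) (Pr : (G → F) → Prop) (β : Set (B → F × ℂ)) : Prop :=
  ∃ b ∈ β, Pr (fun g => (b (ι g)).1)

end Loc

section Glob

variable {O G B C Y K Y₀ X : Type*} [Group G] [Group B] [Group C] [Group Y] [Group K]
  [Group Y₀] [Group X]

/-- The refined classes of the data at all coordinates (compare `DP.bts`). -/
def btsW (𝔐 : Ideal (integralClosure ℤ ℂ)) [Fintype B] (ι : G →* B) (κ : B →* MulAut G)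
    (ρ : B →* C) (W : Subgroup B) (p : Y →* K) (φ : Y →* Gam (Equiv.Perm O) O B)
    [DecidableEq O] [Fintype O]
    (τ : Finset (Subgroup (O → G))) (θ : O → G → ℂ) (J : Subgroup K) (o : O) :
    Set (B → ((integralClosure ℤ ℂ) ⧸ 𝔐) × ℂ) :=
  betW 𝔐 ι κ ρ W (comp τ o) (θ o) (vg ρ p φ J o)

/-- `q : Y → Y₀` is a covering of the extension `j₀ : G ^ O → Y₀` by the extension
`j : G ^ O → Y`, with kernel in `W ^ O`. -/
structure CovY (φ : Y →* Gam (Equiv.Perm O) O B) (W : Subgroup B) (j : (O → G) →* Y)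
    (q : Y →* Y₀) (j₀ : (O → G) →* Y₀) : Prop where
  surj : Function.Surjective q
  inj : Function.Injective j₀
  emb : ∀ n, q (j n) = j₀ n
  krr : ∀ v, q v = 1 → (φ v).right = 1
  krl : ∀ v, q v = 1 → ∀ o, (φ v).left o ∈ W
  sta : ∀ τ : Finset (Subgroup (O → G)), YS j τ = (YS j₀ τ).comap q

/-- The product of the extensions `f o` with `η` is trivial on the kernel of `q`. -/
def KerC [Fintype O] (p : Y →* K) (φ : Y →* Gam (Equiv.Perm O) O B) (q : Y →* Y₀)
    (J : Subgroup K) (g : O → B) (f : O → B → ℂ) (η : J → ℂ) : Prop :=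
  ∀ v, q v = 1 → ∀ (hv : p v ∈ J) (k : J),
    (∏ o, (f o (zz φ g v o) / f o 1)) * η (⟨p v, hv⟩ * k) = η k

/-- The number of characters of `J`, times its order (compare `DP.NNR`). -/
noncomputable def NNW [Fintype Y] [Fintype O] [DecidableEq O] [Finite K]
    (𝔐 : Ideal (integralClosure ℤ ℂ)) (ℓ d : ℕ)
    (i : Y₀ →* X) (ω : X → (integralClosure ℤ ℂ) ⧸ 𝔐) (q : Y →* Y₀) (p : Y →* K)
    (φ : Y →* Gam (Equiv.Perm O) O B) (J : Subgroup K) (e : ℕ) (g : O → B)
    (S : O → Subgroup B) (θ : O → B → ℂ) (m : O → ℕ) (M : O → B → ℕ → ℕ → ℂ) : ℚ :=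
  Nat.card J * Nat.card {η : J → ℂ // IsIrr η ∧ KerC p φ q J g θ η ∧
    (∃ d', HasDefect ℓ η d' ∧ e + d' = d + padicValNat ℓ (Nat.card q.ker)) ∧
    ∀ x, red 𝔐 (wt η (fun k => AS p φ g S θ m M (k : K) (fun y => conjInd (i (q y)) x)) /
      Nat.card q.ker) = ω x}

/-- The character `χ` of the stabilizer of `τ` in `Y` factors through the stabilizer in `Y₀`, with
the given defect and central function on `X`. -/
def PQ [Fintype Y₀] (𝔐 : Ideal (integralClosure ℤ ℂ)) (ℓ d : ℕ) (j : (O → G) →* Y)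
    (q : Y →* Y₀) (j₀ : (O → G) →* Y₀) (i : Y₀ →* X) (ω : X → (integralClosure ℤ ℂ) ⧸ 𝔐)
    (τ : Finset (Subgroup (O → G))) (χ : YS j τ → ℂ) : Prop :=
  ∃ ψ : YS j₀ τ → ℂ, (∀ (y : YS j τ) (hy : q y ∈ YS j₀ τ), χ y = ψ ⟨q y, hy⟩) ∧
    HasDefect ℓ ψ d ∧ ∀ x, cen 𝔐 (i.comp (YS j₀ τ).subtype) ψ x = ω x

/-- The weights of the characters counted by `NNW` are integral. -/
def IntW [Fintype Y] [Fintype O] [DecidableEq O] [Finite K]
    (i : Y₀ →* X) (q : Y →* Y₀) (p : Y →* K)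
    (φ : Y →* Gam (Equiv.Perm O) O B) (J : Subgroup K) (g : O → B)
    (S : O → Subgroup B) (θ : O → B → ℂ) (m : O → ℕ) (M : O → B → ℕ → ℕ → ℂ) : Prop :=
  ∀ η : J → ℂ, IsIrr η → KerC p φ q J g θ η → ∀ x : X,
    IsIntegral ℤ (wt η (fun k => AS p φ g S θ m M (k : K) (fun y => conjInd (i (q y)) x)) /
      Nat.card q.ker)

end Glob

end Pool.Agent.RCW
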