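import Mathlib
import Pool.Agent.RCW.Defs
import Pool.Agent.RCB.St5

/-!
# Refined inner theorem: statements (part C)

These are the statements of `DPV/StmtsV.lean` and `DPW/StmtsWA.lean` for the refined classes
(`cgW`, `betW`, `btsW`, `VSW`, `gTW`, `trW`, `NNW` instead of `cgT`, `bet`, `bts`, `VS`, `gT`, `trL`,
`NNR`). MOST MODULES ARE ADAPTATIONS: copy the file named in the doc string and change it.
Module `NAME` is the file `Pool/Agent/RCW/NAME.lean` with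
`theorem NAME_thm : Stmt_NAME` in `namespace Pool.Agent.RCW` (helper lemmas in
`namespace Pool.Agent.RCW.NAME`). A module may use the other statements of this file as
hypotheses `(h1 : Stmt_OTHER)` as listed under USES, and all the proved theorems of `DP`, `DPC`,
`DPV`, `DPW`, `DPX`, `RCB` directly (import the single files, for example
`Pool.Agent.DPV.EXTV` gives `EXTV_thm : Stmt_EXTV`).
-/

namespace Pool.Agent.RCW

open Pool.Agent.DP Pool.Agent.DPV Pool.Agent.DPW Pool.Agent.Lib_helper13 Representation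
open Pool.Agent.Lib_helper13.Dade (pCore DadeHolds dadeSum)

/-! ### Classes -/

/-- RCW_BETW: twists of the refined central functions; the class is determined by one member;
truncation.
Adapt `DPV/BETV.lean` (219 lines). (1) first component: BETV (1); second: for `x ∈ W`
`f x * lam (ρ x) / (f 1 * lam (ρ 1))`, `lam 1 = 1`. (2), (3): as in BETV, with (1); a truncated
function `trn ρ L' f` vanishes outside of the inverse image of `L'`, so both components do.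
(`DPV.EXTV_thm`, `DP.CGT_thm` give the first components.) -/
def Stmt_BETW : Prop :=
  ∀ (G B C : Type) [Group G] [Fintype G] [Group B] [Fintype B] [Group C]
    (𝔐 : Ideal (integralClosure ℤ ℂ))
    (ι : G →* B) (κ : B →* MulAut G) (ρ : B →* C), LocV ι κ ρ → ∀ W : Subgroup B, WC ι W →
    (∀ (S : Subgroup B) (f : B → ℂ), IrrOn S f → IrrOn (S.comap ι) (fun h => f (ι h)) →
      ∀ lam : C → ℂ, LinOn (S.map ρ) lam → ∀ x : B,
        cgW 𝔐 ι W (fun y => f y * lam (ρ y)) x =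
          (red 𝔐 (lam (ρ x)) * (cgW 𝔐 ι W f x).1, lam (ρ x) * (cgW 𝔐 ι W f x).2)) ∧
    (∀ (σ σ' : Finset (Subgroup G)) (ψ ψ' : G → ℂ), IrrOn (stb σ) ψ → IrrOn (stb σ') ψ' →
      ∀ L : Subgroup C, L ≤ (Stx κ σ ψ).map ρ → L ≤ (Stx κ σ' ψ').map ρ →
      ∀ f f' : B → ℂ, ExtL ι κ ρ σ ψ L f → ExtL ι κ ρ σ' ψ' L f' →
      cgW 𝔐 ι W f = cgW 𝔐 ι W f' → betW 𝔐 ι κ ρ W σ ψ L = betW 𝔐 ι κ ρ W σ' ψ' L) ∧
    ∀ (σ : Finset (Subgroup G)) (ψ : G → ℂ), IrrOn (stb σ) ψ → ∀ L' L : Subgroup C, L' ≤ L →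
      L ≤ (Stx κ σ ψ).map ρ → betW 𝔐 ι κ ρ W σ ψ L' = trW 𝔐 ρ L' (betW 𝔐 ι κ ρ W σ ψ L)

/-- RCW_TRW: transport of the refined classes.
Adapt the last clause of `DPV/TRV.lean` (155 lines): `TRV_thm` gives that `f ↦ (x ↦ f (g⁻¹ * x * g))`
maps extensions to extensions (apply it also to `g⁻¹`, `trB.inv`). First component: the last part
of `CGT` (`cgT (fun x => f (g⁻¹ * x * g)) x = cgT f (g⁻¹ * x * g)`); second: `W` is normal. -/
def Stmt_TRW : Prop :=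
  ∀ (O G B C : Type) [Fintype O] [DecidableEq O] [Group G] [Fintype G] [Group B] [Fintype B]
    [Group C] (𝔐 : Ideal (integralClosure ℤ ℂ)) (ℓ : ℕ) [Fact ℓ.Prime]
    (ι : G →* B) (κ : B →* MulAut G) (ρ : B →* C), LocV ι κ ρ → ∀ W : Subgroup B, WC ι W →
    ∀ (τ : Finset (Subgroup (O → G))) (θ : O → G → ℂ), (∀ o, IrrOn (stb (comp τ o)) (θ o)) →
    ∀ a b g, trB κ τ θ a b g → ∀ L : Subgroup C,
        betW 𝔐 ι κ ρ W (comp τ b) (θ b) (L.map (MulAut.conj (ρ g)).toMonoidHom) =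
          (fun b0 x => b0 (g⁻¹ * x * g)) '' betW 𝔐 ι κ ρ W (comp τ a) (θ a) L

/-! ### The count for one character of the base group -/

/-- RCW_ASW: the weighted sums above `p v * k`, `v` in the kernel of `q`.
Proof. Substitute `y ↦ v * y` in the sum `AS (p v * k) F`. Since `(φ v).right = 1`,
`zz φ g (v * y) o = zz φ g v o * zz φ g y o` (`PERCV.zz_mul`), `z o := zz φ g v o` is
`(g o)⁻¹ * (φ v).left o * g o ∈ W` and `ρ (z o) ∈ (S o).map ρ = U o` (`adp`), so `z o ∈ S o` by the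
hypothesis on `W`. `z o` commutes with `ι n` (`WC`: the commutator is in `W` and in the normal
subgroup `ι.range`), the restriction of the representation with matrix coefficients `M o` (`md`)
to `(S o).comap ι` is irreducible (`res`), so `M o (z o * s) a b = (θ o (z o) / θ o 1) * M o s a b` for
`s ∈ S o` (Schur). Hence `TH m M k (fun o => z o * n o) = (∏ o, θ o (z o) / θ o 1) * TH m M k n` for all
`n o ∈ S o` (unfold `TH`: it is multilinear in the `M o (n o)`). The scalars are not zero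
(`z o` has finite order). -/
def Stmt_ASW : Prop :=
  ∀ (O G B C Y K : Type) [Fintype O] [DecidableEq O] [Group G] [Fintype G] [Group B] [Fintype B]
    [Group C] [Group Y] [Fintype Y] [Group K] (ℓ : ℕ)
    (ι : G →* B) (κ : B →* MulAut G) (ρ : B →* C), LocV ι κ ρ → ∀ W : Subgroup B, WC ι W →
    ∀ (j : (O → G) →* Y) (p : Y →* K) (φ : Y →* Gam (Equiv.Perm O) O B), ExtS ι κ j p φ →
    ∀ (J : Subgroup K) (U : O → Subgroup C) (g : O → B) (S : O → Subgroup B)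
      (θ : O → B → ℂ) (m : O → ℕ) (M : O → B → ℕ → ℕ → ℂ), SDV ℓ ι ρ p φ J U g S θ m M →
      (∀ o, ∀ w ∈ W, ρ w ∈ U o → w ∈ S o) →
    ∀ v : Y, (φ v).right = 1 → (∀ o, (φ v).left o ∈ W) → p v ∈ J →
      (∏ o, (θ o (zz φ g v o) / θ o 1)) ≠ 0 ∧
      ∀ k ∈ J, ∀ F : Y → ℂ, (∀ y, F (v * y) = F y) →
        AS p φ g S θ m M (p v * k) F =
          (∏ o, (θ o (zz φ g v o) / θ o 1)) * AS p φ g S θ m M k F

/-- RCW_PERCW: the extension to the inertia group; its scalars on the kernel of `q`.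
Proof. Copy `DPV/PERCV.lean` (it is proved from `PERAV_thm`, `REPV_thm`, `TRV_thm`): the `E`
constructed there is `E s = TH m M (φ s).right (zz φ g s)`. New: let `q v = 1`. `v ∈ YS j τ` (`sta`),
`v` commutes with `j n` (`v * j n * v⁻¹ = j n'` by normality, apply `q`: `j₀ n' = j₀ n`), so
`jS a` and `v` commute, `v` is in the inertia group, and `E (v * s) * E 1 = E v * E s` (Schur:
`E` restricted to `jS` is irreducible). `(φ v).right = 1`, so `E v = TH m M 1 (zz φ g v)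
= ∏ o, f o (zz φ g v o)` (`TENS_thm.2`, last clause; `zz φ g v o ∈ S o` by the first part). -/
def Stmt_PERCW : Prop :=
  ∀ (O G B C Y K Y₀ : Type) [Fintype O] [DecidableEq O] [Group G] [Fintype G] [Group B]
    [Fintype B] [Group C] [Group Y] [Fintype Y] [Group K] [Finite K] [Group Y₀] [Fintype Y₀]
    (ℓ : ℕ) [Fact ℓ.Prime]
    (ι : G →* B) (κ : B →* MulAut G) (ρ : B →* C), LocV ι κ ρ → ∀ W : Subgroup B, WC ι W →
    ∀ (j : (O → G) →* Y) (p : Y →* K) (φ : Y →* Gam (Equiv.Perm O) O B)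
      (h : ExtS ι κ j p φ) (q : Y →* Y₀) (j₀ : (O → G) →* Y₀), CovY φ W j q j₀ →
    ∀ τ ∈ ClCh O G ℓ, ∀ θ : O → G → ℂ, (∀ o, IrrOn (stb (comp τ o)) (θ o)) →
    ∀ (r : O → O) (t : O → Y) (g : O → B) (S : O → Subgroup B) (f : O → B → ℂ) (m : O → ℕ)
      (M : O → B → ℕ → ℕ → ℂ), StdV ℓ ι κ ρ p φ τ θ r t g S f m M →
      ∃ E : inert (cS h.cl τ) (fun a => ∏ o, θ o ((a : O → G) o)) → ℂ, IsChr E ∧
        (∀ a (ha : jS h.cl τ a ∈ inert (cS h.cl τ) (fun a => ∏ o, θ o ((a : O → G) o))),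
          E ⟨jS h.cl τ a, ha⟩ = ∏ o, θ o ((a : O → G) o)) ∧
        (∀ η : KB κ p φ τ θ → ℂ, IsIrr η → ∀ F : Y → ℂ, (∀ y x, F (y * x * y⁻¹) = F x) →
          wt (fun s => E s * ext0 η (pS p j τ s)) (fun s => F ((s : YS j τ) : Y)) =
            wt η (fun k => AS p φ g S f m M (k : K) F)) ∧
        ∀ v : inert (cS h.cl τ) (fun a => ∏ o, θ o ((a : O → G) o)), q ((v : YS j τ) : Y) = 1 →
          E v / E 1 = ∏ o, (f o (zz φ g ((v : YS j τ) : Y) o) / f o 1) ∧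
          ∀ s, E (v * s) * E 1 = E v * E s

/-- RCW_PERDW: the count for one character of the base group.
USES PERCW. Adapt `DPV/PERDV.lean` (157 lines). Let `V = q.ker`, `I` the inertia group,
`Ψ s = E s * ext0 η (pS p j τ s)`, irreducible on `I` (`GALL_thm`). All `v ∈ V` are in `YS j τ` and in
`I` (`V` centralizes `j.range`, see PERCW). (1) `KerC η` holds iff `Ψ (v * s) = Ψ s` for all
`v ∈ V`, `s ∈ I`: `Ψ (v * s) = (E v / E 1) * E s * η (p v * p s)`; given `k ∈ KB` some `s ∈ I` over `k`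
has `E s ≠ 0` (`COSET_thm`, `DP/Stmts.lean`; `I.map (pS p j τ) = KB` is in `PERAV`). (2) `IntW`: if
`KerC η` then `Ψ = ψ ∘ q` for an irreducible character `ψ` of `q (I) ≤ Y₀` (a representation
affording `Ψ` is trivial on `V`), so `wt Ψ (fun s => F (q s)) / |V| = wt ψ F` is integral
(`isIntegral_wt`) for a class function `F` with integral values; combine with the `wt` formula of
PERCW (`F y = conjInd (i (q y)) x` is a class function of `Y`). (3) `PQ (indc I Ψ)` iff `KerC η`, the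
defect condition and the condition on the weights: `indc I Ψ` is constant on the cosets of `V`
iff `Ψ` is (`V` is normal; `Ψ` is a constituent of the restriction of `indc I Ψ`; if
`χ v = χ 1` then `χ (v * y) = χ y`). If it is `ψ ∘ q` then `|YS j₀ τ| * |V| = |YS j τ|`,
`wt ψ F = wt (ψ ∘ q) (F ∘ q) / |V|`, `HasDefect ℓ ψ d ↔ HasDefect ℓ (ψ ∘ q) (d + v_ℓ |V|)`, and the rest is
the calculation of PERDV. -/
def Stmt_PERDW : Prop :=
  ∀ (O G B C Y K Y₀ X : Type) [Fintype O] [DecidableEq O] [Group G] [Fintype G] [Group B]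
    [Fintype B] [Group C] [Group Y] [Fintype Y] [Group K] [Finite K] [Group Y₀] [Fintype Y₀]
    [Group X] (𝔐 : Ideal (integralClosure ℤ ℂ)) (ℓ : ℕ) [Fact ℓ.Prime]
    (ι : G →* B) (κ : B →* MulAut G) (ρ : B →* C), LocV ι κ ρ → ∀ W : Subgroup B, WC ι W →
    ∀ (j : (O → G) →* Y) (p : Y →* K) (φ : Y →* Gam (Equiv.Perm O) O B)
      (h : ExtS ι κ j p φ) (q : Y →* Y₀) (j₀ : (O → G) →* Y₀), CovY φ W j q j₀ →
    ∀ τ ∈ ClCh O G ℓ, ∀ θ : O → G → ℂ, (∀ o, IrrOn (stb (comp τ o)) (θ o)) →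
    ∀ (r : O → O) (t : O → Y) (g : O → B) (S : O → Subgroup B) (f : O → B → ℂ) (m : O → ℕ)
      (M : O → B → ℕ → ℕ → ℂ), StdV ℓ ι κ ρ p φ τ θ r t g S f m M →
      ∃ E : inert (cS h.cl τ) (fun a => ∏ o, θ o ((a : O → G) o)) → ℂ, IsChr E ∧
        (∀ a (ha : jS h.cl τ a ∈ inert (cS h.cl τ) (fun a => ∏ o, θ o ((a : O → G) o))),
          E ⟨jS h.cl τ a, ha⟩ = ∏ o, θ o ((a : O → G) o)) ∧
        ∀ i : Y₀ →* X, IntW i q p φ (KB κ p φ τ θ) g S f m M ∧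
        ∀ (d : ℕ) (ω : X → (integralClosure ℤ ℂ) ⧸ 𝔐),
          (Nat.card (inert (cS h.cl τ) (fun a => ∏ o, θ o ((a : O → G) o))) : ℚ) *
            Nat.card {η : KB κ p φ τ θ → ℂ // IsIrr η ∧
              PQ 𝔐 ℓ d j q j₀ i ω τ (indc (inert (cS h.cl τ) (fun a => ∏ o, θ o ((a : O → G) o)))
                  (fun s => E s * ext0 η (pS p j τ s)))} =
            (∏ o, (Nat.card (stb (comp τ o)) : ℚ)) *
              NNW 𝔐 ℓ d i ω q p φ (KB κ p φ τ θ) (∑ o, df ℓ (stb (comp τ o)) (θ o)) g S f m M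

/-- RCW_TWW: twists of standard data.
Adapt `DPV/TWV.lean` (288 lines): the same bijection `η ↦ η * Λ⁻¹` (`Λ (p y) = ∏ o, lam o (ρ (zz φ g y o))`);
the first conclusion is the one of TWV. New: `KerC` for the twisted data and `η * Λ⁻¹` is `KerC` for
`η` (`∏ o, lam o (ρ (zz φ g v o)) = Λ (p v)`, `lam o 1 = 1`); the same for the integrality and the
quotients by `|q.ker|`. `F y = conjInd (i (q y)) x` in place of `conjInd (i y) x`. -/
def Stmt_TWW : Prop :=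
  ∀ (O G B C Y K Y₀ X : Type) [Fintype O] [DecidableEq O] [Group G] [Fintype G] [Group B]
    [Fintype B] [Group C] [Group Y] [Fintype Y] [Group K] [Finite K] [Group Y₀] [Group X]
    (𝔐 : Ideal (integralClosure ℤ ℂ)) (ℓ : ℕ)
    (ι : G →* B) (κ : B →* MulAut G) (ρ : B →* C), LocV ι κ ρ →
    ∀ (j : (O → G) →* Y) (p : Y →* K) (φ : Y →* Gam (Equiv.Perm O) O B), ExtS ι κ j p φ →
    ∀ q : Y →* Y₀,
    ∀ (J : Subgroup K) (U : O → Subgroup C) (g : O → B) (S : O → Subgroup B)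
      (θ : O → B → ℂ) (m : O → ℕ) (M : O → B → ℕ → ℕ → ℂ), SDV ℓ ι ρ p φ J U g S θ m M →
      (∀ v, q v = 1 → p v ∈ J) →
      ∀ lam : O → C → ℂ, (∀ o, LinOn (U o) (lam o)) →
      (∀ y, p y ∈ J → ∀ o, lam ((φ y).right • o) = lam o) →
      SDV ℓ ι ρ p φ J U g S (fun o x => θ o x * lam o (ρ x)) m
        (fun o x a b => M o x a b * lam o (ρ x)) ∧
      ∀ i : Y₀ →* X,
        (IntW i q p φ J g S θ m M → IntW i q p φ J g S (fun o x => θ o x * lam o (ρ x)) m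
          (fun o x a b => M o x a b * lam o (ρ x))) ∧
        ∀ (d e : ℕ) (ω : X → (integralClosure ℤ ℂ) ⧸ 𝔐),
        NNW 𝔐 ℓ d i ω q p φ J e g S (fun o x => θ o x * lam o (ρ x)) m
          (fun o x a b => M o x a b * lam o (ρ x)) =
        NNW 𝔐 ℓ d i ω q p φ J e g S θ m M

/-- RCW_MINW: the count depends only on the refined classes.
USES ASW, TWW. Adapt `DPV/MINV.lean` (108 lines): choose `lam o` as a function of
`(θ o, θ' o, U o)`, constant on the orbits of `J`; by TWW we may assume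
`cgW (θ' o) = cgW (θ o)`. Then both conditions in `NNW` agree for the same `η`. (i) `KerC`: for
`q v = 1`: `(φ v).right = 1`, `z := (g o)⁻¹ * (φ v).left o * g o ∈ W`; `ρ (g' o) = ρ (g o)` gives
`g' o = g o * ι n`, and `z` commutes with `ι n`, so `zz φ g' v o = z = zz φ g v o`, and the second
components of `cgW` at `z` are `θ' o z / θ' o 1 = θ o z / θ o 1`. (ii) the weights: for `k ∈ J` put
`A k = AS θ k F - AS θ' k F`, `F y = conjInd (i (q y)) x`: it is integral with `red (A k) = 0` (`ASV_thm`;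
first components of `cgW`), a class function on `J` (`ASCV_thm`), and by ASW
`A (p v * k) = s_v * A k`, while `KerC` says `s_v * η (p v * k) = η k`. `RCB.CSC` (proved: `CSC_thm` in
`RCB/CSC.lean`; group `J`, `W` = the image of `q.ker` in `J`, `τ (p v) = s_v⁻¹`; `p` is injective on
`q.ker` because of `CovY.inj`, `emb`) with the integrality from the two hypotheses `IntW`:
`red (wt η A / |q.ker|) = 0`. -/
def Stmt_MINW : Prop :=
  ∀ (O G B C Y K Y₀ X : Type) [Fintype O] [DecidableEq O] [Group G] [Fintype G] [Group B]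
    [Fintype B] [Group C] [Group Y] [Fintype Y] [Group K] [Finite K] [Group Y₀] [Group X]
    (𝔐 : Ideal (integralClosure ℤ ℂ)) (ℓ : ℕ) [Fact ℓ.Prime], 𝔐.IsMaximal →
    (ℓ : integralClosure ℤ ℂ) ∈ 𝔐 →
    ∀ (ι : G →* B) (κ : B →* MulAut G) (ρ : B →* C), LocV ι κ ρ → ∀ W : Subgroup B, WC ι W →
    ∀ (j : (O → G) →* Y) (p : Y →* K) (φ : Y →* Gam (Equiv.Perm O) O B), ExtS ι κ j p φ →
    ∀ (q : Y →* Y₀) (j₀ : (O → G) →* Y₀), CovY φ W j q j₀ →
    ∀ (J : Subgroup K) (U : O → Subgroup C) (g g' : O → B) (S S' : O → Subgroup B)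
      (θ θ' : O → B → ℂ) (m m' : O → ℕ) (M M' : O → B → ℕ → ℕ → ℂ),
      SDV ℓ ι ρ p φ J U g S θ m M → SDV ℓ ι ρ p φ J U g' S' θ' m' M' →
      (∀ v, q v = 1 → p v ∈ J) →
      (∀ o, ∀ w ∈ W, ρ w ∈ U o → w ∈ S o) → (∀ o, ∀ w ∈ W, ρ w ∈ U o → w ∈ S' o) →
      (∀ o, ρ (g' o) = ρ (g o)) →
      (∀ o, ∃ lam : C → ℂ, LinOn (U o) lam ∧ cgW 𝔐 ι W (θ' o) =
        cgW 𝔐 ι W (fun x => θ o x * lam (ρ x))) →
      ∀ i : Y₀ →* X, IntW i q p φ J g S θ m M → IntW i q p φ J g' S' θ' m' M' →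
      ∀ (d e : ℕ) (ω : X → (integralClosure ℤ ℂ) ⧸ 𝔐),
        NNW 𝔐 ℓ d i ω q p φ J e g' S' θ' m' M' = NNW 𝔐 ℓ d i ω q p φ J e g S θ m M

/-- RCW_CLIFFW: Clifford theory for the stabilizers of the chains of the base group.
USES PERDW, MINW, BETW. Adapt `DPV/CLIFFV.lean` (218 lines; there `Phi` is defined with `NNR`, here
with `NNW`; `PERAV_thm`, `PERBV_thm`, `EXTV_thm`, `REPV_thm` are proved in `DPV`). For standard data
(`StdV`) `S o = Stx .. ⊓ (vg ..).comap ρ` contains every `w ∈ W` with `ρ w ∈ U o` (`κ w = 1` as `w`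
commutes with `ι g`), and `p v ∈ KB` for `q v = 1` (`v` commutes with `j n`, so `v ∈ InY`: the left
components of `φ v` are in `W` and act trivially). The left side: the irreducible `χ` of
`YS j τ` with `PQ χ` correspond to the `ψ` counted by `cnt`, `χ = ψ ∘ q` (`q` maps `YS j τ` onto
`YS j₀ τ`). In the last clause the `ψ` is the one of `PQ`; its restriction to `stb τ` through
`jS h₀ τ` is the restriction of `χ` through `jS h.cl τ` (`q (j n) = j₀ n`). -/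
def Stmt_CLIFFW : Prop :=
  ∀ (O G B C Y K Y₀ K₀ X : Type) [Fintype O] [DecidableEq O] [Group G] [Fintype G] [Group B]
    [Fintype B] [Group C] [Group Y] [Fintype Y] [Group K] [Finite K] [Group Y₀] [Fintype Y₀]
    [Group K₀] [Group X]
    (𝔐 : Ideal (integralClosure ℤ ℂ)) (ℓ : ℕ) [Fact ℓ.Prime], 𝔐.IsMaximal →
    (ℓ : integralClosure ℤ ℂ) ∈ 𝔐 →
    ∀ (ι : G →* B) (κ : B →* MulAut G) (ρ : B →* C), LocV ι κ ρ → ∀ W : Subgroup B, WC ι W →
    ∀ (j : (O → G) →* Y) (p : Y →* K) (φ : Y →* Gam (Equiv.Perm O) O B), ExtS ι κ j p φ →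
    ∀ (q : Y →* Y₀) (j₀ : (O → G) →* Y₀), CovY φ W j q j₀ →
    ∀ (c₀ : Y₀ →* MulAut (O → G)) (p₀ : Y₀ →* K₀) (h₀ : ClG j₀ c₀ p₀)
      (d : ℕ) (i : Y₀ →* X) (ω : X → (integralClosure ℤ ℂ) ⧸ 𝔐),
    ∃ Φ : Subgroup K → ℕ → (O → Set (B → ((integralClosure ℤ ℂ) ⧸ 𝔐) × ℂ)) → ℚ,
      (∀ τ ∈ ClCh O G ℓ,
        (Nat.card (YS j τ) : ℚ) * cnt 𝔐 ℓ d (i.comp (YS j₀ τ).subtype) ω =
        (∏ o, (Nat.card (stb (comp τ o)) : ℚ)) *
          ∑ θ ∈ Fintype.piFinset (fun o => irrOn (stb (comp τ o))),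
            Φ (KB κ p φ τ θ) (∑ o, df ℓ (stb (comp τ o)) (θ o))
              (btsW 𝔐 ι κ ρ W p φ τ θ (KB κ p φ τ θ))) ∧
      ∀ J e β, Φ J e β ≠ 0 → ∃ τ ∈ ClCh O G ℓ, ∃ θ : O → G → ℂ,
        (∀ o, IrrOn (stb (comp τ o)) (θ o)) ∧ btsW 𝔐 ι κ ρ W p φ τ θ J = β ∧
        ∃ ψ : YS j₀ τ → ℂ, IsIrr ψ ∧ (∀ x, cen 𝔐 (i.comp (YS j₀ τ).subtype) ψ x = ω x) ∧
          ip (resj (jS h₀ τ) ψ) (fun a => ∏ o, θ o ((a : O → G) o)) ≠ 0

/-! ### Combinatorics -/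

/-- RCW_LIFTW: the refined classes at all coordinates from those at the representatives.
USES TRW. Adapt the second claim of `DPV/LIFTV.lean` (92 lines; `REPV_thm`). -/
def Stmt_LIFTW : Prop :=
  ∀ (O G B C Y K : Type) [Fintype O] [DecidableEq O] [Group G] [Fintype G] [Group B] [Fintype B]
    [Group C] [Group Y] [Fintype Y] [Group K] [Finite K]
    (𝔐 : Ideal (integralClosure ℤ ℂ)) (ℓ : ℕ) [Fact ℓ.Prime]
    (ι : G →* B) (κ : B →* MulAut G) (ρ : B →* C), LocV ι κ ρ → ∀ W : Subgroup B, WC ι W →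
    ∀ (j : (O → G) →* Y) (p : Y →* K) (φ : Y →* Gam (Equiv.Perm O) O B), ExtS ι κ j p φ →
    ∀ (J : Subgroup K) (r : O → O) (t : O → Y), RepJ p φ J r t →
    ∀ τ ∈ ClCh O G ℓ, ∀ θ : O → G → ℂ, (∀ o, IrrOn (stb (comp τ o)) (θ o)) →
    ∀ g : O → B, (∀ o, ρ (g o) = ρ ((φ (t o)).left o)) → (∀ o, trB κ τ θ (r o) o (g o)) →
      ∀ o, btsW 𝔐 ι κ ρ W p φ τ θ J o =
        (fun b0 x => b0 (((φ (t o)).left o)⁻¹ * x * (φ (t o)).left o)) ''
          btsW 𝔐 ι κ ρ W p φ τ θ J (r o)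

open Classical in
/-- RCW_TJW: the sum over the data whose group contains `J` vanishes.
USES LIFTW, TRW. Adapt `DPW/TJP.lean` (245 lines): it uses `LIFTV`, `CNTV`, `REPV`, `TRV` (the first
claim of LIFTV, CNTV, REPV, TRV do not contain classes and are used as they are). -/
def Stmt_TJW : Prop :=
  ∀ (O G B C Y K : Type) [Fintype O] [DecidableEq O] [Group G] [Fintype G] [Group B] [Fintype B]
    [Group C] [Group Y] [Fintype Y] [Group K] [Finite K]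
    (𝔐 : Ideal (integralClosure ℤ ℂ)) (ℓ : ℕ) [Fact ℓ.Prime], 𝔐.IsMaximal →
    (ℓ : integralClosure ℤ ℂ) ∈ 𝔐 →
    ∀ (ι : G →* B) (κ : B →* MulAut G) (ρ : B →* C), LocV ι κ ρ → ∀ W : Subgroup B, WC ι W →
    ∀ Pr : (G → (integralClosure ℤ ℂ) ⧸ 𝔐) → Prop,
      (∀ b ω, Pr (fun g => ω (κ b g)) → Pr ω) →
    (∀ (L : Subgroup C) (β : Set (B → ((integralClosure ℤ ℂ) ⧸ 𝔐) × ℂ)) (e : ℕ),
      gTW ι Pr β → VSW 𝔐 ℓ ι κ ρ W L β e = 0) →
    ∀ (j : (O → G) →* Y) (p : Y →* K) (φ : Y →* Gam (Equiv.Perm O) O B), ExtS ι κ j p φ →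
    ∀ (J : Subgroup K) (e : ℕ) (β : O → Set (B → ((integralClosure ℤ ℂ) ⧸ 𝔐) × ℂ)),
      (∃ o, gTW ι Pr (β o)) →
      ∑ τ ∈ ClCh O G ℓ, (-1 : ℚ) ^ τ.card * ((∏ o, (Nat.card (stb (comp τ o)) : ℚ)) *
        ∑ θ ∈ Fintype.piFinset (fun o => irrOn (stb (comp τ o))),
          (if J ≤ KB κ p φ τ θ ∧ ∑ o, df ℓ (stb (comp τ o)) (θ o) = e ∧
            btsW 𝔐 ι κ ρ W p φ τ θ J = β then 1 else 0)) = 0

open Classical in
/-- RCW_COMBW: the vanishing of the combinatorial sum.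
USES BETW. Adapt `DPW/COMBP.lean` (80 lines; `trW` for `trL`; `PERAV_thm` is proved in `DPV`). -/
def Stmt_COMBW : Prop :=
  ∀ (O G B C Y K : Type) [Fintype O] [DecidableEq O] [Group G] [Fintype G] [Group B] [Fintype B]
    [Group C] [Group Y] [Fintype Y] [Group K] [Finite K]
    (𝔐 : Ideal (integralClosure ℤ ℂ)) (ℓ : ℕ) [Fact ℓ.Prime]
    (ι : G →* B) (κ : B →* MulAut G) (ρ : B →* C), LocV ι κ ρ → ∀ W : Subgroup B, WC ι W →
    ∀ Pr : (G → (integralClosure ℤ ℂ) ⧸ 𝔐) → Prop,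
    ∀ (j : (O → G) →* Y) (p : Y →* K) (φ : Y →* Gam (Equiv.Perm O) O B), ExtS ι κ j p φ →
    (∀ (J : Subgroup K) (e : ℕ) (β : O → Set (B → ((integralClosure ℤ ℂ) ⧸ 𝔐) × ℂ)),
      (∃ o, gTW ι Pr (β o)) →
      ∑ τ ∈ ClCh O G ℓ, (-1 : ℚ) ^ τ.card * ((∏ o, (Nat.card (stb (comp τ o)) : ℚ)) *
        ∑ θ ∈ Fintype.piFinset (fun o => irrOn (stb (comp τ o))),
          (if J ≤ KB κ p φ τ θ ∧ ∑ o, df ℓ (stb (comp τ o)) (θ o) = e ∧
            btsW 𝔐 ι κ ρ W p φ τ θ J = β then 1 else 0)) = 0) →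
    ∀ Φ : Subgroup K → ℕ → (O → Set (B → ((integralClosure ℤ ℂ) ⧸ 𝔐) × ℂ)) → ℚ,
      (∀ J e β, Φ J e β ≠ 0 → ∃ o, gTW ι Pr (β o)) →
      ∑ τ ∈ ClCh O G ℓ, (-1 : ℚ) ^ τ.card * ((∏ o, (Nat.card (stb (comp τ o)) : ℚ)) *
        ∑ θ ∈ Fintype.piFinset (fun o => irrOn (stb (comp τ o))),
          Φ (KB κ p φ τ θ) (∑ o, df ℓ (stb (comp τ o)) (θ o))
            (btsW 𝔐 ι κ ρ W p φ τ θ (KB κ p φ τ θ))) = 0

/-- RCW_INNW: the inner theorem with a covering group.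
USES CLIFFW, TJW, COMBW. Adapt `DPW/INNP.lean` (51 lines): `CLOSEDR_thm` for `Y₀`? no, for the group
`Y` and the function `S ↦ |S| * cnt (i.comp (S.map q).subtype)`: since `YS j τ` is the inverse image
of `YS j₀ τ` (`CovY.sta`, `surj`), `(YS j τ).map q = YS j₀ τ` and `|YS j τ| = |q.ker| * |YS j₀ τ|`. So the
sum of the conclusion, multiplied by `|q.ker|`, is the sum of `|YS j τ| * cnt (i.comp (YS j₀ τ).subtype)`
over all chains, which is the sum over `ClCh` (CLOSEDR). Then as in INNP (`gTW` of the class from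
`Pr (cg θ)`: the first component of `cgW f (ι g)` is `cgT f (ι g) = cg θ g`). -/
def Stmt_INNW : Prop :=
  ∀ (O G B C Y K Y₀ K₀ X : Type) [Fintype O] [DecidableEq O] [Group G] [Fintype G] [Group B]
    [Fintype B] [Group C] [Group Y] [Fintype Y] [Group K] [Finite K] [Group Y₀] [Fintype Y₀]
    [Group K₀] [Group X]
    (𝔐 : Ideal (integralClosure ℤ ℂ)) (ℓ : ℕ) [Fact ℓ.Prime], 𝔐.IsMaximal →
    (ℓ : integralClosure ℤ ℂ) ∈ 𝔐 →
    ∀ (ι : G →* B) (κ : B →* MulAut G) (ρ : B →* C), LocV ι κ ρ → ∀ W : Subgroup B, WC ι W →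
    ∀ Pr : (G → (integralClosure ℤ ℂ) ⧸ 𝔐) → Prop,
      (∀ b ω, Pr (fun g => ω (κ b g)) → Pr ω) →
    (∀ (L : Subgroup C) (β : Set (B → ((integralClosure ℤ ℂ) ⧸ 𝔐) × ℂ)) (e : ℕ),
      gTW ι Pr β → VSW 𝔐 ℓ ι κ ρ W L β e = 0) →
    ∀ (j : (O → G) →* Y) (p : Y →* K) (φ : Y →* Gam (Equiv.Perm O) O B), ExtS ι κ j p φ →
    ∀ (q : Y →* Y₀) (j₀ : (O → G) →* Y₀), CovY φ W j q j₀ →
    ∀ (c₀ : Y₀ →* MulAut (O → G)) (p₀ : Y₀ →* K₀) (h₀ : ClG j₀ c₀ p₀)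
      (i : Y₀ →* X) (ω : X → (integralClosure ℤ ℂ) ⧸ 𝔐),
      (∀ τ ∈ ClCh O G ℓ, ∀ θ : O → G → ℂ, (∀ o, IrrOn (stb (comp τ o)) (θ o)) →
        ∀ ψ : YS j₀ τ → ℂ, IsIrr ψ →
        ip (resj (jS h₀ τ) ψ) (fun a => ∏ o, θ o ((a : O → G) o)) ≠ 0 →
        (∀ x, cen 𝔐 (i.comp (YS j₀ τ).subtype) ψ x = ω x) → ∃ o, Pr (fun g => cg 𝔐 (θ o) g)) →
      ∀ d : ℕ, ∑ τ ∈ Ch ℓ (⊥ : Subgroup (O → G)), (-1 : ℚ) ^ τ.card *
        ((Nat.card (YS j₀ τ) : ℚ) * cnt 𝔐 ℓ d (i.comp (YS j₀ τ).subtype) ω) = 0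

/-- RCW_HATYW: the covering group of `Y₀`.
Adapt `DPV/HATY.lean` (234 lines), without the prime: `Y = CY π φ₀ ≤ Y₀ × Gam (Perm O) O B'`,
`j n = (j₀ n, inl (ι' ∘ n))`, `φ` the second projection, `q` the first. An element of the kernel of
`q` is `(1, z)` with `z.right = 1` and `π (z.left o) = 1`. -/
def Stmt_HATYW : Prop :=
  ∀ (O G B C B' C' Y₀ K₀ : Type) [Fintype O] [DecidableEq O] [Group G] [Fintype G] [Group B]
    [Fintype B] [Group C] [Group B'] [Fintype B'] [Group C'] [Group Y₀] [Fintype Y₀] [Group K₀]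
    (ι : G →* B) (κ : B →* MulAut G) (ρ : B →* C), LocN ι κ ρ →
    ∀ (ι' : G →* B') (κ' : B' →* MulAut G) (ρ' : B' →* C') (π : B' →* B), LocN ι' κ' ρ' →
    Function.Surjective π → (∀ g, π (ι' g) = ι g) → κ' = κ.comp π →
    ∀ (j₀ : (O → G) →* Y₀) (p₀ : Y₀ →* K₀) (φ₀ : Y₀ →* Gam (Equiv.Perm O) O B),
      ExtS ι κ j₀ p₀ φ₀ →
    ∃ (Y K : Type) (_ : Group Y) (_ : Fintype Y) (_ : Group K) (_ : Finite K)
      (j : (O → G) →* Y) (p : Y →* K) (φ : Y →* Gam (Equiv.Perm O) O B')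
      (q : Y →* Y₀), ExtS ι' κ' j p φ ∧ CovY φ π.ker j q j₀

/-- RCW_HATW: the inner theorem for a group with an arbitrary covering group with extendible
characters.
USES INNW, HATYW. As `DPW/HATIP.lean` but shorter: `WC ι' π.ker` (`π (ι' g) = ι g`, `ι` injective);
`HATYW`, `INNW` with `h₀ = hE.cl`. -/
def Stmt_HATW : Prop :=
  ∀ (O G B C B' C' Y K X : Type) [Fintype O] [DecidableEq O] [Group G] [Fintype G] [Group B]
    [Fintype B] [Group C] [Group B'] [Fintype B'] [Group C'] [Group Y] [Fintype Y] [Group K]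
    [Group X] (𝔐 : Ideal (integralClosure ℤ ℂ)) (ℓ : ℕ) [Fact ℓ.Prime], 𝔐.IsMaximal →
    (ℓ : integralClosure ℤ ℂ) ∈ 𝔐 →
    ∀ (ι : G →* B) (κ : B →* MulAut G) (ρ : B →* C), LocN ι κ ρ →
    ∀ (ι' : G →* B') (κ' : B' →* MulAut G) (ρ' : B' →* C') (π : B' →* B), LocV ι' κ' ρ' →
    Function.Surjective π → (∀ g, π (ι' g) = ι g) → κ' = κ.comp π →
    ∀ Pr : (G → (integralClosure ℤ ℂ) ⧸ 𝔐) → Prop,
      (∀ b ω, Pr (fun g => ω (κ b g)) → Pr ω) →
    (∀ (L : Subgroup C') (β : Set (B' → ((integralClosure ℤ ℂ) ⧸ 𝔐) × ℂ)) (e : ℕ),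
      gTW ι' Pr β → VSW 𝔐 ℓ ι' κ' ρ' π.ker L β e = 0) →
    ∀ (j : (O → G) →* Y) (p : Y →* K) (φ : Y →* Gam (Equiv.Perm O) O B)
      (h : ExtS ι κ j p φ),
    ∀ (i : Y →* X) (ω : X → (integralClosure ℤ ℂ) ⧸ 𝔐),
      (∀ τ ∈ ClCh O G ℓ, ∀ θ : O → G → ℂ, (∀ o, IrrOn (stb (comp τ o)) (θ o)) →
        ∀ ψ : YS j τ → ℂ, IsIrr ψ →
        ip (resj (jS h.cl τ) ψ) (fun a => ∏ o, θ o ((a : O → G) o)) ≠ 0 →
        (∀ x, cen 𝔐 (i.comp (YS j τ).subtype) ψ x = ω x) → ∃ o, Pr (fun g => cg 𝔐 (θ o) g)) →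
      ∀ d : ℕ, ∑ τ ∈ Ch ℓ (⊥ : Subgroup (O → G)), (-1 : ℚ) ^ τ.card *
        ((Nat.card (YS j τ) : ℚ) * cnt 𝔐 ℓ d (i.comp (YS j τ).subtype) ω) = 0

end Pool.Agent.RCW
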