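import Mathlib
import Pool.Agent.RCW.StC
import Pool.Agent.DP.COSET
import Pool.Agent.DPV.PERCV

/-!
# ASW: the weighted sums above `p v * k`, `v` in the kernel of the covering
-/

namespace Pool.Agent.RCW

open Pool.Agent.DP Pool.Agent.DPV Pool.Agent.DPW Pool.Agent.Lib_helper13 Representation

namespace ASW

open Finset

section Schur

/-- the representation with the given matrix coefficients -/
noncomputable def rp {H : Type} [Group H] (m : ℕ) (R : H → ℕ → ℕ → ℂ)
    (h1 : ∀ i < m, ∀ j < m, R 1 i j = if i = j then 1 else 0)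
    (h2 : ∀ s t, ∀ i < m, ∀ j < m, R (s * t) i j = ∑ k ∈ Finset.range m, R s i k * R t k j) :
    Representation ℂ H (Fin m → ℂ) where
  toFun s := Matrix.toLin' (Matrix.of fun i j : Fin m => R s i j)
  map_one' := by
    have h : (Matrix.of fun i j : Fin m => R 1 i j) = (1 : Matrix (Fin m) (Fin m) ℂ) := by
      ext i j
      rw [Matrix.of_apply, h1 i i.2 j j.2, Matrix.one_apply]
      simp [Fin.ext_iff]
    rw [h, Matrix.toLin'_one]
    rfl
  map_mul' s t := by
    have h : (Matrix.of fun i j : Fin m => R (s * t) i j) =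
        (Matrix.of fun i j : Fin m => R s i j) * (Matrix.of fun i j : Fin m => R t i j) := by
      ext i j
      rw [Matrix.mul_apply, Matrix.of_apply, h2 s t i i.2 j j.2, Finset.sum_range]
      rfl
    rw [h, Matrix.toLin'_mul]
    rfl

theorem rp_char {H : Type} [Group H] (m : ℕ) (R : H → ℕ → ℕ → ℂ)
    (h1 : ∀ i < m, ∀ j < m, R 1 i j = if i = j then 1 else 0)
    (h2 : ∀ s t, ∀ i < m, ∀ j < m, R (s * t) i j = ∑ k ∈ Finset.range m, R s i k * R t k j)
    (s : H) : (rp m R h1 h2).character s = ∑ i ∈ Finset.range m, R s i i := by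
  change LinearMap.trace ℂ (Fin m → ℂ) (Matrix.toLin' (Matrix.of fun i j : Fin m => R s i j)) = _
  rw [LinearMap.trace_eq_matrix_trace ℂ (Pi.basisFun ℂ (Fin m)), ← Matrix.toLin_eq_toLin',
    LinearMap.toMatrix_toLin, Matrix.trace, Finset.sum_range]
  rfl

variable {G B : Type} [Group G] [Fintype G] [Group B]

/-- Schur: an element which commutes with the image of `G` acts by a scalar. -/
theorem schur {ι : G →* B} {S : Subgroup B} {θ : B → ℂ} {m : ℕ} {M : B → ℕ → ℕ → ℂ}
    (hMD : MD S θ m M) (hres : IrrOn (S.comap ι) (fun h => θ (ι h))) {z : B} (hz : z ∈ S)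
    (hc : ∀ h, z * ι h = ι h * z) :
    0 < m ∧ ∀ i < m, ∀ j < m, M z i j = if i = j then θ z / θ 1 else 0 := by
  classical
  have hθ1 : θ 1 = m := by
    rw [hMD.tr 1 S.one_mem, Finset.sum_congr rfl (g := fun _ => (1 : ℂ))]
    · simp
    · intro i hi
      rw [Finset.mem_range] at hi
      rw [hMD.one i hi i hi, if_pos rfl]
  have hθ0 : θ 1 ≠ 0 := by
    have h := hres.1.one_ne_zero
    change θ (ι 1) ≠ 0 at h
    rwa [map_one] at h
  have hm : (m : ℂ) ≠ 0 := by rwa [← hθ1]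
  have hm0 : 0 < m := by
    rcases Nat.eq_zero_or_pos m with h | h
    · rw [h, Nat.cast_zero] at hm
      exact absurd rfl hm
    · exact h
  refine ⟨hm0, ?_⟩
  have r1 : ∀ i < m, ∀ j < m, M (ι ((1 : S.comap ι) : G)) i j = if i = j then 1 else 0 := by
    intro i hi j hj
    rw [Subgroup.coe_one, map_one]
    exact hMD.one i hi j hj
  have r2 : ∀ s t : S.comap ι, ∀ i < m, ∀ j < m, M (ι ((s * t : S.comap ι) : G)) i j =
      ∑ k ∈ Finset.range m, M (ι (s : G)) i k * M (ι (t : G)) k j := by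
    intro s t i hi j hj
    rw [Subgroup.coe_mul, map_mul]
    exact hMD.mul _ s.2 _ t.2 i hi j hj
  let ρ := rp m (fun s : S.comap ι => M (ι (s : G))) r1 r2
  have hchar : ρ.character = fun s : S.comap ι => θ (ι (s : G)) := by
    funext s
    rw [rp_char, hMD.tr _ s.2]
  have hirr : ρ.IsIrreducible := by
    apply irreducible_of_sum
    rw [hchar]
    exact hres.1.sum_self
  obtain ⟨c, hcs⟩ := COSET.scalar ρ (Matrix.toLin' (Matrix.of fun i j : Fin m => M z i j)) (by
    intro g v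
    change Matrix.toLin' _ (Matrix.toLin' _ v) = Matrix.toLin' _ (Matrix.toLin' _ v)
    rw [← LinearMap.comp_apply, ← LinearMap.comp_apply, ← Matrix.toLin'_mul, ← Matrix.toLin'_mul]
    congr 2
    ext i j
    rw [Matrix.mul_apply, Matrix.mul_apply]
    have e1 := hMD.mul z hz _ g.2 i i.2 j j.2
    have e2 := hMD.mul _ g.2 z hz i i.2 j j.2
    rw [hc, e2, Finset.sum_range, Finset.sum_range] at e1
    exact e1.symm)
  have hM : ∀ i < m, ∀ j < m, M z i j = if i = j then c else 0 := by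
    intro i hi j hj
    have h3 := congrArg (fun T : (Fin m → ℂ) →ₗ[ℂ] (Fin m → ℂ) =>
      LinearMap.toMatrix' T ⟨i, hi⟩ ⟨j, hj⟩) hcs
    simp only [LinearMap.toMatrix'_toLin', Matrix.of_apply, map_smul, LinearMap.toMatrix'_id,
      Matrix.smul_apply, Matrix.one_apply, smul_eq_mul, mul_ite, mul_one, mul_zero,
      Fin.mk.injEq] at h3
    exact h3
  have hcz : θ z / θ 1 = c := by
    rw [hMD.tr z hz, Finset.sum_congr rfl (g := fun _ => c), hθ1]
    · rw [Finset.sum_const, Finset.card_range, nsmul_eq_mul]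
      field_simp
    · intro i hi
      rw [Finset.mem_range] at hi
      rw [hM i hi i hi, if_pos rfl]
  rw [hcz]
  exact hM

theorem schur_ne {ι : G →* B} {S : Subgroup B} {θ : B → ℂ} {m : ℕ} {M : B → ℕ → ℕ → ℂ}
    (hMD : MD S θ m M) (hres : IrrOn (S.comap ι) (fun h => θ (ι h))) {z : B} (hz : z ∈ S)
    (hc : ∀ h, z * ι h = ι h * z) : θ z / θ 1 ≠ 0 := by
  obtain ⟨hm, h1⟩ := schur hMD hres hz hc
  have hc' : ∀ h, z⁻¹ * ι h = ι h * z⁻¹ := by
    intro h
    rw [inv_mul_eq_iff_eq_mul, ← mul_assoc, hc, mul_inv_cancel_right]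
  obtain ⟨-, h2⟩ := schur hMD hres (S.inv_mem hz) hc'
  have h3 := hMD.mul z hz z⁻¹ (S.inv_mem hz) 0 hm 0 hm
  rw [mul_inv_cancel, hMD.one 0 hm 0 hm, if_pos rfl, Finset.sum_eq_single 0] at h3
  · rw [h1 0 hm 0 hm, if_pos rfl] at h3
    intro h4
    rw [h4, zero_mul] at h3
    exact one_ne_zero h3
  · intro k hk hk0
    rw [Finset.mem_range] at hk
    rw [h1 0 hm k hk, if_neg (Ne.symm hk0), zero_mul]
  · intro h4
    exact absurd (Finset.mem_range.2 hm) h4

theorem schur_mul {ι : G →* B} {S : Subgroup B} {θ : B → ℂ} {m : ℕ} {M : B → ℕ → ℕ → ℂ}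
    (hMD : MD S θ m M) (hres : IrrOn (S.comap ι) (fun h => θ (ι h))) {z : B} (hz : z ∈ S)
    (hc : ∀ h, z * ι h = ι h * z) {s : B} (hs : s ∈ S) {i j : ℕ} (hi : i < m) (hj : j < m) :
    M (z * s) i j = θ z / θ 1 * M s i j := by
  obtain ⟨hm, h1⟩ := schur hMD hres hz hc
  rw [hMD.mul z hz s hs i hi j hj, Finset.sum_eq_single i]
  · rw [h1 i hi i hi, if_pos rfl]
  · intro k hk hk0
    rw [Finset.mem_range] at hk
    rw [h1 i hi k hk, if_neg (Ne.symm hk0), zero_mul]
  · intro h4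
    exact absurd (Finset.mem_range.2 hi) h4

end Schur

/-- an element of `W` commutes with the image of `G` -/
theorem comm {G B C : Type} [Group G] [Group B] [Group C] {ι : G →* B} {κ : B →* MulAut G}
    {ρ : B →* C} (hcl : ClG ι κ ρ) {W : Subgroup B} (hW : WC ι W) {w : B} (hw : w ∈ W) (h : G) :
    w * ι h = ι h * w := by
  have h1 := hcl.act w h
  have h2 : ι (κ w h * h⁻¹) ∈ W := by
    rw [map_mul, h1, map_inv]
    have h3 : w * ι h * w⁻¹ * (ι h)⁻¹ = w * (ι h * w⁻¹ * (ι h)⁻¹) := by group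
    rw [h3]
    exact W.mul_mem hw (hW.nor.conj_mem _ (W.inv_mem hw) _)
  have h3 : κ w h = h := by
    have h4 := hW.int _ h2
    rwa [mul_inv_eq_one] at h4
  rw [h3] at h1
  rw [← mul_inv_eq_iff_eq_mul]
  exact h1.symm

theorem TH_mul {O G B : Type} [Fintype O] [DecidableEq O] [Group G] [Fintype G] [Group B]
    {ι : G →* B} {S : O → Subgroup B} {θ : O → B → ℂ} {m : O → ℕ} {M : O → B → ℕ → ℕ → ℂ}
    (hMD : ∀ o, MD (S o) (θ o) (m o) (M o))
    (hres : ∀ o, IrrOn ((S o).comap ι) (fun h => θ o (ι h))) {z : O → B} (hz : ∀ o, z o ∈ S o)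
    (hc : ∀ o h, z o * ι h = ι h * z o) {n : O → B} (hn : ∀ o, n o ∈ S o) (k : Equiv.Perm O)
    (hk : ∀ o, m (k⁻¹ o) = m o) :
    TH m M k (fun o => z o * n o) = (∏ o, (θ o (z o) / θ o 1)) * TH m M k n := by
  unfold TH
  rw [Finset.mul_sum]
  refine Finset.sum_congr rfl fun f hf => ?_
  rw [Fintype.mem_piFinset] at hf
  rw [← Finset.prod_mul_distrib]
  refine Finset.prod_congr rfl fun o _ => ?_
  refine schur_mul (hMD o) (hres o) (hz o) (hc o) (hn o) (Finset.mem_range.1 (hf o)) ?_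
  rw [← hk o]
  exact Finset.mem_range.1 (hf _)

end ASW

open ASW in
theorem ASW_thm : Stmt_ASW := by
  classical
  intro O G B C Y K _ _ _ _ _ _ _ _ _ _ ℓ ι κ ρ hloc W hW j p φ hE J U g S θ m M hSD hWS v hv1
    hv2 hvJ
  -- the elements `z o`
  have hzW : ∀ o, zz φ g v o ∈ W := by
    intro o
    have h1 : zz φ g v o = (g o)⁻¹ * (φ v).left o * ((g o)⁻¹)⁻¹ := by
      rw [zz, hv1, inv_one, one_smul, inv_inv]
    rw [h1]
    exact hW.nor.conj_mem _ (hv2 o) _
  have hzS : ∀ o, zz φ g v o ∈ S o := by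
    intro o
    refine hWS o _ (hzW o) ?_
    rw [← hSD.img o]
    exact hSD.adp v hvJ o
  have hzc : ∀ o h, zz φ g v o * ι h = ι h * zz φ g v o := fun o h => comm hloc.cl hW (hzW o) h
  refine ⟨Finset.prod_ne_zero_iff.2 fun o _ => schur_ne (hSD.md o) (hSD.res o) (hzS o) (hzc o), ?_⟩
  intro k hk F hF
  have hzm : ∀ y o, zz φ g (v * y) o = zz φ g v o * zz φ g y o := by
    intro y o
    rw [PERCV.zz_mul, hv1, inv_one, one_smul]
  have hr : ∀ y, (φ (v * y)).right = (φ y).right := by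
    intro y
    rw [map_mul]
    change (φ v).right * (φ y).right = _
    rw [hv1, one_mul]
  rw [AS, AS, mul_div_assoc', Finset.mul_sum]
  congr 1
  symm
  refine Fintype.sum_equiv (Equiv.mulLeft v) _ _ fun y => ?_
  have hiff : (p (v * y) = p v * k ∧ ∀ o, zz φ g (v * y) o ∈ S o) ↔
      (p y = k ∧ ∀ o, zz φ g y o ∈ S o) := by
    rw [map_mul, mul_right_inj]
    refine and_congr_right fun _ => forall_congr' fun o => ?_
    rw [hzm, Subgroup.mul_mem_cancel_left _ (hzS o)]
  change _ = if p (v * y) = p v * k ∧ ∀ o, zz φ g (v * y) o ∈ S o then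
    F (v * y) * TH m M (φ (v * y)).right (zz φ g (v * y)) else 0
  by_cases hy : p y = k ∧ ∀ o, zz φ g y o ∈ S o
  · rw [if_pos hy, if_pos (hiff.2 hy), hF, hr]
    have h1 : zz φ g (v * y) = fun o => zz φ g v o * zz φ g y o := funext fun o => hzm y o
    rw [h1, TH_mul hSD.md hSD.res hzS hzc hy.2]
    · ring
    · intro o
      have h2 := hSD.cm y (by rw [hy.1]; exact hk) ((φ y).right⁻¹ o)
      have h3 : (φ y).right • (φ y).right⁻¹ o = o := by
        change (φ y).right ((φ y).right⁻¹ o) = o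
        simp
      rw [h3] at h2
      exact h2.symm
  · rw [if_neg hy, if_neg (fun h => hy (hiff.1 h)), mul_zero]

end Pool.Agent.RCW
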