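import Pool.Agent.RCW.StC
import Pool.Agent.DPV.BETV
import Pool.Agent.DPV.EXTV

/-!
BETW: twists of the refined central functions; the class is determined by one member; truncation.
-/

namespace Pool.Agent.RCW

open Pool.Agent.DP Pool.Agent.DPV Pool.Agent.DPW Pool.Agent.Lib_helper13 Representation
open Pool.Agent.Lib_helper13.Dade (pCore DadeHolds dadeSum)

namespace BETW

section

variable {G B C : Type} [Group G] [Group B] [Group C]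

theorem twistW [Fintype G] [Fintype B] [Finite C] (𝔐 : Ideal (integralClosure ℤ ℂ))
    {ι : G →* B} {κ : B →* MulAut G} {ρ : B →* C} (h : ClG ι κ ρ) (W : Subgroup B)
    (S : Subgroup B) (f : B → ℂ) (hf : IrrOn S f)
    (hf' : IrrOn (S.comap ι) (fun h => f (ι h))) (lam : C → ℂ) (hlam : LinOn (S.map ρ) lam)
    (x : B) :
    cgW 𝔐 ι W (fun y => f y * lam (ρ y)) x =
      (red 𝔐 (lam (ρ x)) * (cgW 𝔐 ι W f x).1, lam (ρ x) * (cgW 𝔐 ι W f x).2) := by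
  unfold cgW
  refine Prod.ext ?_ ?_
  · exact BETV.twist 𝔐 INTH_thm h S f hf hf' lam hlam x
  · by_cases hx : x ∈ W
    · simp only [if_pos hx]
      rw [map_one, hlam.1, mul_one]
      ring
    · simp only [if_neg hx]
      rw [mul_zero]

theorem cgW_trn [Fintype B] (𝔐 : Ideal (integralClosure ℤ ℂ))
    {ι : G →* B} {κ : B →* MulAut G} {ρ : B →* C} (h : ClG ι κ ρ) (W : Subgroup B)
    (L : Subgroup C) (f : B → ℂ) (x : B) :
    (ρ x ∈ L → cgW 𝔐 ι W (trn ρ L f) x = cgW 𝔐 ι W f x) ∧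
      (ρ x ∉ L → cgW 𝔐 ι W (trn ρ L f) x = (0, 0)) := by
  have h1 : trn ρ L f 1 = f 1 := by
    unfold trn
    rw [if_pos (by rw [map_one]; exact L.one_mem)]
  have h2 := congrFun (BETV.cgT_trn 𝔐 h L f) x
  constructor
  · intro hx
    have h3 : trn ρ L f x = f x := by
      unfold trn
      rw [if_pos hx]
    have h4 : trn ρ L (cgT 𝔐 ι.range f) x = cgT 𝔐 ι.range f x := by
      unfold trn
      rw [if_pos hx]
    unfold cgW
    rw [h2, h4, h1, h3]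
  · intro hx
    have h3 : trn ρ L f x = 0 := by
      unfold trn
      rw [if_neg hx]
    have h4 : trn ρ L (cgT 𝔐 ι.range f) x = 0 := by
      unfold trn
      rw [if_neg hx]
    unfold cgW
    rw [h2, h4, h1, h3, zero_div, ite_self]

/-- The twist of an extension, for a linear character of the image of the stabilizer. -/
theorem twist_extW [Fintype G] [Fintype B] [Finite C] (𝔐 : Ideal (integralClosure ℤ ℂ))
    {ι : G →* B} {κ : B →* MulAut G}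
    {ρ : B →* C} (h : LocV ι κ ρ) (W : Subgroup B) (σ : Finset (Subgroup G)) (ψ : G → ℂ)
    (hψ : IrrOn (stb σ) ψ) (L : Subgroup C) (f : B → ℂ)
    (hf : ExtL ι κ ρ σ ψ L f) (lam : C → ℂ) (hlam : LinOn (KL κ ρ σ ψ L) lam) :
    cgW 𝔐 ι W (fun y => f y * lam (ρ y)) =
      fun x => (red 𝔐 (lam (ρ x)) * (cgW 𝔐 ι W f x).1, lam (ρ x) * (cgW 𝔐 ι W f x).2) := by
  have e1 := EXTV_thm G B C ι κ ρ h σ ψ hψ L
  have r1 : IrrOn ((Stx κ σ ψ ⊓ L.comap ρ).comap ι) (fun g => f (ι g)) := by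
    rw [e1.1, funext hf.2]
    exact hψ
  funext x
  refine twistW 𝔐 h.cl W _ f hf.1 r1 lam ?_ x
  rw [e1.2.1]
  exact hlam

theorem sub_betW [Fintype G] [Fintype B] [Finite C] (𝔐 : Ideal (integralClosure ℤ ℂ))
    {ι : G →* B} {κ : B →* MulAut G}
    {ρ : B →* C} (h : LocV ι κ ρ) (W : Subgroup B) (σ σ' : Finset (Subgroup G)) (ψ ψ' : G → ℂ)
    (hψ : IrrOn (stb σ) ψ) (hψ' : IrrOn (stb σ') ψ') (L : Subgroup C)
    (hL : L ≤ (Stx κ σ ψ).map ρ) (hL' : L ≤ (Stx κ σ' ψ').map ρ) (f f' : B → ℂ)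
    (hf : ExtL ι κ ρ σ ψ L f) (hf' : ExtL ι κ ρ σ' ψ' L f')
    (he : cgW 𝔐 ι W f = cgW 𝔐 ι W f') :
    betW 𝔐 ι κ ρ W σ ψ L ⊆ betW 𝔐 ι κ ρ W σ' ψ' L := by
  rintro b ⟨f1, hf1, rfl⟩
  have e1 := EXTV_thm G B C ι κ ρ h σ ψ hψ L
  have e2 := EXTV_thm G B C ι κ ρ h σ' ψ' hψ' L
  obtain ⟨lam, hlam, rfl⟩ := e1.2.2.2.2.1 f f1 hf hf1
  have hlam' : LinOn (KL κ ρ σ' ψ' L) lam := by
    rw [BETV.KL_eq hL']
    rw [BETV.KL_eq hL] at hlam
    exact hlam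
  refine ⟨_, e2.2.2.2.1 f' lam hlam' hf', ?_⟩
  rw [twist_extW 𝔐 h W σ ψ hψ L f hf lam hlam,
    twist_extW 𝔐 h W σ' ψ' hψ' L f' hf' lam hlam', he]

open Classical in
theorem betW_trn [Fintype G] [Fintype B] [Finite C] (𝔐 : Ideal (integralClosure ℤ ℂ))
    {ι : G →* B} {κ : B →* MulAut G}
    {ρ : B →* C} (h : LocV ι κ ρ) (W : Subgroup B) (σ : Finset (Subgroup G)) (ψ : G → ℂ)
    (hψ : IrrOn (stb σ) ψ) (L' L : Subgroup C) (hLL : L' ≤ L)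
    (hL : L ≤ (Stx κ σ ψ).map ρ) :
    betW 𝔐 ι κ ρ W σ ψ L' = trW 𝔐 ρ L' (betW 𝔐 ι κ ρ W σ ψ L) := by
  have e := EXTV_thm G B C ι κ ρ h σ ψ hψ L
  have e' := EXTV_thm G B C ι κ ρ h σ ψ hψ L'
  have hK : KL κ ρ σ ψ L' = L' := BETV.KL_eq (hLL.trans hL)
  have key : ∀ (f : B → ℂ), ExtL ι κ ρ σ ψ L' (trn ρ L' f) → ∀ lam : C → ℂ,
      LinOn (KL κ ρ σ ψ L') lam →
      cgW 𝔐 ι W (fun y => trn ρ L' f y * lam (ρ y)) = fun x => if ρ x ∈ L' then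
        (red 𝔐 (lam (ρ x)) * (cgW 𝔐 ι W f x).1, lam (ρ x) * (cgW 𝔐 ι W f x).2) else (0, 0) := by
    intro f ht lam hlam
    rw [twist_extW 𝔐 h W σ ψ hψ L' (trn ρ L' f) ht lam hlam]
    funext x
    have h1 := cgW_trn 𝔐 h.cl W L' f x
    by_cases hx : ρ x ∈ L'
    · rw [if_pos hx, h1.1 hx]
    · rw [if_neg hx, h1.2 hx, mul_zero, mul_zero]
  apply Set.Subset.antisymm
  · rintro b ⟨f', hf', rfl⟩
    obtain ⟨f, hf⟩ := e.2.2.1
    have ht : ExtL ι κ ρ σ ψ L' (trn ρ L' f) := e.2.2.2.2.2 L' hLL f hf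
    obtain ⟨lam, hlam, rfl⟩ := e'.2.2.2.2.1 (trn ρ L' f) f' ht hf'
    refine ⟨cgW 𝔐 ι W f, ⟨f, hf, rfl⟩, lam, ?_, key f ht lam hlam⟩
    rw [hK] at hlam
    exact hlam
  · rintro b ⟨b0, ⟨f, hf, rfl⟩, lam, hlam, rfl⟩
    have ht : ExtL ι κ ρ σ ψ L' (trn ρ L' f) := e.2.2.2.2.2 L' hLL f hf
    have hlam' : LinOn (KL κ ρ σ ψ L') lam := by
      rw [hK]
      exact hlam
    exact ⟨_, e'.2.2.2.1 (trn ρ L' f) lam hlam' ht, (key f ht lam hlam').symm⟩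

end

end BETW

/-- BETW: twists of the refined central functions; the class is determined by one member;
truncation. -/
theorem BETW_thm : Stmt_BETW := by
  intro G B C _ _ _ _ _ 𝔐 ι κ ρ h W hW
  have : Finite C := Finite.of_surjective ρ h.surj
  refine ⟨fun S f hf hf' lam hlam x => BETW.twistW 𝔐 h.cl W S f hf hf' lam hlam x, ?_, ?_⟩
  · intro σ σ' ψ ψ' hψ hψ' L hL hL' f f' hf hf' he
    exact Set.Subset.antisymm
      (BETW.sub_betW 𝔐 h W σ σ' ψ ψ' hψ hψ' L hL hL' f f' hf hf' he)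
      (BETW.sub_betW 𝔐 h W σ' σ ψ' ψ hψ' hψ L hL' hL f' f hf' hf he.symm)
  · intro σ ψ hψ L' L hLL hL
    exact BETW.betW_trn 𝔐 h W σ ψ hψ L' L hLL hL

end Pool.Agent.RCW
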