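import Mathlib
import Pool.Agent.RCW.StC
import Pool.Agent.RCB.St6

/-!
# The local input for the refined inner theorem: statements (part D)

`Pool/Agent/RCB/AllP2.lean` contains the proofs of all statements of `RCB` used here (`bij_all`,
`clt_all`, `bi2_all`, `clt2_all`, `agm_all`, ...) and imports `Pool/Agent/DPX/AllX.lean`
(`dxmx_all`, `chnx_all`, `dfx_all`, ...): a module may import it, or take the statements as
hypotheses. `iR`, `kR`, `pR`, `RC`, `piR`, `locN_R`, `cov_R`, `Stx_R`, `Stx_pi` are in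
`Pool/Agent/RCB/DefsR.lean`. As in `StC.lean`, module `NAME` is the file
`Pool/Agent/RCW/NAME.lean` with `theorem NAME_thm : Stmt_NAME` in `namespace Pool.Agent.RCW`.
-/

namespace Pool.Agent.RCW

open Pool.Agent.DP Pool.Agent.DPV Pool.Agent.DPB Pool.Agent.DPW Pool.Agent.DPX
open Pool.Agent.Lib_helper13 Representation
open Pool.Agent.RCB (iR kR pR RC piR locN_R cov_R Cov XS YL EB Mtc StX Agr Stx_R Stx_pi)

/-- RCW_LVR: the extensions restrict to the inverse images of subgroups.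
Proof. This is `FIXW.locV_restr` (`DPW/FIXW.lean`): `FIXV.iotaR h.cl R` is `iR h.locN R`,
`FIXV.rhoR ρ R` is `pR ρ R` (both by `rfl` or by `MonoidHom.ext`, `Subtype.ext`), and
`κ.comp (R.comap ρ).subtype` is `kR κ ρ R`. -/
def Stmt_LVR : Prop :=
  ∀ (G B C : Type) [Group G] [Fintype G] [Group B] [Fintype B] [Group C]
    (ι : G →* B) (κ : B →* MulAut G) (ρ : B →* C) (h : LocV ι κ ρ) (R : Subgroup C),
    LocV (iR h.locN R) (kR κ ρ R) (pR ρ R)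

/-- RCW_CXR: extensions in the inverse image of a subgroup, extended by zero.
Proof. `Stx (kR κ ρ R) σ ψ = (Stx κ σ ψ).comap (R.comap ρ).subtype` (`Stx_R`), so
`f` is supported on the elements of `Stx κ σ ψ ⊓ R.comap ρ`, and the restriction of `ext0 f` to
this group is `f` composed with the isomorphism `FIXW.stxEquiv` (`DPW/FIXW.lean`; or its
inverse). `ι h ∈ R.comap ρ`, so `ext0 f (ι h) = f (iR h) = ψ h`. For `x ∈ R.comap ρ`: if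
`cjT ι.range y x ≠ 0` then `y = ι g * x * (ι g)⁻¹ ∈ R.comap ρ`, and `cjT ι.range y x` is
`cjT (iR h R).range ⟨y, _⟩ ⟨x, _⟩`: the sum over `B` is the sum over the subgroup. For
`x ∉ R.comap ρ` all conjugates of `x` under `ι.range` are outside of `R.comap ρ`, where `ext0 f` is
zero. -/
def Stmt_CXR : Prop :=
  ∀ (G B C : Type) [Group G] [Fintype G] [Group B] [Fintype B] [Group C]
    (𝔐 : Ideal (integralClosure ℤ ℂ)) (ι : G →* B) (κ : B →* MulAut G) (ρ : B →* C)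
    (h : LocN ι κ ρ) (R : Subgroup C) [Fintype ↥(R.comap ρ)]
    (σ : Finset (Subgroup G)) (ψ : G → ℂ) (f : ↥(R.comap ρ) → ℂ),
    ExtL (iR h R) (kR κ ρ R) (pR ρ R) σ ψ ⊤ f →
    ExtL ι κ ρ σ ψ R (ext0 f) ∧
      (∀ x : ↥(R.comap ρ), cgT 𝔐 ι.range (ext0 f) x = cgT 𝔐 (iR h R).range f x) ∧
      ∀ x, x ∉ R.comap ρ → cgT 𝔐 ι.range (ext0 f) x = 0

/-- RCW_LDC: from extensions in the stabilizer of `χ` to the classes for all `L`.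
USES BETW, CXR. Put `R' = RC ρ ρ' π R`.
(1) `Stx κ' σ θ = (Stx κ σ θ).comap π` (`Stx_pi`); if `(Stx κ σ θ).map ρ = R` then
`(Stx κ' σ θ).map ρ' = R'`: `≤` is clear; let `ρ (π x) ∈ R`, `ρ (π x) = ρ s`, `s ∈ Stx κ σ θ`,
`s = π y`; `ρ (π (x * y⁻¹)) = 1`, so `π (x * y⁻¹) = ι g`, `x * y⁻¹ = ι' g * w` with `π w = 1` and
`w * y ∈ Stx κ' σ θ`, `ρ' x = ρ' (w * y)` (see `RC_map` in `RCB/DefsR.lean`).
(2) `CXR` for `B'`, `R'`: `F = ext0 f`, `F₁ = ext0 f₁`: `ExtL ι' κ' ρ' ∅ χ R' F`,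
`ExtL ι' κ' ρ' {P₁} ψ R' F₁`, `cgT 𝔐 ι'.range F = cgT 𝔐 ι'.range F₁`, and for `π w = 1`
(`w ∈ R'.comap ρ'`, `ker_le_RC`) `F w * F₁ 1 = F₁ w * F 1`, so `F w / F 1 = F₁ w / F₁ 1`
(`F 1 = χ 1 ≠ 0`, `F₁ 1 = ψ 1 ≠ 0`).
(3) For `L ≤ R'`: `trn ρ' L F`, `trn ρ' L F₁` are extensions for `L` (last clause of `EXTV`), their
`cgT` is the truncation of the `cgT` of `F`, `F₁` (fourth clause of `CGT`), `(trn ρ' L F) 1 = F 1`, and
at `w ∈ π.ker` the second components of `cgW` are `F w / F 1` if `ρ' w ∈ L` and `0` otherwise. So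
`cgW (trn ρ' L F) = cgW (trn ρ' L F₁)` and `BETW` (2) gives the equality of the classes
(`WC ι' π.ker`: `π (ι' g) = ι g` and `ι` is injective). -/
def Stmt_LDC : Prop :=
  ∀ (G B C B' C' : Type) [Group G] [Fintype G] [Group B] [Fintype B] [Group C]
    [Group B'] [Fintype B'] [Group C'] (𝔐 : Ideal (integralClosure ℤ ℂ))
    (ι : G →* B) (κ : B →* MulAut G) (ρ : B →* C)
    (ι' : G →* B') (κ' : B' →* MulAut G) (ρ' : B' →* C') (π : B' →* B)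
    (h : Cov ι κ ρ ι' κ' ρ' π), LocV ι' κ' ρ' →
    ∀ (P₁ : Subgroup G) (χ ψ : G → ℂ), IrrOn (stb ∅) χ → IrrOn (stb {P₁}) ψ →
    ∀ R : Subgroup C, (Stx κ ∅ χ).map ρ = R → (Stx κ {P₁} ψ).map ρ = R →
    ∀ [Fintype ↥((RC ρ ρ' π R).comap ρ')] (f f₁ : ↥((RC ρ ρ' π R).comap ρ') → ℂ),
      ExtL (iR h.up (RC ρ ρ' π R)) (kR κ' ρ' (RC ρ ρ' π R)) (pR ρ' (RC ρ ρ' π R)) ∅ χ ⊤ f →
      ExtL (iR h.up (RC ρ ρ' π R)) (kR κ' ρ' (RC ρ ρ' π R)) (pR ρ' (RC ρ ρ' π R)) {P₁} ψ ⊤ f₁ →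
      (∀ t, cgT 𝔐 (iR h.up (RC ρ ρ' π R)).range f t =
        cgT 𝔐 (iR h.up (RC ρ ρ' π R)).range f₁ t) →
      (∀ w, piR h R w = 1 → f w * f₁ 1 = f₁ w * f 1) →
    (Stx κ' ∅ χ).map ρ' = RC ρ ρ' π R ∧ (Stx κ' {P₁} ψ).map ρ' = RC ρ ρ' π R ∧
      ∀ L ≤ RC ρ ρ' π R, betW 𝔐 ι' κ' ρ' π.ker ∅ χ L = betW 𝔐 ι' κ' ρ' π.ker {P₁} ψ L

/-- RCW_LDO: the bijection for an odd prime.
USES LVR, LDC. `R₁ = (Sw κ ∅ ω).map ρ`, `Sw κ ∅ ω = R₁.comap ρ`. `BIJ` (`bij_all`) for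
`(G, ↥(R₁.comap ρ), R₁)` gives `Φ` with `BijOn`. For `χ ∈ XS 𝔐 ω` put `R = (Stx κ ∅ χ).map ρ`; then
`(Stx κ {P₁} (Φ χ)).map ρ = R` and `EB ∨ Mtc`: this is in the proof of `LTP` (`RCB/LTP.lean`; copy).
As in `RCB/CEQ2.lean`, the hypotheses of `CLT` (`clt_all`) hold for `(G, ↥(R.comap ρ), R)` with the
covering `cov_R h R` (`RCB/DefsR.lean`) and `LocV` from `LVR` (in `CEQ2.lean` another covering is
used; the facts `Stx (kR κ ρ R) ∅ χ = ⊤`, `(Stx (kR κ ρ R) {P₁} ψ).map (pR ρ R) = ⊤`,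
`StX 𝔐 ℓ n (kR κ ρ R) ω P₁ P x₀` are proved there). `CLT` gives `f`, `f₁` as required in `LDC`. -/
def Stmt_LDO : Prop :=
  ∀ (G B C B' C' : Type) [Group G] [Fintype G] [Group B] [Fintype B] [Group C]
    [Group B'] [Fintype B'] [Group C']
    (𝔐 : Ideal (integralClosure ℤ ℂ)) (ℓ n : ℕ) [Fact ℓ.Prime], 𝔐.IsMaximal →
    (ℓ : integralClosure ℤ ℂ) ∈ 𝔐 → ℓ ≠ 2 → ∀ (ι : G →* B) (κ : B →* MulAut G) (ρ : B →* C)
    (ι' : G →* B') (κ' : B' →* MulAut G) (ρ' : B' →* C') (π : B' →* B),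
    Cov ι κ ρ ι' κ' ρ' π → LocV ι' κ' ρ' →
    ∀ (ω : G → (integralClosure ℤ ℂ) ⧸ 𝔐) (P₁ P : Subgroup G) (x₀ : G),
    AtX ℓ n ω P₁ P x₀ → (∃ θ : G → ℂ, IsIrr θ ∧ cen 𝔐 (MonoidHom.id G) θ = ω) →
    ∃ Φ : (G → ℂ) → (G → ℂ), Set.BijOn Φ (XS 𝔐 ω) (YL 𝔐 P₁ ω) ∧
      ∀ χ ∈ XS 𝔐 ω, ∀ L : Subgroup C',
        (L ≤ (Stx κ' ∅ χ).map ρ' ↔ L ≤ (Stx κ' {P₁} (Φ χ)).map ρ') ∧
        (L ≤ (Stx κ' ∅ χ).map ρ' →
          betW 𝔐 ι' κ' ρ' π.ker ∅ χ L = betW 𝔐 ι' κ' ρ' π.ker {P₁} (Φ χ) L)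

/-- RCW_LDE: the bijection for the prime 2.
USES LVR, LDC. As `LDO`, with `BI2` (`bi2_all`), `CLT2` (`clt2_all`) and, for the hypothesis of `CLT2`
on the classes (`Agr`), the transport by `AGM` (`agm_all`) as in `RCB/LTP2.lean` (copy). In `CLT2` the
group is `↥(R.comap ρ)`, `R = (Stx κ ∅ χ).map ρ`, and the covering is `cov_R h R`; `LTP2.lean` proves
`∀ Q : Subgroup ↥R, IsPGroup 2 Q → Agr (locN_R h R) P₁ χ (Φ χ) Q`, and `(cov_R h R).lo` is a proof of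
the same proposition. -/
def Stmt_LDE : Prop :=
  ∀ (G B C B' C' : Type) [Group G] [Fintype G] [Group B] [Fintype B] [Group C]
    [Group B'] [Fintype B'] [Group C']
    (𝔐 : Ideal (integralClosure ℤ ℂ)) (n : ℕ), 𝔐.IsMaximal →
    ((2 : ℕ) : integralClosure ℤ ℂ) ∈ 𝔐 → ∀ (ι : G →* B) (κ : B →* MulAut G) (ρ : B →* C)
    (ι' : G →* B') (κ' : B' →* MulAut G) (ρ' : B' →* C') (π : B' →* B),
    Cov ι κ ρ ι' κ' ρ' π → LocV ι' κ' ρ' →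
    ∀ (ω : G → (integralClosure ℤ ℂ) ⧸ 𝔐) (P₁ P : Subgroup G) (x₀ : G),
    AtX 2 n ω P₁ P x₀ → (∃ θ : G → ℂ, IsIrr θ ∧ cen 𝔐 (MonoidHom.id G) θ = ω) →
    ∃ Φ : (G → ℂ) → (G → ℂ), Set.BijOn Φ (XS 𝔐 ω) (YL 𝔐 P₁ ω) ∧
      ∀ χ ∈ XS 𝔐 ω, ∀ L : Subgroup C',
        (L ≤ (Stx κ' ∅ χ).map ρ' ↔ L ≤ (Stx κ' {P₁} (Φ χ)).map ρ') ∧
        (L ≤ (Stx κ' ∅ χ).map ρ' →
          betW 𝔐 ι' κ' ρ' π.ker ∅ χ L = betW 𝔐 ι' κ' ρ' π.ker {P₁} (Φ χ) L)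

/-- RCW_VSY: the refined local sum for a block with a cyclic defect group.
Adapt `DPX/VSXX.lean`: `bet` is replaced by `betW`, `b (ι g)` by `(b (ι g)).1`. The class is used only
through: (i) `betW = β` implies `cg 𝔐 ψ g = (b (ι g)).1` (first component of `cgW f (ι g)`, `f` an
extension; `LVB.cg_of_ext`); (ii) conjugation by `ι g`: the extension `x ↦ f ((ι g)⁻¹ * x * ι g)` has
the same `cgW` (first component as in `VSXX.lean`; second: `(ι g)⁻¹ * w * ι g = w` for `w ∈ W`, because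
the commutator is in `W` and in `ι.range`; `WC`); (iii) inserting `P₁`-conjugates in the chain does not
change the stabilizers (`stb`, `Stx`), hence not `ExtL`, nor `betW`. -/
def Stmt_VSY : Prop :=
  ∀ (G B C : Type) [Group G] [Fintype G] [Group B] [Fintype B] [Group C]
    (𝔐 : Ideal (integralClosure ℤ ℂ)) (ℓ n : ℕ) [Fact ℓ.Prime], 𝔐.IsMaximal →
    (ℓ : integralClosure ℤ ℂ) ∈ 𝔐 →
    ∀ (ι : G →* B) (κ : B →* MulAut G) (ρ : B →* C), LocN ι κ ρ → ∀ W : Subgroup B, WC ι W →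
    ∀ (P₁ P : Subgroup G) (x₀ : G) (L : Subgroup C)
      (β : Set (B → ((integralClosure ℤ ℂ) ⧸ 𝔐) × ℂ)) (e : ℕ),
      (∃ b ∈ β, AtX ℓ n (fun g => (b (ι g)).1) P₁ P x₀) →
      VSW 𝔐 ℓ ι κ ρ W L β e = (Nat.card G : ℚ) *
        ((Nat.card {θ : G → ℂ // IrrOn (stb ∅) θ ∧ L ≤ (Stx κ ∅ θ).map ρ ∧
          df ℓ (stb (∅ : Finset (Subgroup G))) θ = e ∧ betW 𝔐 ι κ ρ W ∅ θ L = β} : ℚ) -
        (Nat.card {ψ : G → ℂ // IrrOn (stb {P₁}) ψ ∧ L ≤ (Stx κ {P₁} ψ).map ρ ∧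
          df ℓ (stb {P₁}) ψ = e ∧ betW 𝔐 ι κ ρ W {P₁} ψ L = β} : ℚ))

/-- RCW_LVY: the refined local sum vanishes for the blocks with nontrivial cyclic defect groups.
USES VSY, LDO, LDE. As the beginning and the end of `DPX/LVX.lean`. Let `b ∈ β`,
`ω g = (b (ι' g)).1`, `DX ℓ ω`. If the sum is not `0` there is a contributing `(σ, ψ)`;
`cg 𝔐 ψ = ω` (first components at `ι' g`), so by `FXD.exists_irr` there is `θ₀ ∈ Irr(G)` with central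
function `ω` and by `DXMX` (`dxmx_all`) `AtX ℓ n ω P₁ P x₀`. `VSY` (`W = π.ker`, `WC`: `ker` is normal,
`π (ι' g) = ι g`). `LDO` or `LDE` gives `Φ`, which restricts to a bijection between the two sets: every
`θ` in the first set is in `XS 𝔐 ω`, every `ψ` in the second set is in `YL 𝔐 P₁ ω` (first
components again); the defects are both `n` (`DFX`, `dfx_all`). -/
def Stmt_LVY : Prop :=
  ∀ (G B C B' C' : Type) [Group G] [Fintype G] [Group B] [Fintype B] [Group C]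
    [Group B'] [Fintype B'] [Group C']
    (𝔐 : Ideal (integralClosure ℤ ℂ)) (ℓ : ℕ) [Fact ℓ.Prime], 𝔐.IsMaximal →
    (ℓ : integralClosure ℤ ℂ) ∈ 𝔐 → ∀ (ι : G →* B) (κ : B →* MulAut G) (ρ : B →* C)
    (ι' : G →* B') (κ' : B' →* MulAut G) (ρ' : B' →* C') (π : B' →* B),
    Cov ι κ ρ ι' κ' ρ' π → LocV ι' κ' ρ' →
    ∀ (L : Subgroup C') (β : Set (B' → ((integralClosure ℤ ℂ) ⧸ 𝔐) × ℂ)) (e : ℕ),
      gTW ι' (DX ℓ) β → VSW 𝔐 ℓ ι' κ' ρ' π.ker L β e = 0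

end Pool.Agent.RCW
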