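import Mathlib
import Pool.Agent.RCW.StD
import Pool.Agent.DPC.StmtsC

/-!
# The outer layer: statements (part B)

These are mostly the statements of `DPC/StmtsC.lean` (theorem C: `C` cyclic) without the hypothesis
on `C`, and with the property `DX ℓ` (nontrivial cyclic defect groups) in the place of positive
defect. MOST MODULES ARE ADAPTATIONS of the files of `Pool/Agent/DPC`. `INY`, `MIX`, `JOIN`, `CONST`
(`DPC`), `SPLIT`, `CORE` (`DP`) are proved and used as they are. As in `StC.lean`, module `NAME` is the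
file `Pool/Agent/RCW/NAME.lean` with `theorem NAME_thm : Stmt_NAME` in `namespace Pool.Agent.RCW`.
`FX κ P` (fixed points of `P` in `G`), `Pw φ Q w`, `Single` are in `DPC/DefsC.lean`.
-/

namespace Pool.Agent.RCW

open Pool.Agent.DP Pool.Agent.DPV Pool.Agent.DPB Pool.Agent.DPC Pool.Agent.DPW Pool.Agent.DPX
open Pool.Agent.Lib_helper13 Representation
open Pool.Agent.Lib_helper13.Dade (pCore DadeHolds dadeSum)

/-! ### The coordinates of an `ℓ`-subgroup -/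

/-- RCW_OTA: if the centralizer of `Q` has no normal `ℓ`-subgroup then the coordinate groups of `Q`
are outer.
Copy `DPC/OUTA.lean` (187 lines); it uses only `cl` of the hypothesis `LocW`, which `LocN` has too. -/
def Stmt_OTA : Prop :=
  ∀ (Ω G B C X K : Type) [Fintype Ω] [DecidableEq Ω] [Group G] [Fintype G] [Group B]
    [Fintype B] [Group C] [Group X] [Fintype X] [Group K] (ℓ : ℕ) [Fact ℓ.Prime]
    (ι : G →* B) (κ : B →* MulAut G) (ρ : B →* C), LocN ι κ ρ →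
    ∀ (e : (Ω → G) →* X) (p : X →* K) (φ : X →* Gam (Equiv.Perm Ω) Ω B), ExtS ι κ e p φ →
    ∀ Q : Subgroup X, IsPGroup ℓ Q → Q ⊓ e.range = ⊥ → pCore ℓ (cN e.range Q) = ⊥ →
    ∀ w : Ω, IsPGroup ℓ (Pw φ Q w) ∧ Pw φ Q w ⊓ ι.range = ⊥

/-- RCW_OTB: the centralizer of `Q` in `G ^ Ω`.
Copy `DPC/OUTB.lean` (109 lines); the hypothesis `LocW` is not used there. -/
def Stmt_OTB : Prop :=
  ∀ (Ω G B C X K : Type) [Fintype Ω] [DecidableEq Ω] [Group G] [Fintype G] [Group B]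
    [Fintype B] [Group C] [Group X] [Fintype X] [Group K] (ℓ : ℕ) [Fact ℓ.Prime]
    (ι : G →* B) (κ : B →* MulAut G) (ρ : B →* C), LocN ι κ ρ →
    ∀ (e : (Ω → G) →* X) (p : X →* K) (φ : X →* Gam (Equiv.Perm Ω) Ω B), ExtS ι κ e p φ →
    ∀ Q : Subgroup X, IsPGroup ℓ Q →
    ∃ (O : Type) (_ : Fintype O) (_ : DecidableEq O) (π : Ω → O) (s : O → Ω) (v : Ω → B),
      (∀ o, π (s o) = o) ∧ (∀ w w', π w = π w' ↔ ∃ q ∈ Q, (φ q).right • w = w') ∧
      (∀ o, ∃ k, Nat.card {w : Ω // π w = o} = ℓ ^ k) ∧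
      (∀ w, ∃ q ∈ Q, (φ q).right • s (π w) = w ∧ (φ q).left w = v w) ∧
      (∀ o, v (s o) = 1) ∧
      ∀ n : Ω → G, e n ∈ Subgroup.centralizer (Q : Set X) ↔
        ∃ n' : O → G, (∀ o, n' o ∈ FX κ (Pw φ Q (s o))) ∧ n = fun w => κ (v w) (n' (π w))

/-- RCW_DRV: the local group of an outer subgroup: `B1 = N_B(P) / P`.
Adapt `DPC/DER.lean` with the normalizer in the place of the centralizer (there are fewer claims
here): `ι g` centralizes `P` for `g ∈ FX κ P`, so it is in the normalizer; `κ b` maps `FX κ P` to itself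
for `b` in the normalizer, and `P` acts trivially; `ι1 g = 1` implies `ι g ∈ P`, `g = 1`.
`C1 = B1 ⧸ ι1.range` (normal by the action), `ρ1` the projection. -/
def Stmt_DRV : Prop :=
  ∀ (G B C : Type) [Group G] [Fintype G] [Group B] [Fintype B] [Group C]
    (ι : G →* B) (κ : B →* MulAut G) (ρ : B →* C), LocN ι κ ρ →
    ∀ P : Subgroup B, P ⊓ ι.range = ⊥ →
    ∃ (B1 C1 : Type) (_ : Group B1) (_ : Fintype B1) (_ : Group C1)
      (π : ↥(Subgroup.normalizer (P : Set B)) →* B1) (ι1 : ↥(FX κ P) →* B1)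
      (κ1 : B1 →* MulAut ↥(FX κ P)) (ρ1 : B1 →* C1), LocN ι1 κ1 ρ1 ∧
      Function.Surjective π ∧ (∀ x, π x = 1 ↔ (x : B) ∈ P) ∧
      (∀ (g : FX κ P) (x : Subgroup.normalizer (P : Set B)), (x : B) = ι g → π x = ι1 g) ∧
      ∀ (x : Subgroup.normalizer (P : Set B)) (g : FX κ P), ((κ1 (π x) g : FX κ P) : G) = κ x g

/-- RCW_OTD: the structure of a group normalizing `Q` with respect to the coordinates in one
orbit.
Adapt `DPC/OUTD.lean` (702 lines): replace `Subgroup.centralizer (Pw φ Q w0 : Set B)` by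
`Subgroup.normalizer (Pw φ Q w0 : Set B)` everywhere; the hypothesis `hP` (`b` normalizes `Pw` implies
that it is in the centralizer) becomes the lemma that `P.map (conj b) = P` implies
`b ∈ normalizer P`. -/
def Stmt_OTD : Prop :=
  ∀ (Ω G B C X K : Type) [Fintype Ω] [DecidableEq Ω] [Group G] [Fintype G] [Group B]
    [Fintype B] [Group C] [Group X] [Fintype X] [Group K] (ℓ : ℕ) [Fact ℓ.Prime]
    (ι : G →* B) (κ : B →* MulAut G) (ρ : B →* C), LocN ι κ ρ →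
    ∀ (e : (Ω → G) →* X) (p : X →* K) (φ : X →* Gam (Equiv.Perm Ω) Ω B), ExtS ι κ e p φ →
    ∀ Q : Subgroup X, IsPGroup ℓ Q → Q ⊓ e.range = ⊥ →
    ∀ w0 : Ω, Pw φ Q w0 ⊓ ι.range = ⊥ →
    ∀ Y : Subgroup X, (∀ y ∈ Y, Q.map (MulAut.conj y).toMonoidHom = Q) → cN e.range Q ≤ Y →
    ∀ (B1 : Type) [Group B1] (π : ↥(Subgroup.normalizer (Pw φ Q w0 : Set B)) →* B1)
      (ι1 : ↥(FX κ (Pw φ Q w0)) →* B1) (κ1 : B1 →* MulAut ↥(FX κ (Pw φ Q w0))),
      Function.Surjective π → (∀ x, π x = 1 ↔ (x : B) ∈ Pw φ Q w0) →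
      (∀ (g : FX κ (Pw φ Q w0)) (x : Subgroup.normalizer (Pw φ Q w0 : Set B)),
        (x : B) = ι g → π x = ι1 g) →
      (∀ (x : Subgroup.normalizer (Pw φ Q w0 : Set B)) (g : FX κ (Pw φ Q w0)),
        ((κ1 (π x) g : FX κ (Pw φ Q w0)) : G) = κ x g) →
      ∃ (O1 K1 : Type) (_ : Fintype O1) (_ : DecidableEq O1) (_ : Group K1) (_ : Finite K1)
        (e1 : (O1 → ↥(FX κ (Pw φ Q w0))) →* Y) (p1 : Y →* K1)
        (φ1 : Y →* Gam (Equiv.Perm O1) O1 B1) (M2 : Subgroup Y) (o0 : O1),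
        ExtS ι1 κ1 e1 p1 φ1 ∧ M2.Normal ∧ M2 ⊓ e1.range = ⊥ ∧
        (∀ y : Y, (y : X) ∈ e.range ↔ y ∈ e1.range ⊔ M2) ∧
        (∀ x ∈ M2, ∀ n, x * e1 n = e1 n * x) ∧
        ∀ g : FX κ (Pw φ Q w0), Single κ e φ Q w0 g (e1 (Pi.mulSingle o0 g))

/-! ### The property of having nontrivial cyclic defect groups -/

/-- RCW_IDP: an idempotent with integer coefficients which separates the blocks with an admissible
property from the others.
Proof. `IDFP` (`DPW/IDFP.lean`) gives `f₀`. Let `z = ∑ f₀ g • g` in the group ring `MonoidAlgebra ℤ G`,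
and `z'` its image in the finite ring `MonoidAlgebra (ZMod ℓ) G`. In a finite monoid some power of
every element is idempotent: there is `m > 0` with `z' ^ m * z' ^ m = z' ^ m` (from
`z' ^ a = z' ^ (a + k)`, `k > 0`: take a multiple `m ≥ a` of `k`). Let `f` be the coefficients of
`z ^ m`. It is a class function (`z` is central) and invariant under `κ b` (the automorphism of the
ring induced by `κ b` fixes `z`). `f * f - f` (convolution) has coefficients divisible by `ℓ`. The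
weights are multiplicative on the centre (`IDFP.lam` is a ring homomorphism on
`Subalgebra.center ℤ (MonoidAlgebra ℤ G)`; the proof of `IDFP_thm` shows how it is used), so
`red (wt χ f) = (red (wt χ f₀)) ^ m` is `0` if `Pr`, and is not `0` otherwise; and it is idempotent
in the field, because `f * f - f = ℓ * f'` with a class function `f'`, `red (ℓ * wt χ f') = 0`. -/
def Stmt_IDP : Prop :=
  ∀ (G B : Type) [Group G] [Fintype G] [Group B]
    (𝔐 : Ideal (integralClosure ℤ ℂ)) (ℓ : ℕ) [Fact ℓ.Prime], 𝔐.IsMaximal →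
    (ℓ : integralClosure ℤ ℂ) ∈ 𝔐 → ∀ κ : B →* MulAut G,
    ∀ Pr : (G → (integralClosure ℤ ℂ) ⧸ 𝔐) → Prop, AdmP ℓ κ Pr →
      ∃ f : G → ℤ, (∀ g x, f (g * x * g⁻¹) = f x) ∧ (∀ b x, f (κ b x) = f x) ∧
        (∀ x, (ℓ : ℤ) ∣ (∑ y, f y * f (y⁻¹ * x)) - f x) ∧
        (∀ χ : G → ℂ, IsIrr χ → Pr (fun g => cg 𝔐 χ g) →
          red 𝔐 (wt χ (fun x => (f x : ℂ))) = 0) ∧
        ∀ χ : G → ℂ, IsIrr χ → ¬ Pr (fun g => cg 𝔐 χ g) →
          red 𝔐 (wt χ (fun x => (f x : ℂ))) = 1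

open Classical in
/-- RCW_SUD: the support of an idempotent which is a sum of block idempotents of blocks with
cyclic defect groups.
Proof. We may assume `Q ≠ ⊥`. Let `a x = (if x = 1 then 1 else 0) - f x`, a class function with integer
values which is also idempotent modulo `ℓ`. Let `N = stb {Q}` (the normalizer of `Q` in `G`), and
`b y = a y` if `y ∈ N` centralizes `Q`, `b y = 0` otherwise (`y : N`): a class function of `N`,
idempotent modulo `ℓ`: for `t` in the centralizer of `Q` the group `Q` acts by conjugation on the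
`y : G` in the sum `∑ y, a y * a (y⁻¹ * t)`, the summand is invariant, the fixed points are the `y`
centralizing `Q` (`RCB.FPS_thm`: sums over the fixed points of an `ℓ`-group, in a ring with `ℓ = 0`);
for `t` not in the centralizer both sides are `0`. `b x ≠ 0` modulo `ℓ`. So there is
`ψ : N → ℂ` irreducible with `red (wt ψ b) ≠ 0`: `CHP` (`DPB/CHP.lean`, `H = N`, `μ = 1`): `b` reduced
modulo `𝔐` is an eigenvector for the eigenvalue `1` of the multiplication by itself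
(`mlt ≠ 0`), so there is `ψ` with `red (wt ψ b) = 1`. (`ℓ` divides an integer `m` iff
`red 𝔐 m = 0`.) `Q` is normal in `N` and an `ℓ`-group, `b` and `a` restricted to `N` agree on the
centralizer of `Q`, so `red (wt ψ a) = red (wt ψ b) = 1` (`red_wt_eq`, `Lib_helper13/Weights.lean`).
Extend `ψ` by `0` to `G`: `IrrOn (stb {Q}) ψ'`. By `FXD.exists_irr` (`DPW/FXD.lean`, used in
`DPX/LVX.lean`) there is `χ : G → ℂ` irreducible with central function `cg 𝔐 ψ'`, and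
`red (wt χ a) = red (wt ψ a) = 1` (expansion in class indicators, `red_wt_eq_pair`), so
`red (wt χ f) = 0`, `DX ℓ (cg 𝔐 χ)`. `DXMX` (`dxmx_all`) gives `AtX ℓ n _ P₁ P x₀` and `CHNX`
(`chnx_all`) for the chain `{Q}` and `ψ'`: `Q` is contained in a conjugate of the cyclic group `P`. -/
def Stmt_SUD : Prop :=
  ∀ (G : Type) [Group G] [Fintype G] (𝔐 : Ideal (integralClosure ℤ ℂ)) (ℓ : ℕ)
    [Fact ℓ.Prime], 𝔐.IsMaximal → (ℓ : integralClosure ℤ ℂ) ∈ 𝔐 →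
    ∀ f : G → ℤ, (∀ g x, f (g * x * g⁻¹) = f x) →
      (∀ x, (ℓ : ℤ) ∣ (∑ y, f y * f (y⁻¹ * x)) - f x) →
      (∀ χ : G → ℂ, IsIrr χ → red 𝔐 (wt χ (fun x => (f x : ℂ))) = 0 →
        DX ℓ (fun g => cg 𝔐 χ g)) →
    ∀ x : G, ¬ (ℓ : ℤ) ∣ (if x = 1 then 1 else 0) - f x →
      ∀ Q : Subgroup G, IsPGroup ℓ Q → Q ≤ Subgroup.centralizer ({x} : Set G) → IsCyclic Q

/-- RCW_BTA: characters of the fixed points of an `ℓ`-group.
USES SUD. Proof (compare `RCB/BTW.lean`). (1) `θ` does not have defect zero: otherwise `DGN`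
(`DPC/DGN.lean`; `dgn_c` in `RCB/AllR.lean`) gives `ξ : G → ℂ` irreducible of defect zero with
`red (wt ξ f) = red (wt θ f) = 0`, so `DX ℓ (cg 𝔐 ξ)`, which contradicts defect zero (`DXMX`,
`HGTX`, last part of `BTW.lean`). (2) `wt θ (indicator of 1) = 1`, so
`red (wt θ ((if x = 1 then 1 else 0) - f x)) = 1 ≠ 0`; expanding (`red_wt_eq_pair`, as in `BTW.lean`) there
is `y : FX κ P` with `red ((if y = 1 then 1 else 0) - f y) ≠ 0` and `cen 𝔐 (MonoidHom.id _) θ y ≠ 0`.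
(3) An `ℓ`-subgroup of `FX κ P` which commutes with `y` is mapped isomorphically to an `ℓ`-subgroup of
`G` which commutes with `y`, so it is cyclic by `SUD`. (4) `dx_of` (`DPX/FinalX.lean`). -/
def Stmt_BTA : Prop :=
  ∀ (G B : Type) [Group G] [Fintype G] [Group B] [Fintype B]
    (𝔐 : Ideal (integralClosure ℤ ℂ)) (ℓ : ℕ) [Fact ℓ.Prime], 𝔐.IsMaximal →
    (ℓ : integralClosure ℤ ℂ) ∈ 𝔐 → ∀ κ : B →* MulAut G,
    ∀ f : G → ℤ, (∀ g x, f (g * x * g⁻¹) = f x) → (∀ b x, f (κ b x) = f x) →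
      (∀ x, (ℓ : ℤ) ∣ (∑ y, f y * f (y⁻¹ * x)) - f x) →
      (∀ χ : G → ℂ, IsIrr χ → red 𝔐 (wt χ (fun x => (f x : ℂ))) = 0 →
        DX ℓ (fun g => cg 𝔐 χ g)) →
    ∀ P : Subgroup B, IsPGroup ℓ P → ∀ θ : ↥(FX κ P) → ℂ, IsIrr θ →
      red 𝔐 (wt θ (fun x => (f (x : G) : ℂ))) = 0 → DX ℓ (cen 𝔐 (MonoidHom.id _) θ)

/-- RCW_OTC: a coordinate with nontrivial cyclic defect groups.
USES IDP, BTA, OTB. Adapt `DPC/OUTC.lean` (315 lines): `f` is the function of `IDP` for the property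
`DX ℓ` (`admx_all`, `DPX/AllX.lean`: it is admissible) in the place of `BLKAR_thm`. The factor of
`w` in the product over `Ω` is `0` as there. So one of the factors `red (wt (θ o) (f ^ ℓ ^ k))
= red (wt (θ o) f)` is `0`, and `BTA` (`Pw φ Q (s o)` is an `ℓ`-group: `OUTA.Pw_isPGroup`) gives the
claim. (`red (wt χ f) = 0` implies `DX`: otherwise it is `1` by the last clause of `IDP`.) -/
def Stmt_OTC : Prop :=
  ∀ (Ω G B C X K : Type) [Fintype Ω] [DecidableEq Ω] [Group G] [Fintype G] [Group B]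
    [Fintype B] [Group C] [Group X] [Fintype X] [Group K]
    (𝔐 : Ideal (integralClosure ℤ ℂ)) (ℓ : ℕ) [Fact ℓ.Prime], 𝔐.IsMaximal →
    (ℓ : integralClosure ℤ ℂ) ∈ 𝔐 →
    ∀ (ι : G →* B) (κ : B →* MulAut G) (ρ : B →* C), LocN ι κ ρ →
    ∀ (e : (Ω → G) →* X) (p : X →* K) (φ : X →* Gam (Equiv.Perm Ω) Ω B), ExtS ι κ e p φ →
    ∀ Q : Subgroup X, IsPGroup ℓ Q → Q ⊓ e.range = ⊥ →
    ∀ Y : Subgroup X, (∀ y ∈ Y, Q.map (MulAut.conj y).toMonoidHom = Q) → cN e.range Q ≤ Y →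
    ∀ (χ : X → ℂ) (ξ : Ω → G → ℂ) (w : Ω), IsIrr χ → (∀ a, IsIrr (ξ a)) →
      ip (resj e χ) (fun n => ∏ a, ξ a (n a)) ≠ 0 → DX ℓ (fun g => cg 𝔐 (ξ w) g) →
    ∀ ψ : Y → ℂ, IsIrr ψ → cen 𝔐 Y.subtype ψ = cen 𝔐 (MonoidHom.id X) χ →
      ∃ (w0 : Ω) (m : ↥(FX κ (Pw φ Q w0)) →* Y) (θ : ↥(FX κ (Pw φ Q w0)) → ℂ),
        (∀ g : FX κ (Pw φ Q w0), Single κ e φ Q w0 g (m g)) ∧ IsIrr θ ∧
        DX ℓ (cen 𝔐 (MonoidHom.id _) θ) ∧ ip (resj m ψ) θ ≠ 0

/-! ### The inner sums -/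

/-- RCW_LAY: a layer: the sum over the chains of the normal subgroup `G ^ O` in a subgroup `S`
which contains it.
USES HATW, LVY. Adapt `layer` in `DPC/FinalC.lean`: `j2 : (O → G) →* S` with `(j2 n : Y) = e n`,
`q = p.comp S.subtype`, `ExtS ι κ j2 q.rangeRestrict (φ.comp S.subtype)`, `map_YS` there. `HATG`
(`hatg_all`, `DPV/AllV.lean`) for a prime `r` which does not divide `|C|` (`C` is finite, `ρ` is
surjective; see `RCB/CEQ2.lean`) gives `B'`, `C'`, `LocV ι' κ' ρ'`, `π`, hence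
`RCB.Cov ι κ ρ ι' κ' ρ' π`. `HATW` for `(O, G, B, C, B', C', S, q.range, Y)`, `Pr = DX ℓ`
(invariance: `(admx_all ..).inv`), the vanishing of `VSW` by `LVY`, `i = S.subtype`,
`ω = cen 𝔐 (MonoidHom.id Y) χ`; the hypothesis on the blocks is `BLKP_thm`-type: `Stmt_BLKP`
(`DPW/BLKP.lean`, proved) with `Ω = O`, `X = Y`, `π = id`, `u = 1`, `k = 0`. Finally
`WW_map` and `map_YS` as in `layer`. -/
def Stmt_LAY : Prop :=
  ∀ (G B C O Y K : Type) [Fintype O] [DecidableEq O] [Group G] [Fintype G] [Group B] [Fintype B]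
    [Group C] [Group Y] [Fintype Y] [Group K] (𝔐 : Ideal (integralClosure ℤ ℂ)) (ℓ : ℕ)
    [Fact ℓ.Prime], 𝔐.IsMaximal → (ℓ : integralClosure ℤ ℂ) ∈ 𝔐 →
    ∀ (ι : G →* B) (κ : B →* MulAut G) (ρ : B →* C), LocN ι κ ρ →
    ∀ (e : (O → G) →* Y) (p : Y →* K) (φ : Y →* Gam (Equiv.Perm O) O B), ExtS ι κ e p φ →
    ∀ S : Subgroup Y, e.range ≤ S →
    ∀ (χ : Y → ℂ) (ξ : O → G → ℂ) (o : O), IsIrr χ → (∀ a, IsIrr (ξ a)) →
      ip (resj e χ) (fun n => ∏ a, ξ a (n a)) ≠ 0 → DX ℓ (fun g => cg 𝔐 (ξ o) g) → ∀ d : ℕ,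
      ∑ τ ∈ Ch ℓ (⊥ : Subgroup (O → G)), (-1 : ℚ) ^ τ.card *
        WW 𝔐 ℓ d (cen 𝔐 (MonoidHom.id Y) χ) (stb (mapCh e τ) ⊓ S) = 0

/-- RCW_INR: the inner sum of an outer chain vanishes.
USES OTA, OTC, DRV, OTD, LAY. Adapt `inner_zeroC` in `DPC/FinalC.lean` (it uses `CORE`, `INY`, `MIX`,
`JOIN`, `CONST`: `Pool.Agent.DP.CORE_thm`, `Pool.Agent.DPC.INY_thm`, `MIX_thm`, `JOIN_thm`,
`CONST_thm`). After `JOIN` the inner sums over the chains of `e1` are those of `LAY` with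
`S = stb (mapCh M2.subtype τ2)` (which contains `e1.range`: proof in `layer`, `DPC/FinalC.lean`), the
characters `ξ` of the coordinates come from `CONST` (`ξ o0 = θ`, `m g = e1 (Pi.mulSingle o0 g)` by
`single_unique`), and `DX ℓ (cg 𝔐 θ)` is `DX ℓ (cen 𝔐 (MonoidHom.id _) θ)` (by `rfl` or `Iff.rfl`). -/
def Stmt_INR : Prop :=
  ∀ (Ω G B C X K : Type) [Fintype Ω] [DecidableEq Ω] [Group G] [Fintype G] [Group B]
    [Fintype B] [Group C] [Group X] [Fintype X] [Group K]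
    (𝔐 : Ideal (integralClosure ℤ ℂ)) (ℓ : ℕ) [Fact ℓ.Prime], 𝔐.IsMaximal →
    (ℓ : integralClosure ℤ ℂ) ∈ 𝔐 →
    ∀ (ι : G →* B) (κ : B →* MulAut G) (ρ : B →* C), LocN ι κ ρ →
    ∀ (e : (Ω → G) →* X) (p : X →* K) (φ : X →* Gam (Equiv.Perm Ω) Ω B), ExtS ι κ e p φ →
    ∀ (χ : X → ℂ) (ξ : Ω → G → ℂ) (w : Ω), IsIrr χ → (∀ a, IsIrr (ξ a)) →
      ip (resj e χ) (fun n => ∏ a, ξ a (n a)) ≠ 0 → DX ℓ (fun g => cg 𝔐 (ξ w) g) →
    ∀ Z : Subgroup X, Z.Normal → e.range.Normal → IsPGroup ℓ Z → Z ⊓ e.range = ⊥ →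
    ∀ (d : ℕ) (c : Finset (Subgroup X)), IsCh ℓ Z c → (∀ D ∈ c, D ⊓ e.range = ⊥) →
      innerS ℓ Z e.range (WW 𝔐 ℓ d (cen 𝔐 (MonoidHom.id X) χ)) c = 0

/-- RCW_FNR: the chain sums vanish.
USES INR. As `finalW` in `DPW/FinalW.lean`, with `Pool.Agent.DP.SPLIT_thm`. -/
def Stmt_FNR : Prop :=
  ∀ (Ω G B C X K : Type) [Fintype Ω] [DecidableEq Ω] [Group G] [Fintype G] [Group B]
    [Fintype B] [Group C] [Group X] [Fintype X] [Group K]
    (𝔐 : Ideal (integralClosure ℤ ℂ)) (ℓ : ℕ) [Fact ℓ.Prime], 𝔐.IsMaximal →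
    (ℓ : integralClosure ℤ ℂ) ∈ 𝔐 →
    ∀ (ι : G →* B) (κ : B →* MulAut G) (ρ : B →* C), LocN ι κ ρ →
    ∀ (e : (Ω → G) →* X) (p : X →* K) (φ : X →* Gam (Equiv.Perm Ω) Ω B), ExtS ι κ e p φ →
    ∀ (χ : X → ℂ) (ξ : Ω → G → ℂ) (w : Ω), IsIrr χ → (∀ a, IsIrr (ξ a)) →
      ip (resj e χ) (fun n => ∏ a, ξ a (n a)) ≠ 0 → DX ℓ (fun g => cg 𝔐 (ξ w) g) →
    ∀ Z : Subgroup X, Z.Normal → IsPGroup ℓ Z → Z ⊓ e.range = ⊥ → ∀ d : ℕ,
      KK 𝔐 ℓ d Z (cen 𝔐 (MonoidHom.id X) χ) = 0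

end Pool.Agent.RCW
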