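import Mathlib
import Pool.Agent.RCW.StB
import Pool.Agent.RCB.AllP2

/-!
# RCW_BTA: characters of the fixed points of an `ℓ`-group
-/

namespace Pool.Agent.RCW

open Pool.Agent.DP Pool.Agent.DPV Pool.Agent.DPB Pool.Agent.DPC Pool.Agent.DPW Pool.Agent.DPX
open Pool.Agent.Lib_helper13 Representation

namespace BTA

/-- the weight of the indicator of `1` -/
theorem wt_one {Y : Type} [Group Y] [Fintype Y] {ψ : Y → ℂ} (hψ : IsIrr ψ)
    (f : Y → ℂ) (h1 : f 1 = 1) (h2 : ∀ x, x ≠ 1 → f x = 0) : wt ψ f = 1 := by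
  classical
  obtain ⟨n, hn, hn'⟩ := hψ.exists_degree
  have h0 : ψ 1 ≠ 0 := by
    rw [hn']
    exact_mod_cast hn.ne'
  have h3 : ∑ y, f y * ψ y = ψ 1 := by
    rw [Finset.sum_eq_single (1 : Y)]
    · rw [h1, one_mul]
    · intro y _ hy
      rw [h2 y hy, zero_mul]
    · intro h
      exact absurd (Finset.mem_univ _) h
  rw [wt, h3, div_self h0]

theorem isIntegral_int (m : ℤ) : IsIntegral ℤ (m : ℂ) := by
  have := isIntegral_algebraMap (R := ℤ) (A := ℂ) (x := m)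
  simpa using this

/-- an integer divisible by `ℓ` reduces to zero -/
theorem red_int_zero {𝔐 : Ideal (integralClosure ℤ ℂ)} {ℓ : ℕ}
    (hℓ : (ℓ : integralClosure ℤ ℂ) ∈ 𝔐) {m : ℤ} (hm : (ℓ : ℤ) ∣ m) : red 𝔐 (m : ℂ) = 0 := by
  obtain ⟨c, rfl⟩ := hm
  refine red_eq_zero_of_mem 𝔐 ⟨(ℓ : integralClosure ℤ ℂ) * (c : integralClosure ℤ ℂ),
    𝔐.mul_mem_right _ hℓ, ?_⟩
  push_cast
  rfl

end BTA

open BTA in
/-- RCW_BTA: characters of the fixed points of an `ℓ`-group. -/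
theorem BTA_thm (h1 : Stmt_SUD) : Stmt_BTA := by
  classical
  intro G B _ _ _ _ 𝔐 ℓ _ h𝔐 hℓ κ f hfc hfB hfi hfD P hP θ hθ hred
  have hprime := h𝔐.isPrime
  have h10 : (1 : (integralClosure ℤ ℂ) ⧸ 𝔐) ≠ 0 := by
    intro h0
    apply hprime.ne_top
    rw [Ideal.eq_top_iff_one]
    exact Ideal.Quotient.eq_zero_iff_mem.1 h0
  have hfθ : ∀ g x : ↥(FX κ P), (f ((g * x * g⁻¹ : ↥(FX κ P)) : G) : ℂ) = (f (x : G) : ℂ) := by
    intro g x
    have h2 := hfc (g : G) (x : G)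
    rw [Subgroup.coe_mul, Subgroup.coe_mul, Subgroup.coe_inv, h2]
  -- the complementary function
  let a : G → ℤ := fun x => (if x = 1 then 1 else 0) - f x
  have hacl : ∀ g x : ↥(FX κ P), (a ((g * x * g⁻¹ : ↥(FX κ P)) : G) : ℂ) = (a (x : G) : ℂ) := by
    intro g x
    have h2 := hfc (g : G) (x : G)
    have h3 : ((g * x * g⁻¹ : ↥(FX κ P)) : G) = (g : G) * x * (g : G)⁻¹ := by
      rw [Subgroup.coe_mul, Subgroup.coe_mul, Subgroup.coe_inv]
    have h4 : (g : G) * x * (g : G)⁻¹ = 1 ↔ (x : G) = 1 := conj_eq_one_iff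
    simp only [a, h3, h2, h4]
  have hwa : red 𝔐 (wt θ (fun x => (a (x : G) : ℂ))) = 1 := by
    have e1 : (fun x : ↥(FX κ P) => (a (x : G) : ℂ)) =
        (fun x : ↥(FX κ P) => if (x : G) = 1 then (1 : ℂ) else 0) +
        fun x : ↥(FX κ P) => (-1 : ℂ) * (f (x : G) : ℂ) := by
      funext x
      simp only [a, Pi.add_apply]
      split_ifs <;> push_cast <;> ring
    have e2 : wt θ (fun x : ↥(FX κ P) => if (x : G) = 1 then (1 : ℂ) else 0) = 1 := by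
      refine wt_one hθ _ (if_pos rfl) fun x hx => if_neg fun h => hx (Subtype.ext h)
    have e3 : IsIntegral ℤ (wt θ (fun x => (f (x : G) : ℂ))) :=
      isIntegral_wt hθ _ hfθ fun y => isIntegral_int _
    have e4 : IsIntegral ℤ (-1 : ℂ) := by
      have := isIntegral_int (-1)
      simpa using this
    rw [e1, wt_add, e2, wt_smul, red_add 𝔐 isIntegral_one (e4.mul e3), red_mul 𝔐 e4 e3, hred,
      mul_zero, add_zero, red_one]
  -- an element at which it does not vanish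
  obtain ⟨y, hy1, hy2⟩ : ∃ y : ↥(FX κ P), red 𝔐 ((a (y : G) : ℤ) : ℂ) ≠ 0 ∧
      cen 𝔐 (MonoidHom.id _) θ y ≠ 0 := by
    by_contra hcon
    push Not at hcon
    have h6 := red_wt_eq_pair 𝔐 (MonoidHom.id ↥(FX κ P)) hθ
      (fun x : ↥(FX κ P) => (a (x : G) : ℂ)) hacl (fun x => isIntegral_int _)
    have h7 : pair 𝔐 (fun x : ↥(FX κ P) => (a (x : G) : ℂ))
        (cen 𝔐 (MonoidHom.id ↥(FX κ P)) θ) = 0 := by
      rw [pair]
      refine finsum_eq_zero_of_forall_eq_zero fun C => ?_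
      by_cases h8 : red 𝔐 ((a (C.out : G) : ℤ) : ℂ) = 0
      · rw [h8, zero_mul]
      · rw [hcon _ h8, mul_zero]
    rw [h7] at h6
    apply h10
    rw [← hwa]
    exact h6
  refine dx_of 𝔐 ℓ h𝔐 hℓ hθ y hy2 ?_ ?_
  · intro Q hQ hQy
    have h2 : ¬ (ℓ : ℤ) ∣ (if (y : G) = 1 then 1 else 0) - f (y : G) := fun h =>
      hy1 (red_int_zero hℓ h)
    have h3 : IsCyclic (Q.map (FX κ P).subtype) := by
      refine h1 G 𝔐 ℓ h𝔐 hℓ f hfc hfi hfD (y : G) h2 (Q.map (FX κ P).subtype) (hQ.map _) ?_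
      rintro _ ⟨u, hu, rfl⟩
      rw [Subgroup.mem_centralizer_singleton_iff]
      have h4 := congrArg (Subtype.val) (hQy u hu)
      exact h4
    let φ : Q →* (Q.map (FX κ P).subtype) :=
      { toFun := fun u => ⟨((u : ↥(FX κ P)) : G), ⟨(u : ↥(FX κ P)), u.2, rfl⟩⟩
        map_one' := rfl
        map_mul' := fun _ _ => rfl }
    refine isCyclic_of_injective φ ?_
    intro u v huv
    have h8 : ((φ u : ↥(Q.map (FX κ P).subtype)) : G) = φ v :=
      congrArg (fun z : ↥(Q.map (FX κ P).subtype) => (z : G)) huv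
    exact Subtype.ext (Subtype.ext h8)
  · intro h0
    obtain ⟨ξ, hξ, hd, hF3⟩ := dgn_c G B 𝔐 ℓ h𝔐 hℓ κ P hP θ hθ h0
    have h6 := hF3 (fun x => (f x : ℂ)) (fun g x => by rw [hfc]) (fun b _ x => by rw [hfB])
      (fun x => isIntegral_int _)
    have h7 : red 𝔐 (wt ξ (fun x => (f x : ℂ))) = 0 := by
      rw [← h6]
      exact hred
    have h8 : DX ℓ (cen 𝔐 (MonoidHom.id G) ξ) := hfD ξ hξ h7
    obtain ⟨n, P₁, P', x₀, hAt⟩ := (dxmx_all G 𝔐 ℓ h𝔐 hℓ ξ hξ).1 h8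
    obtain ⟨hn, -, -, -⟩ := (dxmx_all G 𝔐 ℓ h𝔐 hℓ ξ hξ).2 n P₁ P' x₀ hAt
    obtain ⟨m, hm, hcard⟩ := hgtx_all G 𝔐 ℓ n h𝔐 hℓ ξ hξ P₁ P' x₀ hAt
    obtain ⟨k, hk1, hk2⟩ := hd
    rw [hk1] at hcard
    have hcard' : Nat.card G = ℓ ^ n * m * k := by
      exact_mod_cast hcard
    have hℓp : ℓ.Prime := Fact.out
    have hne : Nat.card G ≠ 0 := Nat.card_pos.ne'
    rw [hcard'] at hne
    have hk0 : k ≠ 0 := right_ne_zero_of_mul hne
    have hlm : ℓ ^ n * m ≠ 0 := left_ne_zero_of_mul hne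
    have hm0 : m ≠ 0 := right_ne_zero_of_mul hlm
    rw [hcard', padicValNat.mul hlm hk0, padicValNat.mul (pow_ne_zero _ hℓp.ne_zero) hm0,
      padicValNat.prime_pow] at hk2
    omega

end Pool.Agent.RCW
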