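import Pool.Agent.RCW.StC
import Pool.Agent.DPV.CLIFFV
import Pool.Agent.DPV.PERAV
import Pool.Agent.DPV.PERBV
import Pool.Agent.DPV.EXTV
import Pool.Agent.DPV.REPV
import Pool.Agent.DPV.TRV
import Pool.Agent.DP.QB

/-!
# Module CLIFFW: Clifford theory for the stabilizers of the chains of the base group, with refined
classes and a covering group
-/

namespace Pool.Agent.RCW

open Pool.Agent.DP Pool.Agent.DPV Pool.Agent.DPW Pool.Agent.Lib_helper13 Representation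
open Pool.Agent.Lib_helper13.Dade (pCore DadeHolds dadeSum)

namespace CLIFFW

/-- An element of `W` acts trivially. -/
theorem kap {G B C : Type} [Group G] [Group B] [Group C] {ι : G →* B} {κ : B →* MulAut G}
    {ρ : B →* C} (hcl : ClG ι κ ρ) {W : Subgroup B} (hW : WC ι W) {w : B} (hw : w ∈ W) :
    κ w = 1 := by
  ext g
  have h1 : ι (κ w g * g⁻¹) ∈ W := by
    rw [map_mul, hcl.act, map_inv]
    have h2 : w * ι g * w⁻¹ * (ι g)⁻¹ = w * (ι g * w⁻¹ * (ι g)⁻¹) := by group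
    rw [h2]
    exact W.mul_mem hw (hW.nor.conj_mem _ (W.inv_mem hw) _)
  have h3 := hW.int _ h1
  rw [MulAut.one_apply]
  exact mul_inv_eq_one.1 h3

theorem mem_Stx {G B C : Type} [Group G] [Group B] [Group C] {ι : G →* B} {κ : B →* MulAut G}
    {ρ : B →* C} (hcl : ClG ι κ ρ) {W : Subgroup B} (hW : WC ι W) {w : B} (hw : w ∈ W)
    (σ : Finset (Subgroup G)) (ψ : G → ℂ) : w ∈ Stx κ σ ψ := by
  have h2 := kap hcl hW hw
  refine ⟨fun D _ => ?_, fun x => ?_⟩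
  · rw [h2]
    exact Subgroup.map_id _
  · rw [h2]
    rfl

section Main

variable {O G B C Y K Y₀ X : Type} [Fintype O] [DecidableEq O] [Group G] [Fintype G] [Group B]
    [Fintype B] [Group C] [Group Y] [Fintype Y] [Group K] [Finite K] [Group Y₀] [Fintype Y₀]
    [Group X]

omit [Fintype O] [DecidableEq O] [Fintype G] [Fintype B] [Fintype Y] [Finite K] [Fintype Y₀] in
theorem mem_InY {ι : G →* B} {κ : B →* MulAut G} {ρ : B →* C} (hcl : ClG ι κ ρ)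
    {W : Subgroup B} (hW : WC ι W) {φ : Y →* Gam (Equiv.Perm O) O B} {j : (O → G) →* Y}
    {q : Y →* Y₀} {j₀ : (O → G) →* Y₀} (hC : CovY φ W j q j₀) (τ : Finset (Subgroup (O → G)))
    (θ : O → G → ℂ) {v : Y} (hv : q v = 1) : v ∈ InY κ φ τ θ := by
  intro o
  have h1 := hC.krr v hv
  have h2 := kap hcl hW (hC.krl v hv o)
  rw [h1, inv_one, one_smul]
  refine ⟨fun D _ => ?_, fun x => ?_⟩
  · rw [h2]
    exact Subgroup.map_id _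
  · rw [h2]
    rfl

/-- Admissible data for the definition of the function of the theorem. -/
def Adm (𝔐 : Ideal (integralClosure ℤ ℂ)) (ℓ : ℕ) (ι : G →* B) (κ : B →* MulAut G)
    (ρ : B →* C) (W : Subgroup B) (p : Y →* K) (φ : Y →* Gam (Equiv.Perm O) O B)
    (rt : Subgroup K → (O → O) × (O → Y)) (J : Subgroup K) (e : ℕ)
    (β : O → Set (B → ((integralClosure ℤ ℂ) ⧸ 𝔐) × ℂ)) (D : CLIFFV.Dat O G B) : Prop :=
  D.τ ∈ ClCh O G ℓ ∧ (∀ o, IrrOn (stb (comp D.τ o)) (D.θ o)) ∧ KB κ p φ D.τ D.θ = J ∧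
    ∑ o, df ℓ (stb (comp D.τ o)) (D.θ o) = e ∧ btsW 𝔐 ι κ ρ W p φ D.τ D.θ J = β ∧
    StdV ℓ ι κ ρ p φ D.τ D.θ (rt J).1 (rt J).2 D.g D.S D.f D.m D.M

open Classical in
/-- The function of the theorem. -/
noncomputable def Phi (𝔐 : Ideal (integralClosure ℤ ℂ)) (ℓ d : ℕ) (ι : G →* B)
    (κ : B →* MulAut G) (ρ : B →* C) (W : Subgroup B) (p : Y →* K)
    (φ : Y →* Gam (Equiv.Perm O) O B)
    (rt : Subgroup K → (O → O) × (O → Y)) (i : Y₀ →* X) (ω : X → (integralClosure ℤ ℂ) ⧸ 𝔐)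
    (q : Y →* Y₀)
    (J : Subgroup K) (e : ℕ) (β : O → Set (B → ((integralClosure ℤ ℂ) ⧸ 𝔐) × ℂ)) : ℚ :=
  if h : ∃ D, Adm 𝔐 ℓ ι κ ρ W p φ rt J e β D then
    NNW 𝔐 ℓ d i ω q p φ J e h.choose.g h.choose.S h.choose.f h.choose.m h.choose.M
  else 0

theorem Phi_eq (hD : Stmt_PERDW) (h6 : Stmt_MINW) (𝔐 : Ideal (integralClosure ℤ ℂ)) (ℓ d : ℕ)
    [Fact ℓ.Prime] (h𝔐 : 𝔐.IsMaximal) (hℓ : (ℓ : integralClosure ℤ ℂ) ∈ 𝔐)
    (ι : G →* B) (κ : B →* MulAut G) (ρ : B →* C) (hL : LocV ι κ ρ) (W : Subgroup B)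
    (hW : WC ι W) (j : (O → G) →* Y) (p : Y →* K) (φ : Y →* Gam (Equiv.Perm O) O B)
    (hE : ExtS ι κ j p φ) (q : Y →* Y₀) (j₀ : (O → G) →* Y₀) (hC : CovY φ W j q j₀)
    (rt : Subgroup K → (O → O) × (O → Y))
    (i : Y₀ →* X) (ω : X → (integralClosure ℤ ℂ) ⧸ 𝔐)
    {τ : Finset (Subgroup (O → G))} (hτ : τ ∈ ClCh O G ℓ)
    {θ : O → G → ℂ} (hθ : ∀ o, IrrOn (stb (comp τ o)) (θ o))
    (g : O → B) (S : O → Subgroup B) (f : O → B → ℂ) (m : O → ℕ) (M : O → B → ℕ → ℕ → ℂ)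
    (hS : StdV ℓ ι κ ρ p φ τ θ (rt (KB κ p φ τ θ)).1 (rt (KB κ p φ τ θ)).2 g S f m M) :
    Phi 𝔐 ℓ d ι κ ρ W p φ rt i ω q (KB κ p φ τ θ) (∑ o, df ℓ (stb (comp τ o)) (θ o))
        (btsW 𝔐 ι κ ρ W p φ τ θ (KB κ p φ τ θ)) =
      NNW 𝔐 ℓ d i ω q p φ (KB κ p φ τ θ) (∑ o, df ℓ (stb (comp τ o)) (θ o)) g S f m M := by
  have h : ∃ D, Adm 𝔐 ℓ ι κ ρ W p φ rt (KB κ p φ τ θ) (∑ o, df ℓ (stb (comp τ o)) (θ o))
      (btsW 𝔐 ι κ ρ W p φ τ θ (KB κ p φ τ θ)) D :=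
    ⟨⟨τ, θ, g, S, f, m, M⟩, hτ, hθ, rfl, rfl, rfl, hS⟩
  rw [Phi, dif_pos h]
  obtain ⟨hτ', hθ', hK, -, hb, hS'⟩ := h.choose_spec
  generalize h.choose = D at *
  obtain ⟨E0, -, -, hI⟩ := hD O G B C Y K Y₀ X 𝔐 ℓ ι κ ρ hL W hW j p φ hE q j₀ hC τ hτ θ hθ _ _
    g S f m M hS
  have hint := (hI i).1
  have hK2 := hK
  have hS2 := hS'
  rw [← hK] at hS2
  obtain ⟨E1, -, -, hI'⟩ := hD O G B C Y K Y₀ X 𝔐 ℓ ι κ ρ hL W hW j p φ hE q j₀ hC D.τ hτ' D.θ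
    hθ' _ _ D.g D.S D.f D.m D.M hS2
  have hint' := (hI' i).1
  have hker : ∀ v, q v = 1 → p v ∈ KB κ p φ τ θ :=
    fun v hv => ⟨v, mem_InY hL.cl hW hC τ θ hv, rfl⟩
  set J := KB κ p φ τ θ with hJ
  have hsd := hS.sd
  have hsd' := hS'.sd
  have hex := hS.ex
  have hex' := hS'.ex
  have hSS := hS.hS
  have hSS' := hS'.hS
  rw [← hJ] at hsd hex hSS
  rw [hK] at hsd' hex' hSS' hint'
  refine h6 O G B C Y K Y₀ X 𝔐 ℓ h𝔐 hℓ ι κ ρ hL W hW j p φ hE q j₀ hC J _ g D.g S D.S f D.f m D.m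
    M D.M hsd hsd' hker ?_ ?_ (fun o => (hS'.rg o).trans (hS.rg o).symm) ?_ i hint hint' d _ ω
  · intro o w hw hwU
    rw [hSS o]
    exact ⟨mem_Stx hL.cl hW hw _ _, hwU⟩
  · intro o w hw hwU
    rw [hSS' o]
    exact ⟨mem_Stx hL.cl hW hw _ _, hwU⟩
  intro o
  have hbo := congrFun hb ((rt J).1 o)
  have hm : cgW 𝔐 ι W (D.f o) ∈ btsW 𝔐 ι κ ρ W p φ D.τ D.θ J ((rt J).1 o) :=
    ⟨D.f o, hex' o, rfl⟩
  rw [hbo] at hm
  obtain ⟨f1, hf1, hf2⟩ := hm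
  obtain ⟨-, h2', -, -, h5, -⟩ := EXTV_thm G B C ι κ ρ hL (comp τ ((rt J).1 o))
    (θ ((rt J).1 o)) (hθ _) (vg ρ p φ J ((rt J).1 o))
  obtain ⟨lam, hlin, hlam⟩ := h5 (f o) f1 (hex o) hf1
  have hKL : KL κ ρ (comp τ ((rt J).1 o)) (θ ((rt J).1 o)) (vg ρ p φ J ((rt J).1 o)) =
      vg ρ p φ J ((rt J).1 o) := by
    have hi := hsd.img o
    have hSo := hSS o
    rw [hSo, h2'] at hi
    exact hi
  rw [hKL] at hlin
  refine ⟨lam, hlin, ?_⟩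
  rw [hf2, hlam]

theorem key (h5 : Stmt_PERDW) (h6 : Stmt_MINW) (𝔐 : Ideal (integralClosure ℤ ℂ)) (ℓ d : ℕ)
    [Fact ℓ.Prime] (h𝔐 : 𝔐.IsMaximal) (hℓ : (ℓ : integralClosure ℤ ℂ) ∈ 𝔐)
    (ι : G →* B) (κ : B →* MulAut G) (ρ : B →* C) (hL : LocV ι κ ρ) (W : Subgroup B)
    (hW : WC ι W) (j : (O → G) →* Y) (p : Y →* K) (φ : Y →* Gam (Equiv.Perm O) O B)
    (h : ExtS ι κ j p φ) (q : Y →* Y₀) (j₀ : (O → G) →* Y₀) (hC : CovY φ W j q j₀)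
    (rt : Subgroup K → (O → O) × (O → Y))
    (hrt : ∀ J, RepJ p φ J (rt J).1 (rt J).2)
    (i : Y₀ →* X) (ω : X → (integralClosure ℤ ℂ) ⧸ 𝔐)
    {τ : Finset (Subgroup (O → G))} (hτ : τ ∈ ClCh O G ℓ) (θ : stb τ → ℂ) :
    ∃ E : inert (cS h.cl τ) θ → ℂ, IsIrr θ → IsChr E ∧
      (∀ a (ha : jS h.cl τ a ∈ inert (cS h.cl τ) θ), E ⟨jS h.cl τ a, ha⟩ = θ a) ∧
      ∀ θf : O → G → ℂ, (∀ o, IrrOn (stb (comp τ o)) (θf o)) → CLIFF.out τ θf = θ →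
        (Nat.card (inert (cS h.cl τ) θ) : ℚ) *
          Nat.card {η : (inert (cS h.cl τ) θ).map (pS p j τ) → ℂ // IsIrr η ∧
            PQ 𝔐 ℓ d j q j₀ i ω τ (indc (inert (cS h.cl τ) θ)
              (fun s => E s * ext0 η (pS p j τ s)))} =
        (∏ o, (Nat.card (stb (comp τ o)) : ℚ)) *
          Phi 𝔐 ℓ d ι κ ρ W p φ rt i ω q (KB κ p φ τ θf) (∑ o, df ℓ (stb (comp τ o)) (θf o))
            (btsW 𝔐 ι κ ρ W p φ τ θf (KB κ p φ τ θf)) := by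
  by_cases hθ : IsIrr θ
  · obtain ⟨θf, hθf, rfl⟩ := CLIFF.exists_out IRRPI_thm hτ hθ
    obtain ⟨g, S, f, m, M, hSD⟩ := PERBV_thm EXTV_thm PERAV_thm REPV_thm (TRV_thm EXTV_thm)
      O G B C Y K ℓ ι κ ρ hL j p φ h τ hτ θf hθf
      (rt (KB κ p φ τ θf)).1 (rt (KB κ p φ τ θf)).2 (hrt _)
    obtain ⟨E, hE, hEx, hcount⟩ := h5 O G B C Y K Y₀ X 𝔐 ℓ ι κ ρ hL W hW j p φ h q j₀ hC τ hτ θf
      hθf (rt (KB κ p φ τ θf)).1 (rt (KB κ p φ τ θf)).2 g S f m M hSD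
    refine ⟨E, fun _ => ⟨hE, hEx, ?_⟩⟩
    intro θg hθg hout
    have hu : θg = θf :=
      (IRRPI_thm O G (fun o => stb (comp τ o)) (stb τ) (stb_closed (mem_ClCh.mp hτ).2)).2.1
        θg θf hθg hθf (fun a => congrFun hout a)
    subst hu
    rw [Phi_eq h5 h6 𝔐 ℓ d h𝔐 hℓ ι κ ρ hL W hW j p φ h q j₀ hC rt i ω hτ hθf g S f m M hSD]
    have hmap : (inert (cS h.cl τ) (CLIFF.out τ θg)).map (pS p j τ) = KB κ p φ τ θg :=
      (PERAV_thm O G B C Y K ℓ ι κ ρ hL j p φ h τ hτ θg hθf).2.2.1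
    have hT := CLIFF.card_transport (inert (cS h.cl τ) (CLIFF.out τ θg)) (pS p j τ) E
      (PQ 𝔐 ℓ d j q j₀ i ω τ) hmap
    exact (congrArg (fun n : ℕ => (Nat.card (inert (cS h.cl τ) (CLIFF.out τ θg)) : ℚ) * (n : ℚ))
      hT).trans ((hcount i).2 d ω)
  · exact ⟨fun _ => 0, fun h => absurd h hθ⟩

end Main

/-! ### The characters of the quotient -/

section Quo

variable {O G B Y Y₀ X : Type} [Group G] [Group B] [Group Y] [Fintype Y] [Group Y₀] [Fintype Y₀]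
    [Group X] {φ : Y →* Gam (Equiv.Perm O) O B} {W : Subgroup B} {j : (O → G) →* Y}
    {q : Y →* Y₀} {j₀ : (O → G) →* Y₀}

omit [Fintype Y] [Fintype Y₀] in
theorem q_mem (hC : CovY φ W j q j₀) (τ : Finset (Subgroup (O → G))) (y : YS j τ) :
    q (y : Y) ∈ YS j₀ τ := (hC.sta τ).le y.2

/-- The restriction of `q`. -/
noncomputable def qS (hC : CovY φ W j q j₀) (τ : Finset (Subgroup (O → G))) : YS j τ →* YS j₀ τ :=
  (q.comp (YS j τ).subtype).codRestrict (YS j₀ τ) (q_mem hC τ)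

omit [Fintype Y] [Fintype Y₀] in
theorem qS_surj (hC : CovY φ W j q j₀) (τ : Finset (Subgroup (O → G))) :
    Function.Surjective (qS hC τ) := by
  rintro ⟨z, hz⟩
  obtain ⟨y, rfl⟩ := hC.surj z
  have hy : y ∈ YS j τ := by
    rw [hC.sta]
    exact hz
  exact ⟨⟨y, hy⟩, rfl⟩

theorem irr_of (hC : CovY φ W j q j₀) (τ : Finset (Subgroup (O → G))) {χ : YS j τ → ℂ}
    (hχ : IsIrr χ) {ψ : YS j₀ τ → ℂ}
    (h : ∀ (y : YS j τ) (hy : q y ∈ YS j₀ τ), χ y = ψ ⟨q y, hy⟩) : IsIrr ψ := by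
  classical
  have h1 : ∀ y, χ y = ψ (qS hC τ y) := fun y => h y (q_mem hC τ y)
  obtain ⟨ψ', hψ', h2⟩ := QB.defl (qS_surj hC τ) hχ (by
    have h3 : ∀ n : (qS hC τ).ker, χ n = χ 1 := by
      intro n
      rw [h1, h1, MonoidHom.mem_ker.1 n.2, map_one]
    rw [Finset.sum_congr rfl fun n _ => h3 n, Finset.sum_const, nsmul_eq_mul]
    refine mul_ne_zero ?_ hχ.one_ne_zero
    have : Nonempty (qS hC τ).ker := ⟨1⟩
    exact_mod_cast Finset.card_ne_zero.2 (Finset.univ_nonempty))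
  have h4 : ψ = ψ' := by
    funext z
    obtain ⟨y, rfl⟩ := qS_surj hC τ z
    rw [← h1, h2]
  rw [h4]
  exact hψ'

theorem cnt_eq (hC : CovY φ W j q j₀) (τ : Finset (Subgroup (O → G)))
    (𝔐 : Ideal (integralClosure ℤ ℂ)) (ℓ d : ℕ) (i : Y₀ →* X)
    (ω : X → (integralClosure ℤ ℂ) ⧸ 𝔐) :
    cnt 𝔐 ℓ d (i.comp (YS j₀ τ).subtype) ω =
      Nat.card {χ : YS j τ → ℂ // IsIrr χ ∧ PQ 𝔐 ℓ d j q j₀ i ω τ χ} := by
  unfold cnt
  refine Nat.card_congr (Equiv.ofBijective (fun ψ => ⟨fun y => ψ.1 (qS hC τ y),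
    QB.infl (qS_surj hC τ) ψ.2.1, ψ.1, fun y hy => rfl, ψ.2.2⟩) ⟨?_, ?_⟩)
  · rintro ⟨ψ, hψ⟩ ⟨ψ', hψ'⟩ h
    apply Subtype.ext
    funext z
    obtain ⟨y, rfl⟩ := qS_surj hC τ z
    exact congrFun (congrArg Subtype.val h) y
  · rintro ⟨χ, hχ, ψ, h1, h2⟩
    refine ⟨⟨ψ, irr_of hC τ hχ h1, h2⟩, ?_⟩
    apply Subtype.ext
    funext y
    exact (h1 y (q_mem hC τ y)).symm

end Quo

end CLIFFW

open CLIFFW in
theorem CLIFFW_thm (h1 : Stmt_PERDW) (h2 : Stmt_MINW) : Stmt_CLIFFW := by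
  intro O G B C Y K Y₀ K₀ X _ _ _ _ _ _ _ _ _ _ _ _ _ _ _ 𝔐 ℓ _ h𝔐 hℓ ι κ ρ hL W hW j p φ h q
    j₀ hC c₀ p₀ h₀ d i ω
  have hex : ∀ J : Subgroup K, ∃ rt : (O → O) × (O → Y), RepJ p φ J rt.1 rt.2 := by
    intro J
    obtain ⟨⟨r, t, hr⟩, -⟩ := REPV_thm O G B C Y K ι κ ρ hL j p φ h J
    exact ⟨(r, t), hr⟩
  choose rt hrt using hex
  refine ⟨Phi 𝔐 ℓ d ι κ ρ W p φ rt i ω q, ?_, ?_⟩
  · intro τ hτ
    choose E hE using fun θ : stb τ → ℂ =>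
      key h1 h2 𝔐 ℓ d h𝔐 hℓ ι κ ρ hL W hW j p φ h q j₀ hC rt hrt i ω hτ θ
    have hCl := (CLIFFV.clg (stb τ) (YS j τ) K (jS h.cl τ) (cS h.cl τ) (pS p j τ) (clG_S h.cl τ)
      (fun θ => (inert (cS h.cl τ) θ).map (pS p j τ)) E
      (fun θ hθ => ⟨rfl, (hE θ hθ).1, (hE θ hθ).2.1⟩)).2 (PQ 𝔐 ℓ d j q j₀ i ω τ)
    have hI := (IRRPI_thm O G (fun o => stb (comp τ o)) (stb τ) (stb_closed (mem_ClCh.mp hτ).2))
    rw [cnt_eq hC τ, hCl, hI.2.2, Finset.mul_sum]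
    refine Finset.sum_congr rfl fun θf hθf => ?_
    have hθf' : ∀ o, IrrOn (stb (comp τ o)) (θf o) :=
      fun o => CLIFF.mem_irrOn.mp (Fintype.mem_piFinset.mp hθf o)
    exact (hE (CLIFF.out τ θf) (hI.1 θf hθf')).2.2 θf hθf' rfl
  · intro J e β hne
    have hex : ∃ D, Adm 𝔐 ℓ ι κ ρ W p φ rt J e β D := by
      by_contra hcon
      exact hne (by rw [Phi, dif_neg hcon])
    obtain ⟨⟨τ, θf, g, S, f, m, M⟩, hτ, hθf, hK, he, hb, hSD⟩ := hex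
    dsimp only at hτ hθf hK he hb hSD
    subst hK
    subst he
    subst hb
    choose E hE using fun θ : stb τ → ℂ =>
      key h1 h2 𝔐 ℓ d h𝔐 hℓ ι κ ρ hL W hW j p φ h q j₀ hC rt hrt i ω hτ θ
    have hCl := (CLIFFV.clg (stb τ) (YS j τ) K (jS h.cl τ) (cS h.cl τ) (pS p j τ) (clG_S h.cl τ)
      (fun θ => (inert (cS h.cl τ) θ).map (pS p j τ)) E
      (fun θ hθ => ⟨rfl, (hE θ hθ).1, (hE θ hθ).2.1⟩)).1
    have hI := (IRRPI_thm O G (fun o => stb (comp τ o)) (stb τ) (stb_closed (mem_ClCh.mp hτ).2))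
    have hcount := (hE (CLIFF.out τ θf) (hI.1 θf hθf)).2.2 θf hθf rfl
    have hne2 : (∏ o, (Nat.card (stb (comp τ o)) : ℚ)) *
          Phi 𝔐 ℓ d ι κ ρ W p φ rt i ω q (KB κ p φ τ θf) (∑ o, df ℓ (stb (comp τ o)) (θf o))
            (btsW 𝔐 ι κ ρ W p φ τ θf (KB κ p φ τ θf)) ≠ 0 := by
      refine mul_ne_zero ?_ hne
      rw [Finset.prod_ne_zero_iff]
      intro o _
      exact_mod_cast Nat.card_pos.ne'
    rw [← hcount] at hne2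
    have hne3 := right_ne_zero_of_mul hne2
    have hne4 : Nat.card {η : (inert (cS h.cl τ) (CLIFF.out τ θf)).map (pS p j τ) → ℂ //
        IsIrr η ∧ PQ 𝔐 ℓ d j q j₀ i ω τ (indc (inert (cS h.cl τ) (CLIFF.out τ θf))
              (fun s => E (CLIFF.out τ θf) s * ext0 η (pS p j τ s)))} ≠ 0 := by
      exact_mod_cast hne3
    have hnonempty := (Nat.card_ne_zero.mp hne4).1
    obtain ⟨η, hη, ψ, hψ1, -, hψ2⟩ := hnonempty
    obtain ⟨hχ1, hχ2⟩ := hCl (CLIFF.out τ θf) (hI.1 θf hθf) η hη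
    refine ⟨τ, hτ, θf, hθf, rfl, ψ, irr_of hC τ hχ1 hψ1, hψ2, ?_⟩
    have hres : resj (jS h₀ τ) ψ = resj (jS h.cl τ)
        (indc (inert (cS h.cl τ) (CLIFF.out τ θf))
          (fun s => E (CLIFF.out τ θf) s * ext0 η (pS p j τ s))) := by
      funext a
      unfold resj
      rw [hψ1 (jS h.cl τ a) (q_mem hC τ _)]
      congr 1
      apply Subtype.ext
      exact (hC.emb a).symm
    rw [hres]
    exact hχ2

end Pool.Agent.RCW
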