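import Mathlib
import Pool.Agent.RCW.StC
import Pool.Agent.DPV.COMBV
import Pool.Agent.DPV.PERAV

/-!
# COMBW: the vanishing of the combinatorial sum for the refined classes
-/

namespace Pool.Agent.RCW

open Pool.Agent.DP Pool.Agent.DPV Pool.Agent.DPW Pool.Agent.Lib_helper13 Representation
open Pool.Agent.Lib_helper13.Dade (pCore DadeHolds dadeSum)

theorem COMBW.gTW_trW {G B C : Type} [Group G] [Group B] [Group C]
    (𝔐 : Ideal (integralClosure ℤ ℂ)) {ι : G →* B} {κ : B →* MulAut G} {ρ : B →* C}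
    (hcl : ClG ι κ ρ) (Pr : (G → (integralClosure ℤ ℂ) ⧸ 𝔐) → Prop) (L : Subgroup C)
    (β : Set (B → ((integralClosure ℤ ℂ) ⧸ 𝔐) × ℂ))
    (h : gTW ι Pr (trW 𝔐 ρ L β)) : gTW ι Pr β := by
  obtain ⟨b, ⟨b0, hb0, lam, hlam, rfl⟩, h2⟩ := h
  refine ⟨b0, hb0, ?_⟩
  refine (congrArg Pr (funext fun g => ?_)).mp h2
  have h5 : ρ (ι g) = 1 := (hcl.ker (ι g)).mpr ⟨g, rfl⟩
  simp only [h5, L.one_mem, if_true, hlam.1, red_one, one_mul]

open Classical in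
theorem COMBW_thm (h1 : Stmt_BETW) : Stmt_COMBW := by
  intro O G B C Y K _ _ _ _ _ _ _ _ _ _ _ 𝔐 ℓ _ ι κ ρ hL W hW Pr j p φ hE hT Φ hΦ
  have hdown := DPC.COMBR.down (P := Subgroup K) (E := ℕ)
    (V := O → Set (B → ((integralClosure ℤ ℂ) ⧸ 𝔐) × ℂ))
    ((ClCh O G ℓ).sigma (fun τ => Fintype.piFinset (fun o => irrOn (stb (comp τ o)))))
    (fun x => (-1 : ℚ) ^ x.1.card * ∏ o, (Nat.card (stb (comp x.1 o)) : ℚ))
    (fun x => KB κ p φ x.1 x.2)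
    (fun x => ∑ o, df ℓ (stb (comp x.1 o)) (x.2 o))
    (fun x J => btsW 𝔐 ι κ ρ W p φ x.1 x.2 J)
    (fun J β o => trW 𝔐 ρ (vg ρ p φ J o) (β o))
    (fun β => ∃ o, gTW ι Pr (β o))
    (by
      rintro ⟨τ, θ⟩ hx J hJ
      rw [Finset.mem_sigma, Fintype.mem_piFinset] at hx
      funext o
      have hθ : ∀ o, IrrOn (stb (comp τ o)) (θ o) := fun o => COMB.irrOn_of_mem (hx.2 o)
      exact (h1 G B C 𝔐 ι κ ρ hL W hW).2.2 (comp τ o) (θ o) (hθ o) _ _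
        (DPC.COMBR.vg_mono ρ p φ hJ o)
        ((PERAV_thm O G B C Y K ℓ ι κ ρ hL j p φ hE τ hx.1 θ hθ).2.2.2.2 o))
    (by
      rintro J β ⟨o, ho⟩
      exact ⟨o, COMBW.gTW_trW 𝔐 hL.cl Pr _ _ ho⟩)
    (by
      intro J e0 β hβ
      refine Eq.trans ?_ (hT J e0 β hβ)
      rw [Finset.sum_sigma]
      refine Finset.sum_congr rfl fun τ _ => ?_
      rw [← mul_assoc, Finset.mul_sum]
      refine Finset.sum_congr rfl fun θ _ => ?_
      congr 1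
      exact DPC.COMBR.ite_dec _ _ _ _ _)
  have key := COMB.sum_vanish
    ((ClCh O G ℓ).sigma (fun τ => Fintype.piFinset (fun o => irrOn (stb (comp τ o)))))
    (fun x => (-1 : ℚ) ^ x.1.card * ∏ o, (Nat.card (stb (comp x.1 o)) : ℚ))
    (fun x => (KB κ p φ x.1 x.2, ∑ o, df ℓ (stb (comp x.1 o)) (x.2 o),
      btsW 𝔐 ι κ ρ W p φ x.1 x.2 (KB κ p φ x.1 x.2)))
    (fun v : Subgroup K × ℕ × (O → Set (B → ((integralClosure ℤ ℂ) ⧸ 𝔐) × ℂ)) =>
      Φ v.1 v.2.1 v.2.2)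
    (by
      rintro ⟨J, e0, β⟩ hv
      refine Eq.trans ?_ (hdown J e0 β (hΦ J e0 β hv))
      refine Finset.sum_congr rfl fun x _ => ?_
      congr 1
      by_cases h5 : (KB κ p φ x.1 x.2, ∑ o, df ℓ (stb (comp x.1 o)) (x.2 o),
        btsW 𝔐 ι κ ρ W p φ x.1 x.2 (KB κ p φ x.1 x.2)) = (J, e0, β)
      · rw [if_pos h5, if_pos (by simpa only [Prod.mk.injEq] using h5)]
      · rw [if_neg h5, if_neg (fun h6 => h5 (by simpa only [Prod.mk.injEq] using h6))])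
  rw [Finset.sum_sigma] at key
  refine Eq.trans ?_ key
  refine Finset.sum_congr rfl fun τ _ => ?_
  rw [← mul_assoc, Finset.mul_sum]

end Pool.Agent.RCW
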