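import Mathlib
import Pool.Agent.RCW.StB
import Pool.Agent.DPW.StmtsWA

/-!
# The covering group and the main theorem: statements (part A)

`K ≤ X`, each conjugate of `K` is contained in `K` or commutes with `K` elementwise, `O_ℓ(K) = 1`.
The group `B` which acts on a coordinate `G` of the central product of the conjugates of `K` is an
extension of `G` with action all of `N_X(K) / C_X(K)`; in `DPW/CPB.lean` it was a semidirect product with
a complement of `Inn G`, which exists when `ℓ` does not divide the order of the outer part. Now the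
outer part is arbitrary and `B` comes from `EXB`. Everything else in the proof of the main theorem is as
in `DPW/MainW.lean`, with `FNR` in the place of `finalW`.
-/

namespace Pool.Agent.RCW

open Pool.Agent.DP Pool.Agent.DPV Pool.Agent.DPB Pool.Agent.DPC Pool.Agent.DPW Pool.Agent.DPX
open Pool.Agent.Lib_helper13 Representation
open Pool.Agent.Lib_helper13.Dade (pCore DadeHolds dadeSum IsIrrChar)

/-- RCW_EXB: a group `B` acting on `G` in which `G` is a normal subgroup, with the group `A` as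
group of induced automorphisms and a kernel of order prime to `ℓ`.
Proof. (1) `ℓ` does not divide `|Z(G)|`: an element of order `ℓ` of the centre generates a
normal `ℓ`-subgroup (see `CPB.ker_kap`). (2) Let `F = FreeGroup A` and `a : F →* A` the
canonical surjection, `H = G ⋊ F` (action of `F` through `a`), `ψ : H →* MulAut G`,
`(g, w) ↦ conj g * a w` (as `CPB.kap`; `ψ (inl g) = conj g`, `inl (ψ h g) = h * inl g * h⁻¹`).
`ψ.range = A`. Let `N = ψ.ker`. `N` centralizes `inl G`, and `inl g ∈ N` iff `g ∈ Z(G)`.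
(3) `H` is finitely generated (the finite set `inl '' univ ∪ inr '' (range of)`), `N` has finite index
(`H ⧸ N` is isomorphic to the finite group `A`), so `N` is finitely generated
(`Subgroup.fg_of_index_ne_zero`). (4) Let `F₁ = N.map rightHom ≤ F`, a free group
(`subgroupIsFreeOfIsFree`, Nielsen-Schreier), so the surjection `N →* F₁` has a section
`σ : F₁ →* N` (`IsFreeGroup.lift` or `FreeGroup.lift`, choose preimages of the generators). For `n : N`,
`n * (σ n̄)⁻¹ ∈ N` is in the kernel of `N →* F₁`, hence `= inl z` with `z ∈ Z(G)`, which is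
central in `N`; `n ↦ z` is a homomorphism `r : N →* Z(G)` with `r (inl z) = z` for `z ∈ Z(G)`.
(5) The set of homomorphisms `N →* Z(G)` is finite (a homomorphism is determined by its values at a
finite generating set). Let `R` be the intersection of their kernels, `R' = R.map N.subtype ≤ H`: it is
normal in `H` (for `h ∈ H` and `f : N →* Z(G)`, `n ↦ f (h * n * h⁻¹)` is a homomorphism). `R'` meets
`inl G` trivially (by `r`). `N ⧸ R` embeds in the finite product of copies of `Z(G)` over the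
homomorphisms, so it is finite and each of its elements has order dividing `|Z(G)|`; by Cauchy `ℓ` does
not divide its order. (6) `B = H ⧸ R'` (finite: `|B| = |A| * |N ⧸ R|`), `ι g` the class of `inl g`
(injective), `κ` the homomorphism induced by `ψ` (`R' ≤ N = ψ.ker`), `κ.ker` is the image of `N`,
isomorphic to `N ⧸ R`. `C = B ⧸ ι.range` (normal by `act`), `ρ` the projection. (If `A` is given as a
subgroup of `MulAut G` use `FreeGroup ↥A`, which is in `Type`.) -/
def Stmt_EXB : Prop :=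
  ∀ (G : Type) [Group G] [Fintype G] (ℓ : ℕ) [Fact ℓ.Prime], pCore ℓ G = ⊥ →
    ∀ A : Subgroup (MulAut G), (MulAut.conj : G →* MulAut G).range ≤ A →
      ∃ (B C : Type) (_ : Group B) (_ : Fintype B) (_ : Group C) (ι : G →* B)
        (κ : B →* MulAut G) (ρ : B →* C), LocN ι κ ρ ∧ κ.range = A ∧ ¬ ℓ ∣ Nat.card κ.ker

/-- RCW_CPB: a covering group in which the power of `G` is a normal subgroup.
USES EXB. Adapt `CPB_thm` in `DPW/CPB.lean` (the definitions and lemmas of the section `Glob` there, `XS`,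
`q`, `ph`, `e'`, `wB_inl`, `wB_conj`, `wB_eq_one`, are used as they are, with `B`, `ι`, `κ`, `ρ` of `EXB` in
the place of the semidirect product). The surjectivity uses `κ.range = A`; in the part on the kernel of
`q` an element `y` of order `ℓ` has `y.left w ∈ κ.ker`, `(y.left w) ^ ℓ = 1`, so `y.left w = 1`
because `ℓ` does not divide `|κ.ker|` (in the place of `CPB.ker_kap`). -/
def Stmt_CPB : Prop :=
  ∀ (X G Ω : Type) [Group X] [Finite X] [Group G] [Finite G] [Nontrivial G] [Fintype Ω]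
    [DecidableEq Ω] (ℓ : ℕ) [Fact ℓ.Prime] (e : (Ω → G) →* X) (c : X →* MulAut (Ω → G)),
    pCore ℓ G = ⊥ → (∀ y n, e (c y n) = y * e n * y⁻¹) → (∀ n m, c (e n) m = n * m * n⁻¹) →
    ∀ A : Subgroup (MulAut G), (MulAut.conj : G →* MulAut G).range ≤ A →
      (∀ y, ∃ (s : Equiv.Perm Ω) (α : Ω → MulAut G), (∀ w, α w ∈ A) ∧
        ∀ n w, c y n w = α w (n (s w))) →
      ∃ (X' B C K' : Type) (_ : Group X') (_ : Fintype X') (_ : Group B) (_ : Fintype B)
        (_ : Group C) (_ : Group K') (q : X' →* X) (ι : G →* B) (κ : B →* MulAut G)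
        (ρ : B →* C) (e' : (Ω → G) →* X') (p' : X' →* K') (φ' : X' →* Gam (Equiv.Perm Ω) Ω B),
        Function.Surjective q ∧ ¬ ℓ ∣ Nat.card q.ker ∧ LocN ι κ ρ ∧
        ExtS ι κ e' p' φ' ∧ (∀ n, q (e' n) = e n) ∧
        ∀ Z : Subgroup X, Z.Normal → IsPGroup ℓ Z → (∀ z ∈ Z, c z = 1) →
          ∃ Z' : Subgroup X', Z'.Normal ∧ IsPGroup ℓ Z' ∧ Z' ⊓ e'.range = ⊥ ∧ Z'.map q = Z

/-- RCW_TOP: the main theorem.
USES FNR, CPB (these two as hypotheses; `CPA_thm`, `CPZ_thm`, `CPO_thm`, `HATQ_thm` of `DPW` and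
`SPLIT_thm`, `CORE_thm` of `DP` are proved). Adapt `mainPr` (`DPW/MainW.lean`) with `Pr = DX ℓ`: no
`hidx`, no `HATG`, no `LVPr`; `FNR` in the place of `finalW` for `q ∘ χ`, `ξ'`, `w₀`, `Z'`. Then
`mainX1` in `DPX/FinalX.lean` (with `dx_of` there). -/
def Stmt_TOP : Prop :=
  ∀ (ℓ : ℕ), ℓ.Prime → ∀ (X : Type) [Group X] [Finite X] (K : Subgroup X),
    (∀ x : X, (∀ k ∈ K, x * k * x⁻¹ ∈ K) ∨
      ∀ k ∈ K, ∀ k' ∈ K, (x * k * x⁻¹) * k' = k' * (x * k * x⁻¹)) →
    pCore ℓ K = ⊥ →
    ∀ (𝔐 : Ideal (integralClosure ℤ ℂ)), 𝔐.IsMaximal → (ℓ : integralClosure ℤ ℂ) ∈ 𝔐 →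
    ∀ (ξ : K → ℂ), IsIrrChar ξ → ¬ Dade.HasDefect ℓ ξ 0 →
    ∀ x : K, ¬ Dade.CongrMod 𝔐 (Dade.central ξ x) 0 →
      (∀ Q : Subgroup K, IsPGroup ℓ Q → (∀ u ∈ Q, u * x = x * u) → IsCyclic Q) →
    ∀ (χ : X → ℂ), IsIrrChar χ → ∑ᶠ k : K, χ k * ξ k⁻¹ ≠ 0 → ∀ d : ℕ,
      dadeSum 𝔐 ℓ χ d = 0

end Pool.Agent.RCW
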