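import Mathlib
import Pool.Agent.RCW.StA
import Pool.Agent.DPW.CPB

/-!
# CPB: a covering group in which the power of `G` is a normal subgroup
-/

namespace Pool.Agent.RCW

open Pool.Agent.DP Pool.Agent.DPV Pool.Agent.DPB Pool.Agent.DPC Pool.Agent.DPW Pool.Agent.DPX
open Pool.Agent.Lib_helper13 Representation
open Pool.Agent.Lib_helper13.Dade (pCore DadeHolds dadeSum)

open DPW.CPB in
theorem CPB_thm (h1 : Stmt_EXB) : RCW.Stmt_CPB := by
  intro X G Ω _ _ _ _ _ _ _ ℓ _ e c hcore hec hc A hA hex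
  have hp : ℓ.Prime := Fact.out
  have : Fintype G := Fintype.ofFinite G
  obtain ⟨B, C, _, _, _, ι, κ, ρ, hloc, hrange, hker⟩ := h1 G ℓ hcore A hA
  have hconj : ∀ g, κ (ι g) = MulAut.conj g := by
    intro g
    ext x
    apply hloc.cl.inj
    rw [hloc.cl.act, MulAut.conj_apply, map_mul, map_mul, map_inv]
  have hfin : Finite (Gam (Equiv.Perm Ω) Ω B) := inferInstance
  have hact : ∀ y n, e' c κ ι hconj e hc (((wB κ Ω).comp (ph c κ)) y n) =
      y * e' c κ ι hconj e hc n * y⁻¹ := by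
    intro y n
    have hy : c y.1.1 = wB κ Ω y.1.2 := y.2
    apply Subtype.ext
    apply Prod.ext
    · change e (wB κ Ω y.1.2 n) = y.1.1 * e n * y.1.1⁻¹
      rw [← hy, hec]
    · exact DPW.CPB.wB_conj κ ι hloc.cl.act y.1.2 n
  have hnorm : (e' c κ ι hconj e hc).range.Normal := by
    refine ⟨fun x hx y => ?_⟩
    obtain ⟨n, rfl⟩ := hx
    exact ⟨_, hact y n⟩
  have hinj : ∀ n : Ω → G,
      (SemidirectProduct.inl (fun w => ι (n w)) : Gam (Equiv.Perm Ω) Ω (B)) = 1 →
      n = 1 := by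
    intro n hn
    have h2 : (fun w => ι (n w)) = 1 := SemidirectProduct.inl_injective
      (hn.trans (map_one (SemidirectProduct.inl :
        (Ω → B) →* Gam (Equiv.Perm Ω) Ω (B))).symm)
    funext w
    have h3 : ι (n w) = 1 := congrFun h2 w
    exact hloc.cl.inj (h3.trans (map_one ι).symm)
  refine ⟨XS c κ, B, C, XS c κ ⧸ (e' c κ ι hconj e hc).range, inferInstance,
    Fintype.ofFinite _, inferInstance, inferInstance, inferInstance, inferInstance,
    q c κ, ι, κ, ρ, e' c κ ι hconj e hc, QuotientGroup.mk' _, ph c κ,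
    ?_, ?_, hloc, ?_, fun n => rfl, ?_⟩
  · -- surjective
    intro x
    obtain ⟨s, α, hα, hx⟩ := hex x
    have h2 : ∀ w, ∃ b, κ b = α w := by
      intro w
      rw [← hrange] at hα
      exact hα w
    choose b hb using h2
    refine ⟨⟨(x, ⟨b, s⁻¹⟩), ?_⟩, rfl⟩
    rw [mem_XS]
    ext n w
    rw [hx, wB_apply, hb, inv_inv]
    rfl
  · -- the kernel
    intro hdvd
    obtain ⟨y, hy⟩ := exists_prime_orderOf_dvd_card' (G := (q c κ).ker) ℓ hdvd
    have hy1 : (y : XS c κ).1.1 = 1 := y.2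
    have hy2 : wB κ Ω (y : XS c κ).1.2 = 1 := by
      have : c (y : XS c κ).1.1 = wB κ Ω (y : XS c κ).1.2 := (y : XS c κ).2
      rw [← this, hy1, map_one]
    obtain ⟨h3, h4⟩ := DPW.CPB.wB_eq_one κ _ hy2
    have hpow : (y : XS c κ).1.2 ^ ℓ = 1 := by
      have h5 : y ^ ℓ = 1 := hy ▸ pow_orderOf_eq_one y
      have h6 := congrArg (fun z : (q c κ).ker => (z : XS c κ).1.2) h5
      exact h6
    have hb : (y : XS c κ).1.2 = SemidirectProduct.inl (y : XS c κ).1.2.left := by
      apply SemidirectProduct.ext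
      · simp
      · rw [h3, SemidirectProduct.right_inl]
    have hl : (y : XS c κ).1.2.left ^ ℓ = 1 := by
      rw [hb, ← map_pow] at hpow
      exact SemidirectProduct.inl_injective
        (hpow.trans (map_one (SemidirectProduct.inl :
        (Ω → B) →* Gam (Equiv.Perm Ω) Ω (B))).symm)
    have hl1 : (y : XS c κ).1.2.left = 1 := by
      funext w
      obtain ⟨k, hk⟩ : ∃ k : κ.ker, (k : B) = (y : XS c κ).1.2.left w := ⟨⟨_, h4 w⟩, rfl⟩
      have h5 : k ^ ℓ = 1 := Subtype.ext (by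
        rw [Subgroup.coe_pow, hk]
        exact congrFun hl w)
      have h6 : k = 1 := by
        rcases (Nat.dvd_prime hp).1 (orderOf_dvd_of_pow_eq_one h5) with h | h
        · exact orderOf_eq_one_iff.1 h
        · exact absurd (h ▸ orderOf_dvd_natCard k) hker
      rw [← hk, h6]
      rfl
    have hy3 : y = 1 := by
      apply Subtype.ext
      apply Subtype.ext
      apply Prod.ext
      · exact hy1
      · change (y : XS c κ).1.2 = 1
        rw [hb, hl1, map_one]
    rw [hy3, orderOf_one] at hy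
    exact hp.one_lt.ne hy
  · -- `ExtS`
    refine ⟨⟨?_, hact, ?_⟩, QuotientGroup.mk'_surjective _, fun n => rfl⟩
    · rw [injective_iff_map_eq_one]
      intro n hn
      exact hinj n (congrArg (fun z : XS c κ => z.1.2) hn)
    · intro y
      exact QuotientGroup.eq_one_iff y
  · intro Z hZn hZp hZc
    refine ⟨(Z.prod ⊥).comap (XS c κ).subtype, ?_, ?_, ?_, ?_⟩
    · have := Subgroup.prod_normal Z (⊥ : Subgroup (Gam (Equiv.Perm Ω) Ω (B)))
      exact Subgroup.normal_comap _
    · rintro ⟨y, hy⟩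
      have hy' : y.1.1 ∈ Z ∧ y.1.2 = 1 := hy
      obtain ⟨k, hk⟩ := hZp ⟨y.1.1, hy'.1⟩
      refine ⟨k, ?_⟩
      apply Subtype.ext
      apply Subtype.ext
      apply Prod.ext
      · exact congrArg Subtype.val hk
      · change y.1.2 ^ (ℓ ^ k) = 1
        rw [hy'.2, one_pow]
    · rw [eq_bot_iff]
      rintro y ⟨hy1, n, rfl⟩
      have hy' : (e' c κ ι hconj e hc n).1.1 ∈ Z ∧ (e' c κ ι hconj e hc n).1.2 = 1 := hy1
      rw [Subgroup.mem_bot, hinj n hy'.2, map_one]
    · ext x
      constructor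
      · rintro ⟨y, hy, rfl⟩
        exact hy.1
      · intro hx
        refine ⟨⟨(x, 1), ?_⟩, ⟨hx, rfl⟩, rfl⟩
        rw [mem_XS]
        change c x = wB κ Ω 1
        rw [hZc x hx, map_one]

end Pool.Agent.RCW
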