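import Mathlib
import Pool.Agent.RCW.StD

/-!
# CXR: extensions in the inverse image of a subgroup, extended by zero
-/

namespace Pool.Agent.RCW

open Pool.Agent.DP Pool.Agent.DPV Pool.Agent.DPB Pool.Agent.DPW Pool.Agent.DPX
open Pool.Agent.Lib_helper13 Representation
open Pool.Agent.RCB (iR kR pR RC piR locN_R cov_R Cov XS YL EB Mtc StX Agr Stx_R Stx_pi)

namespace CXR

section

variable {G B C : Type} [Group G] [Group B] [Group C]

/-- The stabilizer in the inverse image of `R`. -/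
def stE (κ : B →* MulAut G) (ρ : B →* C) (R : Subgroup C) (σ : Finset (Subgroup G))
    (ψ : G → ℂ) : (Stx κ σ ψ ⊓ R.comap ρ : Subgroup B) ≃*
      (Stx (kR κ ρ R) σ ψ ⊓ (⊤ : Subgroup R).comap (pR ρ R) : Subgroup ↥(R.comap ρ)) where
  toFun t := ⟨⟨(t : B), (Subgroup.mem_inf.mp t.2).2⟩,
    Subgroup.mem_inf.mpr ⟨(Subgroup.mem_inf.mp t.2).1, trivial⟩⟩
  invFun s := ⟨((s : ↥(R.comap ρ)) : B), Subgroup.mem_inf.mpr
    ⟨(Subgroup.mem_inf.mp s.2).1, s.1.2⟩⟩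
  left_inv _ := rfl
  right_inv _ := rfl
  map_mul' _ _ := rfl

/-- Sums over a subgroup. -/
theorem sum_ext0 [Fintype B] (S : Subgroup B) [Fintype S] (f : B → ℂ)
    (ψ : S → ℂ) : ∑ y : S, f y * ψ y = ∑ t, f t * ext0 ψ t := by
  refine Fintype.sum_of_injective (Subtype.val : S → B) Subtype.val_injective _ _ ?_ ?_
  · intro t ht
    rw [ext0_of_not_mem, mul_zero]
    intro h
    exact ht ⟨⟨t, h⟩, rfl⟩
  · intro y
    rw [ext0_of_mem ψ y.2]

theorem ext0_val {S : Subgroup B} (ψ : S → ℂ) (y : S) : ext0 ψ (y : B) = ψ y :=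
  ext0_of_mem ψ y.2

theorem red_zero0 (𝔐 : Ideal (integralClosure ℤ ℂ)) : red 𝔐 0 = 0 := by
  rw [red_of_integral 𝔐 isIntegral_zero]
  exact map_zero (Ideal.Quotient.mk 𝔐)

theorem cjT_R {ι : G →* B} {κ : B →* MulAut G} {ρ : B →* C} (h : LocN ι κ ρ)
    (R : Subgroup C) (y x : ↥(R.comap ρ)) :
    cjT ι.range (y : B) (x : B) = cjT (iR h R).range y x := by
  classical
  unfold cjT
  have h1 : (∃ t ∈ ι.range, (y : B) = t * x * t⁻¹) ↔
      ∃ t ∈ (iR h R).range, y = t * x * t⁻¹ := by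
    constructor
    · rintro ⟨_, ⟨g, rfl⟩, hg⟩
      exact ⟨iR h R g, ⟨g, rfl⟩, Subtype.ext hg⟩
    · rintro ⟨_, ⟨g, rfl⟩, hg⟩
      exact ⟨ι g, ⟨g, rfl⟩, congrArg Subtype.val hg⟩
  by_cases h2 : ∃ t ∈ ι.range, (y : B) = t * x * t⁻¹
  · rw [if_pos h2, if_pos (h1.1 h2)]
  · rw [if_neg h2, if_neg fun h3 => h2 (h1.2 h3)]

theorem cjT_out {ι : G →* B} {κ : B →* MulAut G} {ρ : B →* C} (h : LocN ι κ ρ)
    (R : Subgroup C) (y : ↥(R.comap ρ)) (x : B) (hx : x ∉ R.comap ρ) :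
    cjT ι.range (y : B) x = 0 := by
  classical
  unfold cjT
  rw [if_neg]
  rintro ⟨_, ⟨g, rfl⟩, hg⟩
  apply hx
  have h1 : ρ (y : B) ∈ R := y.2
  have h2 : ρ (ι g) = 1 := RCB.rho_iota h g
  rw [hg, map_mul, map_mul, map_inv, h2, inv_one, one_mul, mul_one] at h1
  exact h1

end

end CXR

open CXR in
theorem CXR_thm : Stmt_CXR := by
  intro G B C _ _ _ _ _ 𝔐 ι κ ρ h R _ σ ψ f hf
  have hone : ext0 f (1 : B) = f 1 := ext0_val f 1
  refine ⟨⟨⟨?_, ?_⟩, ?_⟩, ?_, ?_⟩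
  · have h1 := hf.1.1.comp_mulEquiv (stE κ ρ R σ ψ)
    have h2 : (fun s : (Stx κ σ ψ ⊓ R.comap ρ : Subgroup B) => ext0 f (s : B)) =
        (fun s : (Stx (kR κ ρ R) σ ψ ⊓ (⊤ : Subgroup R).comap (pR ρ R) :
          Subgroup ↥(R.comap ρ)) => f s) ∘ (stE κ ρ R σ ψ) := by
      funext s
      exact ext0_of_mem f (Subgroup.mem_inf.mp s.2).2
    rw [h2]
    exact h1
  · intro x hx
    by_cases hxR : x ∈ R.comap ρ
    · rw [ext0_of_mem f hxR]
      refine hf.1.2 ⟨x, hxR⟩ fun hx' => hx ?_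
      exact Subgroup.mem_inf.mpr ⟨(Subgroup.mem_inf.mp hx').1, hxR⟩
    · exact ext0_of_not_mem f hxR
  · intro g
    have h1 : ext0 f (ι g) = f (iR h R g) := ext0_val f (iR h R g)
    rw [h1]
    exact hf.2 g
  · intro x
    unfold cgT
    rw [hone, ← sum_ext0]
    congr 2
    refine Finset.sum_congr rfl fun y _ => ?_
    rw [cjT_R h R y x]
  · intro x hx
    unfold cgT
    rw [hone, ← sum_ext0, Finset.sum_eq_zero, zero_div, red_zero0]
    intro y _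
    rw [cjT_out h R y x hx, zero_mul]

end Pool.Agent.RCW
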