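import Mathlib
import Pool.Agent.RCW.StB

/-!
# DRV: the local group of an outer subgroup
-/

namespace Pool.Agent.RCW

open Pool.Agent.DP Pool.Agent.DPV Pool.Agent.DPB Pool.Agent.DPC Pool.Agent.DPW Pool.Agent.DPX
open Pool.Agent.Lib_helper13 Representation
open Pool.Agent.Lib_helper13.Dade (pCore DadeHolds dadeSum)

namespace DRV

section

variable {G B C : Type} [Group G] [Group B] [Group C]
  {ι : G →* B} {κ : B →* MulAut G} {ρ : B →* C}

theorem io_mem (h : ClG ι κ ρ) {P : Subgroup B} {g : G} (hg : g ∈ FX κ P) :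
    ι g ∈ Subgroup.normalizer (P : Set B) := by
  have h2 : ∀ b ∈ P, b * ι g = ι g * b := by
    intro b hb
    have h2 := h.act b g
    rw [mem_FX.mp hg b hb, eq_mul_inv_iff_mul_eq] at h2
    exact h2.symm
  rw [Subgroup.mem_normalizer_iff]
  intro b
  constructor
  · intro hb
    rw [← h2 b hb, mul_inv_cancel_right]
    exact hb
  · intro hb
    have h3 := h2 _ hb
    have h4 : ι g * b * (ι g)⁻¹ * ι g = ι g * b := by group
    rw [h4] at h3
    have h5 := mul_left_cancel h3
    rw [h5]
    exact hb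

theorem conj_mem {P : Subgroup B} {b : B} (hb : b ∈ Subgroup.normalizer (P : Set B)) {p : B}
    (hp : p ∈ P) : b⁻¹ * p * b ∈ P := by
  have h1 := (Subgroup.mem_normalizer_iff.mp (inv_mem hb) p).mp hp
  rw [inv_inv] at h1
  exact h1

theorem fx_act {P : Subgroup B} {b : B} (hb : b ∈ Subgroup.normalizer (P : Set B)) {g : G}
    (hg : g ∈ FX κ P) : κ b g ∈ FX κ P := by
  rw [mem_FX] at hg ⊢
  intro p hp
  have h1 : p * b = b * (b⁻¹ * p * b) := by group
  calc κ p (κ b g) = κ (p * b) g := by rw [map_mul]; rfl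
    _ = κ b (κ (b⁻¹ * p * b) g) := by rw [h1, map_mul]; rfl
    _ = κ b g := by rw [hg _ (conj_mem hb hp)]

variable (κ) in
/-- The action of the normalizer of `P` on the fixed points. -/
def kS (P : Subgroup B) : ↥(Subgroup.normalizer (P : Set B)) →* MulAut ↥(FX κ P) where
  toFun b :=
    { toFun := fun g => ⟨κ b (g : G), fx_act b.2 g.2⟩
      invFun := fun g => ⟨κ ((b : B)⁻¹) (g : G), fx_act (inv_mem b.2) g.2⟩
      left_inv := by
        intro g
        apply Subtype.ext
        change κ ((b : B)⁻¹) (κ b g) = g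
        rw [map_inv, MulAut.inv_apply_self]
      right_inv := by
        intro g
        apply Subtype.ext
        change κ b (κ ((b : B)⁻¹) g) = g
        rw [map_inv, MulAut.apply_inv_self]
      map_mul' := by
        intro x y
        apply Subtype.ext
        exact map_mul (κ b) (x : G) (y : G) }
  map_one' := by
    ext g
    change κ 1 (g : G) = g
    rw [map_one]
    rfl
  map_mul' := by
    intro x y
    ext g
    change κ ((x : B) * y) (g : G) = κ x (κ y g)
    rw [map_mul]
    rfl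

theorem kS_apply (P : Subgroup B) (b : Subgroup.normalizer (P : Set B)) (g : FX κ P) :
    ((kS κ P b g : FX κ P) : G) = κ b g := rfl

/-- The subgroup `P` of its normalizer. -/
abbrev PS (P : Subgroup B) : Subgroup ↥(Subgroup.normalizer (P : Set B)) :=
  P.subgroupOf (Subgroup.normalizer (P : Set B))

instance (P : Subgroup B) : (PS P).Normal := by
  constructor
  intro n hn g
  exact (Subgroup.mem_normalizer_iff.mp g.2 n).mp hn

/-- The projection. -/
abbrev pi (P : Subgroup B) : ↥(Subgroup.normalizer (P : Set B)) →*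
    ↥(Subgroup.normalizer (P : Set B)) ⧸ PS P := QuotientGroup.mk' (PS P)

theorem pi_eq_one (P : Subgroup B) (x : Subgroup.normalizer (P : Set B)) :
    pi P x = 1 ↔ (x : B) ∈ P := by
  change ((x : ↥(Subgroup.normalizer (P : Set B)) ⧸ PS P) = 1) ↔ _
  rw [QuotientGroup.eq_one_iff]
  exact Subgroup.mem_subgroupOf

variable (κ) in
/-- The action of the quotient. -/
def k1 (P : Subgroup B) : (↥(Subgroup.normalizer (P : Set B)) ⧸ PS P) →* MulAut ↥(FX κ P) :=
  QuotientGroup.lift (PS P) (kS κ P) (by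
    intro x hx
    ext g
    rw [kS_apply]
    exact g.2 x (Subgroup.mem_subgroupOf.mp hx))

/-- The embedding. -/
def i1 (h : ClG ι κ ρ) (P : Subgroup B) :
    ↥(FX κ P) →* (↥(Subgroup.normalizer (P : Set B)) ⧸ PS P) :=
  (pi P).comp ((ι.comp (FX κ P).subtype).codRestrict _ fun g => io_mem h g.2)

theorem i1_apply (h : ClG ι κ ρ) (P : Subgroup B) (g : FX κ P)
    (x : Subgroup.normalizer (P : Set B)) (hx : (x : B) = ι g) : pi P x = i1 h P g := by
  unfold i1
  rw [MonoidHom.comp_apply]
  congr 1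
  exact Subtype.ext hx

theorem i1_norm (h : ClG ι κ ρ) (P : Subgroup B) (x : Subgroup.normalizer (P : Set B))
    (a : FX κ P) : i1 h P (k1 κ P (pi P x) a) = pi P x * i1 h P a * (pi P x)⁻¹ := by
  have h1 : i1 h P a = pi P ⟨ι a, io_mem h a.2⟩ := (i1_apply h P a _ rfl).symm
  rw [h1, ← map_mul, ← map_inv, ← map_mul]
  symm
  apply i1_apply
  change (x : B) * ι a * (x : B)⁻¹ = ι (κ x a)
  rw [h.act]

theorem i1_normal (h : ClG ι κ ρ) (P : Subgroup B) : (i1 h P).range.Normal := by
  constructor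
  rintro _ ⟨a, rfl⟩ y
  obtain ⟨x, rfl⟩ := QuotientGroup.mk'_surjective (PS P) y
  exact ⟨k1 κ P (pi P x) a, i1_norm h P x a⟩

end

end DRV

open DRV in
theorem DRV_thm : Stmt_DRV := by
  intro G B C _ _ _ _ _ ι κ ρ hL P hP
  have h := hL.cl
  have hn := i1_normal h P
  refine ⟨↥(Subgroup.normalizer (P : Set B)) ⧸ PS P,
    (↥(Subgroup.normalizer (P : Set B)) ⧸ PS P) ⧸ (i1 h P).range, inferInstance,
    Fintype.ofFinite _, inferInstance, pi P, i1 h P, k1 κ P, QuotientGroup.mk' _, ?_, ?_, ?_, ?_,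
    ?_⟩
  · refine ⟨⟨?_, ?_, ?_⟩, QuotientGroup.mk'_surjective _⟩
    · rw [injective_iff_map_eq_one]
      intro g hg
      have h1 : pi P ⟨ι g, io_mem h g.2⟩ = 1 := by
        rw [i1_apply h P g _ rfl, hg]
      rw [pi_eq_one] at h1
      have h2 : ι g ∈ P ⊓ ι.range := ⟨h1, ⟨g, rfl⟩⟩
      rw [hP, Subgroup.mem_bot] at h2
      apply Subtype.ext
      exact h.inj (h2.trans (map_one ι).symm)
    · intro y a
      obtain ⟨x, rfl⟩ := QuotientGroup.mk'_surjective (PS P) y
      exact i1_norm h P x a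
    · intro y
      exact QuotientGroup.eq_one_iff y
  · exact QuotientGroup.mk'_surjective _
  · exact pi_eq_one P
  · intro g x hx
    exact i1_apply h P g x hx
  · intro x g
    rfl

end Pool.Agent.RCW
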