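import Pool.Agent.RCW.StA

/-!
# RCW_EXB: a finite group in which `G` is normal, with given group of induced automorphisms and a
kernel of order prime to `ℓ` (helper33)

`H = G ⋊ F` with a free group `F`, `N` the kernel of the action on `G`, `B = H / R`, where `R` is the
intersection of the kernels of all homomorphisms from `N` to its centre part `Z(G)`.
-/

set_option autoImplicit false

namespace Pool.Agent.RCW

open Pool.Agent.DP Pool.Agent.DPV Pool.Agent.DPB Pool.Agent.DPC Pool.Agent.DPW Pool.Agent.DPX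
open Pool.Agent.Lib_helper13 Representation
open Pool.Agent.Lib_helper13.Dade (pCore DadeHolds dadeSum IsIrrChar)

namespace EXB

theorem finite_hom (N Z : Type) [Group N] [Group Z] [Finite Z] [hN : Group.FG N] :
    Finite (N →* Z) := by
  obtain ⟨S, hS⟩ := hN.1
  apply Finite.of_injective (fun f : N →* Z => fun s : S => f s)
  intro f g h
  apply MonoidHom.eq_of_eqOn_dense hS
  intro s hs
  exact congrFun h ⟨s, hs⟩

/-- a surjection onto a free group has a section -/
theorem exists_section {N F : Type} [Group N] [Group F] [IsFreeGroup F] (π : N →* F)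
    (h : Function.Surjective π) : ∃ σ : F →* N, ∀ x, π (σ x) = x := by
  choose f hf using h
  refine ⟨IsFreeGroup.lift (fun x => f (IsFreeGroup.of x)), fun x => ?_⟩
  have h1 : π.comp (IsFreeGroup.lift (fun x => f (IsFreeGroup.of x))) = MonoidHom.id F :=
    IsFreeGroup.ext_hom (fun a => by
      rw [MonoidHom.comp_apply, IsFreeGroup.lift_of, hf, MonoidHom.id_apply])
  exact DFunLike.congr_fun h1 x

/-- a homomorphism to a free group with a central kernel: the kernel is a retract -/
theorem exists_retract {N F : Type} [Group N] [Group F] [IsFreeGroup F] (π : N →* F)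
    (hc : ∀ x ∈ π.ker, ∀ y, y * x = x * y) :
    ∃ r : N →* π.ker, ∀ z : π.ker, r (z : N) = z := by
  obtain ⟨σ, hσ⟩ := exists_section π.rangeRestrict π.rangeRestrict_surjective
  have key : ∀ n, n * (σ (π.rangeRestrict n))⁻¹ ∈ π.ker := by
    intro n
    rw [← MonoidHom.ker_rangeRestrict, MonoidHom.mem_ker, map_mul, map_inv, hσ,
      mul_inv_cancel]
  refine ⟨{ toFun := fun n => ⟨n * (σ (π.rangeRestrict n))⁻¹, key n⟩
            map_one' := ?_
            map_mul' := ?_ }, ?_⟩
  · apply Subtype.ext
    simp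
  · intro x y
    apply Subtype.ext
    change x * y * (σ (π.rangeRestrict (x * y)))⁻¹ =
      x * (σ (π.rangeRestrict x))⁻¹ * (y * (σ (π.rangeRestrict y))⁻¹)
    rw [mul_assoc x (σ (π.rangeRestrict x))⁻¹, hc _ (key y) (σ (π.rangeRestrict x))⁻¹, map_mul,
      map_mul]
    group
  · intro z
    apply Subtype.ext
    change (z : N) * (σ (π.rangeRestrict z))⁻¹ = z
    have h1 : π.rangeRestrict (z : N) = 1 := by
      rw [← MonoidHom.mem_ker, MonoidHom.ker_rangeRestrict]
      exact z.2
    rw [h1, map_one, inv_one, mul_one]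

section Core

variable (N Z : Type) [Group N] [Group Z]

/-- all homomorphisms to `Z` together -/
def Phi : N →* ((N →* Z) → Z) where
  toFun n f := f n
  map_one' := by
    funext f
    exact map_one f
  map_mul' x y := by
    funext f
    exact map_mul f x y

theorem mem_ker (n : N) : n ∈ (Phi N Z).ker ↔ ∀ f : N →* Z, f n = 1 := by
  rw [MonoidHom.mem_ker]
  exact funext_iff

end Core

section Act

variable {G : Type} [Group G] (A : Subgroup (MulAut G))

/-- the action of the free group on `A` -/
def th : FreeGroup A →* MulAut G := A.subtype.comp (FreeGroup.lift id)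

/-- the action of `H = G ⋊ F` on `G` -/
def psi : G ⋊[th A] FreeGroup A →* MulAut G :=
  SemidirectProduct.lift MulAut.conj (th A) (by
    intro a
    ext g x
    change (th A a g) * x * (th A a g)⁻¹ =
      th A a (g * ((th A a)⁻¹ x) * g⁻¹)
    rw [map_mul, map_mul, MulAut.apply_inv_self, map_inv])

theorem psi_apply (b : G ⋊[th A] FreeGroup A) (g : G) :
    psi A b g = b.left * th A b.right g * b.left⁻¹ := rfl

theorem psi_inl (g : G) : psi A (SemidirectProduct.inl g) = MulAut.conj g :=
  SemidirectProduct.lift_inl _ _ _ _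

theorem psi_act (b : G ⋊[th A] FreeGroup A) (g : G) :
    (SemidirectProduct.inl (psi A b g) : G ⋊[th A] FreeGroup A) =
      b * SemidirectProduct.inl g * b⁻¹ := by
  ext
  · rw [psi_apply]
    simp
  · simp

theorem th_mem (w : FreeGroup A) : th A w ∈ A := (FreeGroup.lift id w).2

theorem th_of (a : A) : th A (FreeGroup.of a) = a := by
  change ((FreeGroup.lift id (FreeGroup.of a) : A) : MulAut G) = a
  rw [FreeGroup.lift_apply_of]
  rfl

theorem psi_range (hA : (MulAut.conj : G →* MulAut G).range ≤ A) : (psi A).range = A := by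
  apply le_antisymm
  · rintro x ⟨b, rfl⟩
    have h1 : psi A b = MulAut.conj b.left * th A b.right := by
      ext g
      rfl
    rw [h1]
    exact A.mul_mem (hA ⟨_, rfl⟩) (th_mem A _)
  · intro a ha
    refine ⟨SemidirectProduct.inr (FreeGroup.of ⟨a, ha⟩), ?_⟩
    have h1 : psi A (SemidirectProduct.inr (FreeGroup.of ⟨a, ha⟩)) =
        th A (FreeGroup.of ⟨a, ha⟩) := SemidirectProduct.lift_inr _ _ _ _
    rw [h1, th_of]

theorem fg [Finite G] [Finite A] : Group.FG (G ⋊[th A] FreeGroup A) := by
  rw [Group.fg_iff]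
  refine ⟨Set.range (SemidirectProduct.inl : G →* G ⋊[th A] FreeGroup A) ∪
    Set.range (fun a : A => (SemidirectProduct.inr (FreeGroup.of a) : G ⋊[th A] FreeGroup A)),
    ?_, (Set.finite_range _).union (Set.finite_range _)⟩
  rw [eq_top_iff]
  intro x _
  rw [← SemidirectProduct.inl_left_mul_inr_right x]
  apply Subgroup.mul_mem
  · exact Subgroup.subset_closure (Or.inl ⟨_, rfl⟩)
  · have h1 : x.right ∈ Subgroup.closure (Set.range (FreeGroup.of : A → FreeGroup A)) := by
      rw [FreeGroup.closure_range_of]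
      exact Subgroup.mem_top _
    have h2 : (SemidirectProduct.inr x.right : G ⋊[th A] FreeGroup A) ∈
        (Subgroup.closure (Set.range (FreeGroup.of : A → FreeGroup A))).map
          (SemidirectProduct.inr : FreeGroup A →* G ⋊[th A] FreeGroup A) := ⟨_, h1, rfl⟩
    rw [MonoidHom.map_closure] at h2
    refine Subgroup.closure_mono ?_ h2
    rintro y ⟨z, ⟨a, rfl⟩, rfl⟩
    exact Or.inr ⟨a, rfl⟩

/-- the projection of the kernel of the action to the free group -/
def pr : (psi A).ker →* FreeGroup A :=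
  (SemidirectProduct.rightHom : G ⋊[th A] FreeGroup A →* FreeGroup A).comp (psi A).ker.subtype

theorem pr_ker (x : (psi A).ker) (hx : x ∈ (pr A).ker) :
    (x : G ⋊[th A] FreeGroup A) = SemidirectProduct.inl (x : G ⋊[th A] FreeGroup A).left := by
  have h1 : (x : G ⋊[th A] FreeGroup A).right = 1 := hx
  ext
  · simp
  · simp [h1]

theorem comm (g : G) (y : (psi A).ker) :
    (y : G ⋊[th A] FreeGroup A) * SemidirectProduct.inl g =
      SemidirectProduct.inl g * (y : G ⋊[th A] FreeGroup A) := by
  have h1 := psi_act A (y : G ⋊[th A] FreeGroup A) g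
  have h2 : psi A (y : G ⋊[th A] FreeGroup A) = 1 := y.2
  rw [h2] at h1
  change (SemidirectProduct.inl g : G ⋊[th A] FreeGroup A) = _ at h1
  rw [eq_mul_inv_iff_mul_eq] at h1
  exact h1.symm

end Act

/-- central elements of order `ℓ` -/
theorem central_eq_one {G : Type} [Group G] (ℓ : ℕ) (hG : pCore ℓ G = ⊥) (g : G)
    (h4 : MulAut.conj g = 1) (h5 : g ^ ℓ = 1) : g = 1 := by
  have hcen : ∀ x, g * x = x * g := by
    intro x
    have : MulAut.conj g x = x := by rw [h4]; rfl
    rw [MulAut.conj_apply] at this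
    exact mul_inv_eq_iff_eq_mul.1 this
  have h6 : g ∈ pCore ℓ G := by
    have hn : (Subgroup.zpowers g).Normal := by
      refine ⟨fun x hx y => ?_⟩
      obtain ⟨k, rfl⟩ := hx
      have : Commute y (g ^ k) := Commute.zpow_right (hcen y).symm k
      rw [this.eq, mul_inv_cancel_right]
      exact ⟨k, rfl⟩
    have hpg : IsPGroup ℓ (Subgroup.zpowers g) := by
      rintro ⟨x, k, rfl⟩
      refine ⟨1, ?_⟩
      apply Subtype.ext
      change (g ^ k) ^ (ℓ ^ 1) = 1
      rw [pow_one, ← zpow_natCast, ← zpow_mul, mul_comm, zpow_mul, zpow_natCast, h5, one_zpow]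
    exact (le_sSup (show Subgroup.zpowers g ∈ {N : Subgroup G | N.Normal ∧ IsPGroup ℓ N} from
      ⟨hn, hpg⟩)) (Subgroup.mem_zpowers g)
  rw [hG, Subgroup.mem_bot] at h6
  exact h6

end EXB

open EXB in
theorem EXB_thm : Stmt_EXB := by
  intro G _ _ ℓ _ hG A hA
  have hℓ : ℓ.Prime := Fact.out
  haveI : Finite A := inferInstance
  set H := G ⋊[th A] FreeGroup A with hH
  set N : Subgroup H := (psi A).ker with hN
  haveI : Group.FG H := fg A
  haveI : N.FiniteIndex := Subgroup.finiteIndex_ker (psi A)
  haveI : Group.FG N := Subgroup.fg_of_index_ne_zero N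
  set Z : Subgroup N := (pr A).ker with hZ
  have hcz : ∀ x ∈ Z, ∀ y : N, y * x = x * y := by
    intro x hx y
    apply Subtype.ext
    change (y : H) * (x : H) = (x : H) * (y : H)
    rw [pr_ker A x hx]
    exact comm A _ y
  have hconj : ∀ x ∈ Z, MulAut.conj (x : H).left = 1 := by
    intro x hx
    rw [← psi_inl A, ← pr_ker A x hx]
    exact x.2
  haveI : Finite Z := by
    apply Finite.of_injective (fun x : Z => ((x : N) : H).left)
    intro x y hxy
    apply Subtype.ext
    apply Subtype.ext
    rw [pr_ker A x x.2, pr_ker A y y.2]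
    exact congrArg _ hxy
  have hpow : ∀ z : Z, z ^ ℓ = 1 → z = 1 := by
    intro z hz
    have h1 := pr_ker A z z.2
    have h2 : ((z : N) : H).left ^ ℓ = 1 := by
      apply SemidirectProduct.inl_injective (φ := th A)
      rw [map_pow, ← h1, map_one]
      exact congrArg (fun w : Z => ((w : N) : H)) hz
    have h3 := central_eq_one ℓ hG _ (hconj z z.2) h2
    apply Subtype.ext
    apply Subtype.ext
    rw [h1, h3, map_one]
    rfl
  obtain ⟨r, hr⟩ := exists_retract (pr A) hcz
  haveI : Finite (N →* Z) := finite_hom N Z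
  set Φ := Phi N Z with hΦ
  set R : Subgroup H := Φ.ker.map N.subtype with hR
  haveI hRn : R.Normal := by
    refine ⟨?_⟩
    rintro _ ⟨n, hn, rfl⟩ h
    have h1 : ∀ f : N →* Z, f n = 1 := (mem_ker N Z n).1 hn
    refine ⟨MulAut.conjNormal h n, ?_, rfl⟩
    rw [SetLike.mem_coe, mem_ker]
    intro f
    exact h1 (f.comp (MulAut.conjNormal h).toMonoidHom)
  have hRN : R ≤ N := by
    rintro _ ⟨n, _, rfl⟩
    exact n.2
  haveI : R.FiniteIndex := by
    refine ⟨?_⟩
    rw [hR, Subgroup.index_map_subtype]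
    refine mul_ne_zero ?_ Subgroup.FiniteIndex.index_ne_zero
    exact (Subgroup.finiteIndex_ker Φ).index_ne_zero
  haveI : Finite (H ⧸ R) := Subgroup.finite_quotient_of_finiteIndex
  let κ : H ⧸ R →* MulAut G := QuotientGroup.lift R (psi A) (fun x hx => hRN hx)
  let ι : G →* H ⧸ R := (QuotientGroup.mk' R).comp SemidirectProduct.inl
  have hact : ∀ b g, ι (κ b g) = b * ι g * b⁻¹ := by
    intro b g
    obtain ⟨h, rfl⟩ := QuotientGroup.mk'_surjective R b
    have h1 : κ (QuotientGroup.mk' R h) = psi A h := rfl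
    rw [h1]
    change QuotientGroup.mk' R (SemidirectProduct.inl (psi A h g)) = _
    rw [psi_act, map_mul, map_mul, map_inv]
    rfl
  have hinj : Function.Injective ι := by
    rw [injective_iff_map_eq_one]
    intro g hg
    have h1 : (SemidirectProduct.inl g : H) ∈ R := by
      rw [← QuotientGroup.eq_one_iff]
      exact hg
    obtain ⟨n, hn, hng⟩ := h1
    have h2 : n ∈ Z := by
      rw [hZ, MonoidHom.mem_ker]
      change (n : H).right = 1
      have h3 : (n : H) = SemidirectProduct.inl g := hng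
      rw [h3]
      rfl
    have h3 : r n = 1 := (mem_ker N Z n).1 hn r
    have h4 : r ((⟨n, h2⟩ : Z) : N) = ⟨n, h2⟩ := hr ⟨n, h2⟩
    have h5 : (⟨n, h2⟩ : Z) = 1 := by
      rw [← h4]
      exact h3
    have h6 : n = 1 := congrArg Subtype.val h5
    rw [h6] at hng
    apply SemidirectProduct.inl_injective (φ := th A)
    rw [← hng, map_one]
    rfl
  haveI hιn : ι.range.Normal := by
    refine ⟨?_⟩
    rintro _ ⟨g, rfl⟩ b
    exact ⟨κ b g, hact b g⟩
  haveI : Fintype (H ⧸ R) := Fintype.ofFinite _
  refine ⟨H ⧸ R, (H ⧸ R) ⧸ ι.range, inferInstance, inferInstance, inferInstance, ι, κ,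
    QuotientGroup.mk' ι.range, ⟨⟨hinj, hact, ?_⟩, QuotientGroup.mk'_surjective _⟩, ?_, ?_⟩
  · intro y
    exact QuotientGroup.eq_one_iff y
  · refine (le_antisymm ?_ ?_).trans (psi_range A hA)
    · rintro _ ⟨b, rfl⟩
      obtain ⟨h, rfl⟩ := QuotientGroup.mk'_surjective R b
      exact ⟨h, rfl⟩
    · rintro _ ⟨h, rfl⟩
      exact ⟨QuotientGroup.mk' R h, rfl⟩
  · intro hd
    obtain ⟨x, hx⟩ := exists_prime_orderOf_dvd_card' ℓ hd
    obtain ⟨h, hh⟩ := QuotientGroup.mk'_surjective R (x : H ⧸ R)
    have h1 : h ∈ N := by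
      have h2 : κ (x : H ⧸ R) = 1 := x.2
      rw [← hh] at h2
      exact h2
    have h2 : h ^ ℓ ∈ R := by
      rw [← QuotientGroup.eq_one_iff]
      change QuotientGroup.mk' R (h ^ ℓ) = 1
      rw [map_pow, hh]
      have h3 : x ^ ℓ = 1 := by
        rw [← hx]
        exact pow_orderOf_eq_one x
      exact congrArg Subtype.val h3
    have h3 : h ∈ R := by
      obtain ⟨n, hn, hnh⟩ := h2
      refine ⟨⟨h, h1⟩, ?_, rfl⟩
      rw [SetLike.mem_coe, mem_ker]
      intro f
      apply hpow
      have h4 : n = (⟨h, h1⟩ : N) ^ ℓ := by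
        apply Subtype.ext
        exact hnh
      rw [← map_pow, ← h4]
      exact (mem_ker N Z n).1 hn f
    have h4 : x = 1 := by
      apply Subtype.ext
      rw [← hh]
      exact (QuotientGroup.eq_one_iff h).2 h3
    rw [h4, orderOf_one] at hx
    exact hℓ.one_lt.ne hx

end Pool.Agent.RCW
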