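import Mathlib
import Pool.Agent.RCW.StB
import Pool.Agent.DP.SPLIT

/-!
# Project RCW, module FNR: the chain sums vanish (helper54)
-/

namespace Pool.Agent.RCW

open Pool.Agent.DP Pool.Agent.DPV Pool.Agent.DPB Pool.Agent.DPC Pool.Agent.DPW Pool.Agent.DPX
open Pool.Agent.Lib_helper13 Representation
open Pool.Agent.Lib_helper13.Dade (pCore DadeHolds dadeSum)

theorem FNR_thm (h1 : Stmt_INR) : Stmt_FNR := by
  intro Ω G B C X K _ _ _ _ _ _ _ _ _ _ 𝔐 ℓ _ h𝔐 hℓ ι κ ρ hL e p φ hE χ ξ w hχ hξ hover hw Z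
    hZn hZ hZN d
  classical
  have heN : e.range.Normal := by
    constructor
    rintro _ ⟨n, rfl⟩ y
    exact ⟨_, hE.cl.act y n⟩
  rw [KK]
  have h3 := Pool.Agent.DP.SPLIT_thm X ℓ Z e.range hZ hZN
    (WW 𝔐 ℓ d (cen 𝔐 (MonoidHom.id X) χ))
  refine Eq.trans h3 ?_
  refine Finset.sum_eq_zero fun c hc => ?_
  have hc' : IsCh ℓ Z c ∧ ∀ D ∈ c, D ⊓ e.range = ⊥ := by
    rw [OutC, Finset.mem_filter, mem_Ch] at hc
    exact hc
  rw [h1 Ω G B C X K 𝔐 ℓ h𝔐 hℓ ι κ ρ hL e p φ hE χ ξ w hχ hξ hover hw Z hZn heN hZ hZN d c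
    hc'.1 hc'.2, mul_zero]

end Pool.Agent.RCW
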