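import Mathlib
import Pool.Agent.RCW.StC

/-!
# HATW: the inner theorem for a group with a covering group with extendible characters
-/

namespace Pool.Agent.RCW

open Pool.Agent.DP Pool.Agent.DPV Pool.Agent.DPW Pool.Agent.Lib_helper13 Representation
open Pool.Agent.Lib_helper13.Dade (pCore DadeHolds dadeSum)

theorem HATW_thm (h1 : Stmt_INNW) (h2 : Stmt_HATYW) : Stmt_HATW := by
  intro O G B C B' C' Y K X _ _ _ _ _ _ _ _ _ _ _ _ _ _ 𝔐 ℓ _ hM hℓ ι κ ρ hN ι' κ' ρ' π hV hπ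
    hπι hκ Pr hPr hVS j p φ hE i ω hω d
  obtain ⟨Y', K', _, _, _, _, j', p', φ', q, hE', hC⟩ :=
    h2 O G B C B' C' Y K ι κ ρ hN ι' κ' ρ' π hV.locN hπ hπι hκ j p φ hE
  have hW : WC ι' π.ker := by
    refine ⟨inferInstance, fun g hg => ?_⟩
    rw [MonoidHom.mem_ker, hπι] at hg
    exact hN.cl.inj (by rw [hg, map_one])
  have hPr' : ∀ b ω, Pr (fun g => ω (κ' b g)) → Pr ω := by
    intro b ω h
    rw [hκ] at h
    exact hPr (π b) ω h
  exact h1 O G B' C' Y' K' Y K X 𝔐 ℓ hM hℓ ι' κ' ρ' hV π.ker hW Pr hPr' hVS j' p' φ' hE' q j hC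
    _ p hE.cl i ω hω d

end Pool.Agent.RCW
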