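import Pool.Agent.RCW.StC
import Pool.Agent.DPV.HATY

/-!
# Module HATYW: the covering group of `Y₀`
-/

set_option autoImplicit false

namespace Pool.Agent.RCW

open Pool.Agent.DP Pool.Agent.DPV Pool.Agent.DPW Pool.Agent.Lib_helper13 Representation
open Pool.Agent.Lib_helper13.Dade (pCore DadeHolds dadeSum)

open Pool.Agent.DPV.HATY in
theorem HATYW_thm : Stmt_HATYW := by
  intro O G B C B' C' Y₀ K₀ _ _ _ _ _ _ _ _ _ _ _ _ _ ι κ ρ hL ι' κ' ρ' π hL' hπ hι hκ
    j₀ p₀ φ₀ hE
  classical
  have hfin : Finite (Gam (Equiv.Perm O) O B') :=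
    Finite.of_equiv ((O → B') × Equiv.Perm O)
      (SemidirectProduct.equivProd (φ := pAct (Equiv.Perm O) O B')).symm
  have hmp : ∀ n : O → G, φ₀ (j₀ n) = mp O π (SemidirectProduct.inl (fun o => ι' (n o))) := by
    intro n
    rw [hE.jn]
    apply SemidirectProduct.ext
    · funext o
      exact (hι (n o)).symm
    · rfl
  -- the embedding of the base group
  let j' : (O → G) →* CY π φ₀ :=
    { toFun := fun n => ⟨(j₀ n, SemidirectProduct.inl (fun o => ι' (n o))), hmp n⟩
      map_one' := by
        apply Subtype.ext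
        apply Prod.ext
        · exact map_one j₀
        · apply SemidirectProduct.ext
          · funext o
            exact map_one ι'
          · rfl
      map_mul' := by
        intro m n
        apply Subtype.ext
        apply Prod.ext
        · exact map_mul j₀ m n
        · apply SemidirectProduct.ext
          · funext o
            exact map_mul ι' (m o) (n o)
          · rfl }
  let φ' : CY π φ₀ →* Gam (Equiv.Perm O) O B' :=
    (MonoidHom.snd Y₀ (Gam (Equiv.Perm O) O B')).comp (CY π φ₀).subtype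
  let q : CY π φ₀ →* Y₀ := (MonoidHom.fst Y₀ (Gam (Equiv.Perm O) O B')).comp (CY π φ₀).subtype
  have hact : ∀ (y : CY π φ₀) (a : O → G),
      wB κ' O (φ' y) a = wB κ O (φ₀ (q y)) a := by
    intro y a
    have h1 : φ₀ (q y) = mp O π (φ' y) := y.2
    funext o
    rw [wB_apply, wB_apply, h1, hκ]
    rfl
  have hconj : ∀ (y : CY π φ₀) (a : O → G), j' (wB κ' O (φ' y) a) = y * j' a * y⁻¹ := by
    intro y a
    apply Subtype.ext
    apply Prod.ext
    · change j₀ (wB κ' O (φ' y) a) = q y * j₀ a * (q y)⁻¹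
      rw [hact]
      exact hE.cl.act (q y) a
    · change SemidirectProduct.inl (fun o => ι' (wB κ' O (φ' y) a o)) =
        φ' y * SemidirectProduct.inl (fun o => ι' (a o)) * (φ' y)⁻¹
      have h1 := conj_iN (K := Equiv.Perm O) (φ' y) (fun o => ι' (a o))
      refine Eq.trans ?_ h1
      apply SemidirectProduct.ext
      · funext o
        exact hL'.cl.act ((φ' y).left o) (a ((φ' y).right⁻¹ • o))
      · rfl
  have hnormal : j'.range.Normal := by
    refine ⟨?_⟩
    rintro _ ⟨a, rfl⟩ y
    exact ⟨_, hconj y a⟩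
  let p' : CY π φ₀ →* CY π φ₀ ⧸ j'.range := QuotientGroup.mk' j'.range
  have hcl : ClG j' ((wB κ' O).comp φ') p' :=
    { inj := by
        intro a b hab
        have h1 : j₀ a = j₀ b := congrArg (fun x : CY π φ₀ => x.1.1) hab
        exact hE.cl.inj h1
      act := hconj
      ker := fun y => QuotientGroup.eq_one_iff y }
  have hq : Function.Surjective q := by
    intro y
    choose s hs using hπ
    refine ⟨⟨(y, ⟨fun o => s ((φ₀ y).left o), (φ₀ y).right⟩), ?_⟩, rfl⟩
    rw [mem_CY]
    apply SemidirectProduct.ext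
    · funext o
      exact (hs ((φ₀ y).left o)).symm
    · rfl
  have hker : ∀ v : CY π φ₀, q v = 1 → mp O π (φ' v) = 1 := by
    intro v hv
    have h1 : φ₀ (q v) = mp O π (φ' v) := v.2
    rw [← h1, hv, map_one]
  refine ⟨CY π φ₀, CY π φ₀ ⧸ j'.range, inferInstance, Fintype.ofFinite _, inferInstance,
    inferInstance, j', p', φ', q, ⟨hcl, QuotientGroup.mk'_surjective _, fun n => rfl⟩, ?_⟩
  refine ⟨hq, hE.cl.inj, fun n => rfl, fun v hv => ?_, fun v hv o => ?_, fun τ => ?_⟩
  · exact congrArg SemidirectProduct.right (hker v hv)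
  · exact congrFun (congrArg SemidirectProduct.left (hker v hv)) o
  · ext y
    rw [Subgroup.mem_comap, mem_YS_act hcl, mem_YS_act hE.cl]
    refine forall₂_congr fun D _ => forall_congr' fun a => ?_
    change (a ∈ D ↔ wB κ' O (φ' y) a ∈ D) ↔ (a ∈ D ↔ wB κ O (φ₀ (q y)) a ∈ D)
    rw [hact]

end Pool.Agent.RCW
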