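import Pool.Agent.RCW.StB
import Pool.Agent.DPW.IDFP

/-!
# Project RCW: module IDP

Powers of the separating central element are idempotent modulo `ℓ`.
-/

namespace Pool.Agent.RCW.IDP

open Pool.Agent.DP Pool.Agent.DPV Pool.Agent.DPW Pool.Agent.Lib_helper13 Representation
open Pool.Agent.Lib_helper13.Dade (pCore DadeHolds dadeSum)

theorem exists_idem {M : Type*} [Monoid M] [Finite M] (a : M) :
    ∃ m : ℕ, 0 < m ∧ a ^ m * a ^ m = a ^ m := by
  obtain ⟨i0, j0, hne, h0⟩ := Finite.exists_ne_map_eq_of_infinite (fun n : ℕ => a ^ n)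
  obtain ⟨i, j, hij, h⟩ : ∃ i j : ℕ, i < j ∧ a ^ i = a ^ j := by
    rcases lt_or_gt_of_ne hne with h | h
    · exact ⟨i0, j0, h, h0⟩
    · exact ⟨j0, i0, h, h0.symm⟩
  obtain ⟨k, rfl⟩ := Nat.exists_eq_add_of_lt hij
  have h1 : ∀ n : ℕ, i ≤ n → a ^ (n + (k + 1)) = a ^ n := by
    intro n hn
    obtain ⟨c, rfl⟩ := Nat.exists_eq_add_of_le hn
    have e1 : i + c + (k + 1) = (i + k + 1) + c := by ring
    rw [e1, pow_add, ← h, ← pow_add]
  have h2 : ∀ t n : ℕ, i ≤ n → a ^ (n + t * (k + 1)) = a ^ n := by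
    intro t
    induction t with
    | zero => intro n _; simp
    | succ t ih =>
      intro n hn
      have e1 : n + (t + 1) * (k + 1) = (n + t * (k + 1)) + (k + 1) := by ring
      rw [e1, h1 _ (hn.trans (Nat.le_add_right _ _)), ih n hn]
  refine ⟨(i + 1) * (k + 1), Nat.mul_pos (Nat.succ_pos _) (Nat.succ_pos _), ?_⟩
  rw [← pow_add]
  refine h2 (i + 1) _ ?_
  nlinarith

variable {G : Type} [Group G] [Fintype G]

theorem coeff_mul' {R : Type*} [Semiring R] (z w : MonoidAlgebra R G) (x : G) :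
    (z * w).coeff x = ∑ y, z.coeff y * w.coeff (y⁻¹ * x) := by
  rw [MonoidAlgebra.coeff_mul_apply_left, Finsupp.sum_fintype]
  intro y
  rw [zero_mul]

theorem main (𝔐 : Ideal (integralClosure ℤ ℂ)) (ℓ : ℕ) [Fact ℓ.Prime] (h𝔐 : 𝔐.IsMaximal)
    (hℓ : (ℓ : integralClosure ℤ ℂ) ∈ 𝔐) (z : Subalgebra.center ℤ (MonoidAlgebra ℤ G)) :
    ∃ w : Subalgebra.center ℤ (MonoidAlgebra ℤ G),
      (∀ x, (ℓ : ℤ) ∣ (∑ y, (w : MonoidAlgebra ℤ G).coeff y *
        (w : MonoidAlgebra ℤ G).coeff (y⁻¹ * x)) - (w : MonoidAlgebra ℤ G).coeff x) ∧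
      (∀ α : MulAut G, IDFP.ac α z = z → IDFP.ac α w = w) ∧
      ∀ (χ : G → ℂ) (hχ : IsIrr χ), (IDFP.lam 𝔐 hχ z = 0 → IDFP.lam 𝔐 hχ w = 0) ∧
        (IDFP.lam 𝔐 hχ z ≠ 0 → IDFP.lam 𝔐 hχ w = 1) := by
  classical
  have hp : 𝔐.IsPrime := h𝔐.isPrime
  let F := MonoidAlgebra.mapRingHom G (Int.castRingHom (ZMod ℓ))
  have hfin : Finite (MonoidAlgebra (ZMod ℓ) G) := by
    refine Finite.of_injective (fun z : MonoidAlgebra (ZMod ℓ) G => fun x : G => z.coeff x) ?_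
    intro a b hab
    apply MonoidAlgebra.coeff_injective
    ext x
    exact congrFun hab x
  obtain ⟨m, hm, hidem⟩ := exists_idem (F (z : MonoidAlgebra ℤ G))
  have hcong : ∀ x, (ℓ : ℤ) ∣ (∑ y, ((z ^ m : Subalgebra.center ℤ (MonoidAlgebra ℤ G)) :
      MonoidAlgebra ℤ G).coeff y * ((z ^ m : Subalgebra.center ℤ (MonoidAlgebra ℤ G)) :
      MonoidAlgebra ℤ G).coeff (y⁻¹ * x)) - ((z ^ m : Subalgebra.center ℤ (MonoidAlgebra ℤ G)) :
      MonoidAlgebra ℤ G).coeff x := by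
    intro x
    rw [← coeff_mul', ← ZMod.intCast_zmod_eq_zero_iff_dvd, Int.cast_sub, sub_eq_zero]
    have h1 : ∀ u : MonoidAlgebra ℤ G, ((u.coeff x : ℤ) : ZMod ℓ) = (F u).coeff x := by
      intro u
      exact (MonoidAlgebra.coeff_mapRingHom (Int.castRingHom (ZMod ℓ)) u x).symm
    rw [h1, h1, map_mul]
    have h2 : F ((z ^ m : Subalgebra.center ℤ (MonoidAlgebra ℤ G)) : MonoidAlgebra ℤ G) =
        F (z : MonoidAlgebra ℤ G) ^ m := by
      rw [← map_pow]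
      rfl
    rw [h2, hidem]
  refine ⟨z ^ m, hcong, ?_, ?_⟩
  · intro α hα
    rw [map_pow, hα]
  · intro χ hχ
    rw [map_pow]
    refine ⟨fun h => by rw [h, zero_pow hm.ne'], fun h => ?_⟩
    have hne : IDFP.lam 𝔐 hχ z ^ m ≠ 0 := pow_ne_zero m h
    -- the quotient
    choose c hc using hcong
    have hcc : ∀ g x, c (g * x * g⁻¹) = c x := by
      intro g x
      have hl : (ℓ : ℤ) ≠ 0 := by exact_mod_cast (Fact.out : ℓ.Prime).ne_zero
      apply mul_left_cancel₀ hl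
      rw [← hc, ← hc, ← coeff_mul', ← coeff_mul']
      have e1 := IDFP.coeff_conj (z ^ m * z ^ m) g x
      have e2 := IDFP.coeff_conj (z ^ m) g x
      have e1' : (((z ^ m : Subalgebra.center ℤ (MonoidAlgebra ℤ G)) : MonoidAlgebra ℤ G) *
          ((z ^ m : Subalgebra.center ℤ (MonoidAlgebra ℤ G)) : MonoidAlgebra ℤ G)).coeff
            (g * x * g⁻¹) =
          (((z ^ m : Subalgebra.center ℤ (MonoidAlgebra ℤ G)) : MonoidAlgebra ℤ G) *
          ((z ^ m : Subalgebra.center ℤ (MonoidAlgebra ℤ G)) : MonoidAlgebra ℤ G)).coeff x := e1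
      rw [e1', e2]
    let v : Subalgebra.center ℤ (MonoidAlgebra ℤ G) := ⟨elt c, elt_mem_center c hcc⟩
    have hv : z ^ m * z ^ m = z ^ m + (ℓ : Subalgebra.center ℤ (MonoidAlgebra ℤ G)) * v := by
      apply IDFP.cen_ext
      intro x
      have e1 : ((z ^ m * z ^ m : Subalgebra.center ℤ (MonoidAlgebra ℤ G)) :
          MonoidAlgebra ℤ G).coeff x = ((z ^ m : Subalgebra.center ℤ (MonoidAlgebra ℤ G)) :
          MonoidAlgebra ℤ G).coeff x + ℓ * c x := by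
        have := hc x
        rw [← coeff_mul'] at this
        have e2 : ((z ^ m * z ^ m : Subalgebra.center ℤ (MonoidAlgebra ℤ G)) :
          MonoidAlgebra ℤ G).coeff x = (((z ^ m : Subalgebra.center ℤ (MonoidAlgebra ℤ G)) :
            MonoidAlgebra ℤ G) * ((z ^ m : Subalgebra.center ℤ (MonoidAlgebra ℤ G)) :
            MonoidAlgebra ℤ G)).coeff x := rfl
        rw [e2]
        linarith
      rw [e1]
      have e3 : ((z ^ m + (ℓ : Subalgebra.center ℤ (MonoidAlgebra ℤ G)) * v :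
          Subalgebra.center ℤ (MonoidAlgebra ℤ G)) : MonoidAlgebra ℤ G) =
          ((z ^ m : Subalgebra.center ℤ (MonoidAlgebra ℤ G)) : MonoidAlgebra ℤ G) +
            ℓ • elt c := by
        rw [nsmul_eq_mul]
        rfl
      rw [e3, MonoidAlgebra.coeff_add, Finsupp.add_apply, MonoidAlgebra.coeff_smul,
        Finsupp.smul_apply, elt_coeff, nsmul_eq_mul]
    have h3 := congrArg (IDFP.lam 𝔐 hχ) hv
    let _ : Field ((integralClosure ℤ ℂ) ⧸ 𝔐) := Ideal.Quotient.field 𝔐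
    have hch : CharP ((integralClosure ℤ ℂ) ⧸ 𝔐) ℓ := quot_char 𝔐 hℓ
    rw [map_add, map_mul, map_mul, map_natCast, CharP.cast_eq_zero, zero_mul, add_zero,
      map_pow] at h3
    exact mul_left_cancel₀ hne (by rw [h3, mul_one])

end Pool.Agent.RCW.IDP

namespace Pool.Agent.RCW

open Pool.Agent.DP Pool.Agent.DPV Pool.Agent.DPW Pool.Agent.Lib_helper13 Representation
open Pool.Agent.Lib_helper13.Dade (pCore DadeHolds dadeSum)

/-- RCW_IDP -/
theorem IDP_thm : Stmt_IDP := by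
  intro G B _ _ _ 𝔐 ℓ _ h𝔐 hℓ κ Pr hPr
  obtain ⟨f, hf1, hf2, hf3, hf4⟩ := IDFP_thm G B 𝔐 ℓ h𝔐 hℓ κ Pr hPr
  let z : Subalgebra.center ℤ (MonoidAlgebra ℤ G) := ⟨elt f, elt_mem_center f hf1⟩
  have hz : ∀ x, (z : MonoidAlgebra ℤ G).coeff x = f x := fun x => elt_coeff f x
  have hzl : ∀ (χ : G → ℂ) (hχ : IsIrr χ), IDFP.lam 𝔐 hχ z =
      red 𝔐 (wt χ (fun x => (f x : ℂ))) := by
    intro χ hχ
    change red 𝔐 (om χ (elt f)) = _
    rw [om_elt]
    rfl
  obtain ⟨w, hw1, hw2, hw3⟩ := IDP.main 𝔐 ℓ h𝔐 hℓ z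
  refine ⟨fun x => (w : MonoidAlgebra ℤ G).coeff x, fun g x => IDFP.coeff_conj w g x, ?_, hw1,
    ?_, ?_⟩
  · intro b x
    have h1 : IDFP.ac (κ b) z = z := by
      apply IDFP.cen_ext
      intro x
      rw [IDFP.ac_coeff, hz, hz, hf2]
    exact (IDFP.ac_coeff (κ b) w x).symm.trans (by rw [hw2 _ h1])
  · intro χ hχ h
    exact (hw3 χ hχ).1 ((hzl χ hχ).trans (hf3 χ hχ h))
  · intro χ hχ h
    refine (hw3 χ hχ).2 ?_
    rw [hzl]
    exact hf4 χ hχ h

end Pool.Agent.RCW
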