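import Mathlib
import Pool.Agent.RCW.StC
import Pool.Agent.DP.CLOSEDR
import Pool.Agent.DP.CGT
import Pool.Agent.DPV.EXTV

/-!
# INNW: the inner theorem with a covering group
-/

namespace Pool.Agent.RCW

open Pool.Agent.DP Pool.Agent.DPV Pool.Agent.DPW Pool.Agent.Lib_helper13 Representation
open Pool.Agent.Lib_helper13.Dade (pCore DadeHolds dadeSum)

namespace INNW

theorem gT_bet {G B C : Type} [Group G] [Fintype G] [Group B] [Fintype B] [Group C]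
    (𝔐 : Ideal (integralClosure ℤ ℂ)) {ι : G →* B} {κ : B →* MulAut G} {ρ : B →* C}
    (hL : LocV ι κ ρ) (W : Subgroup B) {Pr : (G → (integralClosure ℤ ℂ) ⧸ 𝔐) → Prop}
    {σ : Finset (Subgroup G)}
    {ψ : G → ℂ} (hψ : IrrOn (stb σ) ψ) (h : Pr (fun g => cg 𝔐 ψ g)) (L : Subgroup C) :
    gTW ι Pr (betW 𝔐 ι κ ρ W σ ψ L) := by
  obtain ⟨f, hf⟩ := (EXTV_thm G B C ι κ ρ hL σ ψ hψ L).2.2.1
  refine ⟨_, ⟨f, hf, rfl⟩, ?_⟩
  have h1 : (fun g => (cgW 𝔐 ι W f (ι g)).1) = fun g => cg 𝔐 ψ g := by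
    funext g
    have h2 := (CGT_thm G B C 𝔐 ι κ ρ hL.cl).2.1 f g
    have h3 : (fun h => f (ι h)) = ψ := funext hf.2
    rw [h3] at h2
    exact h2
  rw [h1]
  exact h

/-- the order of the inverse image -/
theorem card_comap {Y Y₀ : Type} [Group Y] [Fintype Y] [Group Y₀] [Fintype Y₀] (q : Y →* Y₀)
    (hq : Function.Surjective q) (S : Subgroup Y₀) :
    Nat.card (S.comap q) = Nat.card q.ker * Nat.card S := by
  classical
  have h1 := Subgroup.card_eq_card_quotient_mul_card_subgroup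
    ((q.subgroupComap S).ker)
  have hs : Function.Surjective (q.subgroupComap S) :=
    MonoidHom.subgroupComap_surjective_of_surjective q S hq
  have h2 : Nat.card (S.comap q ⧸ (q.subgroupComap S).ker) = Nat.card S :=
    Nat.card_congr (QuotientGroup.quotientKerEquivOfSurjective _ hs).toEquiv
  have h3 : Nat.card (q.subgroupComap S).ker = Nat.card q.ker := by
    refine Nat.card_congr ⟨fun x => ⟨((x : S.comap q) : Y), ?_⟩, fun y => ⟨⟨(y : Y), ?_⟩, ?_⟩,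
      fun x => rfl, fun y => rfl⟩
    · have := x.2
      rw [MonoidHom.mem_ker] at this ⊢
      exact congrArg Subtype.val this
    · have := y.2
      rw [MonoidHom.mem_ker] at this
      rw [Subgroup.mem_comap, this]
      exact S.one_mem
    · have := y.2
      rw [MonoidHom.mem_ker] at this ⊢
      exact Subtype.ext this
  rw [h1, h2, h3, mul_comm]

end INNW

open INNW in
theorem INNW_thm (h1 : Stmt_CLIFFW) (h2 : Stmt_TJW) (h3 : Stmt_COMBW) : Stmt_INNW := by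
  intro O G B C Y K Y₀ K₀ X _ _ _ _ _ _ _ _ _ _ _ _ _ _ _ 𝔐 ℓ _ h𝔐 hℓ ι κ ρ hL W hW Pr hPr hVS
    j p φ hE q j₀ hC c₀ p₀ h₀ i ω hω d
  classical
  obtain ⟨Φ, hΦ, hsupp⟩ := h1 O G B C Y K Y₀ K₀ X 𝔐 ℓ h𝔐 hℓ ι κ ρ hL W hW j p φ hE q j₀ hC
    c₀ p₀ h₀ d i ω
  have h5 := CLOSEDR_thm O G B Y K ℓ ι κ j p φ hE
    (fun S => (Nat.card S : ℚ) * cnt 𝔐 ℓ d (i.comp (S.map q).subtype) ω)
  have hmap : ∀ τ : Finset (Subgroup (O → G)), (YS j τ).map q = YS j₀ τ := fun τ => by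
    rw [hC.sta τ, Subgroup.map_comap_eq_self_of_surjective hC.surj]
  have hcnt : ∀ τ : Finset (Subgroup (O → G)),
      cnt 𝔐 ℓ d (i.comp ((YS j τ).map q).subtype) ω = cnt 𝔐 ℓ d (i.comp (YS j₀ τ).subtype) ω := by
    intro τ
    rw [hmap τ]
  have hcard : ∀ τ : Finset (Subgroup (O → G)),
      (Nat.card (YS j τ) : ℚ) = (Nat.card q.ker : ℚ) * (Nat.card (YS j₀ τ) : ℚ) := by
    intro τ
    rw [hC.sta τ, card_comap q hC.surj, Nat.cast_mul]
  have h6 := h3 O G B C Y K 𝔐 ℓ ι κ ρ hL W hW Pr j p φ hE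
    (h2 O G B C Y K 𝔐 ℓ h𝔐 hℓ ι κ ρ hL W hW Pr hPr hVS j p φ hE) Φ (by
      intro J d' β hne
      obtain ⟨τ, hτ, θ, hθ, hb, ψ, hψ, hcen, hψθ⟩ := hsupp J d' β hne
      obtain ⟨o, ho⟩ := hω τ hτ θ hθ ψ hψ hψθ hcen
      refine ⟨o, ?_⟩
      rw [← hb]
      exact gT_bet 𝔐 hL W (hθ o) ho _)
  have hq0 : (Nat.card q.ker : ℚ) ≠ 0 := by exact_mod_cast Nat.card_pos.ne'
  refine (mul_eq_zero.1 ?_).resolve_left hq0
  rw [Finset.mul_sum, ← h6]
  calc _ = ∑ τ ∈ Ch ℓ (⊥ : Subgroup (O → G)), (-1 : ℚ) ^ τ.card *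
        ((Nat.card (YS j τ) : ℚ) * cnt 𝔐 ℓ d (i.comp ((YS j τ).map q).subtype) ω) := by
        refine Finset.sum_congr rfl fun τ _ => ?_
        rw [hcnt τ, hcard τ]
        ring
    _ = _ := by
        rw [h5]
        refine Finset.sum_congr rfl fun τ hτ => ?_
        rw [hcnt τ, hΦ τ hτ]

end Pool.Agent.RCW
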