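import Mathlib
import Pool.Agent.RCW.StB
import Pool.Agent.DP.CORE
import Pool.Agent.DPC.FinalC
import Pool.Agent.DPC.JOIN
import Pool.Agent.DPC.MIX
import Pool.Agent.DPC.INY
import Pool.Agent.DPC.CONST

/-!
# Project RCW, module INR: the inner sum of an outer chain vanishes (helper54)
-/

namespace Pool.Agent.RCW

open Pool.Agent.DP Pool.Agent.DPV Pool.Agent.DPB Pool.Agent.DPC Pool.Agent.DPW Pool.Agent.DPX
open Pool.Agent.Lib_helper13 Representation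
open Pool.Agent.Lib_helper13.Dade (pCore DadeHolds dadeSum)

namespace INR

/-- The stabilizer of a chain of a subgroup which centralizes `e.range` contains `e.range`. -/
theorem range_le_stb {N Y : Type} [Group N] [Group Y] [Fintype Y] (e : N →* Y) (M2 : Subgroup Y)
    (hcomm : ∀ x ∈ M2, ∀ n, x * e n = e n * x) (τ2 : Finset (Subgroup M2)) :
    e.range ≤ stb (mapCh M2.subtype τ2) := by
  classical
  rintro _ ⟨n, rfl⟩
  rw [mem_stb']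
  intro D hD x
  obtain ⟨D', hD', rfl⟩ := mem_mapCh.mp hD
  have h0 : ∀ x, x ∈ D'.map M2.subtype → e n * x * (e n)⁻¹ = x := by
    rintro _ ⟨y, hy, rfl⟩
    rw [Subgroup.coe_subtype, ← hcomm y y.2 n, mul_assoc, mul_inv_cancel, mul_one]
  constructor
  · intro hx
    rw [h0 x hx]
    exact hx
  · intro hx
    have h2 : x = (e n)⁻¹ * (e n * x * (e n)⁻¹) * e n := by group
    have h3 : (e n)⁻¹ * (e n * x * (e n)⁻¹) * e n = e n * x * (e n)⁻¹ := by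
      have h4 : ∃ y : M2, (y : Y) = e n * x * (e n)⁻¹ := by
        obtain ⟨y, hy, hy'⟩ := hx
        exact ⟨y, hy'⟩
      obtain ⟨y, hy⟩ := h4
      rw [← hy, mul_assoc, hcomm y y.2 n, inv_mul_cancel_left]
    rw [h2, h3]
    exact hx

end INR

theorem INR_thm (h1 : Stmt_OTA) (h2 : Stmt_OTC) (h3 : Stmt_DRV) (h4 : Stmt_OTD)
    (h5 : Stmt_LAY) : Stmt_INR := by
  intro Ω G B C X K _ _ _ _ _ _ _ _ _ _ 𝔐 ℓ _ h𝔐 hℓ ι κ ρ hL e p φ hE χ ξ w hχ hξ hover hw Z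
    hZn heN hZ hZN d c hc hcN
  classical
  by_cases hco : pCore ℓ (cN e.range (tp Z c)) = ⊥
  swap
  · exact Pool.Agent.DP.CORE_thm X ℓ Z e.range _ c hc hco
  have hprime : 𝔐.IsPrime := h𝔐.isPrime
  obtain ⟨hQ, hQN, hst, hcNs, -, hsum⟩ := Pool.Agent.DPC.INY_thm X ℓ Z e.range c hc hcN hZN hZ
  have hA := h1 Ω G B C X K ℓ ι κ ρ hL e p φ hE (tp Z c) hQ hQN hco
  set M : Subgroup (stb c) := e.range.subgroupOf (stb c) with hMdef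
  rw [hsum M (fun y => Subgroup.mem_subgroupOf) _]
  obtain ⟨F, hF1, hF2⟩ := Pool.Agent.DPC.MIX_thm X (stb c) 𝔐 ℓ (stb c).subtype
    (cen 𝔐 (MonoidHom.id X) χ)
  have k1 : ∀ τ ∈ Ch ℓ (⊥ : Subgroup M), (-1 : ℚ) ^ τ.card *
      WW 𝔐 ℓ d (cen 𝔐 (MonoidHom.id X) χ) ((stb (mapCh M.subtype τ)).map (stb c).subtype) =
      ∑ ω' ∈ F, (-1 : ℚ) ^ τ.card * WW 𝔐 ℓ d ω' (stb (mapCh M.subtype τ)) := by
    intro τ _
    rw [WW_map 𝔐 ℓ d _ (stb c).subtype (Subgroup.subtype_injective _), hF1, Finset.mul_sum,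
      Finset.mul_sum]
    rfl
  rw [Finset.sum_congr rfl k1, Finset.sum_comm]
  refine Finset.sum_eq_zero fun ω' hω' => ?_
  by_contra hne
  obtain ⟨τ, hτ, k2⟩ := Finset.exists_ne_zero_of_sum_ne_zero hne
  have k3 : cnt 𝔐 ℓ d (stb (mapCh M.subtype τ)).subtype ω' ≠ 0 := by
    intro h
    rw [WW, h] at k2
    simp at k2
  obtain ⟨ψ, hψ, hcen⟩ := Pool.Agent.DPC.FinalC.exists_of_cnt k3
  obtain ⟨χ1, hχ1, hcen1⟩ := exists_irr_of_mult 𝔐 hψ (exists_irr_of_chain 𝔐 hℓ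
    (Pool.Agent.DPC.FinalC.isCh_sub (Subgroup.subtype_injective _) (mem_Ch.mp hτ)) hψ)
  have hω : cen 𝔐 (MonoidHom.id (stb c)) χ1 = ω' := by rw [hcen1, hcen]
  have k4 : cen 𝔐 (stb c).subtype χ1 = cen 𝔐 (MonoidHom.id X) χ := by
    have k5 := hF2 ω' hω' ⊤ (fun y => χ1 (Subgroup.topEquiv y)) (hχ1.comp_mulEquiv _) (by
      rw [← hω]
      exact cen_comp_equiv 𝔐 Subgroup.topEquiv (MonoidHom.id (stb c)) χ1)
    rw [← k5]
    exact (cen_comp_equiv 𝔐 Subgroup.topEquiv (stb c).subtype χ1).symm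
  obtain ⟨w0, m, θ, hm, hθ, hdθ, hip⟩ := h2 Ω G B C X K 𝔐 ℓ h𝔐 hℓ ι κ ρ hL e p φ hE
    (tp Z c) hQ hQN (stb c) hst hcNs χ ξ w hχ hξ hover hw χ1 hχ1 k4
  obtain ⟨B1, C1, _, _, _, π, ι1, κ1, ρ1, hL1, hπs, hπk, hπι, hπκ⟩ :=
    h3 G B C ι κ ρ hL (Pw φ (tp Z c) w0) (hA w0).2
  obtain ⟨O1, K1, _, _, _, _, e1, p1, φ1, M2, o0, hE1, hM2n, hM2e, hM2m, hM2c, hsing⟩ :=
    h4 Ω G B C X K ℓ ι κ ρ hL e p φ hE (tp Z c) hQ hQN w0 (hA w0).2 (stb c) hst hcNs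
      B1 π ι1 κ1 hπs hπk hπι hπκ
  have hm1 : ∀ g, m g = e1 (Pi.mulSingle o0 g) := fun g =>
    Subtype.ext (Pool.Agent.DPC.FinalC.single_unique (hm g) (hsing g))
  apply hne
  have hM : M = e1.range ⊔ M2 := by
    ext y
    rw [hMdef, Subgroup.mem_subgroupOf]
    exact hM2m y
  have hn1 : e1.range.Normal := by
    constructor
    rintro _ ⟨n, rfl⟩ y
    rw [← hE1.cl.act]
    exact ⟨_, rfl⟩
  rw [Pool.Agent.DPC.JOIN_thm (stb c) (O1 → ↥(FX κ (Pw φ (tp Z c) w0))) ℓ e1 M2 M hE1.cl.inj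
    hn1 hM2n hM2e hM (WW 𝔐 ℓ d ω')]
  refine Finset.sum_eq_zero fun τ2 _ => ?_
  have k6 : (fun g => χ1 (e1 (Pi.mulSingle o0 g))) = resj m χ1 := by
    funext g
    rw [resj, hm1]
  obtain ⟨ξ1, hξ1, hξo, hover1⟩ := Pool.Agent.DPC.CONST_thm O1
    ↥(FX κ (Pw φ (tp Z c) w0)) (stb c) e1 hE1.cl.inj χ1 o0 θ hχ1 hθ (by rw [k6]; exact hip)
  rw [← hω, h5 ↥(FX κ (Pw φ (tp Z c) w0)) B1 C1 O1 (stb c) K1 𝔐 ℓ h𝔐 hℓ ι1 κ1 ρ1 hL1 e1 p1 φ1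
    hE1 (stb (mapCh M2.subtype τ2)) (INR.range_le_stb e1 M2 hM2c τ2) χ1 ξ1 o0 hχ1 hξ1 hover1
    (by rw [hξo]; exact hdθ) d, mul_zero]

end Pool.Agent.RCW
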