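import Mathlib
import Pool.Agent.RCW.StB
import Pool.Agent.DPC.FinalC
import Pool.Agent.DPX.AllX

/-!
# RCW_LAY: a layer of the inner sum
-/

namespace Pool.Agent.RCW

open Pool.Agent.DP Pool.Agent.DPV Pool.Agent.DPB Pool.Agent.DPC Pool.Agent.DPW Pool.Agent.DPX
open Pool.Agent.Lib_helper13 Representation
open Pool.Agent.Lib_helper13.Dade (pCore DadeHolds dadeSum)

/-- RCW_LAY. -/
theorem LAY_thm (h1 : Stmt_HATW) (h2 : Stmt_LVY) : Stmt_LAY := by
  classical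
  intro G B C O Y K _ _ _ _ _ _ _ _ _ _ 𝔐 ℓ _ h𝔐 hℓ ι κ ρ hN e p φ hE S hS χ ξ o hχ hξ hover
    hDX d
  -- the covering group with extendible characters
  have hfinC : Finite C := Finite.of_surjective ρ hN.surj
  obtain ⟨r, hr1, hr2⟩ := Nat.exists_infinite_primes (Nat.card C + 1)
  have hrF : Fact r.Prime := ⟨hr2⟩
  have hrC : ¬ r ∣ Nat.card C := by
    intro hd
    have := Nat.le_of_dvd Nat.card_pos hd
    omega
  obtain ⟨B', C', _, _, _, ι', κ', ρ', π, hV, hπ, hπι, hκ, -, -⟩ :=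
    hatg_all G B C r ι κ ρ hN hrC
  have hCov : Pool.Agent.RCB.Cov ι κ ρ ι' κ' ρ' π := ⟨hN, hV.locN, hπ, hπι, hκ⟩
  -- the extension in `S`
  have heS : ∀ n, e n ∈ S := fun n => hS ⟨n, rfl⟩
  let j2 : (O → G) →* S := e.codRestrict S heS
  have hj2 : ∀ n, (j2 n : Y) = e n := fun _ => rfl
  let q : S →* K := p.comp S.subtype
  have hE2 : ExtS ι κ j2 q.rangeRestrict (φ.comp S.subtype) := by
    refine ⟨⟨?_, ?_, ?_⟩, q.rangeRestrict_surjective, ?_⟩
    · intro a b hab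
      exact hE.cl.inj (congrArg Subtype.val hab)
    · intro y a
      exact Subtype.ext (hE.cl.act (y : Y) a)
    · intro y
      constructor
      · intro hy
        obtain ⟨n, hn⟩ := (hE.cl.ker (y : Y)).mp (congrArg Subtype.val hy)
        exact ⟨n, Subtype.ext hn⟩
      · rintro ⟨n, rfl⟩
        apply Subtype.ext
        exact (hE.cl.ker _).mpr ⟨n, rfl⟩
    · intro n
      exact hE.jn n
  have hadm : AdmP ℓ κ (fun ω : G → (integralClosure ℤ ℂ) ⧸ 𝔐 => DX ℓ ω) :=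
    admx_all G B 𝔐 ℓ h𝔐 κ
  have h3 := h1 O G B C B' C' S q.range Y 𝔐 ℓ h𝔐 hℓ ι κ ρ hN ι' κ' ρ' π hV hπ hπι hκ
    (fun ω : G → (integralClosure ℤ ℂ) ⧸ 𝔐 => DX ℓ ω) hadm.inv
    (h2 G B C B' C' 𝔐 ℓ h𝔐 hℓ ι κ ρ ι' κ' ρ' π hCov hV)
    j2 q.rangeRestrict (φ.comp S.subtype) hE2 S.subtype (cen 𝔐 (MonoidHom.id Y) χ)
    (by
      intro τ hτ θ hθ ψ hψ hψθ hcen
      exact (BLKP_thm IDFP_thm) O O G B Y S K q.range 𝔐 ℓ h𝔐 hℓ ι κ e p φ j2 q.rangeRestrict
        (φ.comp S.subtype) hE hE2 (fun ω : G → (integralClosure ℤ ℂ) ⧸ 𝔐 => DX ℓ ω) hadm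
        S.subtype id (fun _ => 1)
        (by
          intro o'
          refine ⟨0, ?_⟩
          rw [pow_zero, Nat.card_eq_one_iff_unique]
          refine ⟨⟨?_⟩, ⟨⟨o', rfl⟩⟩⟩
          rintro ⟨a, ha⟩ ⟨b, hb⟩
          apply Subtype.ext
          change a = b
          exact (show a = o' from ha).trans (show b = o' from hb).symm)
        (by
          intro n
          simp only [map_one, MulAut.one_apply, id]
          rfl)
        (by
          rintro y ⟨n, hn⟩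
          exact ⟨n, Subtype.ext hn⟩)
        χ ξ o hχ hξ hover hDX τ hτ θ hθ ψ hψ hψθ hcen) d
  rw [← h3]
  refine Finset.sum_congr rfl fun τ1 _ => ?_
  rw [← FinalC.map_YS hE.cl.inj j2 hj2 τ1, WW_map 𝔐 ℓ d _ S.subtype (Subgroup.subtype_injective _)]

end Pool.Agent.RCW
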