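import Mathlib
import Pool.Agent.RCW.StD
import Pool.Agent.RCB.AllP2

/-!
# RCW_LDE: the bijection for the prime 2
-/

set_option autoImplicit false

namespace Pool.Agent.RCW

open Pool.Agent.DP Pool.Agent.DPV Pool.Agent.DPB Pool.Agent.DPW Pool.Agent.DPX
open Pool.Agent.Lib_helper13 Representation
open Pool.Agent.RCB (iR kR pR RC piR locN_R cov_R Cov XS YL EB Mtc StX Agr Stx_R Stx_pi Sw YS_R
  mem_YS_iff kR_apply Stmt_BI2 Stmt_CLT2 Stmt_AGM)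

open Pool.Agent.RCB.LTP in
/-- RCW_LDE. -/
theorem LDE_thm (h1 : Stmt_LVR) (h2 : Stmt_LDC) : Stmt_LDE := by
  classical
  have h3 : Stmt_BI2 := Pool.Agent.RCB.bi2_all
  have h4 : Stmt_CLT2 := Pool.Agent.RCB.clt2_all
  have h5 : Stmt_AGM := Pool.Agent.RCB.agm_all
  intro G B C B' C' _ _ _ _ _ _ _ _ 𝔐 n hM hl ι κ ρ ι' κ' ρ' π h hV ω P₁ P x₀ hA hex
  have hl' : ((2 : ℕ) : integralClosure ℤ ℂ) ∈ 𝔐 := hl
  have hfC : Finite C := Finite.of_surjective ρ h.lo.surj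
  have hfC' : Finite C' := Finite.of_surjective ρ' h.up.surj
  have hωc : ∀ g x, ω (g * x * g⁻¹) = ω x := by
    obtain ⟨θ, _, hθ⟩ := hex
    intro g x
    rw [← hθ]
    exact cen_cl 𝔐 θ g x
  -- the stabilizer of the block
  obtain ⟨R, hR⟩ : ∃ R, R = (Sw κ ∅ ω).map ρ := ⟨_, rfl⟩
  have hRc : R.comap ρ = Sw κ ∅ ω := by
    rw [hR]
    exact Sw_comap h.lo hωc
  have hinv : ∀ (b : ↥(R.comap ρ)) (g : G), ω (kR κ ρ R b g) = ω g := by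
    intro b g
    have hb : (b : B) ∈ Sw κ ∅ ω := by
      rw [← hRc]
      exact b.2
    exact hb.2 g
  have hfR : Fintype ↥(R.comap ρ) := Fintype.ofFinite _
  -- the bijection
  obtain ⟨Φ, hbij, hΦ⟩ := h3 G ↥(R.comap ρ) R 𝔐 n hM hl (iR h.lo R) (kR κ ρ R) (pR ρ R)
    (locN_R h.lo R) ω P₁ P x₀ ⟨hA, hinv, hex⟩
  refine ⟨Φ, hbij, ?_⟩
  intro χ hχ
  have hψ := hbij.mapsTo hχ
  obtain ⟨hΦ1, hΦ2⟩ := hΦ χ hχ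
  obtain ⟨ψ, hψd⟩ : ∃ ψ, ψ = Φ χ := ⟨_, rfl⟩
  rw [← hψd] at hψ hΦ1 hΦ2 ⊢
  have hStx : ∀ (σ : Finset (Subgroup G)) (θ : G → ℂ), (∀ g, cg 𝔐 θ g = ω g) →
      Stx κ σ θ ≤ R.comap ρ := by
    intro σ θ hθ b hb
    rw [hRc]
    refine ⟨by simp, fun g => ?_⟩
    rw [← hθ, ← hθ]
    exact FIXW.cg_stx 𝔐 hb g
  have hmap : (Stx κ ∅ χ).map ρ = (Stx κ {P₁} ψ).map ρ := by
    rw [map_Stx_R κ ρ R ∅ χ (hStx _ _ hχ.2), map_Stx_R κ ρ R {P₁} ψ (hStx _ _ hψ.2), hΦ1]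
  have hagr : ∀ Q : Subgroup ↥((Stx κ ∅ χ).map ρ), IsPGroup 2 Q →
      Agr (locN_R h.lo ((Stx κ ∅ χ).map ρ)) P₁ χ ψ Q := by
    intro Q hQ
    exact Pool.Agent.RCB.LTP2.agr_up h5 h.lo R P₁ χ ψ (Pool.Agent.RCB.CLQ.irr_empty hχ.1) hψ.1
      (hStx _ _ hχ.2) hmap hΦ1 hΦ2 Q hQ
  -- the stabilizer of the character
  obtain ⟨S, hS⟩ : ∃ S, S = (Stx κ ∅ χ).map ρ := ⟨_, rfl⟩
  have hagr' : ∀ Q : Subgroup ↥S, IsPGroup 2 Q → Agr (locN_R h.lo S) P₁ χ ψ Q := by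
    rw [hS]
    exact hagr
  have hSS : Stx κ ∅ χ = S.comap ρ := by
    rw [hS, Pool.Agent.RCB.CEQ.comap_map_stx h.lo hχ.1 stb_empty]
  have hS' : (Stx κ {P₁} ψ).map ρ = S := by rw [hS, hmap]
  have hψS : Stx κ {P₁} ψ ≤ S.comap ρ := by
    rw [← Subgroup.map_le_iff_le_comap, hS']
  have hfS : Fintype ↥(S.comap ρ) := Fintype.ofFinite _
  have hfS' : Fintype ↥((RC ρ ρ' π S).comap ρ') := Fintype.ofFinite _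
  have hst0 : Stx (kR κ ρ S) ∅ χ = ⊤ := by
    rw [Stx_R, hSS]
    ext x
    simp only [Subgroup.mem_top, iff_true]
    exact x.2
  have hst1 : (Stx (kR κ ρ S) {P₁} ψ).map (pR ρ S) = ⊤ := by
    rw [eq_top_iff]
    intro c _
    have h6 : (c : C) ∈ (Stx κ {P₁} ψ).map ρ := by
      rw [hS']
      exact c.2
    obtain ⟨b, hb, hbc⟩ := h6
    exact ⟨⟨b, hψS hb⟩, hb, Subtype.ext hbc⟩
  have hX : StX 𝔐 2 n (kR κ ρ S) ω P₁ P x₀ := by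
    refine ⟨hA, fun b g => ?_, hex⟩
    have hb : (b : B) ∈ Stx κ ∅ χ := by
      rw [hSS]
      exact b.2
    rw [kR_apply, ← hχ.2, ← hχ.2]
    exact FIXW.cg_stx 𝔐 hb g
  obtain ⟨f, f₁, hf, hf₁, hff, hsc⟩ := h4 G ↥(S.comap ρ) S ↥((RC ρ ρ' π S).comap ρ')
    ↥(RC ρ ρ' π S) 𝔐 2 n hM hl (iR h.lo S) (kR κ ρ S) (pR ρ S) (iR h.up (RC ρ ρ' π S))
    (kR κ' ρ' (RC ρ ρ' π S)) (pR ρ' (RC ρ ρ' π S)) (piR h S) (cov_R h S)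
    (h1 G B' C' ι' κ' ρ' hV (RC ρ ρ' π S)) ω P₁ P x₀ hX χ hχ ψ hψ hst0 hst1 hagr'
  obtain ⟨e1, e2, e3⟩ := h2 G B C B' C' 𝔐 ι κ ρ ι' κ' ρ' π h hV P₁ χ ψ hχ.1 hψ.1 S hS.symm hS'
    f f₁ hf hf₁ hff hsc
  intro L
  rw [e1, e2]
  exact ⟨Iff.rfl, fun hL => e3 L hL⟩

end Pool.Agent.RCW
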