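import Mathlib
import Pool.Agent.RCW.StD
import Pool.Agent.RCB.AllP2
import Pool.Agent.RCB.LTP
import Pool.Agent.RCB.CEQ

/-!
# RCW_LDO: the bijection for an odd prime
-/

set_option autoImplicit false

namespace Pool.Agent.RCW

open Pool.Agent.DP Pool.Agent.DPV Pool.Agent.DPB Pool.Agent.DPW Pool.Agent.DPX
open Pool.Agent.Lib_helper13 Representation
open Pool.Agent.RCB (iR kR pR RC piR locN_R cov_R Cov XS YL EB Mtc StX Agr Stx_R Stx_pi Sw kR_apply)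

namespace LDO

/-- RCW_LDO, from the bijection and the extensions in the stabilizers. -/
theorem aux (h0 : Pool.Agent.RCB.Stmt_BIJ) (hC : Pool.Agent.RCB.Stmt_CLT) (h1 : Stmt_LVR)
    (h2 : Stmt_LDC) : Stmt_LDO := by
  classical
  intro G B C B' C' _ _ _ _ _ _ _ _ 𝔐 ℓ n _ hM hl hl2 ι κ ρ ι' κ' ρ' π hcov hV ω P₁ P x₀ hAt hex
  have hfin : Finite C := Finite.of_surjective ρ hcov.lo.surj
  have hfin' : Finite C' := Finite.of_surjective ρ' hcov.up.surj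
  have h := hcov.lo
  have hωc : ∀ g x, ω (g * x * g⁻¹) = ω x := by
    intro g x
    obtain ⟨θ, -, hθ⟩ := hex
    rw [← hθ]
    exact Pool.Agent.RCB.LTP.cen_cl 𝔐 θ g x
  -- the stabilizer of the block
  obtain ⟨R₁, hR₁⟩ : ∃ R, R = (Sw κ ∅ ω).map ρ := ⟨_, rfl⟩
  have hRc : R₁.comap ρ = Sw κ ∅ ω := by
    rw [hR₁]
    exact Pool.Agent.RCB.LTP.Sw_comap h hωc
  have hinv : ∀ (b : ↥(R₁.comap ρ)) (g : G), ω (kR κ ρ R₁ b g) = ω g := by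
    intro b g
    have hb : (b : B) ∈ Sw κ ∅ ω := by
      rw [← hRc]
      exact b.2
    exact hb.2 g
  have hfR : Fintype ↥(R₁.comap ρ) := Fintype.ofFinite _
  -- the bijection
  obtain ⟨Φ, hbij, hΦ⟩ := h0 G ↥(R₁.comap ρ) R₁ 𝔐 ℓ n hM hl hl2 (iR h R₁) (kR κ ρ R₁) (pR ρ R₁)
    (locN_R h R₁) ω P₁ P x₀ ⟨hAt, hinv, hex⟩
  have hStx : ∀ (σ : Finset (Subgroup G)) (θ : G → ℂ), (∀ g, cg 𝔐 θ g = ω g) →
      Stx κ σ θ ≤ R₁.comap ρ := by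
    intro σ θ hθ b hb
    rw [hRc]
    refine ⟨by simp, fun g => ?_⟩
    rw [← hθ, ← hθ]
    exact FIXW.cg_stx 𝔐 hb g
  refine ⟨Φ, hbij, ?_⟩
  intro χ hχ
  have hψ := hbij.mapsTo hχ
  obtain ⟨ψ, hψe⟩ : ∃ ψ, ψ = Φ χ := ⟨_, rfl⟩
  have hmap : (Stx κ ∅ χ).map ρ = (Stx κ {P₁} (Φ χ)).map ρ := by
    rw [Pool.Agent.RCB.LTP.map_Stx_R κ ρ R₁ ∅ χ (hStx _ _ hχ.2),
      Pool.Agent.RCB.LTP.map_Stx_R κ ρ R₁ {P₁} (Φ χ) (hStx _ _ hψ.2), (hΦ χ hχ).1]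
  have hmt := (hΦ χ hχ).2
  rw [← hψe] at hψ hmap hmt ⊢
  obtain ⟨R, hR⟩ : ∃ R, R = (Stx κ ∅ χ).map ρ := ⟨_, rfl⟩
  have hSR : Stx κ ∅ χ = R.comap ρ := by
    rw [hR, Pool.Agent.RCB.CEQ.comap_map_stx h hχ.1 stb_empty]
  have hR' : (Stx κ {P₁} ψ).map ρ = R := by rw [hR, hmap]
  have hψR : Stx κ {P₁} ψ ≤ R.comap ρ := by
    rw [← Subgroup.map_le_iff_le_comap, hR']
  let _ : Fintype ↥(R.comap ρ) := Fintype.ofFinite _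
  let _ : Fintype ↥((RC ρ ρ' π R).comap ρ') := Fintype.ofFinite _
  have hst0 : Stx (kR κ ρ R) ∅ χ = ⊤ := by
    rw [Stx_R, hSR]
    ext x
    simp only [Subgroup.mem_top, iff_true]
    exact x.2
  have hst1 : (Stx (kR κ ρ R) {P₁} ψ).map (pR ρ R) = ⊤ := by
    rw [eq_top_iff]
    intro c _
    have h5 : (c : C) ∈ (Stx κ {P₁} ψ).map ρ := by
      rw [hR']
      exact c.2
    obtain ⟨b, hb, hbc⟩ := h5
    refine ⟨⟨b, hψR hb⟩, hb, Subtype.ext hbc⟩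
  have hX : StX 𝔐 ℓ n (kR κ ρ R) ω P₁ P x₀ := by
    refine ⟨hAt, fun b g => ?_, hex⟩
    have hb : (b : B) ∈ Stx κ ∅ χ := by
      rw [hSR]
      exact b.2
    rw [kR_apply, ← hχ.2, ← hχ.2]
    have h5 : (fun x => χ (κ (b : B) x)) = χ := funext hb.2
    rw [← Pool.Agent.DPC.TJ.cg_comp 𝔐 (κ (b : B)) χ g, h5]
  have hVR := h1 G B' C' ι' κ' ρ' hV (RC ρ ρ' π R)
  obtain ⟨f, f₁, hf, hf₁, hff, hsc⟩ := hC G ↥(R.comap ρ) R ↥((RC ρ ρ' π R).comap ρ')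
    ↥(RC ρ ρ' π R) 𝔐 ℓ n hM hl hl2 (iR h R) (kR κ ρ R) (pR ρ R) (iR hcov.up (RC ρ ρ' π R))
    (kR κ' ρ' (RC ρ ρ' π R)) (pR ρ' (RC ρ ρ' π R)) (piR hcov R) (cov_R hcov R) hVR ω P₁ P x₀ hX
    χ hχ ψ hψ hst0 hst1 hmt
  obtain ⟨a1, a2, a3⟩ := h2 G B C B' C' 𝔐 ι κ ρ ι' κ' ρ' π hcov hV P₁ χ ψ hχ.1 hψ.1 R hR.symm hR'
    f f₁ hf hf₁ (fun t => congrFun hff t) hsc
  intro L
  rw [a1, a2]
  exact ⟨Iff.rfl, fun hL => a3 L hL⟩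

end LDO

/-- RCW_LDO. -/
theorem LDO_thm (h1 : Stmt_LVR) (h2 : Stmt_LDC) : Stmt_LDO :=
  LDO.aux Pool.Agent.RCB.bij_all Pool.Agent.RCB.clt_all h1 h2

end Pool.Agent.RCW
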