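import Mathlib
import Pool.Agent.RCW.StC
import Pool.Agent.DP.CGT
import Pool.Agent.DPV.REPV

/-!
# LIFTW: the refined classes at all coordinates from those at the representatives
-/

namespace Pool.Agent.RCW

open Pool.Agent.DP Pool.Agent.DPV Pool.Agent.DPW Pool.Agent.Lib_helper13 Representation
open Pool.Agent.Lib_helper13.Dade (pCore DadeHolds dadeSum)

namespace LIFTW

variable {G B C : Type*} [Group G] [Group B] [Group C]

theorem exists_iota {ι : G →* B} {κ : B →* MulAut G} {ρ : B →* C} (h : ClG ι κ ρ) {a b : B}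
    (hab : ρ a = ρ b) : ∃ x, a = ι x * b := by
  have h1 : ρ (a * b⁻¹) = 1 := by rw [map_mul, map_inv, hab, mul_inv_cancel]
  obtain ⟨x, hx⟩ := (h.ker _).mp h1
  exact ⟨x, by rw [hx, inv_mul_cancel_right]⟩

/-- the elements of `G` commute with the elements of `W` -/
theorem conj_mem {ι : G →* B} {κ : B →* MulAut G} {ρ : B →* C} (h : ClG ι κ ρ) {W : Subgroup B}
    (hW : WC ι W) (n : G) {y : B} (hy : y ∈ W) : ι n * y * (ι n)⁻¹ = y := by
  have h1 : ι (n * κ y n⁻¹) = ι n * y * (ι n)⁻¹ * y⁻¹ := by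
    rw [map_mul, h.act, map_inv]
    group
  have h2 : ι (n * κ y n⁻¹) ∈ W := by
    rw [h1]
    exact W.mul_mem (hW.nor.conj_mem y hy (ι n)) (W.inv_mem hy)
  have h3 := hW.int _ h2
  rw [h3, map_one] at h1
  exact (mul_inv_eq_one.mp h1.symm)

end LIFTW

open LIFTW in
theorem LIFTW_thm (h1 : Stmt_TRW) : Stmt_LIFTW := by
  classical
  intro O G B C Y K _ _ _ _ _ _ _ _ _ _ _ 𝔐 ℓ _ ι κ ρ hL W hW j p φ hE J r t hr τ hτ θ hθ g hg htr o
  obtain ⟨-, -, hrep⟩ := REPV_thm O G B C Y K ι κ ρ hL j p φ hE J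
  obtain ⟨hrr, hvg, hzz⟩ := hrep r t hr
  unfold btsW
  rw [hvg o, ← hg o, h1 O G B C 𝔐 ℓ ι κ ρ hL W hW τ θ hθ (r o) o (g o) (htr o)]
  refine Set.image_congr ?_
  rintro _ ⟨f, -, rfl⟩
  obtain ⟨n, hn⟩ := exists_iota hL.cl (hg o)
  obtain ⟨-, -, -, -, h5⟩ := CGT_thm G B C 𝔐 ι κ ρ hL.cl
  funext x
  set a : B := ι (κ ((φ (t o)).left o)⁻¹ n⁻¹) with ha
  set y : B := ((φ (t o)).left o)⁻¹ * x * (φ (t o)).left o with hy
  have e : (g o)⁻¹ * x * g o = a * y * a⁻¹ := by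
    rw [ha, hy, hn, hL.cl.act, map_inv]
    group
  change cgW 𝔐 ι W f ((g o)⁻¹ * x * g o) = cgW 𝔐 ι W f y
  rw [e]
  have hmem : a * y * a⁻¹ ∈ W ↔ y ∈ W := by
    constructor
    · intro h
      have h2 := hW.nor.conj_mem _ h a⁻¹
      have e2 : a⁻¹ * (a * y * a⁻¹) * a⁻¹⁻¹ = y := by group
      rwa [e2] at h2
    · intro h
      exact hW.nor.conj_mem _ h a
  unfold cgW
  refine Prod.ext ?_ ?_
  · exact h5 f _ y
  · change (if a * y * a⁻¹ ∈ W then f (a * y * a⁻¹) / f 1 else 0) =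
      (if y ∈ W then f y / f 1 else 0)
    by_cases h : y ∈ W
    · rw [if_pos h, if_pos (hmem.mpr h), ha, conj_mem hL.cl hW _ h]
    · rw [if_neg h, if_neg (fun h' => h (hmem.mp h'))]

end Pool.Agent.RCW
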