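import Pool.Agent.RCW.StD
import Pool.Agent.DPW.FIXW

/-!
# RCW_LVR: the extensions restrict to the inverse images of subgroups
-/

namespace Pool.Agent.RCW

open Pool.Agent.DP Pool.Agent.DPV Pool.Agent.DPB Pool.Agent.DPW Pool.Agent.DPX
open Pool.Agent.RCB (iR kR pR)

theorem LVR_thm : Stmt_LVR := by
  intro G B C _ _ _ _ _ ι κ ρ h R
  exact FIXW.locV_restr h R

end Pool.Agent.RCW
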