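import Mathlib
import Pool.Agent.RCW.StD
import Pool.Agent.DPV.LVB
import Pool.Agent.DPW.FXD

/-!
# The refined local sum vanishes for the blocks with nontrivial cyclic defect groups
-/

namespace Pool.Agent.RCW

open Pool.Agent.DP Pool.Agent.DPV Pool.Agent.DPB Pool.Agent.DPW Pool.Agent.DPX
open Pool.Agent.Lib_helper13 Representation
open Pool.Agent.RCB (iR kR pR RC piR locN_R cov_R Cov XS YL EB Mtc StX Agr Stx_R Stx_pi)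

namespace LVY

/-- The first components of a refined class at the elements of `G`. -/
theorem cg_of_mem {G B C : Type} [Group G] [Fintype G] [Group B] [Fintype B] [Group C]
    (𝔐 : Ideal (integralClosure ℤ ℂ)) {ι : G →* B} {κ : B →* MulAut G} {ρ : B →* C}
    (hcl : ClG ι κ ρ) {W : Subgroup B} {σ : Finset (Subgroup G)} {ψ : G → ℂ} {L : Subgroup C}
    {b : B → ((integralClosure ℤ ℂ) ⧸ 𝔐) × ℂ} (hb : b ∈ betW 𝔐 ι κ ρ W σ ψ L) (g : G) :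
    cg 𝔐 ψ g = (b (ι g)).1 := by
  obtain ⟨f, hf, rfl⟩ := hb
  show cg 𝔐 ψ g = cgT 𝔐 ι.range f (ι g)
  rw [LVB.cg_of_ext 𝔐 hcl hf]

/-- The kernel of a covering meets `G` trivially. -/
theorem wc_ker {G B C B' C' : Type} [Group G] [Group B] [Group C] [Group B'] [Group C']
    {ι : G →* B} {κ : B →* MulAut G} {ρ : B →* C} {ι' : G →* B'} {κ' : B' →* MulAut G}
    {ρ' : B' →* C'} {π : B' →* B} (h : Cov ι κ ρ ι' κ' ρ' π) : WC ι' π.ker := by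
  refine ⟨inferInstance, fun g hg => ?_⟩
  rw [MonoidHom.mem_ker, h.emb] at hg
  exact h.lo.cl.inj (by rw [hg, map_one])

end LVY

/-- RCW_LVY. -/
theorem LVY_thm (h1 : Stmt_VSY) (h2 : Stmt_LDO) (h3 : Stmt_LDE) (h4 : Stmt_DXMX)
    (h5 : Stmt_DFX) : Stmt_LVY := by
  classical
  intro G B C B' C' _ _ _ _ _ _ _ _ 𝔐 ℓ _ hmax hℓ ι κ ρ ι' κ' ρ' π hcov hL L β e hβ
  have hprime : 𝔐.IsPrime := hmax.isPrime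
  have hcl := hL.cl
  obtain ⟨b, hb, hD⟩ := hβ
  obtain ⟨ω, hω⟩ : ∃ ω : G → (integralClosure ℤ ℂ) ⧸ 𝔐, ω = fun g => (b (ι' g)).1 := ⟨_, rfl⟩
  rw [← hω] at hD
  by_contra hVS
  -- a contributing character
  have hcont : ∃ σ ∈ Ch ℓ (⊥ : Subgroup G), ∃ ψ ∈ irrOn (stb σ),
      betW 𝔐 ι' κ' ρ' π.ker σ ψ L = β := by
    by_contra hcon
    push Not at hcon
    apply hVS
    unfold VSW
    refine Finset.sum_eq_zero fun σ hσ => ?_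
    rw [Finset.sum_eq_zero, mul_zero]
    intro ψ hψ
    rw [if_neg, mul_zero]
    rintro ⟨-, -, h⟩
    exact hcon σ hσ ψ hψ h
  obtain ⟨σ₁, hσ₁, ψ₂, hψ₂, hb₂⟩ := hcont
  have hcgω : ∀ (σ : Finset (Subgroup G)) (ψ : G → ℂ), betW 𝔐 ι' κ' ρ' π.ker σ ψ L = β →
      ∀ g, cg 𝔐 ψ g = ω g := by
    intro σ ψ h g
    rw [LVY.cg_of_mem 𝔐 hcl (by rw [h]; exact hb) g, hω]
  have hω2 : ∀ g, cg 𝔐 ψ₂ g = ω g := hcgω σ₁ ψ₂ hb₂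
  obtain ⟨θ₀, hθ₀, hθω⟩ := FXD.exists_irr 𝔐 hℓ (mem_Ch.mp hσ₁) hψ₂ hω2
  obtain ⟨n, P₁, P, x₀, hAt'⟩ := (h4 G 𝔐 ℓ hmax hℓ θ₀ hθ₀).1 (by rw [hθω]; exact hD)
  have hAt : AtX ℓ n ω P₁ P x₀ := by
    rw [← hθω]
    exact hAt'
  have hirr : ∃ θ : G → ℂ, IsIrr θ ∧ cen 𝔐 (MonoidHom.id G) θ = ω := ⟨θ₀, hθ₀, hθω⟩
  apply hVS
  rw [h1 G B' C' 𝔐 ℓ n hmax hℓ ι' κ' ρ' hL.locN π.ker (LVY.wc_ker hcov) P₁ P x₀ L β e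
    ⟨b, hb, by rw [← hω]; exact hAt⟩]
  -- defects
  obtain ⟨hdfe, hdfP⟩ := h5 G 𝔐 ℓ n hmax hℓ ω P₁ P x₀ hAt
  -- the bijection
  obtain ⟨Φ, hΦ, hΦL⟩ : ∃ Φ : (G → ℂ) → (G → ℂ), Set.BijOn Φ (XS 𝔐 ω) (YL 𝔐 P₁ ω) ∧
      ∀ χ ∈ XS 𝔐 ω, ∀ L : Subgroup C',
        (L ≤ (Stx κ' ∅ χ).map ρ' ↔ L ≤ (Stx κ' {P₁} (Φ χ)).map ρ') ∧
        (L ≤ (Stx κ' ∅ χ).map ρ' →
          betW 𝔐 ι' κ' ρ' π.ker ∅ χ L = betW 𝔐 ι' κ' ρ' π.ker {P₁} (Φ χ) L) := by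
    by_cases h2' : ℓ = 2
    · subst h2'
      exact h3 G B C B' C' 𝔐 n hmax hℓ ι κ ρ ι' κ' ρ' π hcov hL ω P₁ P x₀ hAt hirr
    · exact h2 G B C B' C' 𝔐 ℓ n hmax hℓ h2' ι κ ρ ι' κ' ρ' π hcov hL ω P₁ P x₀ hAt hirr
  have hbij : Set.BijOn Φ
      {θ : G → ℂ | IrrOn (stb ∅) θ ∧ L ≤ (Stx κ' ∅ θ).map ρ' ∧
        df ℓ (stb (∅ : Finset (Subgroup G))) θ = e ∧ betW 𝔐 ι' κ' ρ' π.ker ∅ θ L = β}
      {ψ : G → ℂ | IrrOn (stb {P₁}) ψ ∧ L ≤ (Stx κ' {P₁} ψ).map ρ' ∧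
        df ℓ (stb {P₁}) ψ = e ∧ betW 𝔐 ι' κ' ρ' π.ker {P₁} ψ L = β} := by
    refine ⟨?_, ?_, ?_⟩
    · rintro θ ⟨h6, h7, h8, h9⟩
      have hX : θ ∈ XS 𝔐 ω := ⟨h6, hcgω ∅ θ h9⟩
      obtain ⟨hY1, hY2⟩ := hΦ.mapsTo hX
      refine ⟨hY1, (hΦL θ hX L).1.1 h7, ?_, ?_⟩
      · rw [hdfP _ hY1 hY2, ← h8, hdfe θ h6 hX.2]
      · rw [← (hΦL θ hX L).2 h7, h9]
    · rintro θ ⟨h6, h7, h8, h9⟩ θ' ⟨h6', h7', h8', h9'⟩ h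
      exact hΦ.injOn ⟨h6, hcgω ∅ θ h9⟩ ⟨h6', hcgω ∅ θ' h9'⟩ h
    · rintro ψ ⟨h6, h7, h8, h9⟩
      have hY : ψ ∈ YL 𝔐 P₁ ω := ⟨h6, hcgω {P₁} ψ h9⟩
      obtain ⟨θ, hX, rfl⟩ := hΦ.surjOn hY
      have h10 := (hΦL θ hX L).1.2 h7
      refine ⟨θ, ⟨hX.1, h10, ?_, ?_⟩, rfl⟩
      · rw [hdfe θ hX.1 hX.2, ← h8, hdfP _ hY.1 hY.2]
      · rw [(hΦL θ hX L).2 h10, h9]
  have hcard := Nat.card_congr (hbij.equiv Φ)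
  simp only [Set.coe_ofPred] at hcard
  rw [hcard, sub_self, mul_zero]

end Pool.Agent.RCW
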