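import Mathlib
import Pool.Agent.RCW.StC
import Pool.Agent.DPV.ASV
import Pool.Agent.DPV.ASCV
import Pool.Agent.RCB.CSC
import Pool.Agent.DPX.VALX
import Pool.Agent.DPX.RLZX
import Pool.Agent.DPX.IDOX

set_option linter.unusedSectionVars false

/-!
# RCW: module MINW

The count depends only on the refined classes (adapted from `DPV/MINV.lean`).
-/

namespace Pool.Agent.RCW

open Pool.Agent.DP Pool.Agent.DPV Pool.Agent.DPW Pool.Agent.Lib_helper13 Representation
open Pool.Agent.Lib_helper13.Dade (pCore DadeHolds dadeSum)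

namespace MINW

theorem conjInd_class {Y X : Type} [Group Y] [Group X] (i : Y →* X) (x : X) (a y : Y) :
    conjInd (i (a * y * a⁻¹)) x = conjInd (i y) x := by
  rw [map_mul, map_mul, map_inv, conjInd_conj]

/-- The elements of `W` commute with those of `G`. -/
theorem comm_W {G B C : Type} [Group G] [Group B] [Group C]
    {ι : G →* B} {κ : B →* MulAut G} {ρ : B →* C} (hloc : LocV ι κ ρ) {W : Subgroup B}
    (hW : WC ι W) {z : B} (hz : z ∈ W) (n : G) : z * ι n * z⁻¹ = ι n := by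
  have h1 : ι (κ z n) = z * ι n * z⁻¹ := hloc.cl.act z n
  have h2 : ι (κ z n * n⁻¹) ∈ W := by
    rw [map_mul, h1, map_inv]
    have h3 : z * ι n * z⁻¹ * (ι n)⁻¹ = z * (ι n * z⁻¹ * (ι n)⁻¹) := by group
    rw [h3]
    exact W.mul_mem hz (hW.nor.conj_mem _ (W.inv_mem hz) _)
  have h3 := hW.int _ h2
  have h4 : κ z n = n := by
    rw [← mul_inv_eq_one]
    exact h3
  rw [← h1, h4]

/-- The standardized left components at the kernel. -/
theorem zz_ker {O B Y : Type} [Group B] [Group Y]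
    (φ : Y →* Gam (Equiv.Perm O) O B) (g : O → B) {v : Y} (hv : (φ v).right = 1) (o : O) :
    zz φ g v o = (g o)⁻¹ * (φ v).left o * g o := by
  rw [zz, hv, inv_one, one_smul]

theorem zz_ker_mem {O B Y : Type} [Group B] [Group Y] {W : Subgroup B} (hW : W.Normal)
    (φ : Y →* Gam (Equiv.Perm O) O B) (g : O → B) {v : Y} (hv : (φ v).right = 1)
    (hl : ∀ o, (φ v).left o ∈ W) (o : O) : zz φ g v o ∈ W := by
  rw [zz_ker φ g hv]
  have h1 := hW.conj_mem _ (hl o) (g o)⁻¹
  rwa [inv_inv] at h1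

/-- The standardized left components at the kernel for two transversals. -/
theorem zz_ker_eq {O G B C Y : Type} [Group G] [Group B] [Group C] [Group Y]
    {ι : G →* B} {κ : B →* MulAut G} {ρ : B →* C} (hloc : LocV ι κ ρ) {W : Subgroup B}
    (hW : WC ι W) (φ : Y →* Gam (Equiv.Perm O) O B) (g g' : O → B) {v : Y}
    (hv : (φ v).right = 1) (hl : ∀ o, (φ v).left o ∈ W) (hg : ∀ o, ρ (g' o) = ρ (g o)) (o : O) :
    zz φ g' v o = zz φ g v o := by
  have hz := zz_ker_mem hW.nor φ g hv hl o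
  have h1 : (g o)⁻¹ * g' o ∈ ι.range := by
    rw [← hloc.cl.ker, map_mul, map_inv, hg o, inv_mul_cancel]
  obtain ⟨n, hn⟩ := h1
  have h2 : g' o = g o * ι n := by rw [hn, mul_inv_cancel_left]
  have h3 := comm_W hloc hW hz n
  have h4 : zz φ g v o * ι n = ι n * zz φ g v o := by
    rw [← eq_mul_inv_iff_mul_eq, inv_inv] at h3
    exact h3
  rw [zz_ker φ g' hv, h2]
  have h5 : (g o * ι n)⁻¹ * (φ v).left o * (g o * ι n) = (ι n)⁻¹ * (zz φ g v o * ι n) := by
    rw [zz_ker φ g hv]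
    group
  rw [h5, h4, inv_mul_cancel_left]

/-- Equal refined central functions: equal counts. -/
theorem core (h1 : Stmt_ASW) (O G B C Y K Y₀ X : Type) [Fintype O] [DecidableEq O]
    [Group G] [Fintype G] [Group B] [Fintype B] [Group C] [Group Y] [Fintype Y] [Group K]
    [Finite K] [Group Y₀] [Group X] (𝔐 : Ideal (integralClosure ℤ ℂ)) (ℓ : ℕ) [Fact ℓ.Prime]
    (hM : 𝔐.IsMaximal) (hℓ : (ℓ : integralClosure ℤ ℂ) ∈ 𝔐)
    (ι : G →* B) (κ : B →* MulAut G) (ρ : B →* C) (hloc : LocV ι κ ρ)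
    (W : Subgroup B) (hW : WC ι W)
    (j : (O → G) →* Y) (p : Y →* K) (φ : Y →* Gam (Equiv.Perm O) O B) (hext : ExtS ι κ j p φ)
    (q : Y →* Y₀) (j₀ : (O → G) →* Y₀) (hq : CovY φ W j q j₀)
    (J : Subgroup K) (U : O → Subgroup C) (g g' : O → B) (S S' : O → Subgroup B)
    (θ θ' : O → B → ℂ) (m m' : O → ℕ) (M M' : O → B → ℕ → ℕ → ℂ)
    (hS : SDV ℓ ι ρ p φ J U g S θ m M) (hS' : SDV ℓ ι ρ p φ J U g' S' θ' m' M')
    (hJ : ∀ v, q v = 1 → p v ∈ J)
    (hSW : ∀ o, ∀ w ∈ W, ρ w ∈ U o → w ∈ S o) (hSW' : ∀ o, ∀ w ∈ W, ρ w ∈ U o → w ∈ S' o)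
    (hg : ∀ o, ρ (g' o) = ρ (g o)) (hc : ∀ o, cgW 𝔐 ι W (θ o) = cgW 𝔐 ι W (θ' o))
    (i : Y₀ →* X) (hI : IntW i q p φ J g S θ m M) (hI' : IntW i q p φ J g' S' θ' m' M')
    (d e : ℕ) (ω : X → (integralClosure ℤ ℂ) ⧸ 𝔐) :
    NNW 𝔐 ℓ d i ω q p φ J e g' S' θ' m' M' = NNW 𝔐 ℓ d i ω q p φ J e g S θ m M := by
  classical
  have hc1 : ∀ o, cgT 𝔐 ι.range (θ o) = cgT 𝔐 ι.range (θ' o) := by
    intro o
    funext x
    have h2 := congrFun (hc o) x
    simp only [cgW, Prod.mk.injEq] at h2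
    exact h2.1
  have hc2 : ∀ o, ∀ x ∈ W, θ o x / θ o 1 = θ' o x / θ' o 1 := by
    intro o x hx
    have h2 := congrFun (hc o) x
    simp only [cgW, Prod.mk.injEq, if_pos hx] at h2
    exact h2.2
  -- the scalars at the kernel
  have hzz : ∀ v, q v = 1 → ∀ o, zz φ g' v o = zz φ g v o := fun v hv o =>
    zz_ker_eq hloc hW φ g g' (hq.krr v hv) (hq.krl v hv) hg o
  have hsv : ∀ v, q v = 1 → (∏ o, (θ' o (zz φ g' v o) / θ' o 1)) =
      ∏ o, (θ o (zz φ g v o) / θ o 1) := by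
    intro v hv
    refine Finset.prod_congr rfl fun o _ => ?_
    rw [hzz v hv o]
    exact (hc2 o _ (zz_ker_mem hW.nor φ g (hq.krr v hv) (hq.krl v hv) o)).symm
  have hker : ∀ η : J → ℂ, KerC p φ q J g' θ' η ↔ KerC p φ q J g θ η := by
    intro η
    constructor
    · intro h v hv hp k
      rw [← hsv v hv]
      exact h v hv hp k
    · intro h v hv hp k
      rw [hsv v hv]
      exact h v hv hp k
  have hAS : ∀ (k : J) (x : X),
      IsIntegral ℤ (AS p φ g S θ m M (k : K) (fun y => conjInd (i (q y)) x)) ∧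
      IsIntegral ℤ (AS p φ g' S' θ' m' M' (k : K) (fun y => conjInd (i (q y)) x)) ∧
      red 𝔐 (AS p φ g S θ m M (k : K) (fun y => conjInd (i (q y)) x)) =
      red 𝔐 (AS p φ g' S' θ' m' M' (k : K) (fun y => conjInd (i (q y)) x)) := by
    intro k x
    exact ASV_thm O G B C Y K 𝔐 ℓ hM hℓ ι κ ρ hloc j p φ hext J U g g' S S' θ θ' m m' M M' hS hS'
      hg hc1 (k : K) k.2 (fun y => conjInd (i (q y)) x)
      (fun a y => conjInd_class (i.comp q) x a y) (fun y => isIntegral_conjInd _ _)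
  have hcl : ∀ (x : X) (l k : J),
      AS p φ g S θ m M ((l * k * l⁻¹ : J) : K) (fun y => conjInd (i (q y)) x) =
      AS p φ g S θ m M (k : K) (fun y => conjInd (i (q y)) x) := by
    intro x l k
    exact ASCV_thm O G B C Y K ℓ ι κ ρ hloc j p φ hext J U g S θ m M hS (k : K) k.2 (l : K) l.2
      (fun y => conjInd (i (q y)) x) (fun a y => conjInd_class (i.comp q) x a y)
  have hcl' : ∀ (x : X) (l k : J),
      AS p φ g' S' θ' m' M' ((l * k * l⁻¹ : J) : K) (fun y => conjInd (i (q y)) x) =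
      AS p φ g' S' θ' m' M' (k : K) (fun y => conjInd (i (q y)) x) := by
    intro x l k
    exact ASCV_thm O G B C Y K ℓ ι κ ρ hloc j p φ hext J U g' S' θ' m' M' hS' (k : K) k.2
      (l : K) l.2 (fun y => conjInd (i (q y)) x) (fun a y => conjInd_class (i.comp q) x a y)
  have hF : ∀ (x : X) (v : Y), q v = 1 → ∀ y, conjInd (i (q (v * y))) x = conjInd (i (q y)) x := by
    intro x v hv y
    rw [map_mul, hv, one_mul]
  have hw : ∀ (x : X) (v : Y), q v = 1 →
      (∏ o, (θ o (zz φ g v o) / θ o 1)) ≠ 0 ∧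
      ∀ k ∈ J, AS p φ g S θ m M (p v * k) (fun y => conjInd (i (q y)) x) =
        (∏ o, (θ o (zz φ g v o) / θ o 1)) *
          AS p φ g S θ m M k (fun y => conjInd (i (q y)) x) := by
    intro x v hv
    obtain ⟨ha, hb⟩ := h1 O G B C Y K ℓ ι κ ρ hloc W hW j p φ hext J U g S θ m M hS hSW v
      (hq.krr v hv) (hq.krl v hv) (hJ v hv)
    exact ⟨ha, fun k hk => hb k hk _ (hF x v hv)⟩
  have hw' : ∀ (x : X) (v : Y), q v = 1 →
      ∀ k ∈ J, AS p φ g' S' θ' m' M' (p v * k) (fun y => conjInd (i (q y)) x) =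
        (∏ o, (θ o (zz φ g v o) / θ o 1)) *
          AS p φ g' S' θ' m' M' k (fun y => conjInd (i (q y)) x) := by
    intro x v hv k hk
    obtain ⟨ha, hb⟩ := h1 O G B C Y K ℓ ι κ ρ hloc W hW j p φ hext J U g' S' θ' m' M' hS' hSW' v
      (hq.krr v hv) (hq.krl v hv) (hJ v hv)
    rw [hb k hk _ (hF x v hv), hsv v hv]
  -- the image of the kernel
  let V : Subgroup J := (q.ker.map p).subgroupOf J
  have hV : ∀ w : J, w ∈ V ↔ ∃ v, q v = 1 ∧ p v = w := by
    intro w
    rw [Subgroup.mem_subgroupOf, Subgroup.mem_map]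
    rfl
  have hpinj : ∀ v, q v = 1 → p v = 1 → v = 1 := by
    intro v hv hp
    rw [hext.cl.ker] at hp
    obtain ⟨n, rfl⟩ := hp
    rw [hq.emb] at hv
    have h2 : n = 1 := hq.inj (by rw [hv, map_one])
    rw [h2, map_one]
  have hVcard : Nat.card V = Nat.card q.ker := by
    symm
    refine Nat.card_congr (Equiv.ofBijective
      (fun v : q.ker => (⟨⟨p v, hJ v v.2⟩, (hV _).mpr ⟨v, v.2, rfl⟩⟩ : V)) ⟨?_, ?_⟩)
    · intro v v' h
      have h2 : p v = p v' := congrArg (fun t : V => ((t : J) : K)) h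
      have h3 : (v : Y) * (v' : Y)⁻¹ = 1 := by
        apply hpinj
        · rw [map_mul, map_inv, show q v = 1 from v.2, show q v' = 1 from v'.2, mul_inv_cancel]
        · rw [map_mul, map_inv, h2, mul_inv_cancel]
      exact Subtype.ext (mul_inv_eq_one.mp h3)
    · rintro ⟨⟨w, hwJ⟩, hwV⟩
      obtain ⟨v, hv, hp⟩ := (hV _).mp hwV
      refine ⟨⟨v, hv⟩, ?_⟩
      apply Subtype.ext
      apply Subtype.ext
      exact hp
  have key : ∀ (η : J → ℂ), IsIrr η → KerC p φ q J g θ η → ∀ x : X,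
      red 𝔐 (wt η (fun k => AS p φ g S θ m M (k : K) (fun y => conjInd (i (q y)) x)) /
        Nat.card q.ker) =
      red 𝔐 (wt η (fun k => AS p φ g' S' θ' m' M' (k : K) (fun y => conjInd (i (q y)) x)) /
        Nat.card q.ker) := by
    intro η hη hk x
    have hi1 := hI η hη hk x
    have hi2 := hI' η hη ((hker η).mpr hk) x
    set a : J → ℂ := fun k => AS p φ g S θ m M (k : K) (fun y => conjInd (i (q y)) x) with ha
    set a' : J → ℂ := fun k => AS p φ g' S' θ' m' M' (k : K) (fun y => conjInd (i (q y)) x)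
      with ha'
    -- the scalar of an element of the image of the kernel
    let τ : J → ℂ := fun w => if h : ∃ v, q v = 1 ∧ p v = w then
      (∏ o, (θ o (zz φ g h.choose o) / θ o 1))⁻¹ else 0
    have hτ : ∀ w ∈ V, ∃ v, q v = 1 ∧ p v = (w : K) ∧
        τ w = (∏ o, (θ o (zz φ g v o) / θ o 1))⁻¹ := by
      intro w hw
      have h := (hV w).mp hw
      refine ⟨h.choose, h.choose_spec.1, h.choose_spec.2, ?_⟩
      simp only [τ, dif_pos h]
    have hsub : (∑ k, (a - a') k * η k) / (Nat.card V * η 1) =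
        wt η a / Nat.card q.ker - wt η a' / Nat.card q.ker := by
      rw [← sub_div, ← DPX.IDOX.wt_sub, wt, hVcard, mul_comm (Nat.card q.ker : ℂ), ← div_div]
    have hint : IsIntegral ℤ ((∑ k, (a - a') k * η k) / (Nat.card V * η 1)) := by
      rw [hsub]
      exact hi1.sub hi2
    have h2 := RCB.CSC_thm DPX.VALX_thm DPX.RLZX_thm J 𝔐 ℓ hM hℓ V η (a - a') τ hη
      (by
        intro l k
        simp only [Pi.sub_apply, ha, ha']
        rw [hcl x l k, hcl' x l k])
      (fun k => ((hAS k x).1).sub (hAS k x).2.1)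
      (by
        intro k
        have h3 : red 𝔐 (a k) = red 𝔐 ((a - a') k) + red 𝔐 (a' k) := by
          have h5 : a k = (a - a') k + a' k := by simp only [Pi.sub_apply, sub_add_cancel]
          have h6 : IsIntegral ℤ ((a - a') k) := ((hAS k x).1).sub (hAS k x).2.1
          have h7 : IsIntegral ℤ (a' k) := (hAS k x).2.1
          rw [← red_add 𝔐 h6 h7, ← h5]
        have h4 := (hAS k x).2.2
        change red 𝔐 (a k) = red 𝔐 (a' k) at h4
        rw [h4] at h3
        exact (right_eq_add.mp h3))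
      (by
        intro w hw' k
        obtain ⟨v, hv, hp, hτv⟩ := hτ w hw'
        have h3 := hk v hv (hJ v hv) k
        have h4 : (⟨p v, hJ v hv⟩ : J) = w := Subtype.ext hp
        rw [h4] at h3
        rw [hτv, ← h3, inv_mul_cancel_left₀ (hw x v hv).1])
      (by
        intro w hwV k
        obtain ⟨v, hv, hp, hτv⟩ := hτ w hwV
        have h3 := (hw x v hv).2 k k.2
        have h4 := hw' x v hv k k.2
        rw [hp] at h3 h4
        change a (w * k) = _ * a k at h3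
        change a' (w * k) = _ * a' k at h4
        rw [Pi.sub_apply, Pi.sub_apply, h3, h4, hτv, ← mul_sub,
          inv_mul_cancel_left₀ (hw x v hv).1])
      hint
    rw [hsub] at h2
    have h5 : wt η a / Nat.card q.ker =
        (wt η a / Nat.card q.ker - wt η a' / Nat.card q.ker) + wt η a' / Nat.card q.ker := by ring
    rw [h5, red_add 𝔐 (hi1.sub hi2) hi2, h2, zero_add]
  have hset : ∀ η : J → ℂ,
      (IsIrr η ∧ KerC p φ q J g' θ' η ∧
        (∃ d', HasDefect ℓ η d' ∧ e + d' = d + padicValNat ℓ (Nat.card q.ker)) ∧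
        ∀ x, red 𝔐 (wt η (fun k => AS p φ g' S' θ' m' M' (k : K)
          (fun y => conjInd (i (q y)) x)) / Nat.card q.ker) = ω x) ↔
      (IsIrr η ∧ KerC p φ q J g θ η ∧
        (∃ d', HasDefect ℓ η d' ∧ e + d' = d + padicValNat ℓ (Nat.card q.ker)) ∧
        ∀ x, red 𝔐 (wt η (fun k => AS p φ g S θ m M (k : K)
          (fun y => conjInd (i (q y)) x)) / Nat.card q.ker) = ω x) := by
    intro η
    constructor
    · rintro ⟨ha, hb, hd, hc⟩
      have hb' := (hker η).mp hb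
      exact ⟨ha, hb', hd, fun x => (key η ha hb' x).trans (hc x)⟩
    · rintro ⟨ha, hb, hd, hc⟩
      exact ⟨ha, (hker η).mpr hb, hd, fun x => (key η ha hb x).symm.trans (hc x)⟩
  unfold NNW
  rw [Nat.card_congr (Equiv.subtypeEquivRight hset)]

end MINW

theorem MINW_thm (h1 : Stmt_ASW) (h2 : Stmt_TWW) : Stmt_MINW := by
  classical
  intro O G B C Y K Y₀ X _ _ _ _ _ _ _ _ _ _ _ _ _ 𝔐 ℓ _ hM hℓ ι κ ρ hloc W hW j p φ hext q j₀
    hq J U g g' S S' θ θ' m m' M M' hS hS' hJ hSW hSW' hg hlam i hI hI' d e ω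
  -- a choice of the twist which depends only on the group and the two characters
  let Lm : Subgroup C → (B → ℂ) → (B → ℂ) → (C → ℂ) := fun L f f' =>
    if h : ∃ lam : C → ℂ, LinOn L lam ∧ cgW 𝔐 ι W f' =
      cgW 𝔐 ι W (fun x => f x * lam (ρ x)) then h.choose else fun _ => 1
  have hLm : ∀ o, LinOn (U o) (Lm (U o) (θ o) (θ' o)) ∧ cgW 𝔐 ι W (θ' o) =
      cgW 𝔐 ι W (fun x => θ o x * Lm (U o) (θ o) (θ' o) (ρ x)) := by
    intro o
    have h := hlam o
    simp only [Lm, dif_pos h]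
    exact h.choose_spec
  have hU : ∀ y, p y ∈ J → ∀ o, U ((φ y).right • o) = U o := by
    intro y hy o
    rw [← hS.img ((φ y).right • o), ← hS.img o, hS.cS y hy o]
  obtain ⟨hS1, hN⟩ := h2 O G B C Y K Y₀ X 𝔐 ℓ ι κ ρ hloc j p φ hext q J U g S θ m M hS hJ
    (fun o => Lm (U o) (θ o) (θ' o)) (fun o => (hLm o).1) (by
      intro y hy o
      show Lm (U ((φ y).right • o)) (θ ((φ y).right • o)) (θ' ((φ y).right • o)) =
        Lm (U o) (θ o) (θ' o)
      rw [hU y hy o, hS.cθ y hy o, hS'.cθ y hy o])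
  obtain ⟨hI1, hN1⟩ := hN i
  rw [← hN1 d e ω]
  exact MINW.core h1 O G B C Y K Y₀ X 𝔐 ℓ hM hℓ ι κ ρ hloc W hW j p φ hext q j₀ hq J U g g' S S'
    _ θ' m m' _ M' hS1 hS' hJ hSW hSW' hg (fun o => (hLm o).2.symm) i (hI1 hI) hI' d e ω

end Pool.Agent.RCW
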