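import Mathlib
import Pool.Agent.RCW.StB
import Pool.Agent.DP.RINA

/-!
# The coordinate groups of an `ℓ`-subgroup are outer

Module OTA: `Stmt_OTA`.
-/

namespace Pool.Agent.RCW

open Pool.Agent.DP Pool.Agent.DPV Pool.Agent.DPB Pool.Agent.DPC Pool.Agent.DPW Pool.Agent.DPX
open Pool.Agent.Lib_helper13 Representation
open Pool.Agent.Lib_helper13.Dade (pCore DadeHolds dadeSum)

namespace OTA

/-- A nontrivial normal subgroup of a finite `ℓ`-group contains a nontrivial central element. -/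
theorem normal_center {ℓ : ℕ} [Fact ℓ.Prime] {P : Type*} [Group P] [Finite P]
    (hP : IsPGroup ℓ P) (N : Subgroup P) [N.Normal] (hN : N ≠ ⊥) :
    ∃ z ∈ N, z ≠ 1 ∧ ∀ g : P, g * z * g⁻¹ = z := by
  have h1 : IsPGroup ℓ (ConjAct P) := hP.of_equiv ConjAct.toConjAct
  have hnt : Nontrivial N := (Subgroup.nontrivial_iff_ne_bot N).mpr hN
  have hdvd : ℓ ∣ Nat.card N := by
    obtain ⟨n, hn0, hn⟩ := (hP.to_subgroup N).nontrivial_iff_card.mp hnt
    exact hn.symm ▸ dvd_pow_self _ (ne_of_gt hn0)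
  have ha : (1 : N) ∈ MulAction.fixedPoints (ConjAct P) N := by
    intro g
    exact smul_one g
  obtain ⟨b, hb, hb1⟩ :=
    h1.exists_fixed_point_of_prime_dvd_card_of_fixed_point N hdvd ha
  refine ⟨b, b.2, fun h => hb1 (Subtype.ext h.symm), fun g => ?_⟩
  have h2 := hb (ConjAct.toConjAct g)
  have h3 := congrArg Subtype.val h2
  rw [ConjAct.Subgroup.val_conj_smul, ConjAct.toConjAct_smul] at h3
  exact h3

section

variable {G B C Ω X K : Type} [Group G] [Group B] [Group C] [Group X] [Group K]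
  {ι : G →* B} {κ : B →* MulAut G} {ρ : B →* C}

theorem pow_left (φ : X →* Gam (Equiv.Perm Ω) Ω B) (w : Ω) (q : X) (hq : (φ q).right • w = w)
    (k : ℕ) : (φ (q ^ k)).right • w = w ∧ (φ (q ^ k)).left w = (φ q).left w ^ k := by
  induction k with
  | zero => rw [pow_zero, pow_zero]; exact ⟨RINA.rone φ w, RINA.lone φ w⟩
  | succ k ih =>
    have h1 := RINA.lmul φ (q ^ k) q w
    have h2 := RINA.rmul φ (q ^ k) q w
    rw [hq, ih.1] at h2
    rw [h2, hq, ih.1, ih.2] at h1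
    rw [pow_succ, pow_succ]
    exact ⟨h2, h1⟩

/-- The coordinate groups are `ℓ`-groups. -/
theorem Pw_isPGroup {ℓ : ℕ} (φ : X →* Gam (Equiv.Perm Ω) Ω B) (Q : Subgroup X)
    (hQ : IsPGroup ℓ Q) (w : Ω) : IsPGroup ℓ (Pw φ Q w) := by
  rintro ⟨b, q, hq, hqw, rfl⟩
  obtain ⟨k, hk⟩ := hQ ⟨q, hq⟩
  refine ⟨k, ?_⟩
  apply Subtype.ext
  have h1 : q ^ ℓ ^ k = 1 := congrArg Subtype.val hk
  change (φ q).left w ^ ℓ ^ k = 1
  rw [← (pow_left φ w q hqw (ℓ ^ k)).2, h1, RINA.lone]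

end

end OTA

open OTA in
theorem OTA_thm : Stmt_OTA := by
  classical
  intro Ω G B C X K _ _ _ _ _ _ _ _ _ _ ℓ _ ι κ ρ hS e p φ hE Q hQ hQe hcore w
  have hcl := hS.cl
  have hE1 := hE.cl
  have hPp : IsPGroup ℓ (Pw φ Q w) := Pw_isPGroup φ Q hQ w
  refine ⟨hPp, ?_⟩
  by_contra hne
  -- the normal subgroup of the coordinate group
  set P : Subgroup B := Pw φ Q w with hP
  have hPdef : ∀ b, b ∈ P ↔ ∃ q ∈ Q, (φ q).right • w = w ∧ (φ q).left w = b := fun b => Iff.rfl
  set N : Subgroup P := ι.range.subgroupOf P with hN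
  have hιn : ι.range.Normal := by
    refine ⟨fun x hx g => ?_⟩
    obtain ⟨a, rfl⟩ := hx
    exact ⟨κ g a, hcl.act g a⟩
  have hNn : N.Normal := hιn.subgroupOf P
  have hNb : N ≠ ⊥ := by
    intro h
    apply hne
    rw [hN, Subgroup.subgroupOf_eq_bot] at h
    exact (disjoint_iff.mp h.symm)
  obtain ⟨⟨z1, hz1P⟩, hz1N, hz1ne, hz1c⟩ := normal_center hPp N hNb
  obtain ⟨z, hz⟩ : z1 ∈ ι.range := Subgroup.mem_subgroupOf.mp hz1N
  have hzne : z ≠ 1 := by
    intro h
    apply hz1ne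
    apply Subtype.ext
    change z1 = 1
    rw [← hz, h, map_one]
  have hfix : ∀ b ∈ P, κ b z = z := by
    intro b hb
    apply hcl.inj
    have h1 := congrArg Subtype.val (hz1c ⟨b, hb⟩)
    change b * z1 * b⁻¹ = z1 at h1
    rw [hcl.act, hz, h1]
  -- the element of the base group
  set n : Ω → G := fun o => if h : ∃ q ∈ Q, (φ q).right • w = o then
    κ ((φ h.choose).left o) z else 1 with hn
  have hn1 : ∀ q ∈ Q, n ((φ q).right • w) = κ ((φ q).left ((φ q).right • w)) z := by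
    intro q hq
    have hex : ∃ q' ∈ Q, (φ q').right • w = (φ q).right • w := ⟨q, hq, rfl⟩
    have h0 : n ((φ q).right • w) = κ ((φ hex.choose).left ((φ q).right • w)) z := by
      rw [hn]
      exact dif_pos hex
    obtain ⟨h1, h2⟩ := hex.choose_spec
    set q' := hex.choose with hq'
    have h3 : (φ (q⁻¹ * q')).right • w = w := by
      rw [RINA.rmul, h2, ← RINA.rmul, inv_mul_cancel, RINA.rone]
    have h4 := RINA.lmul φ q (q⁻¹ * q') w
    rw [mul_inv_cancel_left, h3, h2] at h4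
    have h5 : (φ (q⁻¹ * q')).left w ∈ P := ⟨q⁻¹ * q', mul_mem (inv_mem hq) h1, h3, rfl⟩
    rw [h0, h4, map_mul, MulAut.mul_apply, hfix _ h5]
  have hn2 : ∀ o, (¬ ∃ q ∈ Q, (φ q).right • w = o) → n o = 1 := by
    intro o ho
    rw [hn]
    exact dif_neg ho
  have hnc : e n ∈ Subgroup.centralizer (Q : Set X) := by
    rw [RINA.cent e p φ hE1 Q n]
    intro q hq o
    by_cases ho : ∃ q' ∈ Q, (φ q').right • w = o
    · obtain ⟨q', hq', rfl⟩ := ho
      have e1 := hn1 _ (mul_mem hq hq')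
      rw [RINA.lmul, RINA.rmul, map_mul, MulAut.mul_apply] at e1
      rw [hn1 q' hq', e1]
    · rw [hn2 o ho, map_one, hn2]
      rintro ⟨q', hq', h1⟩
      apply ho
      refine ⟨q⁻¹ * q', mul_mem (inv_mem hq) hq', ?_⟩
      rw [RINA.rmul, h1, ← RINA.rmul, inv_mul_cancel, RINA.rone]
  have hzmem : e n ∈ cN e.range Q := Subgroup.mem_inf.mpr ⟨⟨n, rfl⟩, hnc⟩
  have hcomm : ∀ m : Ω → G, e m ∈ Subgroup.centralizer (Q : Set X) → n * m = m * n := by
    intro m hm
    rw [RINA.cent e p φ hE1 Q m] at hm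
    funext o
    rw [Pi.mul_apply, Pi.mul_apply]
    by_cases ho : ∃ q' ∈ Q, (φ q').right • w = o
    · obtain ⟨q', hq', rfl⟩ := ho
      rw [hn1 q' hq', ← hm q' hq' w, ← map_mul, ← map_mul]
      congr 1
      obtain ⟨q1, hq1, hq1w, hb⟩ := (hPdef z1).mp hz1P
      have h1 := hm q1 hq1 w
      rw [hq1w, hb, ← hz, RINA.kap hcl] at h1
      rw [mul_inv_eq_iff_eq_mul] at h1
      exact h1
    · rw [hn2 o ho, one_mul, mul_one]
  have hfin : e n = 1 := by
    have h1 : (⟨e n, hzmem⟩ : cN e.range Q) = 1 := by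
      obtain ⟨k, hk⟩ := hPp ⟨z1, hz1P⟩
      have hzk : z ^ ℓ ^ k = 1 := by
        apply hcl.inj
        rw [map_pow, hz, map_one]
        exact congrArg Subtype.val hk
      refine ZR.central_one (ℓ := ℓ) hcore _ ?_ k ?_
      · rintro ⟨x, hx⟩
        obtain ⟨⟨m, rfl⟩, hm⟩ := Subgroup.mem_inf.mp hx
        apply Subtype.ext
        change e n * e m = e m * e n
        rw [← map_mul, hcomm m hm, map_mul]
      · apply Subtype.ext
        change (e n) ^ ℓ ^ k = 1
        rw [← map_pow]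
        have : n ^ ℓ ^ k = 1 := by
          funext o
          rw [Pi.pow_apply, Pi.one_apply]
          by_cases ho : ∃ q' ∈ Q, (φ q').right • w = o
          · obtain ⟨q', hq', rfl⟩ := ho
            rw [hn1 q' hq', ← map_pow, hzk, map_one]
          · rw [hn2 o ho, one_pow]
        rw [this, map_one]
    exact congrArg Subtype.val h1
  have hn0 : n = 1 := hE1.inj (by rw [hfin, map_one])
  have h1 := hn1 1 (one_mem _)
  rw [RINA.rone, RINA.lone, hn0, Pi.one_apply, map_one, MulAut.one_apply] at h1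
  exact hzne h1.symm

end Pool.Agent.RCW
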