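import Mathlib
import Pool.Agent.RCW.StB
import Pool.Agent.DP.RINA

/-!
# The centralizer of an `ℓ`-subgroup

Module OTB: `Stmt_OTB`.
-/

namespace Pool.Agent.RCW

open Pool.Agent.DP Pool.Agent.DPV Pool.Agent.DPB Pool.Agent.DPC Pool.Agent.DPW Pool.Agent.DPX
open Pool.Agent.Lib_helper13 Representation
open Pool.Agent.Lib_helper13.Dade (pCore DadeHolds dadeSum)

open Pool.Agent.DP.RINA in
theorem OTB_thm : Stmt_OTB := by
  classical
  intro Ω G B C X K _ _ _ _ _ _ _ _ _ _ ℓ _ ι κ ρ hS e p φ hE Q hQ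
  have hE1 := hE.cl
  let S : Setoid Ω :=
    { r := fun w w' => ∃ q ∈ Q, (φ q).right • w = w'
      iseqv := by
        refine ⟨fun w => ⟨1, one_mem _, rone φ w⟩, ?_, ?_⟩
        · rintro w _ ⟨q, hq, rfl⟩
          exact ⟨q⁻¹, inv_mem hq, by rw [← rmul, inv_mul_cancel, rone]⟩
        · rintro w _ _ ⟨q, hq, rfl⟩ ⟨q', hq', rfl⟩
          exact ⟨q' * q, mul_mem hq' hq, by rw [rmul]⟩ }
  have hSr : ∀ w w', (Quotient.mk S w = Quotient.mk S w') ↔ ∃ q ∈ Q, (φ q).right • w = w' :=
    fun w w' => Quotient.eq (r := S)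
  have hex : ∀ w, ∃ q ∈ Q, (φ q).right • (Quotient.mk S w).out = w ∧
      (w = (Quotient.mk S w).out → q = 1) := by
    intro w
    by_cases hw : w = (Quotient.mk S w).out
    · refine ⟨1, one_mem _, ?_, fun _ => rfl⟩
      rw [rone]
      exact hw.symm
    · obtain ⟨q, hq, hqw⟩ := (hSr _ _).mp (Quotient.out_eq (Quotient.mk S w))
      exact ⟨q, hq, hqw, fun h => absurd h hw⟩
  choose qq hqQ hqq hq1 using hex
  -- the value of `v` at the representatives
  have hone : ∀ o : Quotient S, qq o.out = 1 := by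
    intro o
    apply hq1
    rw [Quotient.out_eq]
  -- two choices of `q`
  have key : ∀ q ∈ Q, ∀ q' ∈ Q, ∀ w, (φ q).right • w = (φ q').right • w → ∀ g : G,
      g ∈ FX κ (Pw φ Q w) →
      κ ((φ q).left ((φ q).right • w)) g = κ ((φ q').left ((φ q').right • w)) g := by
    intro q hq q' hq' w h g hg
    have h3 : (φ (q'⁻¹ * q)).right • w = w := by
      rw [rmul, h, ← rmul, inv_mul_cancel, rone]
    have h4 := lmul φ q' (q'⁻¹ * q) w
    rw [mul_inv_cancel_left, h3] at h4
    rw [h4, map_mul, MulAut.mul_apply,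
      mem_FX.mp hg _ ⟨q'⁻¹ * q, mul_mem (inv_mem hq') hq, h3, rfl⟩]
  refine ⟨Quotient S, Fintype.ofFinite _, Classical.decEq _, Quotient.mk S, Quotient.out,
    fun w => (φ (qq w)).left w, fun o => Quotient.out_eq o, hSr, ?_, ?_, ?_, ?_⟩
  · intro o
    obtain ⟨w0, rfl⟩ := Quotient.exists_rep o
    let act : MulAction Q Ω :=
      MulAction.compHom Ω ((SemidirectProduct.rightHom.comp φ).comp Q.subtype)
    have hsm : ∀ (q : Q) (w : Ω), q • w = (φ (q : X)).right • w := fun _ _ => rfl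
    obtain ⟨k, hk⟩ := hQ.card_orbit w0
    refine ⟨k, ?_⟩
    rw [← hk]
    refine Nat.card_congr (Equiv.subtypeEquivRight ?_)
    intro w
    rw [MulAction.mem_orbit_iff, eq_comm, hSr]
    constructor
    · rintro ⟨q, hq, h⟩
      exact ⟨⟨q, hq⟩, h⟩
    · rintro ⟨q, h⟩
      exact ⟨q, q.2, h⟩
  · intro w
    exact ⟨qq w, hqQ w, hqq w, rfl⟩
  · intro o
    change (φ (qq o.out)).left o.out = 1
    rw [hone, lone]
  · intro n
    rw [cent e p φ hE1 Q n]
    constructor
    · intro h
      refine ⟨fun o => n o.out, ?_, ?_⟩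
      · rintro o b ⟨q, hq, hqo, rfl⟩
        have h1 := h q hq o.out
        rw [hqo] at h1
        exact h1
      · funext w
        have h1 := h (qq w) (hqQ w) (Quotient.mk S w).out
        rw [hqq w] at h1
        exact h1.symm
    · rintro ⟨n', hn', rfl⟩ q hq w
      have h2 : Quotient.mk S ((φ q).right • w) = Quotient.mk S w :=
        ((hSr _ _).mpr ⟨q, hq, rfl⟩).symm
      have h5 := hqq ((φ q).right • w)
      rw [h2] at h5
      have h6 : (φ (q * qq w)).right • (Quotient.mk S w).out = (φ q).right • w := by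
        rw [rmul, hqq w]
      have h3 := key (q * qq w) (mul_mem hq (hqQ w)) (qq ((φ q).right • w)) (hqQ _)
        (Quotient.mk S w).out (by rw [h6, h5]) (n' (Quotient.mk S w)) (hn' _)
      rw [h5, h6] at h3
      have h4 := lmul φ q (qq w) (Quotient.mk S w).out
      rw [h6, hqq w] at h4
      change κ _ (κ ((φ (qq w)).left w) (n' (Quotient.mk S w))) =
        κ ((φ (qq ((φ q).right • w))).left ((φ q).right • w)) (n' (Quotient.mk S ((φ q).right • w)))
      rw [h2, ← h3, h4, map_mul, MulAut.mul_apply]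

end Pool.Agent.RCW
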