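import Mathlib
import Pool.Agent.RCW.OTA
import Pool.Agent.RCW.OTB
import Pool.Agent.DPX.AllX
import Pool.Agent.DPC.OUTC
import Pool.Agent.DP.BLKBR
import Pool.Agent.DP.SUMM
import Pool.Agent.DP.RINA

/-!
# Module OTC: a coordinate with nontrivial cyclic defect groups
-/

namespace Pool.Agent.RCW

open Pool.Agent.DP Pool.Agent.DPV Pool.Agent.DPB Pool.Agent.DPC Pool.Agent.DPW Pool.Agent.DPX
open Pool.Agent.Lib_helper13 Representation
open Pool.Agent.Lib_helper13.Dade (pCore DadeHolds dadeSum)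

open Pool.Agent.DPC.OUTC in
/-- OTC. -/
theorem OTC_thm (hIDP : Stmt_IDP) (hBTA : Stmt_BTA) : Stmt_OTC := by
  classical
  intro Ω G B C X K _ _ _ _ _ _ _ _ _ _ 𝔐 ℓ _ h𝔐 hℓ ι κ ρ hL e p φ hE Q hQ hQe Y hY hcN
    χ ξ w hχ hξ hipχ hDX ψ hψ hcen
  have hprime : 𝔐.IsPrime := h𝔐.isPrime
  have hE1 := hE.cl
  obtain ⟨f, hfc, hfk, hfi, hf0, hf1⟩ := hIDP G B 𝔐 ℓ h𝔐 hℓ κ
    (fun ω : G → (integralClosure ℤ ℂ) ⧸ 𝔐 => DX ℓ ω) (admx_all G B 𝔐 ℓ h𝔐 κ)
  obtain ⟨O, hO1, hO2, π, s, v, hs, hπ, hcard, hv, hvs, hcent⟩ :=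
    OTB_thm Ω G B C X K ℓ ι κ ρ hL e p φ hE Q hQ
  choose k hk using hcard
  have hS : Stmt_SUMM := SUMM_thm
  -- the centralizer
  let A : Type := ∀ o : O, ↥(FX κ (Pw φ Q (s o)))
  let ex : A → (Ω → G) := fun a w => κ (v w) (a (π w) : G)
  have hmem : ∀ a : A, e (ex a) ∈ Y := by
    intro a
    apply hcN
    exact Subgroup.mem_inf.mpr ⟨⟨_, rfl⟩, (hcent _).mpr ⟨fun o => (a o : G), fun o => (a o).2, rfl⟩⟩
  let j : A →* Y :=
    { toFun := fun a => ⟨e (ex a), hmem a⟩
      map_one' := by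
        apply Subtype.ext
        change e (ex 1) = 1
        have : ex 1 = 1 := by
          funext w
          change κ (v w) ((1 : ↥(FX κ (Pw φ Q (s (π w))))) : G) = 1
          rw [Subgroup.coe_one, map_one]
        rw [this, map_one]
      map_mul' := by
        intro a b
        apply Subtype.ext
        change e (ex (a * b)) = e (ex a) * e (ex b)
        have : ex (a * b) = ex a * ex b := by
          funext w
          change κ (v w) ((a (π w) * b (π w) : ↥(FX κ (Pw φ Q (s (π w))))) : G) =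
            κ (v w) (a (π w) : G) * κ (v w) (b (π w) : G)
          rw [Subgroup.coe_mul, map_mul]
        rw [this, map_mul] }
  have hjc : ∀ a : A, ((j a : Y) : X) = e (ex a) := fun a => rfl
  have hexs : ∀ (a : A) (o : O), ex a (s o) = a o := by
    intro a o
    change κ (v (s o)) (a (π (s o)) : G) = a o
    rw [hvs, map_one, MulAut.one_apply]
    have hgen : ∀ o' : O, o' = o → ((a o' : ↥(FX κ (Pw φ Q (s o')))) : G) = a o := by
      rintro _ rfl
      rfl
    exact hgen _ (hs o)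
  have hj : Function.Injective j := by
    intro a b hab
    have h3 : ex a = ex b := hE1.inj (congrArg Subtype.val hab)
    funext o
    apply Subtype.ext
    rw [← hexs, ← hexs, h3]
  have hran : ∀ y : Y, y ∈ j.range ↔ (y : X) ∈ e.range := by
    intro y
    constructor
    · rintro ⟨a, rfl⟩
      exact ⟨ex a, rfl⟩
    · intro hy
      have hnorm : e.range.Normal := by
        refine ⟨?_⟩
        rintro _ ⟨n, rfl⟩ g
        exact ⟨_, hE1.act g n⟩
      obtain ⟨n, hn⟩ := hy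
      have h4 : e n ∈ Subgroup.centralizer (Q : Set X) := by
        rw [Subgroup.mem_centralizer_iff]
        intro q hq
        have h5 : (y : X) * q * (y : X)⁻¹ ∈ Q := by
          have h6 : (MulAut.conj (y : X)).toMonoidHom q ∈
              Q.map (MulAut.conj (y : X)).toMonoidHom := ⟨q, hq, rfl⟩
          rw [hY y y.2] at h6
          exact h6
        have h7 : (y : X) * q * (y : X)⁻¹ * q⁻¹ ∈ Q ⊓ e.range := by
          refine Subgroup.mem_inf.mpr ⟨mul_mem h5 (inv_mem hq), ?_⟩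
          have h8 : (y : X) * q * (y : X)⁻¹ * q⁻¹ = (y : X) * (q * (y : X)⁻¹ * q⁻¹) := by group
          rw [h8]
          refine mul_mem ⟨n, hn⟩ (hnorm.conj_mem _ (inv_mem ⟨n, hn⟩) q)
        rw [hQe, Subgroup.mem_bot] at h7
        rw [hn]
        have h9 : (y : X) * q = q * (y : X) := by
          have h10 : (y : X) * q * (y : X)⁻¹ = q := by rwa [mul_inv_eq_one] at h7
          rwa [mul_inv_eq_iff_eq_mul] at h10
        exact h9.symm
      obtain ⟨n', hn', hn2⟩ := (hcent n).mp h4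
      refine ⟨fun o => ⟨n' o, hn' o⟩, ?_⟩
      apply Subtype.ext
      rw [hjc, ← hn]
      congr 1
      exact hn2.symm
  have hjn : j.range.Normal := by
    refine ⟨?_⟩
    intro y hy g
    rw [hran] at hy ⊢
    obtain ⟨n, hn⟩ := hy
    refine ⟨_, (hE1.act (g : X) n).trans ?_⟩
    rw [hn]
    rfl
  obtain ⟨K', _, c, p', hcl⟩ := exists_clG j hj hjn
  -- a constituent
  obtain ⟨θ', hθ', hip'⟩ := Cliff.exists_under hψ j
  obtain ⟨θ, hθ, rfl⟩ := exists_prodFn hθ'
  -- the two weights agree modulo the ideal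
  have hA : red 𝔐 (wt χ (fun x => BLKBR.yF e f x)) =
      red 𝔐 (wt ψ (fun y => BLKBR.yF e f (Y.subtype y))) := by
    have ha := red_wt_eq_pair 𝔐 (MonoidHom.id X) hχ (fun x => BLKBR.yF e f x)
      (fun g x => BLKBR.yF_class hE1 hfk g x) (fun x => BLKBR.yF_integral f x)
    have hb := red_wt_eq_pair 𝔐 Y.subtype hψ (fun x => BLKBR.yF e f x)
      (fun g x => BLKBR.yF_class hE1 hfk g x) (fun x => BLKBR.yF_integral f x)
    rw [hcen] at hb
    exact ha.trans hb.symm
  have hB : wt χ (fun x => BLKBR.yF e f x) = ∏ a, wt (ξ a) (fun x => (f x : ℂ)) := by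
    rw [(hS (Ω → G) X K e ((wB κ Ω).comp φ) p hE1).2.2.2 (prodFn ξ) χ (fun x => BLKBR.yF e f x)
      (isIrr_prodFn hξ) hχ hipχ (fun g x => BLKBR.yF_class hE1 hfk g x)
      (fun y hy => BLKBR.yF_zero f hy)]
    rw [← wt_prodFn]
    congr 1
    ext n
    exact BLKBR.yF_e hE1.inj f n
  have hC : wt ψ (fun y => BLKBR.yF e f (Y.subtype y)) =
      ∏ o, wt (θ o) (fun x => (f (x : G) : ℂ) ^ ℓ ^ k o) := by
    rw [(hS A Y K' j c p' hcl).2.2.2 (prodFn θ) ψ
      (fun y => BLKBR.yF e f (Y.subtype y)) (isIrr_prodFn hθ) hψ hip' ?_ ?_]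
    · rw [← wt_prodFn]
      congr 1
      ext n
      change BLKBR.yF e f (e (ex n)) = _
      rw [BLKBR.yF_e hE1.inj]
      have h2 : ∀ a : Ω, ((f (ex n a) : ℤ) : ℂ) = (f (n (π a) : G) : ℂ) := by
        intro a
        change ((f (κ (v a) (n (π a) : G)) : ℤ) : ℂ) = _
        rw [hfk]
      rw [Finset.prod_congr rfl fun a _ => h2 a, BLKB.prod_pow π (fun o => (f (n o : G) : ℂ))]
      simp only [prodFn, hk]
    · intro g x
      rw [map_mul, map_mul, map_inv, BLKBR.yF_class hE1 hfk]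
    · intro y hy
      apply BLKBR.yF_zero
      intro h
      exact hy ((hran y).mpr h)
  have hint : ∀ (φ : G → ℂ), IsIrr φ → IsIntegral ℤ (wt φ (fun x => (f x : ℂ))) := by
    intro φ hφ
    apply isIntegral_wt hφ
    · intro g x
      rw [hfc]
    · intro x
      exact BLKB.intCast_integral _
  have hintp : ∀ (o : O), IsIntegral ℤ (wt (θ o) (fun x => (f (x : G) : ℂ) ^ ℓ ^ k o)) := by
    intro o
    apply isIntegral_wt (hθ o)
    · intro g x
      rw [Subgroup.coe_mul, Subgroup.coe_mul, Subgroup.coe_inv, hfc]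
    · intro x
      exact (BLKB.intCast_integral _).pow _
  rw [hB, hC, red_prod 𝔐 _ _ fun a _ => hint _ (hξ a),
    red_prod 𝔐 _ _ fun o _ => hintp o,
    Finset.prod_eq_zero (Finset.mem_univ w) (hf0 (ξ w) (hξ w) hDX)] at hA
  -- the bad coordinate
  obtain ⟨o, ho⟩ : ∃ o, red 𝔐 (wt (θ o) (fun x => (f (x : G) : ℂ) ^ ℓ ^ k o)) = 0 := by
    by_contra hcon
    push Not at hcon
    exact (Finset.prod_ne_zero_iff.mpr fun o _ => hcon o) hA.symm
  have hD : red 𝔐 (wt (θ o) (fun x => (f (x : G) : ℂ) ^ ℓ ^ k o)) =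
      red 𝔐 (wt (θ o) (fun x => (f (x : G) : ℂ))) := by
    apply red_wt_eq 𝔐 hℓ (hθ o) (⊥ : Subgroup ↥(FX κ (Pw φ Q (s o)))) IsPGroup.of_bot
    · intro g x
      rw [Subgroup.coe_mul, Subgroup.coe_mul, Subgroup.coe_inv, hfc]
    · intro x
      exact (BLKB.intCast_integral _).pow _
    · intro g x
      rw [Subgroup.coe_mul, Subgroup.coe_mul, Subgroup.coe_inv, hfc]
    · intro x
      exact BLKB.intCast_integral _
    · intro x _
      exact BLKB.red_pow_int 𝔐 hℓ (k o) (f x)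
  rw [hD] at ho
  have hDo : DX ℓ (cen 𝔐 (MonoidHom.id _) (θ o)) := by
    refine hBTA G B 𝔐 ℓ h𝔐 hℓ κ f hfc hfk hfi ?_ (Pw φ Q (s o))
      (OTA.Pw_isPGroup φ Q hQ (s o)) (θ o) (hθ o) ho
    intro χ' hχ' h0
    by_contra hcon
    rw [hf1 χ' hχ' hcon] at h0
    exact one_ne_zero h0
  refine ⟨s o, j.comp (MonoidHom.mulSingle (fun o => ↥(FX κ (Pw φ Q (s o)))) o), θ o, ?_,
    hθ o, hDo, ?_⟩
  · intro g
    have hin : ∀ w' : Ω, π w' = o → ex (Pi.mulSingle o g) w' = κ (v w') g := by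
      intro w' hw'
      subst hw'
      change κ (v w') ((Pi.mulSingle (π w') g : A) (π w') : G) = _
      rw [Pi.mulSingle_eq_same]
    have hout : ∀ w' : Ω, π w' ≠ o → ex (Pi.mulSingle o g) w' = 1 := by
      intro w' hw'
      change κ (v w') ((Pi.mulSingle o g : A) (π w') : G) = _
      rw [Pi.mulSingle_eq_of_ne hw', Subgroup.coe_one, map_one]
    refine ⟨ex (Pi.mulSingle o g), rfl, ?_, ?_⟩
    · intro q hq
      have h3 : e (ex (Pi.mulSingle o g)) ∈ Subgroup.centralizer (Q : Set X) :=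
        (hcent _).mpr ⟨fun o' => ((Pi.mulSingle o g : A) o' : G), fun o' => (_ : ↥(FX κ _)).2, rfl⟩
      rw [RINA.cent e p φ hE1 Q] at h3
      have h4 := h3 q hq (s o)
      rw [← h4, hin (s o) (hs o), hvs, map_one, MulAut.one_apply]
    · intro w' hw'
      apply hout
      intro h3
      obtain ⟨q, hq, h4⟩ := (hπ (s o) w').mp (by rw [hs, h3])
      exact hw' q hq h4
  · have h3 := ip_trans (MonoidHom.mulSingle (fun o => ↥(FX κ (Pw φ Q (s o)))) o)
      (hψ.resj j) (isIrr_prodFn hθ) (hθ o) hip' (ip_single hθ o)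
    exact h3

end Pool.Agent.RCW
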