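import Mathlib
import Pool.Agent.DPV.PERCV
import Pool.Agent.DPV.PERAV
import Pool.Agent.DPV.REPV
import Pool.Agent.DPV.TRV
import Pool.Agent.DPV.EXTV
import Pool.Agent.DP.TENS
import Pool.Agent.DP.IRRPI
import Pool.Agent.DP.CLG
import Pool.Agent.DP.COSET
import Pool.Agent.RCW.StC

set_option linter.unusedSectionVars false

/-! RCW_PERCW: the extension to the inertia group, and its scalars on the kernel of `q`. -/

namespace Pool.Agent.RCW

open Pool.Agent.DP Pool.Agent.DPV Pool.Agent.DPW Pool.Agent.Lib_helper13 Representation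

namespace PERCW

/-- An element which centralizes a subgroup on which the character is irreducible acts by a
scalar. -/
theorem scal {A I : Type} [Group A] [Fintype A] [Group I] (ja : A →* I) (E : I → ℂ)
    (hE : IsChr E) (θ : A → ℂ) (hθ : IsIrr θ) (hj : ∀ a, E (ja a) = θ a) (v : I)
    (hv : ∀ a, v * ja a = ja a * v) (s : I) : E (v * s) * E 1 = E v * E s := by
  obtain ⟨n, ρ, rfl⟩ := hE
  have hc : Representation.character (ρ.comp ja : Representation ℂ A (Fin n → ℂ)) = θ := by
    ext a
    exact hj a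
  have hirr : Representation.IsIrreducible (ρ.comp ja : Representation ℂ A (Fin n → ℂ)) := by
    apply irreducible_of_sum
    rw [hc]
    exact hθ.sum_self
  obtain ⟨c, hc'⟩ := COSET.scalar (ρ.comp ja : Representation ℂ A (Fin n → ℂ)) (ρ v) (by
    intro g w
    change ρ v (ρ (ja g) w) = ρ (ja g) (ρ v w)
    rw [← Module.End.mul_apply, ← Module.End.mul_apply, ← map_mul, ← map_mul, hv])
  have h1 : ∀ x : I, ρ.character (v * x) = c * ρ.character x := by
    intro x
    have h2 : ρ (v * x) = c • ρ x := by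
      rw [map_mul, hc']
      rfl
    change LinearMap.trace ℂ _ (ρ (v * x)) = c * LinearMap.trace ℂ _ (ρ x)
    rw [h2, map_smul, smul_eq_mul]
  have h3 := h1 1
  rw [mul_one] at h3
  rw [h1, h3]
  ring

end PERCW

open PERCV in
theorem PERCW_thm : Stmt_PERCW := by
  classical
  intro O G B C Y K Y₀ _ _ _ _ _ _ _ _ _ _ _ _ _ ℓ _ ι κ ρ hloc W hW j p φ h q j₀ hcov τ hτ θ hθ
    r t g S f m M hst
  have hA : Stmt_PERAV := PERAV_thm
  have hR : Stmt_REPV := REPV_thm
  have hT : Stmt_TRV := TRV_thm EXTV_thm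
  have hmem := mem_iff hR hT ℓ ι κ ρ hloc j p φ h τ θ hθ r t g S f m M hst
  obtain ⟨hle, hin, -, -, -⟩ := hA O G B C Y K ℓ ι κ ρ hloc j p φ h τ hτ θ hθ
  set J := KB κ p φ τ θ with hJ
  set I := inert (cS h.cl τ) (fun a => ∏ o, θ o ((a : O → G) o)) with hI
  -- the group of permutations
  let L : Subgroup (Equiv.Perm O) :=
    (J.comap p).map ((SemidirectProduct.rightHom : Gam (Equiv.Perm O) O B →* Equiv.Perm O).comp φ)
  have hL : ∀ l : L, ∃ y, p y ∈ J ∧ (φ y).right = (l : Equiv.Perm O) := by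
    rintro ⟨l, y, hy, rfl⟩
    exact ⟨y, hy, rfl⟩
  have hSS : ∀ (l : L) o, S (l • o) = S o := by
    intro l o
    obtain ⟨y, hy, hl⟩ := hL l
    have h1 := hst.sd.cS y hy o
    rw [hl] at h1
    exact h1
  have hmm : ∀ (l : L) o, m (l • o) = m o := by
    intro l o
    obtain ⟨y, hy, hl⟩ := hL l
    have h1 := hst.sd.cm y hy o
    rw [hl] at h1
    exact h1
  have hMM : ∀ (l : L) o, M (l • o) = M o := by
    intro l o
    obtain ⟨y, hy, hl⟩ := hL l
    have h1 := hst.sd.cM y hy o
    rw [hl] at h1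
    exact h1
  have hTE := TENS_thm.2 L O B S hSS f m M hmm hMM hst.sd.md
  have hIn : ∀ s : I, ((s : YS j τ) : Y) ∈ InY κ φ τ θ := fun s => (hin s.1).mp s.2
  have hpJ : ∀ s : I, p ((s : YS j τ) : Y) ∈ J := fun s => ((hmem _).mpr (hIn s)).1
  have hzS : ∀ (s : I) (o : O), zz φ g ((s : YS j τ) : Y) o ∈ S o :=
    fun s => ((hmem _).mpr (hIn s)).2
  let Ψ : I →* stdS (L := L) S hSS :=
    { toFun := fun s => ⟨⟨zz φ g ((s : YS j τ) : Y), ⟨(φ ((s : YS j τ) : Y)).right,
        ⟨((s : YS j τ) : Y), hpJ s, rfl⟩⟩⟩, hzS s⟩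
      map_one' := by
        apply Subtype.ext
        apply SemidirectProduct.ext
        · ext o
          exact zz_one φ g o
        · apply Subtype.ext
          change (φ 1).right = 1
          rw [map_one]
          rfl
      map_mul' := by
        intro x y
        apply Subtype.ext
        apply SemidirectProduct.ext
        · ext o
          exact zz_mul φ g _ _ o
        · apply Subtype.ext
          change (φ (((x : YS j τ) : Y) * ((y : YS j τ) : Y))).right = _
          rw [map_mul]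
          rfl }
  let E : I → ℂ := fun s => TH m M (φ ((s : YS j τ) : Y)).right (zz φ g ((s : YS j τ) : Y))
  have hE1 : IsChr E := hTE.1.comp Ψ
  have hE2 : ∀ a (ha : jS h.cl τ a ∈ I), E ⟨jS h.cl τ a, ha⟩ = ∏ o, θ o ((a : O → G) o) := by
    intro a ha
    have hφ : φ (j (a : O → G)) = SemidirectProduct.inl (fun o => ι ((a : O → G) o)) := h.jn _
    have h0 : zz φ g (j (a : O → G)) = fun o => ι (κ (g o)⁻¹ ((a : O → G) o)) := by
      funext o
      rw [zz, hφ, hloc.cl.act]
      simp
    have h1 : E ⟨jS h.cl τ a, ha⟩ = TH m M 1 (fun o => ι (κ (g o)⁻¹ ((a : O → G) o))) := by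
      change TH m M (φ (j (a : O → G))).right (zz φ g (j (a : O → G))) = _
      rw [h0, hφ]
      rfl
    rw [h1, hTE.2]
    · refine Finset.prod_congr rfl fun o _ => ?_
      rw [(hst.ex o).2]
      have h2 := (hst.tr o).2 (κ (g o)⁻¹ ((a : O → G) o))
      rw [← h2, ← MulAut.mul_apply, ← map_mul, mul_inv_cancel, map_one, MulAut.one_apply]
    · intro o
      have h2 := hzS ⟨jS h.cl τ a, ha⟩ o
      change zz φ g (j (a : O → G)) o ∈ S o at h2
      rwa [h0] at h2
  have hone : E 1 = ∏ o, f o 1 := by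
    have h0 : zz φ g 1 = fun _ => (1 : B) := by
      funext o
      exact zz_one φ g o
    have h1 : E 1 = TH m M 1 (fun _ => (1 : B)) := by
      change TH m M (φ 1).right (zz φ g 1) = _
      rw [h0, map_one]
      rfl
    rw [h1, hTE.2]
    intro o
    exact (S o).one_mem
  refine ⟨E, hE1, hE2, ?_, ?_⟩
  swap
  · intro v hv
    constructor
    · have h1 : E v = ∏ o, f o (zz φ g ((v : YS j τ) : Y) o) := by
        have h2 : E v = TH m M 1 (zz φ g ((v : YS j τ) : Y)) := by
          change TH m M (φ ((v : YS j τ) : Y)).right (zz φ g ((v : YS j τ) : Y)) = _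
          rw [hcov.krr _ hv]
        rw [h2, hTE.2 _ (hzS v)]
      rw [h1, hone, Finset.prod_div_distrib]
    · have hτc : ∀ D ∈ τ, cl D = D := (mem_ClCh.mp hτ).2
      have hirr : IsIrr (fun a : stb τ => ∏ o, θ o ((a : O → G) o)) :=
        (IRRPI_thm O G (fun o => stb (comp τ o)) (stb τ) (stb_closed hτc)).1 θ hθ
      refine PERCW.scal (CLG.jS (clG_S h.cl τ) hirr) E hE1 _ hirr (fun a => hE2 a _) v ?_
      intro a
      have hc : ((wB κ O).comp φ) ((v : YS j τ) : Y) (a : O → G) = (a : O → G) := by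
        apply hcov.inj
        rw [← hcov.emb, ← hcov.emb, h.cl.act, map_mul, map_mul, map_inv, hv, one_mul, inv_one,
          mul_one]
      have h2 : ((v : YS j τ) : Y) * j (a : O → G) = j (a : O → G) * ((v : YS j τ) : Y) := by
        have h3 := h.cl.act ((v : YS j τ) : Y) (a : O → G)
        rw [hc] at h3
        conv_rhs => rw [h3]
        group
      apply Subtype.ext
      apply Subtype.ext
      exact h2
  intro η hη F hF
  have hext : ext0 η (pS p j τ ((1 : I) : YS j τ)) = η 1 := by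
    have h1 : pS p j τ ((1 : I) : YS j τ) = 1 := map_one _
    rw [h1, ext0_of_mem η J.one_mem]
    rfl
  -- both sides are sums over `Y`
  have hsum1 : ∑ s : I, F ((s : YS j τ) : Y) * (E s * ext0 η (pS p j τ s)) =
      ∑ y : Y, if y ∈ InY κ φ τ θ then
        F y * (TH m M (φ y).right (zz φ g y) * ext0 η (p y)) else 0 := by
    rw [← Finset.sum_filter]
    refine Finset.sum_bij' (fun (s : I) _ => ((s : YS j τ) : Y))
      (fun y hy => ⟨⟨y, hle (Finset.mem_filter.mp hy).2⟩,
        (hin _).mpr (Finset.mem_filter.mp hy).2⟩) ?_ ?_ ?_ ?_ ?_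
    · intro s _
      exact Finset.mem_filter.mpr ⟨Finset.mem_univ _, hIn s⟩
    · intro y _
      exact Finset.mem_univ _
    · intro s _
      rfl
    · intro y _
      rfl
    · intro s _
      rfl
  have hsum2 : ∑ k : J, AS p φ g S f m M (k : K) F * η k =
      (∑ y : Y, if y ∈ InY κ φ τ θ then
        F y * (TH m M (φ y).right (zz φ g y) * ext0 η (p y)) else 0) / ∏ o, f o 1 := by
    have h1 : ∀ k : J, AS p φ g S f m M (k : K) F * η k =
        (∑ y : Y, if p y = k ∧ ∀ o, zz φ g y o ∈ S o then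
          F y * (TH m M (φ y).right (zz φ g y) * η k) else 0) / ∏ o, f o 1 := by
      intro k
      rw [AS, div_mul_eq_mul_div, Finset.sum_mul]
      congr 1
      refine Finset.sum_congr rfl fun y _ => ?_
      by_cases hc : p y = k ∧ ∀ o, zz φ g y o ∈ S o
      · rw [if_pos hc, if_pos hc]
        ring
      · rw [if_neg hc, if_neg hc, zero_mul]
    rw [Finset.sum_congr rfl fun k _ => h1 k, ← Finset.sum_div, Finset.sum_comm]
    congr 1
    refine Finset.sum_congr rfl fun y _ => ?_
    by_cases hy : y ∈ InY κ φ τ θ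
    · rw [if_pos hy]
      obtain ⟨hy1, hy2⟩ := (hmem y).mpr hy
      rw [Finset.sum_eq_single (⟨p y, hy1⟩ : J)]
      · rw [if_pos ⟨rfl, hy2⟩, ext0_of_mem η hy1]
      · intro k _ hk
        rw [if_neg]
        rintro ⟨h2, -⟩
        exact hk (Subtype.ext h2.symm)
      · intro h2
        exact absurd (Finset.mem_univ _) h2
    · rw [if_neg hy]
      refine Finset.sum_eq_zero fun k _ => ?_
      rw [if_neg]
      rintro ⟨h2, h3⟩
      refine hy ((hmem y).mp ⟨?_, h3⟩)
      rw [h2]
      exact k.2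
  rw [wt, wt, hsum1, hsum2, hone, hext, div_div]

end Pool.Agent.RCW
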