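import Mathlib
import Pool.Agent.RCW.StC
import Pool.Agent.DPV.PERAV
import Pool.Agent.DP.IND
import Pool.Agent.DP.PERD
import Pool.Agent.DP.GALL
import Pool.Agent.DP.COSET
import Pool.Agent.DP.SUMM
import Pool.Agent.DP.CLG
import Pool.Agent.DP.IRRPI
import Pool.Agent.DP.QB

/-!
# Module PERDW: the count for one character of the base group, with a covering group
-/

set_option linter.unusedSectionVars false
set_option linter.unusedVariables false

namespace Pool.Agent.RCW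

open Pool.Agent.DP Pool.Agent.DPV Pool.Agent.DPW Pool.Agent.Lib_helper13 Representation

namespace PERDW

section Abs

variable {H H₀ : Type} [Group H] [Fintype H] [Group H₀] [Fintype H₀]

/-- The sum of an induced function over a normal subgroup. -/
theorem sum_ker (π : H →* H₀) (I : Subgroup H) (Ψ : I → ℂ) :
    (∑ v : π.ker, indc I Ψ (v : H)) * Nat.card I =
      Nat.card H * ∑ v : π.ker, ext0 Ψ (v : H) := by
  classical
  have h1 : ∀ z : H, ∑ v : π.ker, ext0 Ψ (z⁻¹ * (v : H) * z) =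
      ∑ v : π.ker, ext0 Ψ (v : H) := by
    intro z
    refine Fintype.sum_equiv (MulAut.conjNormal (H := π.ker) z⁻¹).toEquiv _ _ ?_
    intro k
    have h1 : (((MulAut.conjNormal (H := π.ker) z⁻¹).toEquiv k : π.ker) : H) =
        z⁻¹ * (k : H) * z := by
      change ((MulAut.conjNormal z⁻¹ k : π.ker) : H) = _
      rw [MulAut.conjNormal_apply, inv_inv]
    rw [h1]
  have hI : (Nat.card I : ℂ) ≠ 0 := natCard_ne_zero
  simp only [indc]
  rw [← Finset.sum_div, div_mul_cancel₀ _ hI, Finset.sum_comm,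
    Finset.sum_congr rfl fun z _ => h1 z, Finset.sum_const, Finset.card_univ,
    ← Nat.card_eq_fintype_card, nsmul_eq_mul]

/-- Kernels of restricted homomorphisms. -/
theorem card_ker {Z Z₀ : Type*} [Group Z] [Group Z₀] (q : Z →* Z₀) (S : Subgroup Z)
    (hS : ∀ v, q v = 1 → v ∈ S) {T : Type*} [Group T] (π : S →* T)
    (h : ∀ s : S, π s = 1 ↔ q (s : Z) = 1) : Nat.card π.ker = Nat.card q.ker := by
  refine Nat.card_congr
    { toFun := fun x => ⟨((x : S) : Z), (h _).mp x.2⟩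
      invFun := fun x => ⟨⟨(x : Z), hS _ x.2⟩, (h _).mpr x.2⟩
      left_inv := fun x => rfl
      right_inv := fun x => rfl }

theorem descend (π : H →* H₀) (I : Subgroup H) (hk : ∀ v, π v = 1 → v ∈ I) {Ψ : I → ℂ}
    (hΨ : IsIrr Ψ) (h0 : ∑ v : π.ker, ext0 Ψ (v : H) ≠ 0) :
    ∃ ψ : I.map π → ℂ, IsIrr ψ ∧ ∀ s : I, Ψ s = ψ (π.subgroupMap I s) := by
  classical
  apply QB.defl (π.subgroupMap_surjective I) hΨ
  intro h1
  apply h0
  rw [← h1]
  refine Fintype.sum_equiv
    { toFun := fun x => ⟨⟨(x : H), hk _ x.2⟩, Subtype.ext x.2⟩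
      invFun := fun x => ⟨((x : I) : H), congrArg Subtype.val x.2⟩
      left_inv := fun x => rfl
      right_inv := fun x => rfl } _ _ ?_
  intro x
  exact ext0_of_mem Ψ (hk _ x.2)

/-- If the induced function is constant on the kernel then the character is a function on the
quotient. -/
theorem descend_ind (π : H →* H₀) (I : Subgroup H) (hk : ∀ v, π v = 1 → v ∈ I) {Ψ : I → ℂ}
    (hΨ : IsIrr Ψ) (h0 : ∀ v, π v = 1 → indc I Ψ v = indc I Ψ 1) :
    ∃ ψ : I.map π → ℂ, IsIrr ψ ∧ ∀ s : I, Ψ s = ψ (π.subgroupMap I s) := by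
  classical
  apply descend π I hk hΨ
  intro h1
  have h2 := sum_ker π I Ψ
  rw [h1, mul_zero] at h2
  have hI : (Nat.card I : ℂ) ≠ 0 := natCard_ne_zero
  have h3 := (mul_eq_zero.mp h2).resolve_right hI
  have h4 : ∑ v : π.ker, indc I Ψ (v : H) = Nat.card π.ker * indc I Ψ 1 := by
    rw [Finset.sum_congr rfl fun (v : π.ker) _ => h0 (v : H) v.2, Finset.sum_const, Finset.card_univ,
      ← Nat.card_eq_fintype_card, nsmul_eq_mul]
  rw [h4] at h3
  have h5 := (mul_eq_zero.mp h3).resolve_left natCard_ne_zero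
  have h6 := (IND_thm H I Ψ).1
  rw [h5, zero_mul] at h6
  exact (mul_ne_zero natCard_ne_zero hΨ.one_ne_zero) h6.symm

theorem descend_const (π : H →* H₀) (I : Subgroup H) (hk : ∀ v, π v = 1 → v ∈ I) {Ψ : I → ℂ}
    (hΨ : IsIrr Ψ) (h0 : ∀ v (hv : π v = 1), Ψ ⟨v, hk v hv⟩ = Ψ 1) :
    ∃ ψ : I.map π → ℂ, IsIrr ψ ∧ ∀ s : I, Ψ s = ψ (π.subgroupMap I s) := by
  classical
  apply descend π I hk hΨ
  have h4 : ∑ v : π.ker, ext0 Ψ (v : H) = Nat.card π.ker * Ψ 1 := by
    rw [Finset.sum_congr rfl fun (v : π.ker) _ => (ext0_of_mem Ψ (hk (v : H) v.2)).trans (h0 (v : H) v.2),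
      Finset.sum_const, Finset.card_univ, ← Nat.card_eq_fintype_card, nsmul_eq_mul]
  rw [h4]
  exact mul_ne_zero natCard_ne_zero hΨ.one_ne_zero

/-- A function of the quotient is constant on the cosets of the kernel. -/
theorem const_of_descend (π : H →* H₀) (I : Subgroup H) (hk : ∀ v, π v = 1 → v ∈ I) {Ψ : I → ℂ}
    {ψ : I.map π → ℂ} (h : ∀ s : I, Ψ s = ψ (π.subgroupMap I s)) (v : I) (hv : π (v : H) = 1)
    (s : I) : Ψ (v * s) = Ψ s := by
  rw [h, h]
  congr 1
  apply Subtype.ext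
  change π ((v : H) * (s : H)) = π (s : H)
  rw [map_mul, hv, one_mul]

theorem wt_comp {S T : Type*} [Group S] [Fintype S] [Group T] [Fintype T] {π : S →* T}
    (hπ : Function.Surjective π) (ψ F : T → ℂ) :
    wt (fun s => ψ (π s)) (fun s => F (π s)) = Nat.card π.ker * wt ψ F := by
  rw [QB.wt_push π ψ, ← wt_smul]
  congr 1
  ext t
  exact QB.push_comp hπ F t

/-- The induced function of a function which is constant on the cosets of the kernel. -/
theorem ind_const (π : H →* H₀) (I : Subgroup H) (hk : ∀ v, π v = 1 → v ∈ I) {Ψ : I → ℂ}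
    (h : ∀ (v : I), π (v : H) = 1 → ∀ s : I, Ψ (v * s) = Ψ s) (v y : H) (hv : π v = 1) :
    indc I Ψ (v * y) = indc I Ψ y := by
  classical
  rw [indc, indc]
  congr 1
  refine Finset.sum_congr rfl fun z _ => ?_
  have h1 : z⁻¹ * (v * y) * z = (z⁻¹ * v * z) * (z⁻¹ * y * z) := by group
  have h2 : π (z⁻¹ * v * z) = 1 := by
    rw [map_mul, map_mul, hv, mul_one, ← map_mul, inv_mul_cancel, map_one]
  have h3 := hk _ h2
  rw [h1]
  by_cases hy : z⁻¹ * y * z ∈ I
  · rw [ext0_of_mem Ψ hy, ext0_of_mem Ψ (I.mul_mem h3 hy)]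
    exact h ⟨_, h3⟩ h2 ⟨_, hy⟩
  · rw [ext0_of_not_mem Ψ hy, ext0_of_not_mem Ψ]
    intro h4
    exact hy ((I.mul_mem_cancel_left h3).mp h4)

end Abs

end PERDW

open PERDW in
theorem PERDW_thm (h1 : Stmt_PERCW) : Stmt_PERDW := by
  classical
  intro O G B C Y K Y₀ X _ _ _ _ _ _ _ _ _ _ _ _ _ _ 𝔐 ℓ _ ι κ ρ hL W hW j p φ h q j₀ hcov
    τ hτ θ hθ r t g S f m M hstd
  have hIND : Stmt_IND := IND_thm
  obtain ⟨E, hE, hext, hwt, hsc⟩ :=
    h1 O G B C Y K Y₀ ℓ ι κ ρ hL W hW j p φ h q j₀ hcov τ hτ θ hθ r t g S f m M hstd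
  obtain ⟨-, -, hmap, hcard, -⟩ := PERAV_thm O G B C Y K ℓ ι κ ρ hL j p φ h τ hτ θ hθ
  have hθi : IsIrr (fun a : stb τ => ∏ o, θ o ((a : O → G) o)) :=
    (IRRPI_thm O G (fun o => stb (comp τ o)) (stb τ) (stb_closed (mem_ClCh.mp hτ).2)).1 θ hθ
  have : Fintype K := Fintype.ofFinite K
  have hcl : ClG (DP.jS h.cl τ) (cS h.cl τ) (pS p j τ) := clG_S h.cl τ
  have hG := (GALL_thm COSET_thm SUMM_thm) (stb τ)
    (inert (cS h.cl τ) (fun a => ∏ o, θ o ((a : O → G) o))) (KB κ p φ τ θ)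
    (CLG.jS hcl hθi) ((cS h.cl τ).comp (Subgroup.subtype _)) (CLG.qS hmap)
    (CLG.clG_S hcl hθi hmap) (CLG.qS_surj hmap) _ E hθi hE
    (fun a => hext a (CLG.j_mem hcl hθi a))
  have hCO := COSET_thm (stb τ)
    (inert (cS h.cl τ) (fun a => ∏ o, θ o ((a : O → G) o))) (KB κ p φ τ θ)
    (CLG.jS hcl hθi) ((cS h.cl τ).comp (Subgroup.subtype _)) (CLG.qS hmap)
    (CLG.clG_S hcl hθi hmap) _ E hθi hE
    (fun a => hext a (CLG.j_mem hcl hθi a))
  have hirr : ∀ η : KB κ p φ τ θ → ℂ, IsIrr η →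
      IsIrr (fun s : inert (cS h.cl τ) (fun a => ∏ o, θ o ((a : O → G) o)) =>
        E s * ext0 η (pS p j τ s)) := by
    intro η hη
    rw [CLG.ext0_q hmap]
    exact (hG.1 η hη).1
  have hnz : ∀ k : KB κ p φ τ θ, ∃ s : inert (cS h.cl τ) (fun a => ∏ o, θ o ((a : O → G) o)),
      p ((s : YS j τ) : Y) = k ∧ E s ≠ 0 := by
    intro k
    obtain ⟨y, hy⟩ := CLG.qS_surj hmap k
    have hne : ∃ a, E (y * CLG.jS hcl hθi a) ≠ 0 := by
      by_contra hcon
      push Not at hcon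
      have h5 := hCO y
      rw [Finset.sum_eq_zero fun a _ => by rw [hcon a, zero_mul]] at h5
      exact natCard_ne_zero h5.symm
    obtain ⟨a, ha⟩ := hne
    refine ⟨y * CLG.jS hcl hθi a, ?_, ha⟩
    have h5 : p ((y : YS j τ) : Y) = k := congrArg Subtype.val hy
    have h6 : p (j (a : O → G)) = 1 := (h.cl.ker _).mpr ⟨_, rfl⟩
    change p (((y : YS j τ) : Y) * j (a : O → G)) = k
    rw [map_mul, h5, h6, mul_one]
  have hpJ : ∀ s : inert (cS h.cl τ) (fun a => ∏ o, θ o ((a : O → G) o)),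
      p ((s : YS j τ) : Y) ∈ KB κ p φ τ θ := by
    intro s
    rw [← hmap]
    exact Subgroup.mem_map_of_mem (pS p j τ) s.2
  -- the kernel of `q`
  have hvY : ∀ v, q v = 1 → v ∈ YS j τ := by
    intro v hv
    rw [hcov.sta τ, Subgroup.mem_comap, hv]
    exact one_mem _
  have hvI : ∀ v : YS j τ, q (v : Y) = 1 →
      v ∈ inert (cS h.cl τ) (fun a => ∏ o, θ o ((a : O → G) o)) := by
    intro v hv a
    have h5 : cS h.cl τ v a = a := by
      apply Subtype.ext
      apply hcov.inj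
      rw [cS_apply, ← hcov.emb, ← hcov.emb, h.cl.act, map_mul, map_mul, map_inv, hv]
      simp
    rw [h5]
  clear hG hCO
  have hmap' := hmap
  clear hmap
  generalize inert (cS h.cl τ) (fun a => ∏ o, θ o ((a : O → G) o)) = I at *
  refine ⟨E, hE, hext, ?_⟩
  -- the restriction of `q`
  let Q : YS j τ →* YS j₀ τ := (q.comp (YS j τ).subtype).codRestrict (YS j₀ τ) (fun y => by
    have h5 : (y : Y) ∈ (YS j₀ τ).comap q := by
      rw [← hcov.sta τ]
      exact y.2
    exact h5)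
  have hQ : ∀ y : YS j τ, ((Q y : YS j₀ τ) : Y₀) = q (y : Y) := fun y => rfl
  have hQ1 : ∀ y : YS j τ, Q y = 1 ↔ q (y : Y) = 1 := by
    intro y
    rw [← hQ, ← Subgroup.coe_one (YS j₀ τ)]
    exact Subtype.ext_iff
  have hQs : Function.Surjective Q := by
    rintro ⟨y₀, hy₀⟩
    obtain ⟨y, rfl⟩ := hcov.surj y₀
    refine ⟨⟨y, ?_⟩, rfl⟩
    rw [hcov.sta τ]
    exact hy₀
  have hQk : ∀ v, Q v = 1 → v ∈ I := fun v hv => hvI v ((hQ1 v).mp hv)
  have hN1 : Nat.card Q.ker = Nat.card q.ker := card_ker q (YS j τ) hvY Q hQ1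
  have hN2 : Nat.card (Q.subgroupMap I).ker = Nat.card q.ker := by
    rw [← hN1]
    apply card_ker Q I hQk
    intro s
    exact Subtype.ext_iff
  have hN0 : (Nat.card q.ker : ℂ) ≠ 0 := natCard_ne_zero
  have hE0 : E 1 ≠ 0 := by
    obtain ⟨n, hn0, hn⟩ := hθi.exists_degree
    have h4 := hext 1 (by rw [map_one]; exact I.one_mem)
    have h5 : (⟨DP.jS h.cl τ 1, by rw [map_one]; exact I.one_mem⟩ : I) = 1 := by
      apply Subtype.ext
      exact map_one _
    rw [h5] at h4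
    rw [h4]
    exact hθi.one_ne_zero
  -- the scalars
  have hEv : ∀ v : I, Q (v : YS j τ) = 1 → ∀ s, E (v * s) =
      (∏ o, (f o (zz φ g ((v : YS j τ) : Y) o) / f o 1)) * E s := by
    intro v hv s
    obtain ⟨h5, h6⟩ := hsc v ((hQ1 _).mp hv)
    rw [← h5, div_mul_eq_mul_div, eq_div_iff hE0]
    exact h6 s
  have hx0 : ∀ (η : KB κ p φ τ θ → ℂ) (s : I), ext0 η (pS p j τ (s : YS j τ)) =
      η ⟨p ((s : YS j τ) : Y), hpJ s⟩ := fun η s => ext0_of_mem η (hpJ s)
  have hK : ∀ η : KB κ p φ τ θ → ℂ, KerC p φ q (KB κ p φ τ θ) g f η ↔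
      ∀ v : I, Q (v : YS j τ) = 1 → ∀ s : I,
        E (v * s) * ext0 η (pS p j τ ((v * s : I) : YS j τ)) =
          E s * ext0 η (pS p j τ (s : YS j τ)) := by
    intro η
    constructor
    · intro hKη v hv s
      have h5 := hKη ((v : YS j τ) : Y) ((hQ1 _).mp hv) (hpJ v) ⟨p ((s : YS j τ) : Y), hpJ s⟩
      have h6 : (⟨p (((v * s : I) : YS j τ) : Y), hpJ (v * s)⟩ : KB κ p φ τ θ) =
          ⟨p ((v : YS j τ) : Y), hpJ v⟩ * ⟨p ((s : YS j τ) : Y), hpJ s⟩ :=
        Subtype.ext (map_mul p _ _)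
      rw [hx0, hx0, hEv v hv s, h6, ← h5]
      ring
    · intro hC v hv hpv k
      obtain ⟨s, hs, hs0⟩ := hnz k
      have hvI' : (⟨v, hvY v hv⟩ : YS j τ) ∈ I := hvI ⟨v, hvY v hv⟩ hv
      have hQv : Q (⟨v, hvY v hv⟩ : YS j τ) = 1 := (hQ1 _).mpr hv
      have h5 := hC ⟨⟨v, hvY v hv⟩, hvI'⟩ hQv s
      rw [hx0, hx0, hEv _ hQv s] at h5
      have h6 : (⟨p (((⟨⟨v, hvY v hv⟩, hvI'⟩ * s : I) : YS j τ) : Y), hpJ _⟩ : KB κ p φ τ θ) =
          ⟨p v, hpv⟩ * k := Subtype.ext (by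
            change p (v * ((s : YS j τ) : Y)) = p v * k
            rw [map_mul, hs])
      have h7 : (⟨p ((s : YS j τ) : Y), hpJ s⟩ : KB κ p φ τ θ) = k := Subtype.ext hs
      rw [h6, h7] at h5
      apply mul_left_cancel₀ hs0
      rw [← h5]
      ring
  -- the weights
  have hwt2 : ∀ η : KB κ p φ τ θ → ℂ, IsIrr η → ∀ (i : Y₀ →* X) (x : X),
      wt (fun s : I => E s * ext0 η (pS p j τ s))
        (fun s => conjInd (i (Q (s : YS j τ))) x) =
      wt η (fun k => AS p φ g S f m M (k : K) (fun y => conjInd (i (q y)) x)) := by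
    intro η hη i x
    exact hwt η hη (fun y => conjInd (i (q y)) x) (by
      intro a y
      simp only [map_mul, map_inv]
      exact conjInd_conj _ _ _)
  have hdes : ∀ η : KB κ p φ τ θ → ℂ, IsIrr η → KerC p φ q (KB κ p φ τ θ) g f η →
      ∃ ψ : I.map Q → ℂ, IsIrr ψ ∧ ∀ s : I,
        E s * ext0 η (pS p j τ s) = ψ (Q.subgroupMap I s) := by
    intro η hη hKη
    apply descend_const Q I hQk (hirr η hη)
    intro v hv
    have h5 := (hK η).mp hKη ⟨v, hQk v hv⟩ hv 1
    rw [mul_one] at h5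
    exact h5
  intro i
  refine ⟨?_, ?_⟩
  · intro η hη hKη x
    obtain ⟨ψ, hψ, hψ2⟩ := hdes η hη hKη
    rw [← hwt2 η hη i x, funext hψ2]
    have h5 := wt_comp (Q.subgroupMap_surjective I) ψ
      (fun t : I.map Q => conjInd (i ((t : YS j₀ τ) : Y₀)) x)
    have h6 : (fun s : I => conjInd (i ((Q (s : YS j τ) : YS j₀ τ) : Y₀)) x) =
        fun s : I => conjInd (i (((Q.subgroupMap I s : I.map Q) : YS j₀ τ) : Y₀)) x := rfl
    rw [h6, h5, hN2, mul_div_cancel_left₀ _ hN0]
    apply isIntegral_wt hψ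
    · intro a y
      push_cast
      rw [map_mul, map_mul, map_inv, conjInd_conj]
    · intro y
      exact isIntegral_conjInd _ _
  · intro d ω
    -- degrees of the characters of the coordinates
    have hdeg : ∀ o, ∃ n : ℕ, 0 < n ∧ θ o 1 = n := by
      intro o
      obtain ⟨n, hn, hn'⟩ := (hθ o).1.exists_degree
      exact ⟨n, hn, hn'⟩
    choose n hn0 hn using hdeg
    have hdvd : ∀ o, n o ∣ Nat.card (stb (comp τ o)) := fun o => (hθ o).1.degree_dvd (hn o)
    have hE1 : E 1 = ((∏ o, n o : ℕ) : ℂ) := by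
      have h4 := hext 1 (by rw [map_one]; exact I.one_mem)
      have h5 : (⟨jS h.cl τ 1, by rw [map_one]; exact I.one_mem⟩ : I) = 1 := by
        apply Subtype.ext
        exact map_one _
      rw [h5] at h4
      rw [h4]
      push_cast
      exact Finset.prod_congr rfl fun o _ => hn o
    have hP0 : (∏ o, n o : ℕ) ≠ 0 := by
      rw [Finset.prod_ne_zero_iff]
      intro o _
      exact (hn0 o).ne'
    -- the value at the identity of the product
    have hf1 : ∀ η : KB κ p φ τ θ → ℂ,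
        E 1 * ext0 η (pS p j τ ((1 : I) : YS j τ)) = ((∏ o, n o : ℕ) : ℂ) * η 1 := by
      intro η
      have h4 : pS p j τ ((1 : I) : YS j τ) = 1 := by
        rw [Subgroup.coe_one, map_one]
      rw [h4, hE1, ext0_of_mem η (KB κ p φ τ θ).one_mem]
      rfl
    -- the defects
    have hdef : ∀ η : KB κ p φ τ θ → ℂ, IsIrr η → ∀ D : ℕ,
        (HasDefect ℓ (indc I (fun s => E s * ext0 η (pS p j τ s))) D ↔
          ∃ d', HasDefect ℓ η d' ∧ ∑ o, df ℓ (stb (comp τ o)) (θ o) + d' = D) := by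
      intro η hη D
      obtain ⟨k, hk0, hk⟩ := hη.exists_degree
      have hkd : k ∣ Nat.card (KB κ p φ τ θ) := hη.degree_dvd hk
      obtain ⟨h4, -, -, -⟩ := hIND (YS j τ) I (fun s => E s * ext0 η (pS p j τ s))
      rw [hf1, hk] at h4
      obtain ⟨u, hq⟩ := Subgroup.card_subgroup_dvd_card I
      have hIc : Nat.card I ≠ 0 := Nat.card_pos.ne'
      have hYc : Nat.card (YS j τ) ≠ 0 := Nat.card_pos.ne'
      have hq0 : u ≠ 0 := by
        rintro rfl
        exact hYc (by rw [hq, mul_zero])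
      have h5 : indc I (fun s => E s * ext0 η (pS p j τ s)) 1 = ((u * ((∏ o, n o) * k) : ℕ) : ℂ) := by
        have h6 : (Nat.card I : ℂ) ≠ 0 := by exact_mod_cast hIc
        apply mul_right_cancel₀ h6
        rw [h4, hq]
        push_cast
        ring
      have hvY : padicValNat ℓ (Nat.card (YS j τ)) = padicValNat ℓ (Nat.card I) +
          padicValNat ℓ u := by
        rw [hq, padicValNat.mul hIc hq0]
      have hSc : ∀ o, Nat.card (stb (comp τ o)) ≠ 0 := fun o => Nat.card_pos.ne'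
      have hvI : padicValNat ℓ (Nat.card I) = padicValNat ℓ (Nat.card (KB κ p φ τ θ)) +
          ∑ o, padicValNat ℓ (Nat.card (stb (comp τ o))) := by
        rw [hcard, padicValNat.mul Nat.card_pos.ne' (by
          rw [Finset.prod_ne_zero_iff]; intro o _; exact hSc o), PERD.val_prod ℓ _ _ (fun o _ => hSc o)]
      have hvn : padicValNat ℓ (u * ((∏ o, n o) * k)) = padicValNat ℓ u +
          (∑ o, padicValNat ℓ (n o) + padicValNat ℓ k) := by
        rw [padicValNat.mul hq0 (mul_ne_zero hP0 hk0.ne'), padicValNat.mul hP0 hk0.ne',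
          PERD.val_prod ℓ _ _ (fun o _ => (hn0 o).ne')]
      have hdfo : ∀ o, df ℓ (stb (comp τ o)) (θ o) + padicValNat ℓ (n o) =
          padicValNat ℓ (Nat.card (stb (comp τ o))) := by
        intro o
        have h6 : ⌊(θ o 1).re⌋₊ = n o := by
          rw [hn o]
          simp
        rw [df, h6]
        have h7 : padicValNat ℓ (n o) ≤ padicValNat ℓ (Nat.card (stb (comp τ o))) :=
          (padicValNat_dvd_iff_le (hSc o)).1 (dvd_trans pow_padicValNat_dvd (hdvd o))
        omega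
      have hsum : ∑ o, df ℓ (stb (comp τ o)) (θ o) + ∑ o, padicValNat ℓ (n o) =
          ∑ o, padicValNat ℓ (Nat.card (stb (comp τ o))) := by
        rw [← Finset.sum_add_distrib]
        exact Finset.sum_congr rfl fun o _ => hdfo o
      have hkle : padicValNat ℓ k ≤ padicValNat ℓ (Nat.card (KB κ p φ τ θ)) :=
        (padicValNat_dvd_iff_le Nat.card_pos.ne').1 (dvd_trans pow_padicValNat_dvd hkd)
      constructor
      · rintro ⟨N, hN, hN'⟩
        have h6 : N = u * ((∏ o, n o) * k) := by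
          rw [h5] at hN
          exact_mod_cast hN.symm
        rw [h6, hvY, hvI, hvn] at hN'
        refine ⟨padicValNat ℓ (Nat.card (KB κ p φ τ θ)) - padicValNat ℓ k,
          ⟨k, hk, by omega⟩, by omega⟩
      · rintro ⟨d', ⟨k', hk', hv⟩, hd⟩
        have h6 : k' = k := by
          rw [hk] at hk'
          exact_mod_cast hk'.symm
        subst h6
        exact ⟨u * ((∏ o, n o) * k'), h5, by rw [hvY, hvI, hvn]; omega⟩
    have hfac : ∀ η : KB κ p φ τ θ → ℂ, IsIrr η → ∀ ψ₀ : YS j₀ τ → ℂ,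
        (∀ y, indc I (fun s => E s * ext0 η (pS p j τ s)) y = ψ₀ (Q y)) →
        (HasDefect ℓ ψ₀ d ↔ ∃ d', HasDefect ℓ η d' ∧ ∑ o, df ℓ (stb (comp τ o)) (θ o) + d' =
          d + padicValNat ℓ (Nat.card q.ker)) ∧
        ∀ x, cen 𝔐 (i.comp (YS j₀ τ).subtype) ψ₀ x =
          red 𝔐 (wt η (fun k => AS p φ g S f m M (k : K) (fun y => conjInd (i (q y)) x)) /
            Nat.card q.ker) := by
      intro η hη ψ₀ hψ₀
      refine ⟨?_, ?_⟩
      · rw [← hdef η hη]
        have h5 : Nat.card (YS j τ) = Nat.card q.ker * Nat.card (YS j₀ τ) := by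
          rw [← hN1]
          exact (QB.card_eq hQs).symm
        have h6 : padicValNat ℓ (Nat.card (YS j τ)) = padicValNat ℓ (Nat.card q.ker) +
            padicValNat ℓ (Nat.card (YS j₀ τ)) := by
          rw [h5, padicValNat.mul Nat.card_pos.ne' Nat.card_pos.ne']
        have h7 := hψ₀ 1
        rw [map_one] at h7
        unfold Lib_helper13.HasDefect
        rw [h7, h6]
        constructor
        · rintro ⟨N, hN, hN'⟩
          exact ⟨N, hN, by omega⟩
        · rintro ⟨N, hN, hN'⟩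
          exact ⟨N, hN, by omega⟩
      · intro x
        obtain ⟨-, -, -, h4⟩ := hIND (YS j τ) I (fun s => E s * ext0 η (pS p j τ s))
        have h5 : (fun s : I => E s * ext0 η (pS p j τ s)) 1 ≠ 0 := (hirr η hη).one_ne_zero
        have h6 := h4 h5 (fun y => conjInd (i (Q y)) x) (by
          intro a y
          change conjInd (i (q ((a : Y) * (y : Y) * (a : Y)⁻¹))) x = conjInd (i (q (y : Y))) x
          rw [map_mul, map_mul, map_inv, map_mul, map_mul, map_inv]
          exact conjInd_conj _ _ _)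
        rw [hwt2 η hη i x, funext hψ₀] at h6
        have h7 := wt_comp hQs ψ₀ (fun t => conjInd (i (t : Y₀)) x)
        rw [h7, hN1] at h6
        rw [← h6, mul_div_cancel_left₀ _ hN0]
        rfl
    have hiff : ∀ η : KB κ p φ τ θ → ℂ,
        (IsIrr η ∧ PQ 𝔐 ℓ d j q j₀ i ω τ (indc I (fun s => E s * ext0 η (pS p j τ s)))) ↔
        (IsIrr η ∧ KerC p φ q (KB κ p φ τ θ) g f η ∧
          (∃ d', HasDefect ℓ η d' ∧ ∑ o, df ℓ (stb (comp τ o)) (θ o) + d' =
            d + padicValNat ℓ (Nat.card q.ker)) ∧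
          ∀ x, red 𝔐 (wt η (fun k => AS p φ g S f m M (k : K) (fun y => conjInd (i (q y)) x)) /
            Nat.card q.ker) = ω x) := by
      intro η
      constructor
      · rintro ⟨hη, ψ₀, hψ₀, ha, hb⟩
        have hψ₁ : ∀ y, indc I (fun s => E s * ext0 η (pS p j τ s)) y = ψ₀ (Q y) :=
          fun y => hψ₀ y (Q y).2
        obtain ⟨h5, h6⟩ := hfac η hη ψ₀ hψ₁
        refine ⟨hη, ?_, h5.mp ha, fun x => by rw [← h6 x]; exact hb x⟩
        obtain ⟨ψ, -, hψ⟩ := descend_ind Q I hQk (hirr η hη) (by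
          intro v hv
          rw [hψ₁, hψ₁, hv, map_one])
        rw [hK]
        intro v hv s
        exact const_of_descend Q I hQk hψ v hv s
      · rintro ⟨hη, hKη, ha, hb⟩
        refine ⟨hη, ?_⟩
        obtain ⟨ψ₀, h5⟩ : ∃ ψ₀ : YS j₀ τ → ℂ, ∀ y,
            indc I (fun s => E s * ext0 η (pS p j τ s)) y = ψ₀ (Q y) := by
          refine ⟨fun y₀ => indc I (fun s => E s * ext0 η (pS p j τ s))
            (Function.surjInv hQs y₀), ?_⟩
          intro y
          have h6 := ind_const Q I hQk (Ψ := fun s => E s * ext0 η (pS p j τ s))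
            ((hK η).mp hKη) (y * (Function.surjInv hQs (Q y))⁻¹) (Function.surjInv hQs (Q y)) (by
              rw [map_mul, map_inv, Function.surjInv_eq hQs, mul_inv_cancel])
          rw [inv_mul_cancel_right] at h6
          exact h6
        obtain ⟨h6, h7⟩ := hfac η hη ψ₀ h5
        exact ⟨ψ₀, fun y hy => h5 y, h6.mpr ha, fun x => by rw [h7 x]; exact hb x⟩
    rw [NNW, hcard, Nat.card_congr (Equiv.subtypeEquivRight hiff)]
    push_cast
    ring

end Pool.Agent.RCW
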