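import Mathlib
import Pool.Agent.RCW.StB
import Pool.Agent.RCB.FPS
import Pool.Agent.DPB.CHP
import Pool.Agent.DPW.FXD
import Pool.Agent.DP.EVAL
import Pool.Agent.DP.IRRPI
import Pool.Agent.DPX.DXMX
import Pool.Agent.DPX.IDX
import Pool.Agent.DPX.SUPX
import Pool.Agent.DPX.CHNX

/-!
# RCW_SUD: the support of a sum of block idempotents of blocks with cyclic defect groups
-/

namespace Pool.Agent.RCW

open Pool.Agent.DP Pool.Agent.DPV Pool.Agent.DPB Pool.Agent.DPC Pool.Agent.DPW Pool.Agent.DPX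
open Pool.Agent.Lib_helper13 Representation
open Pool.Agent.Lib_helper13.Dade (pCore DadeHolds dadeSum)

namespace SUD

/-- an idempotent class function does not vanish under all central characters -/
theorem exists_one {F H : Type} [Field F] [Group H] [Fintype H] (r : integralClosure ℤ ℂ →+* F)
    (b : H → ℤ) (hb : ∀ g x, b (g * x * g⁻¹) = b x)
    (hid : ∀ x, ∑ y, (b y : F) * (b (y⁻¹ * x) : F) = (b x : F)) (x₀ : H)
    (hx : (b x₀ : F) ≠ 0) : ∃ ψ : H → ℂ, IsIrr ψ ∧ ∃ z : integralClosure ℤ ℂ,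
      (z : ℂ) = wt ψ (fun h => (b h : ℂ)) ∧ r z = 1 := by
  classical
  have h1 := CHP_thm F H r (fun h => (b h : integralClosure ℤ ℂ))
    (fun g x => by rw [hb]) 1
  have hr : (fun h => r ((b h : ℤ) : integralClosure ℤ ℂ)) = fun h => (b h : F) := by
    funext h
    exact map_intCast r (b h)
  have h2 : mlt (CF F H) (Lz fun h => r ((b h : ℤ) : integralClosure ℤ ℂ)) 1 ≠ 0 := by
    rw [hr]
    let v : H → F := fun g => (b g⁻¹ : F)
    have hv1 : Lz (fun h => (b h : F)) v = v := by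
      funext g
      rw [Lz_apply]
      have h3 : ∀ h : H, (b h : F) * v (h * g) = (b h : F) * (b (h⁻¹ * g⁻¹) : F) := by
        intro h
        change (b h : F) * (b (h * g)⁻¹ : F) = _
        rw [mul_inv_rev, ← hb h⁻¹ (g⁻¹ * h⁻¹)]
        congr 3
        group
      rw [Finset.sum_congr rfl fun h _ => h3 h]
      exact hid g⁻¹
    have hv2 : v ∈ CF F H := by
      intro g x
      change (b (g * x * g⁻¹)⁻¹ : F) = (b x⁻¹ : F)
      rw [← hb g x⁻¹]
      congr 2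
      group
    have hv3 : v ≠ 0 := by
      intro h
      apply hx
      have h4 := congrFun h x₀⁻¹
      change (b (x₀⁻¹)⁻¹ : F) = 0 at h4
      rwa [inv_inv] at h4
    have hv4 : v ∈ (Lz fun h => (b h : F)).maxGenEigenspace 1 ⊓ CF F H := by
      refine ⟨?_, hv2⟩
      change v ∈ (Lz fun h => (b h : F)).maxGenEigenspace 1
      rw [Module.End.mem_maxGenEigenspace]
      refine ⟨1, ?_⟩
      rw [pow_one, LinearMap.sub_apply, hv1]
      simp
    rw [mlt]
    have : Nontrivial ↥((Lz fun h => (b h : F)).maxGenEigenspace 1 ⊓ CF F H) :=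
      ⟨⟨⟨v, hv4⟩, 0, fun h => hv3 (congrArg Subtype.val h)⟩⟩
    exact Module.finrank_pos.ne'
  rw [h1] at h2
  have h3 : Nonempty {χ : H → ℂ // IsIrr χ ∧ ∃ z : integralClosure ℤ ℂ,
      (z : ℂ) = wt χ (fun h => (((b h : ℤ) : integralClosure ℤ ℂ) : ℂ)) ∧ r z = 1} := by
    by_contra hcon
    rw [not_nonempty_iff] at hcon
    exact h2 Nat.card_of_isEmpty
  obtain ⟨⟨χ, hχ, z, hz, hz1⟩⟩ := h3
  refine ⟨χ, hχ, z, ?_, hz1⟩
  rw [hz]
  congr 1

/-- sums over the elements which commute with an `ℓ`-group -/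
theorem fps_conj {G R : Type} [Group G] [Fintype G] [CommRing R] (ℓ : ℕ) [Fact ℓ.Prime]
    (h0 : (ℓ : R) = 0) (Q : Subgroup G) (hQ : IsPGroup ℓ Q) (f : G → R)
    (hf : ∀ u ∈ Q, ∀ y, f (u * y * u⁻¹) = f y) (p : G → Prop) [DecidablePred p]
    (hp : ∀ y, p y ↔ ∀ u ∈ Q, u * y = y * u) :
    ∑ y, f y = ∑ y with p y, f y := by
  classical
  let act : MulAction Q G := MulAction.compHom G ((MulAut.conj (G := G)).comp Q.subtype)
  have h1 := @Pool.Agent.RCB.FPS_thm Q G R _ _ act _ _ ℓ _ h0 hQ f (fun d o => hf d d.2 o)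
  refine h1.trans (Finset.sum_congr ?_ fun _ _ => rfl)
  ext y
  simp only [Finset.mem_filter, Finset.mem_univ, true_and, hp]
  refine ⟨fun h u hu => ?_, fun h d => ?_⟩
  · have h2 : u * y * u⁻¹ = y := h ⟨u, hu⟩
    rwa [mul_inv_eq_iff_eq_mul] at h2
  · change (d : G) * y * (d : G)⁻¹ = y
    rw [h d d.2, mul_inv_cancel_right]

/-- a class function which is idempotent modulo `ℓ` and not zero modulo `ℓ` -/
theorem exists_char {H : Type} [Group H] [Fintype H] (𝔐 : Ideal (integralClosure ℤ ℂ)) (ℓ : ℕ)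
    [hp : Fact ℓ.Prime] (h𝔐 : 𝔐.IsMaximal) (hℓ : (ℓ : integralClosure ℤ ℂ) ∈ 𝔐) (b : H → ℤ)
    (hb : ∀ g x, b (g * x * g⁻¹) = b x)
    (hid : ∀ x, (ℓ : ℤ) ∣ (∑ y, b y * b (y⁻¹ * x)) - b x) (x₀ : H) (hx : ¬ (ℓ : ℤ) ∣ b x₀) :
    ∃ ψ : H → ℂ, IsIrr ψ ∧ red 𝔐 (wt ψ (fun h => (b h : ℂ))) = 1 := by
  classical
  let _ : Field ((integralClosure ℤ ℂ) ⧸ 𝔐) := Ideal.Quotient.field 𝔐
  have h0 : (ℓ : (integralClosure ℤ ℂ) ⧸ 𝔐) = 0 := by
    have h := Ideal.Quotient.eq_zero_iff_mem.2 hℓ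
    rwa [map_natCast] at h
  have hdvd : ∀ m : ℤ, (ℓ : ℤ) ∣ m → (m : (integralClosure ℤ ℂ) ⧸ 𝔐) = 0 := by
    rintro m ⟨c, rfl⟩
    push_cast
    rw [h0, zero_mul]
  have hndvd : ∀ m : ℤ, ¬ (ℓ : ℤ) ∣ m → (m : (integralClosure ℤ ℂ) ⧸ 𝔐) ≠ 0 := by
    intro m hm h1
    have hpi : Irreducible (ℓ : ℤ) := (Nat.prime_iff_prime_int.1 hp.out).irreducible
    obtain ⟨u, v, huv⟩ := hpi.coprime_iff_not_dvd.2 hm
    have h2 := congrArg (fun z : ℤ => (z : (integralClosure ℤ ℂ) ⧸ 𝔐)) huv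
    simp only [Int.cast_add, Int.cast_mul, Int.cast_one, Int.cast_natCast] at h2
    rw [h0, h1, mul_zero, mul_zero, add_zero] at h2
    exact zero_ne_one h2
  obtain ⟨ψ, hψ, z, hz, hz1⟩ := exists_one (Ideal.Quotient.mk 𝔐) b hb (fun x => by
    have h1 := hdvd _ (hid x)
    push_cast at h1
    exact sub_eq_zero.1 h1) x₀ (hndvd _ hx)
  refine ⟨ψ, hψ, ?_⟩
  rw [← hz]
  have h2 := red_of_integral 𝔐 (a := (z : ℂ)) z.2
  rw [h2]
  exact hz1

/-- the restriction to the elements which commute with an `ℓ`-group -/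
theorem idem_loc {G : Type} [Group G] [Fintype G] (ℓ : ℕ) [Fact ℓ.Prime] (a : G → ℤ)
    (ha : ∀ g x, a (g * x * g⁻¹) = a x)
    (hid : ∀ x, (ℓ : ℤ) ∣ (∑ y, a y * a (y⁻¹ * x)) - a x) (Q : Subgroup G) (hQ : IsPGroup ℓ Q)
    (N : Subgroup G) [Fintype N] (hN : ∀ y, (∀ u ∈ Q, u * y = y * u) → y ∈ N) (b : G → ℤ)
    (hb1 : ∀ y, (∀ u ∈ Q, u * y = y * u) → b y = a y)
    (hb0 : ∀ y, ¬ (∀ u ∈ Q, u * y = y * u) → b y = 0) (x : N) :
    (ℓ : ℤ) ∣ (∑ y : N, b (y : G) * b (((y⁻¹ * x : N)) : G)) - b (x : G) := by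
  classical
  have h1 : (∑ y : N, b (y : G) * b (((y⁻¹ * x : N)) : G)) =
      ∑ y : G, b y * b (y⁻¹ * (x : G)) := by
    have h2 : ∑ y : G, b y * b (y⁻¹ * (x : G)) =
        ∑ y ∈ Finset.univ.filter (fun y : G => y ∈ N), b y * b (y⁻¹ * (x : G)) := by
      symm
      apply Finset.sum_subset (Finset.filter_subset _ _)
      intro y _ hy
      rw [Finset.mem_filter, not_and] at hy
      have h3 := hb0 y (fun h => hy (Finset.mem_univ y) (hN y h))
      rw [h3, zero_mul]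
    rw [h2, Finset.sum_subtype (p := fun y : G => y ∈ N) _ (by simp)]
    exact Finset.sum_congr rfl fun y _ => rfl
  rw [h1]
  by_cases hx : ∀ u ∈ Q, u * (x : G) = x * u
  · have hterm : ∀ y : G, b y * b (y⁻¹ * (x : G)) =
        if (∀ u ∈ Q, u * y = y * u) then a y * a (y⁻¹ * (x : G)) else 0 := by
      intro y
      split_ifs with hy
      · rw [hb1 y hy, hb1]
        intro u hu
        have e1 := hy u hu
        have e2 := hx u hu
        have e3 : u * y⁻¹ = y⁻¹ * u := by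
          rw [eq_inv_mul_iff_mul_eq, ← mul_assoc, ← e1, mul_inv_cancel_right]
        rw [← mul_assoc, e3, mul_assoc, e2, mul_assoc]
      · rw [hb0 y hy, zero_mul]
    rw [Finset.sum_congr rfl fun y _ => hterm y, ← Finset.sum_filter, hb1 _ hx]
    rw [← ZMod.intCast_zmod_eq_zero_iff_dvd]
    have h3 := fps_conj (R := ZMod ℓ) ℓ (by simp) Q hQ
      (fun y => (a y : ZMod ℓ) * (a (y⁻¹ * (x : G)) : ZMod ℓ)) (by
        intro u hu y
        have e2 := hx u hu
        have e3 : (u * y * u⁻¹)⁻¹ * (x : G) = u * (y⁻¹ * x) * u⁻¹ := by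
          have e4 : u⁻¹ * (x : G) = x * u⁻¹ := by
            rw [inv_mul_eq_iff_eq_mul, ← mul_assoc, e2, mul_inv_cancel_right]
          rw [mul_inv_rev, mul_inv_rev, inv_inv, mul_assoc, mul_assoc, e4]
          simp only [mul_assoc]
        rw [e3, ha, ha]) (fun y => ∀ u ∈ Q, u * y = y * u) (fun y => Iff.rfl)
    have h4 := (ZMod.intCast_zmod_eq_zero_iff_dvd _ ℓ).2 (hid x)
    push_cast at h4 ⊢
    rw [← h3]
    exact h4
  · have hterm : ∀ y : G, b y * b (y⁻¹ * (x : G)) = 0 := by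
      intro y
      by_cases hy : ∀ u ∈ Q, u * y = y * u
      · rw [hb0 (y⁻¹ * (x : G)), mul_zero]
        intro h
        apply hx
        intro u hu
        have e1 := hy u hu
        have e2 := h u hu
        have e3 : y * (u * (y⁻¹ * x)) = y * (y⁻¹ * x * u) := by rw [e2]
        rw [← mul_assoc, ← e1] at e3
        simpa [mul_assoc] using e3
      · rw [hb0 y hy, zero_mul]
    rw [Finset.sum_congr rfl fun y _ => hterm y, Finset.sum_const_zero, hb0 _ hx, sub_zero]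
    exact dvd_zero _

end SUD

open SUD in
theorem SUD_thm : Stmt_SUD := by
  intro G _ _ 𝔐 ℓ _ h𝔐 hℓ f hf hfi hDX x hx Q hQ hQx
  classical
  have hprime : 𝔐.IsPrime := h𝔐.isPrime
  by_cases hQ0 : Q = ⊥
  · subst hQ0
    infer_instance
  -- the complementary idempotent
  obtain ⟨a, haeq⟩ : ∃ a : G → ℤ, a = fun y => (if y = 1 then 1 else 0) - f y := ⟨_, rfl⟩
  have hax : ¬ (ℓ : ℤ) ∣ a x := by rw [haeq]; exact hx
  have ha : ∀ g y, a (g * y * g⁻¹) = a y := by
    intro g y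
    rw [haeq]
    change (if g * y * g⁻¹ = 1 then (1 : ℤ) else 0) - f (g * y * g⁻¹) =
      (if y = 1 then 1 else 0) - f y
    rw [hf]
    congr 2
    rw [mul_inv_eq_one]
    simp
  have haid : ∀ x, (ℓ : ℤ) ∣ (∑ y, a y * a (y⁻¹ * x)) - a x := by
    intro x
    have h1 : (∑ y, a y * a (y⁻¹ * x)) - a x = (∑ y, f y * f (y⁻¹ * x)) - f x := by
      have h2 : ∀ y, a y * a (y⁻¹ * x) = (if y = 1 then a (y⁻¹ * x) else 0) -
          (if y = x then f y else 0) + f y * f (y⁻¹ * x) := by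
        intro y
        rw [haeq]
        have e1 : (y⁻¹ * x = 1) ↔ y = x := by rw [inv_mul_eq_one]
        simp only [e1]
        split_ifs <;> ring
      rw [Finset.sum_congr rfl fun y _ => h2 y, Finset.sum_add_distrib, Finset.sum_sub_distrib,
        Finset.sum_ite_eq', Finset.sum_ite_eq']
      simp only [Finset.mem_univ, if_true, inv_one, one_mul]
      ring
    rw [h1]
    exact hfi x
  -- the normalizer
  have hCN : ∀ y : G, (∀ u ∈ Q, u * y = y * u) → y ∈ stb ({Q} : Finset (Subgroup G)) := by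
    intro y hy
    rw [mem_stb']
    intro D hD z
    rw [Finset.mem_singleton] at hD
    subst hD
    constructor
    · intro hz
      rw [← hy z hz, mul_inv_cancel_right]
      exact hz
    · intro hz
      have h1 := hy _ hz
      have h2 : z = y * z * y⁻¹ := by
        have h3 : y * z * y⁻¹ * y = y * (y * z * y⁻¹) := h1
        rw [inv_mul_cancel_right] at h3
        exact mul_left_cancel h3
      rw [h2]
      exact hz
  have hNQ : ∀ g ∈ stb ({Q} : Finset (Subgroup G)), ∀ u, u ∈ Q ↔ g * u * g⁻¹ ∈ Q := by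
    intro g hg
    rw [mem_stb'] at hg
    exact hg Q (Finset.mem_singleton_self Q)
  obtain ⟨b, hbeq⟩ : ∃ b : G → ℤ, b = fun y => if (∀ u ∈ Q, u * y = y * u) then a y else 0 :=
    ⟨_, rfl⟩
  have hb1 : ∀ y, (∀ u ∈ Q, u * y = y * u) → b y = a y := by
    intro y hy
    rw [hbeq]
    exact if_pos hy
  have hb0 : ∀ y, ¬ (∀ u ∈ Q, u * y = y * u) → b y = 0 := by
    intro y hy
    rw [hbeq]
    exact if_neg hy
  have hconj : ∀ g ∈ stb ({Q} : Finset (Subgroup G)), ∀ y, (∀ u ∈ Q, u * y = y * u) →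
      ∀ u ∈ Q, u * (g * y * g⁻¹) = g * y * g⁻¹ * u := by
    intro g hg y hy u hu
    have hu' : g⁻¹ * u * g ∈ Q := by
      rw [hNQ g hg]
      have : g * (g⁻¹ * u * g) * g⁻¹ = u := by group
      rwa [this]
    have h1 := hy _ hu'
    calc u * (g * y * g⁻¹) = g * (g⁻¹ * u * g * y) * g⁻¹ := by group
      _ = g * (y * (g⁻¹ * u * g)) * g⁻¹ := by rw [h1]
      _ = _ := by group
  have hbcl : ∀ g y : stb ({Q} : Finset (Subgroup G)), b ((g * y * g⁻¹ : stb ({Q} :
      Finset (Subgroup G))) : G) = b (y : G) := by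
    intro g y
    change b ((g : G) * (y : G) * (g : G)⁻¹) = b (y : G)
    by_cases hy : ∀ u ∈ Q, u * (y : G) = y * u
    · rw [hb1 _ hy, hb1 _ (hconj g g.2 y hy), ha]
    · rw [hb0 _ hy, hb0]
      intro h
      apply hy
      have h2 := hconj (g : G)⁻¹ (inv_mem g.2) _ h
      have h3 : (g : G)⁻¹ * ((g : G) * (y : G) * (g : G)⁻¹) * (g : G)⁻¹⁻¹ = y := by group
      rw [h3] at h2
      exact h2
  have hxQ : ∀ u ∈ Q, u * x = x * u := by
    intro u hu
    have h1 := Subgroup.mem_centralizer_iff.1 (hQx hu) x (Set.mem_singleton x)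
    exact h1.symm
  -- a character of the normalizer
  obtain ⟨ψ, hψ, hψ1⟩ := exists_char (H := stb ({Q} : Finset (Subgroup G))) 𝔐 ℓ h𝔐 hℓ
    (fun y => b (y : G)) hbcl (fun y => idem_loc ℓ a ha haid Q hQ _ hCN b hb1 hb0 y)
    ⟨x, hCN x hxQ⟩ (by
      change ¬ (ℓ : ℤ) ∣ b x
      rw [hb1 x hxQ]
      exact hax)
  have hψ2 : red 𝔐 (wt ψ (fun y => (a (y : G) : ℂ))) = 1 := by
    rw [← hψ1]
    have hn : (Q.subgroupOf (stb ({Q} : Finset (Subgroup G)))).Normal := ⟨fun n hn g => by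
      rw [Subgroup.mem_subgroupOf] at hn ⊢
      exact (hNQ g g.2 n).1 hn⟩
    refine red_wt_eq 𝔐 hℓ hψ (Q.subgroupOf (stb ({Q} : Finset (Subgroup G)))) ?_ _ _ ?_ ?_ ?_ ?_ ?_
    · exact hQ.comap_subtype
    · intro g y
      change ((a ((g : G) * (y : G) * (g : G)⁻¹) : ℤ) : ℂ) = _
      rw [ha]
    · intro y
      exact (isIntegral_algebraMap (R := ℤ) (A := ℂ) (x := a (y : G)))
    · intro g y
      exact congrArg (fun z : ℤ => (z : ℂ)) (hbcl g y)
    · intro y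
      exact (isIntegral_algebraMap (R := ℤ) (A := ℂ) (x := b (y : G)))
    · intro y hy
      rw [hb1]
      intro u hu
      have huN : u ∈ stb ({Q} : Finset (Subgroup G)) := by
        rw [mem_stb']
        intro D hD z
        rw [Finset.mem_singleton] at hD
        subst hD
        constructor
        · intro hz
          exact mul_mem (mul_mem hu hz) (inv_mem hu)
        · intro hz
          have h1 := mul_mem (mul_mem (inv_mem hu) hz) hu
          have h2 : u⁻¹ * (u * z * u⁻¹) * u = z := by group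
          rwa [h2] at h1
      have h1 := hy ⟨u, huN⟩ (Subgroup.mem_subgroupOf.2 hu)
      exact congrArg Subtype.val h1
  -- a character of the group
  have hch : IsCh ℓ (⊥ : Subgroup G) {Q} := by
    refine ⟨fun D hD => ?_, ?_⟩
    · rw [Finset.mem_singleton] at hD
      subst hD
      exact ⟨hQ, bot_lt_iff_ne_bot.2 hQ0⟩
    · rw [Finset.coe_singleton]
      exact IsChain.singleton
  obtain ⟨θ, hθ, hθω⟩ := FXD.exists_irr 𝔐 hℓ hch (ω := cen 𝔐 (stb ({Q} :
    Finset (Subgroup G))).subtype ψ) (IRRPI.mem_irrOn.2 (IRRPI.irrOn_ext0 hψ))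
    (fun g => EVAL.cg_eq 𝔐 ψ g)
  have hai : ∀ y : G, IsIntegral ℤ ((a y : ℤ) : ℂ) := fun y =>
    (isIntegral_algebraMap (R := ℤ) (A := ℂ) (x := a y))
  have hfi' : ∀ y : G, IsIntegral ℤ ((f y : ℤ) : ℂ) := fun y =>
    (isIntegral_algebraMap (R := ℤ) (A := ℂ) (x := f y))
  have hθa : red 𝔐 (wt θ (fun y => (a y : ℂ))) = 1 := by
    have h1 := red_wt_eq_pair 𝔐 (MonoidHom.id G) hθ (fun y => (a y : ℂ))
      (fun g y => by rw [ha]) hai
    have h2 := red_wt_eq_pair 𝔐 (stb ({Q} : Finset (Subgroup G))).subtype hψ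
      (fun y => (a y : ℂ)) (fun g y => by rw [ha]) hai
    rw [hθω, ← h2] at h1
    exact h1.trans hψ2
  have hθf : red 𝔐 (wt θ (fun y => (f y : ℂ))) = 0 := by
    have h1 : wt θ (fun y => (a y : ℂ)) + wt θ (fun y => (f y : ℂ)) = 1 := by
      rw [← wt_add]
      have h2 : ((fun y : G => (a y : ℂ)) + fun y => (f y : ℂ)) =
          fun y => if y = 1 then (1 : ℂ) else 0 := by
        funext y
        rw [Pi.add_apply, haeq]
        push_cast
        split_ifs <;> ring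
      rw [h2, wt]
      simp only [ite_mul, one_mul, zero_mul, Finset.sum_ite_eq', Finset.mem_univ, if_true]
      exact div_self hθ.one_ne_zero
    have h2 := red_add 𝔐 (isIntegral_wt hθ (fun y => (a y : ℂ)) (fun g y => by rw [ha]) hai)
      (isIntegral_wt hθ (fun y => (f y : ℂ)) (fun g y => by rw [hf]) hfi')
    rw [h1, red_one, hθa] at h2
    exact left_eq_add.1 h2
  have hD := hDX θ hθ hθf
  have hcg : (fun g => cg 𝔐 θ g) = cen 𝔐 (MonoidHom.id G) θ := rfl
  rw [hcg] at hD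
  obtain ⟨n, P₁, P, x₀, hAt⟩ := (DXMX_thm (IDX_thm SUPX_thm) SUPX_thm G 𝔐 ℓ h𝔐 hℓ θ hθ).1 hD
  rw [hθω] at hAt
  obtain ⟨g, hg⟩ := CHNX_thm G 𝔐 ℓ n h𝔐 hℓ _ P₁ P x₀ hAt {Q} hch (ext0 ψ)
    (IRRPI.irrOn_ext0 hψ) (fun g => EVAL.cg_eq 𝔐 ψ g)
  have hle := hg Q (Finset.mem_singleton_self Q)
  have hPc : IsCyclic P := hAt.cd.cyc
  have hPc' : IsCyclic (P.map (MulAut.conj g).toMonoidHom) :=
    isCyclic_of_surjective ((MulAut.conj g).toMonoidHom.subgroupMap P)
      (MonoidHom.subgroupMap_surjective _ _)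
  exact isCyclic_of_injective (Subgroup.inclusion hle) (Subgroup.inclusion_injective hle)

end Pool.Agent.RCW
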