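import Mathlib
import Pool.Agent.RCW.StC
import Pool.Agent.DPV.TJV
import Pool.Agent.DPV.LIFTV
import Pool.Agent.DPV.CNTV
import Pool.Agent.DPV.REPV
import Pool.Agent.DPV.TRV
import Pool.Agent.DPV.PERAV
import Pool.Agent.DPV.EXTV

/-!
# TJW: the sum over the data whose group contains `J` vanishes (refined classes)
-/

namespace Pool.Agent.RCW

open Pool.Agent.DP Pool.Agent.DPV Pool.Agent.DPW Pool.Agent.Lib_helper13 Representation
open Pool.Agent.Lib_helper13.Dade (pCore DadeHolds dadeSum)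

namespace TJW

theorem gTW_transport {G B C F : Type} [Group G] [Group B] [Group C]
    {ι : G →* B} {κ : B →* MulAut G} {ρ : B →* C} (cl : ClG ι κ ρ) {Pr : (G → F) → Prop}
    (hPr : ∀ b ω, Pr (fun g => ω (κ b g)) → Pr ω) (a : B) {β : Set (B → F × ℂ)}
    (h : gTW ι Pr ((fun b0 x => b0 (a⁻¹ * x * a)) '' β)) : gTW ι Pr β := by
  obtain ⟨_, ⟨b, hb, rfl⟩, h2⟩ := h
  refine ⟨b, hb, hPr a⁻¹ _ ?_⟩
  have h4 : ∀ g, a⁻¹ * ι g * a = ι (κ a⁻¹ g) := by
    intro g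
    rw [cl.act, inv_inv]
  simp only [h4] at h2
  exact h2

end TJW

open Classical in
theorem TJW_thm (hLIFTW : Stmt_LIFTW) (_hTRW : Stmt_TRW) : Stmt_TJW := by
  have h3 : Stmt_REPV := REPV_thm
  have h4 : Stmt_TRV := TRV_thm EXTV_thm
  have h1 : Stmt_LIFTV := LIFTV_thm h4 h3 PERAV_thm
  have h2 : Stmt_CNTV := CNTV_thm h4
  intro O G B C Y K _ _ _ _ _ _ _ _ _ _ _ 𝔐 ℓ _ h𝔐 hℓ ι κ ρ hL W hW Pr hPr hVS j p φ hE J e β hβ
  obtain ⟨o₀, ho₀⟩ := hβ
  obtain ⟨⟨r, t, hr⟩, -, hrep⟩ := h3 O G B C Y K ι κ ρ hL j p φ hE J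
  obtain ⟨hrr, -, -⟩ := hrep r t hr
  -- existence of transports
  have hex : ∀ τ ∈ ClCh O G ℓ, ∀ θ : O → G → ℂ, (∀ o, IrrOn (stb (comp τ o)) (θ o)) →
      J ≤ KB κ p φ τ θ → ∃ g : O → B, (∀ o, r o = o → g o = 1) ∧
        (∀ o, ρ (g o) = ρ ((φ (t o)).left o)) ∧ ∀ o, trB κ τ θ (r o) o (g o) := by
    intro τ hτ θ hθ hJ
    have h := h2 O G B C Y K ℓ ι κ ρ hL j p φ hE J r t hr τ hτ θ hθ hJ
    have h' : 0 < ∏ o ∈ Finset.univ.filter (fun o => r o ≠ o), Nat.card (stb (comp τ o)) :=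
      Finset.prod_pos fun o _ => Nat.card_pos
    rw [← h] at h'
    obtain ⟨⟨g, hg⟩⟩ := (Nat.card_pos_iff.mp h').1
    exact ⟨g, hg⟩
  by_cases hcomp : ∀ o, (fun (b0 : B → ((integralClosure ℤ ℂ) ⧸ 𝔐) × ℂ) x =>
      b0 (((φ (t o)).left o)⁻¹ * x * (φ (t o)).left o)) '' β (r o) = β o
  swap
  · refine Finset.sum_eq_zero fun τ hτ => ?_
    rw [Finset.sum_eq_zero, mul_zero, mul_zero]
    intro θ hθ
    rw [if_neg]
    rintro ⟨hJ, -, hb⟩
    have hθ' : ∀ o, IrrOn (stb (comp τ o)) (θ o) := fun o =>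
      TJV.irrOn_of_mem (Fintype.mem_piFinset.mp hθ o)
    obtain ⟨g, -, hg2, hg3⟩ := hex τ hτ θ hθ' hJ
    apply hcomp
    intro o
    have h := hLIFTW O G B C Y K 𝔐 ℓ ι κ ρ hL W hW j p φ hE J r t hr τ hτ θ hθ' g hg2 hg3 o
    rw [hb] at h
    exact h.symm
  -- the representatives
  let Q := {o : O // r o = o}
  let q : O → Q := fun o => ⟨r o, hrr o⟩
  let s : Q → O := Subtype.val
  have hqs : ∀ w, q (s w) = w := fun w => Subtype.ext w.2
  have hsq : ∀ o, s (q o) = r o := fun o => rfl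
  let n : Q → ℕ := fun w => (Finset.univ.filter (fun o => q o = w)).card
  have hn : ∀ w, 1 ≤ n w := by
    intro w
    refine Finset.card_pos.mpr ⟨s w, ?_⟩
    rw [Finset.mem_filter]
    exact ⟨Finset.mem_univ _, hqs w⟩
  let 𝒢 : Finset (O → B) := Finset.univ.filter (fun g => (∀ o, r o = o → g o = 1) ∧
    ∀ o, ρ (g o) = ρ ((φ (t o)).left o))
  let cond : Finset (Subgroup (O → G)) → (O → G → ℂ) → Prop := fun τ θ =>
    J ≤ KB κ p φ τ θ ∧ ∑ o, df ℓ (stb (comp τ o)) (θ o) = e ∧ btsW 𝔐 ι κ ρ W p φ τ θ J = β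
  let P0 : Finset (Subgroup (O → G)) → ℚ := fun τ =>
    ∏ o ∈ Finset.univ.filter (fun o => r o = o), (Nat.card (stb (comp τ o)) : ℚ)
  -- step A
  have hA : ∀ τ ∈ ClCh O G ℓ, ∀ θ ∈ Fintype.piFinset (fun o => irrOn (stb (comp τ o))),
      (∏ o, (Nat.card (stb (comp τ o)) : ℚ)) * (if cond τ θ then 1 else 0) =
        ∑ g ∈ 𝒢, if ∀ o, trB κ τ θ (s (q o)) o (g o) then
          P0 τ * (if cond τ θ then (1 : ℚ) else 0) else 0 := by
    intro τ hτ θ hθ
    have hθ' : ∀ o, IrrOn (stb (comp τ o)) (θ o) := fun o =>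
      TJV.irrOn_of_mem (Fintype.mem_piFinset.mp hθ o)
    by_cases hc : cond τ θ
    · rw [if_pos hc, mul_one, mul_one, ← Finset.sum_filter, Finset.sum_const, nsmul_eq_mul,
        Finset.filter_filter]
      have h := h2 O G B C Y K ℓ ι κ ρ hL j p φ hE J r t hr τ hτ θ hθ' hc.1
      rw [Nat.card_eq_fintype_card, Fintype.card_subtype] at h
      have h' : (Finset.univ.filter (fun g : O → B => ((∀ o, r o = o → g o = 1) ∧
          ∀ o, ρ (g o) = ρ ((φ (t o)).left o)) ∧ ∀ o, trB κ τ θ (s (q o)) o (g o))).card =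
          ∏ o ∈ Finset.univ.filter (fun o => r o ≠ o), Nat.card (stb (comp τ o)) := by
        rw [← h]
        congr 1
        ext g
        simp only [Finset.mem_filter, Finset.mem_univ, true_and, and_assoc, hsq]
      rw [h', Nat.cast_prod, mul_comm]
      exact (Finset.prod_filter_mul_prod_filter_not _ _ _).symm
    · rw [if_neg hc, mul_zero, mul_zero]
      simp
  -- step B
  have hB : ∑ τ ∈ ClCh O G ℓ, (-1 : ℚ) ^ τ.card * ((∏ o, (Nat.card (stb (comp τ o)) : ℚ)) *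
        ∑ θ ∈ Fintype.piFinset (fun o => irrOn (stb (comp τ o))),
          (if cond τ θ then 1 else 0)) =
      ∑ g ∈ 𝒢, ∑ τ ∈ ClCh O G ℓ, (-1 : ℚ) ^ τ.card *
        ∑ θ ∈ (Fintype.piFinset (fun o => irrOn (stb (comp τ o)))).filter
          (fun θ => ∀ o, trB κ τ θ (s (q o)) o (g o)),
          P0 τ * (if cond τ θ then (1 : ℚ) else 0) := by
    rw [Finset.sum_comm]
    refine Finset.sum_congr rfl fun τ hτ => ?_
    rw [← Finset.mul_sum, Finset.mul_sum]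
    congr 1
    rw [Finset.sum_congr rfl (hA τ hτ), Finset.sum_comm]
    refine Finset.sum_congr rfl fun g _ => ?_
    rw [Finset.sum_filter]
  refine hB.trans ?_
  refine Finset.sum_eq_zero fun g hg => ?_
  obtain ⟨hg1, hg2⟩ : (∀ o, r o = o → g o = 1) ∧ ∀ o, ρ (g o) = ρ ((φ (t o)).left o) := by
    have := (Finset.mem_filter.mp hg).2
    exact this
  let H : (Q → Finset (Subgroup G)) → (Q → G → ℂ) → ℚ := fun c th =>
    (∏ w, (Nat.card (stb (c w)) : ℚ)) *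
      (if (∀ w, vg ρ p φ J w.1 ≤ (Stx κ (c w) (th w)).map ρ) ∧
        ∑ w, n w * df ℓ (stb (c w)) (th w) = e ∧
        ∀ w, betW 𝔐 ι κ ρ W (c w) (th w) (vg ρ p φ J w.1) = β w.1 then 1 else 0)
  -- step C
  have hC : ∀ τ ∈ ClCh O G ℓ, ∀ θ ∈ (Fintype.piFinset (fun o => irrOn (stb (comp τ o)))).filter
      (fun θ => ∀ o, trB κ τ θ (s (q o)) o (g o)),
      P0 τ * (if cond τ θ then (1 : ℚ) else 0) =
        H (fun w => comp τ (s w)) (fun w => θ (s w)) := by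
    intro τ hτ θ hθ
    rw [Finset.mem_filter, Fintype.mem_piFinset] at hθ
    obtain ⟨hθ1, hθ2⟩ := hθ
    have hθ' : ∀ o, IrrOn (stb (comp τ o)) (θ o) := fun o => TJV.irrOn_of_mem (hθ1 o)
    have htr : ∀ o, trB κ τ θ (r o) o (g o) := hθ2
    obtain ⟨hl1, -⟩ := h1 O G B C Y K 𝔐 ℓ ι κ ρ hL j p φ hE J r t hr τ hτ θ hθ' g hg2 htr
    have hl2 := hLIFTW O G B C Y K 𝔐 ℓ ι κ ρ hL W hW j p φ hE J r t hr τ hτ θ hθ' g hg2 htr
    have hdf : ∀ o, df ℓ (stb (comp τ o)) (θ o) = df ℓ (stb (comp τ (s (q o)))) (θ (s (q o))) :=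
      fun o => (((h4 O G B C 𝔐 ℓ ι κ ρ hL τ θ hθ').2 (r o) o (g o) (htr o)).2.1).symm
    have hsum : ∑ o, df ℓ (stb (comp τ o)) (θ o) =
        ∑ w, n w * df ℓ (stb (comp τ (s w))) (θ (s w)) := by
      rw [← Finset.sum_fiberwise Finset.univ q]
      refine Finset.sum_congr rfl fun w _ => ?_
      rw [Finset.sum_congr rfl (g := fun _ => df ℓ (stb (comp τ (s w))) (θ (s w)))]
      · rw [Finset.sum_const, smul_eq_mul]
      · intro o ho
        rw [hdf o, (Finset.mem_filter.mp ho).2]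
    change _ = (∏ w : Q, (Nat.card (stb (comp τ (s w))) : ℚ)) * _
    congr 1
    · change ∏ o ∈ Finset.univ.filter (fun o => r o = o), (Nat.card (stb (comp τ o)) : ℚ) = _
      exact Finset.prod_subtype (p := fun o => r o = o) _
        (fun o => by rw [Finset.mem_filter]; exact and_iff_right (Finset.mem_univ _)) _
    · refine if_congr ?_ rfl rfl
      refine and_congr ?_ (and_congr ?_ ?_)
      · rw [hl1]
        constructor
        · intro h w
          have h' := h w.1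
          rw [w.2] at h'
          exact h'
        · intro h o
          exact h (q o)
      · rw [hsum]
      · constructor
        · intro h w
          have h' := congrFun h w.1
          rw [← h']
          rfl
        · intro h
          funext o
          rw [hl2 o, ← hcomp o]
          congr 1
          have h' := h (q o)
          exact h'
  have hC' : ∑ τ ∈ ClCh O G ℓ, (-1 : ℚ) ^ τ.card *
        ∑ θ ∈ (Fintype.piFinset (fun o => irrOn (stb (comp τ o)))).filter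
          (fun θ => ∀ o, trB κ τ θ (s (q o)) o (g o)),
          P0 τ * (if cond τ θ then (1 : ℚ) else 0) =
      ∑ τ ∈ ClCh O G ℓ, (-1 : ℚ) ^ τ.card *
        ∑ θ ∈ (Fintype.piFinset (fun o => irrOn (stb (comp τ o)))).filter
          (fun θ => ∀ o, trB κ τ θ (s (q o)) o (g o)),
          H (fun w => comp τ (s w)) (fun w => θ (s w)) := by
    refine Finset.sum_congr rfl fun τ hτ => ?_
    rw [Finset.sum_congr rfl (hC τ hτ)]
  rw [hC', FIXR_thm O Q G B ℓ κ q s g hqs (fun w => hg1 _ w.2) H]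
  -- step D
  have hD : ∀ c th, H c th = ∑ E ∈ (Fintype.piFinset (fun _ : Q => Finset.range (e + 1))).filter
        (fun E => ∑ w, n w * E w = e), ∏ w, ((Nat.card (stb (c w)) : ℚ) *
        (if vg ρ p φ J w.1 ≤ (Stx κ (c w) (th w)).map ρ ∧ df ℓ (stb (c w)) (th w) = E w ∧
          betW 𝔐 ι κ ρ W (c w) (th w) (vg ρ p φ J w.1) = β w.1 then 1 else 0)) := by
    intro c th
    have hite : ∀ E : Q → ℕ, ∏ w, ((Nat.card (stb (c w)) : ℚ) *
        (if vg ρ p φ J w.1 ≤ (Stx κ (c w) (th w)).map ρ ∧ df ℓ (stb (c w)) (th w) = E w ∧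
          betW 𝔐 ι κ ρ W (c w) (th w) (vg ρ p φ J w.1) = β w.1 then 1 else 0)) =
        ((∏ w, (Nat.card (stb (c w)) : ℚ)) *
          (if (∀ w, vg ρ p φ J w.1 ≤ (Stx κ (c w) (th w)).map ρ) ∧
            ∀ w, betW 𝔐 ι κ ρ W (c w) (th w) (vg ρ p φ J w.1) = β w.1 then 1 else 0)) *
          ∏ w, (if df ℓ (stb (c w)) (th w) = E w then (1 : ℚ) else 0) := by
      intro E
      rw [Finset.prod_mul_distrib, mul_assoc]
      congr 1
      by_cases hx : (∀ w, vg ρ p φ J w.1 ≤ (Stx κ (c w) (th w)).map ρ) ∧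
            ∀ w, betW 𝔐 ι κ ρ W (c w) (th w) (vg ρ p φ J w.1) = β w.1
      · rw [if_pos hx, one_mul]
        refine Finset.prod_congr rfl fun w _ => ?_
        refine if_congr ?_ rfl rfl
        exact ⟨fun h => h.2.1, fun h => ⟨hx.1 w, h, hx.2 w⟩⟩
      · rw [if_neg hx, zero_mul]
        rw [not_and_or, not_forall, not_forall] at hx
        rcases hx with ⟨w, hw⟩ | ⟨w, hw⟩
        · exact Finset.prod_eq_zero (Finset.mem_univ w) (if_neg fun h => hw h.1)
        · exact Finset.prod_eq_zero (Finset.mem_univ w) (if_neg fun h => hw h.2.2)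
    simp_rw [hite]
    rw [← Finset.mul_sum, ← TJV.expand n _ hn e, mul_assoc]
    change (∏ w, (Nat.card (stb (c w)) : ℚ)) * _ = _
    congr 1
    exact TJV.ite_help _ _ _
  have hD' : ∑ τ ∈ ClCh Q G ℓ, (-1 : ℚ) ^ τ.card *
      ∑ θ ∈ Fintype.piFinset (fun w => irrOn (stb (comp τ w))), H (fun w => comp τ w) θ =
      ∑ E ∈ (Fintype.piFinset (fun _ : Q => Finset.range (e + 1))).filter
        (fun E => ∑ w, n w * E w = e), ∏ w : Q, VSW 𝔐 ℓ ι κ ρ W (vg ρ p φ J w.1) (β w.1) (E w) := by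
    have hE' : ∀ E : Q → ℕ, ∏ w : Q, VSW 𝔐 ℓ ι κ ρ W (vg ρ p φ J w.1) (β w.1) (E w) =
        ∑ τ ∈ ClCh Q G ℓ, (-1 : ℚ) ^ τ.card *
          ∑ θ ∈ Fintype.piFinset (fun w => irrOn (stb (comp τ w))),
            ∏ w, ((Nat.card (stb (comp τ w)) : ℚ) *
        (if vg ρ p φ J w.1 ≤ (Stx κ (comp τ w) (θ w)).map ρ ∧
          df ℓ (stb (comp τ w)) (θ w) = E w ∧
          betW 𝔐 ι κ ρ W (comp τ w) (θ w) (vg ρ p φ J w.1) = β w.1 then 1 else 0)) := by
      intro E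
      exact (EVALR_thm Q G ℓ (fun w σ ψ => (Nat.card (stb σ) : ℚ) *
        (if vg ρ p φ J w.1 ≤ (Stx κ σ ψ).map ρ ∧
          df ℓ (stb σ) ψ = E w ∧
          betW 𝔐 ι κ ρ W σ ψ (vg ρ p φ J w.1) = β w.1 then 1 else 0))).symm
    simp_rw [hE']
    rw [Finset.sum_comm]
    refine Finset.sum_congr rfl fun τ _ => ?_
    rw [Finset.sum_congr rfl (fun θ _ => hD _ _), Finset.sum_comm, Finset.mul_sum]
  rw [hD']
  refine Finset.sum_eq_zero fun E _ => ?_
  refine Finset.prod_eq_zero (Finset.mem_univ (q o₀)) ?_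
  apply hVS
  rw [← hcomp o₀] at ho₀
  exact TJW.gTW_transport hL.cl hPr _ ho₀

end Pool.Agent.RCW
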