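import Mathlib
import Pool.Agent.RCW.StA
import Pool.Agent.DPX.AllX

/-!
# TOP: the main theorem from the chain sums
-/

namespace Pool.Agent.RCW

open Pool.Agent.DP Pool.Agent.DPV Pool.Agent.DPB Pool.Agent.DPC Pool.Agent.DPW Pool.Agent.DPX
open Pool.Agent.Lib_helper13 Representation
open Pool.Agent.Lib_helper13.Dade (pCore DadeHolds dadeSum IsIrrChar)

namespace TOP

/-- The reduction to the local sums. -/
theorem mainPr (hFNR : Stmt_FNR) (hCPA : Stmt_CPA) (hCPZ : Stmt_CPZ) (hCPB : RCW.Stmt_CPB)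
    (hCPO : Stmt_CPO) (hHATQ : Stmt_HATQ)
    (ℓ : ℕ) [Fact ℓ.Prime] (X : Type) [Group X] [Fintype X] (K : Subgroup X)
    [Nontrivial K]
    (hcomm : ∀ x : X, (∀ k ∈ K, x * k * x⁻¹ ∈ K) ∨
      ∀ k ∈ K, ∀ k' ∈ K, (x * k * x⁻¹) * k' = k' * (x * k * x⁻¹))
    (hcore : pCore ℓ K = ⊥)
    (𝔐 : Ideal (integralClosure ℤ ℂ)) (h𝔐 : 𝔐.IsMaximal)
    (hℓ𝔐 : (ℓ : integralClosure ℤ ℂ) ∈ 𝔐)
    (ξ : K → ℂ) (hξ : IsIrr ξ) (hw : DX ℓ (fun g => cg 𝔐 ξ g))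
    (χ : X → ℂ) (hχ : IsIrr χ) (hover : ip (fun k : K => χ k) ξ ≠ 0) (d : ℕ) :
    dadeSum 𝔐 ℓ χ d = 0 := by
  classical
  obtain ⟨Ω, hΩ1, hΩ2, w₀, e, c, s, α, h1, h2, h3, h4, h5, h6⟩ := hCPA X K hcomm
  have hInn : (MulAut.conj : K →* MulAut K).range ≤ K.normalizerMonoidHom.range := by
    rintro _ ⟨k, rfl⟩
    refine ⟨⟨k, Subgroup.le_normalizer k.2⟩, ?_⟩
    ext x
    rfl
  obtain ⟨X', B, C, K', _, _, _, _, _, _, q, ι, κ, ρ, e', p', φ', hq, hqk, hL, hE, hqe, hZ⟩ :=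
    hCPB X K Ω ℓ e c hcore h2 h5 K.normalizerMonoidHom.range hInn (by
      intro y
      refine ⟨s y, α y, ?_, fun n w => h3 y n w⟩
      intro w
      obtain ⟨z, hz, hz'⟩ := h4 y w
      refine ⟨⟨z, hz⟩, ?_⟩
      ext k
      exact (hz' k).symm)
  obtain ⟨Z', hZn, hZp, hZe, hZq⟩ := hZ (pCore ℓ X) (pCore_normal ℓ) (isPGroup_pCore ℓ)
    (hCPZ X K Ω ℓ e c hcore h2 h5 h6 (pCore ℓ X) (pCore_normal ℓ) (isPGroup_pCore ℓ))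
  obtain ⟨ξ', hξ', hξw, hover'⟩ := hCPO X Ω K w₀ e h1 χ ξ hχ hξ hover
  have hχ' : IsIrr (fun x => χ (q x)) := Pool.Agent.DP.QB.infl hq hχ
  have hres : resj e' (fun x => χ (q x)) = resj e χ := by
    ext n
    change χ (q (e' n)) = χ (e n)
    rw [hqe]
  have hK := hFNR Ω K B C X' K' 𝔐 ℓ h𝔐 hℓ𝔐 ι κ ρ hL e' p' φ' hE
    (fun x => χ (q x)) ξ' w₀ hχ' hξ' (by rwa [hres]) (by rwa [hξw]) Z' hZn hZp hZe d
  rw [hHATQ X' X 𝔐 ℓ h𝔐 hℓ𝔐 q hq hqk Z' hZn hZp χ hχ d, hZq] at hK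
  have hq0 : (Nat.card q.ker : ℚ) ≠ 0 := by exact_mod_cast Nat.card_pos.ne'
  have hK' := (mul_eq_zero.mp hK).resolve_left hq0
  have h7 := dadeSum_eq 𝔐 ℓ d hχ
  rw [hK'] at h7
  have h8 : (Nat.card X : ℚ) ≠ 0 := by exact_mod_cast Nat.card_pos.ne'
  have h9 := (mul_eq_zero.mp h7).resolve_left h8
  exact_mod_cast h9

end TOP

open TOP in
theorem TOP_thm (h1 : Stmt_FNR) (h2 : RCW.Stmt_CPB) : Stmt_TOP := by
  intro ℓ hℓ X _ _ K hcomm hcore 𝔐 h𝔐 hℓ𝔐 ξ hξ hd x hx hx2 χ hχ hover d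
  classical
  have hf : Fact ℓ.Prime := ⟨hℓ⟩
  have hX' : Fintype X := Fintype.ofFinite X
  have hnt : Nontrivial K := by
    by_contra hcon
    rw [not_nontrivial_iff_subsingleton] at hcon
    obtain ⟨n, hn, hn'⟩ := IsIrr.exists_degree (χ := ξ) hξ
    apply hd
    refine ⟨n, hn', ?_⟩
    have h1 : Nat.card K = 1 := Nat.card_of_subsingleton 1
    have h2 : n ∣ Nat.card K := IsIrr.degree_dvd (χ := ξ) hξ hn'
    rw [h1] at h2 ⊢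
    rw [Nat.dvd_one.mp h2, zero_add]
  have hcen : cen 𝔐 (MonoidHom.id K) ξ x ≠ 0 := by
    intro h0
    apply hx
    rw [central_eq]
    have h1 : red 𝔐 (wt ξ (fun y => conjInd (MonoidHom.id K y) x)) = red 𝔐 0 := by
      rw [red_zero]
      exact h0
    exact (red_eq_iff 𝔐 (isIntegral_wt_conj _ hξ x) isIntegral_zero).mp h1
  have hDX := dx_of 𝔐 ℓ h𝔐 hℓ𝔐 hξ x hcen hx2 hd
  refine mainPr h1 CPA_thm CPZ_thm h2 CPO_thm HATQ_thm ℓ X K hcomm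
    hcore 𝔐 h𝔐 hℓ𝔐 ξ hξ hDX χ hχ ?_ d
  rw [finsum_eq_sum_of_fintype] at hover
  rw [ip]
  refine div_ne_zero ?_ natCard_ne_zero
  exact hover

end Pool.Agent.RCW
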