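import Mathlib
import Pool.Agent.RCW.StC
import Pool.Agent.DPV.TRV

/-!
# TRW: transport of the refined classes
-/

namespace Pool.Agent.RCW

open Pool.Agent.DP Pool.Agent.DPV Pool.Agent.DPW Pool.Agent.Lib_helper13 Representation
open Pool.Agent.Lib_helper13.Dade (pCore DadeHolds dadeSum)

namespace TRW

theorem cgW_conj {G B C : Type} [Group G] [Fintype G] [Group B] [Fintype B] [Group C]
    (𝔐 : Ideal (integralClosure ℤ ℂ)) {ι : G →* B} {κ : B →* MulAut G} {ρ : B →* C}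
    (hL : LocV ι κ ρ) {W : Subgroup B} (hW : W.Normal) (f : B → ℂ) (g x : B) :
    cgW 𝔐 ι W (fun y => f (g⁻¹ * y * g)) x = cgW 𝔐 ι W f (g⁻¹ * x * g) := by
  obtain ⟨-, -, hcg, -, -⟩ := CGT_thm G B C 𝔐 ι κ ρ hL.cl
  have h1 : g⁻¹ * x * g ∈ W ↔ x ∈ W := by
    constructor
    · intro h
      have h2 := hW.conj_mem _ h g
      have h3 : g * (g⁻¹ * x * g) * g⁻¹ = x := by group
      rwa [h3] at h2
    · intro h
      have h2 := hW.conj_mem _ h g⁻¹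
      rwa [inv_inv] at h2
  have h4 : g⁻¹ * 1 * g = 1 := by group
  unfold cgW
  rw [hcg f g x]
  by_cases hx : x ∈ W
  · rw [if_pos hx, if_pos (h1.2 hx)]
    beta_reduce
    rw [h4]
  · rw [if_neg hx, if_neg (mt h1.1 hx)]

end TRW

theorem TRW_thm : Stmt_TRW := by
  intro O G B C _ _ _ _ _ _ _ 𝔐 ℓ _ ι κ ρ hL W hW τ θ hθ a b g h L
  ext b0
  constructor
  · rintro ⟨f, hf, rfl⟩
    have h1 := TRV.ext_transport hL.cl h.inv _ f hf
    rw [map_inv, TRV.mapConj_inv] at h1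
    refine ⟨_, ⟨_, h1, rfl⟩, ?_⟩
    funext x
    change cgW 𝔐 ι W (fun x => f (g⁻¹⁻¹ * x * g⁻¹)) (g⁻¹ * x * g) = cgW 𝔐 ι W f x
    rw [TRW.cgW_conj 𝔐 hL hW.nor f g⁻¹]
    congr 1
    group
  · rintro ⟨_, ⟨f, hf, rfl⟩, rfl⟩
    refine ⟨_, TRV.ext_transport hL.cl h L f hf, ?_⟩
    funext x
    exact (TRW.cgW_conj 𝔐 hL hW.nor f g x).symm

end Pool.Agent.RCW
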