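import Mathlib
import Pool.Agent.RCW.StC
import Pool.Agent.DPV.TWV

/-!
# Twists of standard data, with a covering
-/

namespace Pool.Agent.RCW

open Pool.Agent.DP Pool.Agent.DPV Pool.Agent.DPW Pool.Agent.Lib_helper13 Representation
open Pool.Agent.Lib_helper13.Dade (pCore DadeHolds dadeSum)

namespace TWW

section

variable {O G B C Y K Y₀ : Type} [Fintype O] [DecidableEq O] [Group G] [Group B] [Group C]
  [Group Y] [Group K] [Group Y₀]
variable {ℓ : ℕ} {ι : G →* B} {κ : B →* MulAut G} {ρ : B →* C} {j : (O → G) →* Y} {p : Y →* K}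
  {φ : Y →* Gam (Equiv.Perm O) O B} {J : Subgroup K} {U : O → Subgroup C} {g : O → B}
  {S : O → Subgroup B} {θ : O → B → ℂ} {m : O → ℕ} {M : O → B → ℕ → ℕ → ℂ}

omit [DecidableEq O] in
/-- The condition on the kernel for the twisted data. -/
theorem kerC_tw (hL : LocV ι κ ρ) (hE : ExtS ι κ j p φ)
    (hD : SDV ℓ ι ρ p φ J U g S θ m M) (lam : O → C → ℂ) (hlin : ∀ o, LinOn (U o) (lam o))
    (hlam : ∀ y, p y ∈ J → ∀ o, lam ((φ y).right • o) = lam o) (q : Y →* Y₀) (η : J → ℂ) :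
    KerC p φ q J g (fun o x => θ o x * lam o (ρ x)) η ↔
      KerC p φ q J g θ (fun k => η k * ((TWV.Lc hL hE hD lam hlin hlam k : ℂˣ) : ℂ)) := by
  unfold KerC
  refine forall_congr' fun v => forall_congr' fun _ => forall_congr' fun hv =>
    forall_congr' fun k => ?_
  have h1 : (∏ o, (θ o (zz φ g v o) * lam o (ρ (zz φ g v o)) / (θ o 1 * lam o (ρ 1)))) =
      (∏ o, (θ o (zz φ g v o) / θ o 1)) *
        ((TWV.Lc hL hE hD lam hlin hlam ⟨p v, hv⟩ : ℂˣ) : ℂ) := by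
    rw [← TWV.Lc_apply hL hE hD lam hlin hlam ⟨p v, hv⟩ v rfl]
    unfold TWV.L0
    rw [← Finset.prod_mul_distrib]
    refine Finset.prod_congr rfl fun o _ => ?_
    rw [map_one, (hlin o).1, mul_one]
    ring
  change (∏ o, (θ o (zz φ g v o) * lam o (ρ (zz φ g v o)) / (θ o 1 * lam o (ρ 1)))) *
      η (⟨p v, hv⟩ * k) = η k ↔
    (∏ o, (θ o (zz φ g v o) / θ o 1)) * (η (⟨p v, hv⟩ * k) *
      ((TWV.Lc hL hE hD lam hlin hlam (⟨p v, hv⟩ * k) : ℂˣ) : ℂ)) =
      η k * ((TWV.Lc hL hE hD lam hlin hlam k : ℂˣ) : ℂ)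
  rw [h1, map_mul, Units.val_mul]
  have h2 : ((TWV.Lc hL hE hD lam hlin hlam k : ℂˣ) : ℂ) ≠ 0 := Units.ne_zero _
  constructor
  · intro h
    rw [← h]
    ring
  · intro h
    refine mul_right_cancel₀ h2 ?_
    rw [← h]
    ring

/-- The weights for the twisted data. -/
theorem wt_tw [Fintype Y] [Finite K] (hL : LocV ι κ ρ) (hE : ExtS ι κ j p φ)
    (hD : SDV ℓ ι ρ p φ J U g S θ m M) (lam : O → C → ℂ) (hlin : ∀ o, LinOn (U o) (lam o))
    (hlam : ∀ y, p y ∈ J → ∀ o, lam ((φ y).right • o) = lam o) (η : J → ℂ) (F : Y → ℂ) :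
    wt (fun k => η k * ((TWV.Lc hL hE hD lam hlin hlam k : ℂˣ) : ℂ))
      (fun k => AS p φ g S θ m M (k : K) F) =
      wt η (fun k => AS p φ g S (fun o x => θ o x * lam o (ρ x)) m
        (fun o x a b => M o x a b * lam o (ρ x)) (k : K) F) := by
  have hc1 : ((TWV.Lc hL hE hD lam hlin hlam 1 : ℂˣ) : ℂ) = 1 := by rw [map_one, Units.val_one]
  unfold wt
  simp only [hc1, mul_one]
  congr 1
  refine Finset.sum_congr rfl fun k _ => ?_
  rw [TWV.AS_tw hL hE hD lam hlin hlam k]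
  ring

end

end TWW

theorem TWW_thm : Stmt_TWW := by
  intro O G B C Y K Y₀ X _ _ _ _ _ _ _ _ _ _ _ _ _ 𝔐 ℓ ι κ ρ hL j p φ hE q J U g S θ m M hD _
    lam hlin hlam
  refine ⟨(TWV_thm O G B C Y K X 𝔐 ℓ ι κ ρ hL j p φ hE J U g S θ m M hD lam hlin hlam).1,
    fun i => ⟨?_, ?_⟩⟩
  · intro hI η hη hk x
    have h := hI (fun k => η k * ((TWV.Lc hL hE hD lam hlin hlam k : ℂˣ) : ℂ))
      (TWV.isIrr_tw hη _) ((TWW.kerC_tw hL hE hD lam hlin hlam q η).1 hk) x
    rw [TWW.wt_tw hL hE hD lam hlin hlam] at h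
    exact h
  · intro d e ω
    unfold NNW
    congr 2
    set c := TWV.Lc hL hE hD lam hlin hlam with hc
    have hc1 : ((c 1 : ℂˣ) : ℂ) = 1 := by rw [map_one, Units.val_one]
    refine Nat.card_congr (Equiv.subtypeEquiv
      { toFun := fun η k => η k * ((c k : ℂˣ) : ℂ)
        invFun := fun η k => η k * (((c k)⁻¹ : ℂˣ) : ℂ)
        left_inv := fun η => funext fun k => by
          simp
        right_inv := fun η => funext fun k => by
          simp } fun η => ?_)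
    change _ ↔ IsIrr (fun k => η k * ((c k : ℂˣ) : ℂ)) ∧
      KerC p φ q J g θ (fun k => η k * ((c k : ℂˣ) : ℂ)) ∧
      (∃ d', HasDefect ℓ (fun k => η k * ((c k : ℂˣ) : ℂ)) d' ∧
        e + d' = d + padicValNat ℓ (Nat.card q.ker)) ∧
      ∀ x, red 𝔐 (wt (fun k => η k * ((c k : ℂˣ) : ℂ))
        (fun k => AS p φ g S θ m M (k : K) (fun y => conjInd (i (q y)) x)) /
          Nat.card q.ker) = ω x
    rw [TWV.isIrr_tw_iff, TWW.kerC_tw hL hE hD lam hlin hlam q η]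
    have h1 : ∀ d', HasDefect ℓ (fun k => η k * ((c k : ℂˣ) : ℂ)) d' ↔ HasDefect ℓ η d' := by
      intro d'
      unfold HasDefect
      simp only [hc1, mul_one]
    have h2 : ∀ x, wt (fun k => η k * ((c k : ℂˣ) : ℂ))
        (fun k => AS p φ g S θ m M (k : K) (fun y => conjInd (i (q y)) x)) =
        wt η (fun k => AS p φ g S (fun o x => θ o x * lam o (ρ x)) m
          (fun o x a b => M o x a b * lam o (ρ x)) (k : K)
          (fun y => conjInd (i (q y)) x)) := fun x =>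
      TWW.wt_tw hL hE hD lam hlin hlam η _
    simp only [h1, h2]
    rfl

end Pool.Agent.RCW
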