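import Pool.Agent.RCW.StD
import Pool.Agent.DPX.VSXX
import Pool.Agent.DPX.CHNX

set_option linter.unusedSectionVars false

/-!
# VSY: the refined local sum for a block with a cyclic defect group
-/

namespace Pool.Agent.RCW

open Pool.Agent.DP Pool.Agent.DPV Pool.Agent.DPB Pool.Agent.DPW Pool.Agent.DPX
open Pool.Agent.Lib_helper13 Representation

namespace VSY

open Pool.Agent.DPV.VSX Pool.Agent.DPW.VSXW Pool.Agent.DPX.VSXX Pool.Agent.DP.CGT

section Loc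

variable {G B C : Type} [Group G] [Fintype G] [Group B] [Fintype B] [Group C] {ι : G →* B}
  {κ : B →* MulAut G} {ρ : B →* C} {W : Subgroup B}

/-- an element of `W` commutes with the image of `G` -/
theorem comm (hcl : ClG ι κ ρ) (hW : WC ι W) {w : B} (hw : w ∈ W) (h : G) :
    w * ι h = ι h * w := by
  have h1 := hcl.act w h
  have h2 : ι (κ w h * h⁻¹) ∈ W := by
    rw [map_mul, h1, map_inv]
    have h3 : w * ι h * w⁻¹ * (ι h)⁻¹ = w * (ι h * w⁻¹ * (ι h)⁻¹) := by group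
    rw [h3]
    exact W.mul_mem hw (hW.nor.conj_mem _ (W.inv_mem hw) _)
  have h3 : κ w h = h := by
    have h4 := hW.int _ h2
    rwa [mul_inv_eq_one] at h4
  rw [h3] at h1
  rw [← mul_inv_eq_iff_eq_mul]
  exact h1.symm

/-- conjugation by the elements of `G` does not change the refined central function -/
theorem cgW_tw (h : ClG ι κ ρ) (hW : WC ι W) (𝔐 : Ideal (integralClosure ℤ ℂ)) (g : G)
    (f : B → ℂ) : cgW 𝔐 ι W (tw (ι g) f) = cgW 𝔐 ι W f := by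
  classical
  funext x
  have h1 : cgT 𝔐 ι.range (tw (ι g) f) x = cgT 𝔐 ι.range f ((ι g)⁻¹ * x * ι g) :=
    partC 𝔐 h f (ι g) x
  have h2 := partE (ι := ι) 𝔐 f g⁻¹ x
  rw [map_inv, inv_inv] at h2
  unfold cgW
  refine Prod.ext ?_ ?_
  · change cgT 𝔐 ι.range (tw (ι g) f) x = cgT 𝔐 ι.range f x
    rw [h1, h2]
  · change (if x ∈ W then tw (ι g) f x / tw (ι g) f 1 else 0) = if x ∈ W then f x / f 1 else 0
    by_cases hx : x ∈ W
    · rw [if_pos hx, if_pos hx]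
      have h3 : (ι g)⁻¹ * x * ι g = x := by
        rw [mul_assoc, comm h hW hx g, inv_mul_cancel_left]
      have h4 : (ι g)⁻¹ * 1 * ι g = 1 := by group
      change f ((ι g)⁻¹ * x * ι g) / f ((ι g)⁻¹ * 1 * ι g) = _
      rw [h3, h4]
    · rw [if_neg hx, if_neg hx]

theorem betW_sub (h : ClG ι κ ρ) (hW : WC ι W) (𝔐 : Ideal (integralClosure ℤ ℂ)) (g : G)
    (σ : Finset (Subgroup G)) (ψ : G → ℂ) (L : Subgroup C) :
    betW 𝔐 ι κ ρ W σ ψ L ⊆ betW 𝔐 ι κ ρ W (cc g σ) (tw g ψ) L := by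
  rintro b ⟨f, hf, rfl⟩
  exact ⟨_, extL_tw h g hf, (cgW_tw h hW 𝔐 g f).symm⟩

theorem betW_eq (h : ClG ι κ ρ) (hW : WC ι W) (𝔐 : Ideal (integralClosure ℤ ℂ)) (g : G)
    (σ : Finset (Subgroup G)) (ψ : G → ℂ) (L : Subgroup C) :
    betW 𝔐 ι κ ρ W (cc g σ) (tw g ψ) L = betW 𝔐 ι κ ρ W σ ψ L := by
  apply Set.Subset.antisymm _ (betW_sub h hW 𝔐 g σ ψ L)
  have h1 := betW_sub h hW 𝔐 g⁻¹ (cc g σ) (tw g ψ) L
  rwa [cc_cc, tw_tw] at h1

/-- The condition on the characters. -/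
def PY (𝔐 : Ideal (integralClosure ℤ ℂ)) (ℓ : ℕ) (ι : G →* B) (κ : B →* MulAut G) (ρ : B →* C)
    (W : Subgroup B) (L : Subgroup C) (β : Set (B → ((integralClosure ℤ ℂ) ⧸ 𝔐) × ℂ)) (e : ℕ)
    (σ : Finset (Subgroup G)) (ψ : G → ℂ) : Prop :=
  L ≤ (Stx κ σ ψ).map ρ ∧ df ℓ (stb σ) ψ = e ∧ betW 𝔐 ι κ ρ W σ ψ L = β

/-- The number of characters. -/
noncomputable def NY (𝔐 : Ideal (integralClosure ℤ ℂ)) (ℓ : ℕ) (ι : G →* B) (κ : B →* MulAut G)
    (ρ : B →* C) (W : Subgroup B) (L : Subgroup C)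
    (β : Set (B → ((integralClosure ℤ ℂ) ⧸ 𝔐) × ℂ)) (e : ℕ) (σ : Finset (Subgroup G)) : ℕ :=
  Nat.card {ψ : G → ℂ // IrrOn (stb σ) ψ ∧ PY 𝔐 ℓ ι κ ρ W L β e σ ψ}

theorem PY_tw (h : ClG ι κ ρ) (hW : WC ι W) (𝔐 : Ideal (integralClosure ℤ ℂ)) (ℓ : ℕ)
    (L : Subgroup C) (β : Set (B → ((integralClosure ℤ ℂ) ⧸ 𝔐) × ℂ)) (e : ℕ) (g : G)
    (σ : Finset (Subgroup G)) (ψ : G → ℂ) :
    PY 𝔐 ℓ ι κ ρ W L β e (cc g σ) (tw g ψ) ↔ PY 𝔐 ℓ ι κ ρ W L β e σ ψ := by
  rw [PY, PY, map_stx h, df_tw, betW_eq h hW]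

theorem NY_cc (h : ClG ι κ ρ) (hW : WC ι W) (𝔐 : Ideal (integralClosure ℤ ℂ)) (ℓ : ℕ)
    (L : Subgroup C) (β : Set (B → ((integralClosure ℤ ℂ) ⧸ 𝔐) × ℂ)) (e : ℕ) (g : G)
    (σ : Finset (Subgroup G)) :
    NY 𝔐 ℓ ι κ ρ W L β e (cc g σ) = NY 𝔐 ℓ ι κ ρ W L β e σ := by
  symm
  refine Nat.card_congr
    { toFun := fun ψ => ⟨tw g ψ.1, irrOn_tw ψ.2.1 g, (PY_tw h hW 𝔐 ℓ L β e g σ ψ.1).mpr ψ.2.2⟩
      invFun := fun ψ => ⟨tw g⁻¹ ψ.1, ?_, ?_⟩
      left_inv := fun ψ => Subtype.ext (tw_tw g ψ.1)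
      right_inv := fun ψ => Subtype.ext (tw_tw' g ψ.1) }
  · have h1 := irrOn_tw ψ.2.1 g⁻¹
    rwa [cc_cc] at h1
  · rw [← PY_tw h hW 𝔐 ℓ L β e g σ, tw_tw']
    exact ψ.2.2

/-- The central function of a character which counts. -/
theorem cg_of_betW {𝔐 : Ideal (integralClosure ℤ ℂ)} (hcl : ClG ι κ ρ)
    {σ : Finset (Subgroup G)} {ψ : G → ℂ} {L : Subgroup C}
    {β : Set (B → ((integralClosure ℤ ℂ) ⧸ 𝔐) × ℂ)} (h : betW 𝔐 ι κ ρ W σ ψ L = β)
    {b : B → ((integralClosure ℤ ℂ) ⧸ 𝔐) × ℂ} (hb : b ∈ β) (g : G) :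
    cg 𝔐 ψ g = (b (ι g)).1 := by
  rw [← h] at hb
  obtain ⟨f, hf, rfl⟩ := hb
  exact (cg_of_ext 𝔐 hcl hf g).symm

/-- The number of characters depends only on the stabilizers. -/
theorem NY_congr {ℓ : ℕ} (𝔐 : Ideal (integralClosure ℤ ℂ))
    (ι : G →* B) (κ : B →* MulAut G) (ρ : B →* C) (W : Subgroup B) (L : Subgroup C)
    (β : Set (B → ((integralClosure ℤ ℂ) ⧸ 𝔐) × ℂ)) (e : ℕ) {σ τ : Finset (Subgroup G)}
    (h1 : stb σ = stb τ) (h2 : ∀ ψ : G → ℂ, Stx κ σ ψ = Stx κ τ ψ) :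
    NY 𝔐 ℓ ι κ ρ W L β e σ = NY 𝔐 ℓ ι κ ρ W L β e τ := by
  unfold NY
  have h3 : ∀ ψ : G → ℂ, (IrrOn (stb σ) ψ ∧ PY 𝔐 ℓ ι κ ρ W L β e σ ψ) ↔
      (IrrOn (stb τ) ψ ∧ PY 𝔐 ℓ ι κ ρ W L β e τ ψ) := by
    intro ψ
    have h4 : betW 𝔐 ι κ ρ W σ ψ L = betW 𝔐 ι κ ρ W τ ψ L := by
      unfold betW ExtL
      rw [h2 ψ]
    unfold PY
    rw [h1, h2 ψ, h4]
  exact Nat.card_congr (Equiv.subtypeEquivRight h3)

end Loc

end VSY

open VSY Pool.Agent.DPX.VSXX Pool.Agent.DPV.VSX Pool.Agent.DPW.VSXW in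
/-- VSY: the refined local sum for a block with a cyclic defect group. -/
theorem VSY_thm : Stmt_VSY := by
  classical
  intro G B C _ _ _ _ _ 𝔐 ℓ n _ hmax hℓ ι κ ρ hL W hW P₁ P x₀ L β e hβ
  obtain ⟨b, hb, hAt⟩ := hβ
  have hPc : IsCyclic P := hAt.cd.cyc
  have hle : P₁ ≤ P := hAt.cd.le
  have hc1 : Nat.card P₁ = ℓ := hAt.cd.c1
  set T : Finset (Subgroup G) → ℚ := fun σ => (-1 : ℚ) ^ σ.card *
      ((Nat.card (stb σ) : ℚ) * (NY 𝔐 ℓ ι κ ρ W L β e σ : ℚ)) with hT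
  have h3 : VSW 𝔐 ℓ ι κ ρ W L β e = ∑ σ ∈ Ch ℓ (⊥ : Subgroup G), T σ := by
    rw [VSW]
    refine Finset.sum_congr rfl fun σ _ => ?_
    show _ = (-1 : ℚ) ^ σ.card *
      ((Nat.card (stb σ) : ℚ) * (NY 𝔐 ℓ ι κ ρ W L β e σ : ℚ))
    congr 1
    exact inner_sum (stb σ) _ (fun ψ => L ≤ (Stx κ σ ψ).map ρ ∧ df ℓ (stb σ) ψ = e ∧
      betW 𝔐 ι κ ρ W σ ψ L = β)
  set S₁ : Finset (Finset (Subgroup G)) := (Finset.univ.filter (fun D : Subgroup G => ∃ g : G,
        P₁.map (MulAut.conj g).toMonoidHom = D)).image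
        (fun D => ({D} : Finset (Subgroup G))) with hS₁
  have hne : (∅ : Finset (Subgroup G)) ∉ S₁ := by
    rw [hS₁, Finset.mem_image]
    rintro ⟨D, -, hD⟩
    exact Finset.singleton_ne_empty D hD
  have h4 : ∀ D ∈ Finset.univ.filter (fun D : Subgroup G => ∃ g : G,
      P₁.map (MulAut.conj g).toMonoidHom = D), T {D} =
      - ((Nat.card (stb {P₁}) : ℚ) * (NY 𝔐 ℓ ι κ ρ W L β e {P₁} : ℚ)) := by
    intro D hD
    show (-1 : ℚ) ^ ({D} : Finset (Subgroup G)).card *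
        ((Nat.card (stb {D}) : ℚ) * (NY 𝔐 ℓ ι κ ρ W L β e {D} : ℚ)) = _
    obtain ⟨g, hg⟩ := (Finset.mem_filter.mp hD).2
    have h5 : ({D} : Finset (Subgroup G)) = cc g {P₁} := by
      ext E
      rw [Finset.mem_singleton, mem_mapCh]
      constructor
      · rintro rfl
        exact ⟨P₁, Finset.mem_singleton_self P₁, hg⟩
      · rintro ⟨Q, hQ, rfl⟩
        rw [Finset.mem_singleton.mp hQ]
        exact hg
    have h6 : Nat.card (stb ({D} : Finset (Subgroup G))) =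
        Nat.card (stb ({P₁} : Finset (Subgroup G))) := by
      rw [h5, cc, stb_mapCh_equiv, card_map_conj]
    have h7 : NY 𝔐 ℓ ι κ ρ W L β e {D} = NY 𝔐 ℓ ι κ ρ W L β e {P₁} := by
      rw [h5, NY_cc hL.cl hW]
    rw [h6, h7, Finset.card_singleton, pow_one, neg_one_mul]
  have h8 : ((Finset.univ.filter (fun D : Subgroup G => ∃ g : G,
      P₁.map (MulAut.conj g).toMonoidHom = D)).card : ℚ) *
      (Nat.card (stb ({P₁} : Finset (Subgroup G))) : ℚ) = Nat.card G := by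
    have h9 := card_conj P₁
    have h10 : Nat.card {D : Subgroup G // ∃ g : G, P₁.map (MulAut.conj g).toMonoidHom = D} =
        (Finset.univ.filter (fun D : Subgroup G => ∃ g : G,
          P₁.map (MulAut.conj g).toMonoidHom = D)).card :=
      Nat.subtype_card _ (fun D => by
        rw [Finset.mem_filter]
        exact ⟨fun h => h.2, fun h => ⟨Finset.mem_univ _, h⟩⟩)
    rw [h10] at h9
    exact_mod_cast h9
  have h11 : (Nat.card (stb (∅ : Finset (Subgroup G))) : ℚ) = Nat.card G := by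
    rw [stb_empty, Subgroup.card_top]
  have hOp : ∀ g : G, IsPGroup ℓ (cj g P₁) ∧ ⊥ < cj g P₁ := by
    intro g
    have h12 : Nat.card (cj g P₁) = ℓ := by
      rw [card_cj, hc1]
    exact ⟨Pool.Agent.DPB.BRD.isPGroup_of_card h12,
      bot_lt_iff_ne_bot.2 (Pool.Agent.DPB.BRD.ne_bot h12)⟩
  have hsub : insert ∅ S₁ ⊆ Ch ℓ (⊥ : Subgroup G) := by
    intro σ hσ
    rw [mem_Ch]
    rcases Finset.mem_insert.mp hσ with rfl | hσ
    · exact isCh_empty
    · obtain ⟨D, hD, rfl⟩ := Finset.mem_image.mp hσ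
      obtain ⟨g, hg⟩ := (Finset.mem_filter.mp hD).2
      have hD' : Nat.card D = ℓ := by
        rw [← hg, card_map_conj, hc1]
      exact Pool.Agent.DPB.LOC.isCh_singleton (Pool.Agent.DPB.BRD.isPGroup_of_card hD')
        (Pool.Agent.DPB.BRD.ne_bot hD')
  -- the chains which are not good do not contribute
  have hzero : ∀ σ ∈ Ch ℓ (⊥ : Subgroup G), ¬ Gd P σ → T σ = 0 := by
    intro σ hσ hnot
    have hN : NY 𝔐 ℓ ι κ ρ W L β e σ = 0 := by
      rw [VSY.NY]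
      have hemp : IsEmpty {ψ : G → ℂ // IrrOn (stb σ) ψ ∧ PY 𝔐 ℓ ι κ ρ W L β e σ ψ} := by
        constructor
        rintro ⟨ψ, hψ, hPP⟩
        apply hnot
        have hcg : ∀ g, cg 𝔐 ψ g = (b (ι g)).1 := cg_of_betW hL.cl hPP.2.2 hb
        exact CHNX_thm G 𝔐 ℓ n hmax hℓ (fun g => (b (ι g)).1) P₁ P x₀ hAt σ (mem_Ch.mp hσ) ψ hψ hcg
      exact Nat.card_of_isEmpty
    show (-1 : ℚ) ^ σ.card * ((Nat.card (stb σ) : ℚ) * (NY 𝔐 ℓ ι κ ρ W L β e σ : ℚ)) = 0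
    rw [hN, Nat.cast_zero, mul_zero, mul_zero]
  -- the good chains cancel
  set R : Finset (Finset (Subgroup G)) :=
    (Ch ℓ (⊥ : Subgroup G)).filter (fun σ => Bd ℓ P₁ P σ) with hR
  -- the basic facts on a good chain
  have hins : ∀ σ : Finset (Subgroup G), IsCh ℓ (⊥ : Subgroup G) σ → σ.Nonempty → ∀ g : G,
      (∀ D ∈ σ, D ≤ cj g P) → stb (insert (cj g P₁) σ) = stb σ ∧
      NY 𝔐 ℓ ι κ ρ W L β e (insert (cj g P₁) σ) = NY 𝔐 ℓ ι κ ρ W L β e σ ∧
      IsCh ℓ (⊥ : Subgroup G) (insert (cj g P₁) σ) := by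
    intro σ hσ hσne g hg
    obtain ⟨D, hD⟩ := hσne
    have h12 : ∀ E ∈ σ, cj g P₁ ≤ E := fun E hE =>
      om_le hPc hle hc1 (hσ.1 E hE).1 (hσ.1 E hE).2 (hg E hE)
    have h13 := stb_insert hPc hD (h12 D hD) (hg D hD)
    exact ⟨h13, NY_congr 𝔐 ι κ ρ W L β e h13 fun ψ =>
      stx_insert κ hPc hD (h12 D hD) (hg D hD) ψ,
      ch_insert hσ (hOp g).1 (hOp g).2 h12⟩
  have hTins : ∀ σ : Finset (Subgroup G), IsCh ℓ (⊥ : Subgroup G) σ → σ.Nonempty → ∀ g : G,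
      (∀ D ∈ σ, D ≤ cj g P) → cj g P₁ ∉ σ → T (insert (cj g P₁) σ) = - T σ := by
    intro σ hσ hσne g hg hnot
    obtain ⟨h12, h13, -⟩ := hins σ hσ hσne g hg
    show (-1 : ℚ) ^ (insert (cj g P₁) σ).card * ((Nat.card (stb (insert (cj g P₁) σ)) : ℚ) *
      (NY 𝔐 ℓ ι κ ρ W L β e (insert (cj g P₁) σ) : ℚ)) = - ((-1 : ℚ) ^ σ.card *
      ((Nat.card (stb σ) : ℚ) * (NY 𝔐 ℓ ι κ ρ W L β e σ : ℚ)))
    rw [h12, h13, Finset.card_insert_of_notMem hnot, pow_succ]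
    ring
  -- description of the involution
  have hinv : ∀ σ : Finset (Subgroup G), Bd ℓ P₁ P σ → ∃ g : G, (∀ D ∈ σ, D ≤ cj g P) ∧
      Om P₁ P σ = cj g P₁ ∧ ((cj g P₁ ∈ σ ∧ inv P₁ P σ = σ.erase (cj g P₁) ∧
        (σ.erase (cj g P₁)).Nonempty) ∨
        (cj g P₁ ∉ σ ∧ inv P₁ P σ = insert (cj g P₁) σ)) := by
    intro σ hσ
    obtain ⟨g, hg⟩ := hσ.gd
    have h12 := Om_eq hPc hle hc1 hσ.ch hσ.ne hg
    refine ⟨g, hg, h12, ?_⟩
    by_cases hmem : cj g P₁ ∈ σ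
    · left
      refine ⟨hmem, ?_, ?_⟩
      · unfold VSXX.inv
        rw [h12, if_pos hmem]
      · rw [Finset.nonempty_iff_ne_empty]
        intro h13
        apply hσ.sg g
        rw [Finset.erase_eq_empty_iff] at h13
        rcases h13 with h13 | h13
        · exact absurd h13 hσ.ne.ne_empty
        · exact h13
    · right
      refine ⟨hmem, ?_⟩
      unfold VSXX.inv
      rw [h12, if_neg hmem]
  have hRsum : ∑ σ ∈ R, T σ = 0 := by
    refine Finset.sum_involution (fun σ _ => inv P₁ P σ) ?_ ?_ ?_ ?_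
    · intro σ hσ
      have hB : Bd ℓ P₁ P σ := (Finset.mem_filter.1 hσ).2
      obtain ⟨g, hg, -, h | h⟩ := hinv σ hB
      · obtain ⟨hmem, h12, h13⟩ := h
        rw [h12]
        have h14 := hTins (σ.erase (cj g P₁)) (hB.ch.subset (Finset.erase_subset _ _)) h13 g
          (fun D hD => hg D (Finset.mem_of_mem_erase hD)) (Finset.notMem_erase _ _)
        rw [Finset.insert_erase hmem] at h14
        rw [h14]
        ring
      · obtain ⟨hmem, h12⟩ := h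
        rw [h12, hTins σ hB.ch hB.ne g hg hmem]
        ring
    · intro σ hσ _
      have hB : Bd ℓ P₁ P σ := (Finset.mem_filter.1 hσ).2
      obtain ⟨g, hg, -, h | h⟩ := hinv σ hB
      · obtain ⟨hmem, h12, h13⟩ := h
        rw [h12]
        intro h14
        have h15 := Finset.notMem_erase (cj g P₁) σ
        rw [h14] at h15
        exact h15 hmem
      · obtain ⟨hmem, h12⟩ := h
        rw [h12]
        intro h14
        apply hmem
        have h15 := Finset.mem_insert_self (cj g P₁) σ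
        rwa [h14] at h15
    · intro σ hσ
      have hB : Bd ℓ P₁ P σ := (Finset.mem_filter.1 hσ).2
      rw [hR, Finset.mem_filter, mem_Ch]
      obtain ⟨g, hg, -, h | h⟩ := hinv σ hB
      · obtain ⟨hmem, h12, h13⟩ := h
        rw [h12]
        have h14 : IsCh ℓ (⊥ : Subgroup G) (σ.erase (cj g P₁)) :=
          hB.ch.subset (Finset.erase_subset _ _)
        have h15 : ∀ D ∈ σ.erase (cj g P₁), D ≤ cj g P :=
          fun D hD => hg D (Finset.mem_of_mem_erase hD)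
        refine ⟨h14, h14, ⟨g, h15⟩, h13, ?_⟩
        intro g' hg'
        have h16 : cj g' P₁ ∈ σ.erase (cj g P₁) := by
          rw [hg']
          exact Finset.mem_singleton_self _
        have h17 : cj g' P₁ = cj g P₁ :=
          uniq' (cj_cyc hPc g) (h15 _ h16) (cj_mono hle g) (by rw [card_cj, card_cj])
        rw [h17] at h16
        exact Finset.notMem_erase _ _ h16
      · obtain ⟨hmem, h12⟩ := h
        rw [h12]
        have h14 := (hins σ hB.ch hB.ne g hg).2.2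
        have h15 : ∀ D ∈ insert (cj g P₁) σ, D ≤ cj g P := by
          intro D hD
          rcases Finset.mem_insert.1 hD with rfl | hD
          · exact cj_mono hle g
          · exact hg D hD
        refine ⟨h14, h14, ⟨g, h15⟩, Finset.insert_nonempty _ _, ?_⟩
        intro g' hg'
        obtain ⟨D, hD⟩ := hB.ne
        have h16 : D ∈ ({cj g' P₁} : Finset (Subgroup G)) := by
          rw [← hg']
          exact Finset.mem_insert_of_mem hD
        have h17 : cj g P₁ ∈ ({cj g' P₁} : Finset (Subgroup G)) := by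
          rw [← hg']
          exact Finset.mem_insert_self _ _
        rw [Finset.mem_singleton] at h16 h17
        apply hmem
        rw [h17, ← h16]
        exact hD
    · intro σ hσ
      have hB : Bd ℓ P₁ P σ := (Finset.mem_filter.1 hσ).2
      obtain ⟨g, hg, hOm, h | h⟩ := hinv σ hB
      · obtain ⟨hmem, h12, h13⟩ := h
        show inv P₁ P (inv P₁ P σ) = σ
        rw [h12]
        have h14 : IsCh ℓ (⊥ : Subgroup G) (σ.erase (cj g P₁)) :=
          hB.ch.subset (Finset.erase_subset _ _)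
        have h16 : Om P₁ P (σ.erase (cj g P₁)) = cj g P₁ := Om_eq hPc hle hc1 h14 h13
          (fun D hD => hg D (Finset.mem_of_mem_erase hD))
        unfold VSXX.inv
        rw [h16, if_neg (Finset.notMem_erase _ _), Finset.insert_erase hmem]
      · obtain ⟨hmem, h12⟩ := h
        show inv P₁ P (inv P₁ P σ) = σ
        rw [h12]
        have h14 := (hins σ hB.ch hB.ne g hg).2.2
        have h15 : ∀ D ∈ insert (cj g P₁) σ, D ≤ cj g P := by
          intro D hD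
          rcases Finset.mem_insert.1 hD with rfl | hD
          · exact cj_mono hle g
          · exact hg D hD
        have h16 : Om P₁ P (insert (cj g P₁) σ) = cj g P₁ :=
          Om_eq hPc hle hc1 h14 (Finset.insert_nonempty _ _) h15
        unfold VSXX.inv
        rw [h16, if_pos (Finset.mem_insert_self _ _), Finset.erase_insert hmem]
  -- the sum
  have htot : ∑ σ ∈ Ch ℓ (⊥ : Subgroup G), T σ = ∑ σ ∈ insert ∅ S₁, T σ := by
    have hRs : R ⊆ (Ch ℓ (⊥ : Subgroup G)) \ insert ∅ S₁ := by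
      intro σ hσ
      have hB : Bd ℓ P₁ P σ := (Finset.mem_filter.1 hσ).2
      rw [Finset.mem_sdiff]
      refine ⟨(Finset.mem_filter.1 hσ).1, ?_⟩
      intro h12
      rcases Finset.mem_insert.1 h12 with h12 | h12
      · exact hB.ne.ne_empty h12
      · obtain ⟨D, hD, h13⟩ := Finset.mem_image.1 h12
        obtain ⟨g, hg⟩ := (Finset.mem_filter.1 hD).2
        exact hB.sg g (by rw [← h13, ← hg])
    have h12 : ∑ σ ∈ (Ch ℓ (⊥ : Subgroup G)) \ insert ∅ S₁, T σ = 0 := by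
      rw [← Finset.sum_subset hRs, hRsum]
      intro σ hσ hnot
      obtain ⟨h13, h14⟩ := Finset.mem_sdiff.1 hσ
      by_cases hgd : Gd P σ
      · exfalso
        apply hnot
        refine Finset.mem_filter.2 ⟨h13, mem_Ch.1 h13, hgd, ?_, ?_⟩
        · rw [Finset.nonempty_iff_ne_empty]
          intro h15
          apply h14
          rw [h15]
          exact Finset.mem_insert_self _ _
        · intro g h15
          apply h14
          apply Finset.mem_insert_of_mem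
          rw [h15]
          exact Finset.mem_image.2 ⟨cj g P₁, Finset.mem_filter.2 ⟨Finset.mem_univ _, g, rfl⟩, rfl⟩
      · exact hzero σ h13 hgd
    rw [← Finset.sum_sdiff hsub, h12, zero_add]
  have hT0 : T ∅ = (Nat.card G : ℚ) * (NY 𝔐 ℓ ι κ ρ W L β e ∅ : ℚ) := by
    show (-1 : ℚ) ^ (∅ : Finset (Subgroup G)).card *
      ((Nat.card (stb (∅ : Finset (Subgroup G))) : ℚ) * (NY 𝔐 ℓ ι κ ρ W L β e ∅ : ℚ)) = _
    rw [Finset.card_empty, pow_zero, one_mul, h11]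
  rw [h3, htot, Finset.sum_insert hne, hT0, hS₁,
    Finset.sum_image (fun D _ E _ h => Finset.singleton_injective h),
    Finset.sum_congr rfl h4, Finset.sum_const, nsmul_eq_mul, mul_sub, ← h8]
  change _ = (_ * (NY 𝔐 ℓ ι κ ρ W L β e ∅ : ℚ)) - _ * (NY 𝔐 ℓ ι κ ρ W L β e {P₁} : ℚ)
  ring

end Pool.Agent.RCW
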