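import Mathlib
import Pool.Agent.RCB.AllP2
import Pool.Agent.RCW.ASW
import Pool.Agent.RCW.BETW
import Pool.Agent.RCW.BTA
import Pool.Agent.RCW.CLIFFW
import Pool.Agent.RCW.COMBW
import Pool.Agent.RCW.CPB
import Pool.Agent.RCW.CXR
import Pool.Agent.RCW.DRV
import Pool.Agent.RCW.EXB
import Pool.Agent.RCW.FNR
import Pool.Agent.RCW.HATW
import Pool.Agent.RCW.HATYW
import Pool.Agent.RCW.IDP
import Pool.Agent.RCW.INNW
import Pool.Agent.RCW.INR
import Pool.Agent.RCW.LAY
import Pool.Agent.RCW.LDC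
import Pool.Agent.RCW.LDE
import Pool.Agent.RCW.LDO
import Pool.Agent.RCW.LIFTW
import Pool.Agent.RCW.LVR
import Pool.Agent.RCW.LVY
import Pool.Agent.RCW.MINW
import Pool.Agent.RCW.OTA
import Pool.Agent.RCW.OTB
import Pool.Agent.RCW.OTC
import Pool.Agent.RCW.OTD
import Pool.Agent.RCW.PERCW
import Pool.Agent.RCW.PERDW
import Pool.Agent.RCW.SUD
import Pool.Agent.RCW.TJW
import Pool.Agent.RCW.TOP
import Pool.Agent.RCW.TRW
import Pool.Agent.RCW.TWW
import Pool.Agent.RCW.VSY

/-!
# All modules together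
-/

namespace Pool.Agent.RCW

open Pool.Agent.DPX (dxmx_all dfx_all)

theorem betw_all : Stmt_BETW := BETW_thm

theorem trw_all : Stmt_TRW := TRW_thm

theorem perdw_all : Stmt_PERDW := PERDW_thm PERCW_thm

theorem minw_all : Stmt_MINW := MINW_thm ASW_thm TWW_thm

theorem cliffw_all : Stmt_CLIFFW := CLIFFW_thm perdw_all minw_all

theorem liftw_all : Stmt_LIFTW := LIFTW_thm trw_all

theorem tjw_all : Stmt_TJW := TJW_thm liftw_all trw_all

theorem combw_all : Stmt_COMBW := COMBW_thm betw_all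

theorem innw_all : Stmt_INNW := INNW_thm cliffw_all tjw_all combw_all

theorem hatw_all : Stmt_HATW := HATW_thm innw_all HATYW_thm

theorem lvr_all : Stmt_LVR := LVR_thm

theorem ldc_all : Stmt_LDC := LDC_thm betw_all CXR_thm

theorem ldo_all : Stmt_LDO := LDO_thm lvr_all ldc_all

theorem lde_all : Stmt_LDE := LDE_thm lvr_all ldc_all

theorem lvy_all : Stmt_LVY := LVY_thm VSY_thm ldo_all lde_all dxmx_all dfx_all

theorem sud_all : Stmt_SUD := SUD_thm

theorem bta_all : Stmt_BTA := BTA_thm sud_all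

theorem otc_all : Stmt_OTC := OTC_thm IDP_thm bta_all

theorem lay_all : Stmt_LAY := LAY_thm hatw_all lvy_all

theorem inr_all : Stmt_INR := INR_thm OTA_thm otc_all DRV_thm OTD_thm lay_all

theorem fnr_all : Stmt_FNR := FNR_thm inr_all

theorem cpb_all : RCW.Stmt_CPB := RCW.CPB_thm EXB_thm

/-- The main theorem. -/
theorem main : Stmt_TOP := TOP_thm fnr_all cpb_all

end Pool.Agent.RCW
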