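import Mathlib
import Pool.Agent.RCW.StD
import Pool.Agent.RCW.BETW
import Pool.Agent.DPV.EXTV

/-!
# LDC: from extensions in the stabilizer to the classes
-/

namespace Pool.Agent.RCW

open Pool.Agent.DP Pool.Agent.DPV Pool.Agent.DPB Pool.Agent.DPW Pool.Agent.DPX
open Pool.Agent.Lib_helper13 Representation
open Pool.Agent.RCB (iR kR pR RC piR locN_R cov_R Cov XS YL EB Mtc StX Agr Stx_R Stx_pi)

namespace LDC

variable {G B C B' C' : Type} [Group G] [Group B] [Group C] [Group B'] [Group C']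
  {ι : G →* B} {κ : B →* MulAut G} {ρ : B →* C} {ι' : G →* B'} {κ' : B' →* MulAut G}
  {ρ' : B' →* C'} {π : B' →* B}

/-- The image in `C'` of the stabilizer in the covering group. -/
theorem map_Stx (h : Cov ι κ ρ ι' κ' ρ' π) (σ : Finset (Subgroup G)) (θ : G → ℂ)
    (R : Subgroup C) (hR : (Stx κ σ θ).map ρ = R) :
    (Stx κ' σ θ).map ρ' = RC ρ ρ' π R := by
  rw [Stx_pi h]
  apply le_antisymm
  · rintro _ ⟨x, hx, rfl⟩
    refine ⟨x, ?_, rfl⟩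
    change ρ (π x) ∈ R
    rw [← hR]
    exact ⟨π x, hx, rfl⟩
  · rintro _ ⟨x, hx, rfl⟩
    have h1 : ρ (π x) ∈ R := hx
    rw [← hR] at h1
    obtain ⟨s, hs, hs'⟩ := h1
    obtain ⟨y, rfl⟩ := h.surj s
    have h0 : ρ (π (x * y⁻¹)) = 1 := by
      rw [map_mul, map_mul, map_inv, map_inv, ← hs', mul_inv_cancel]
    obtain ⟨g, hg⟩ := (h.lo.cl.ker _).1 h0
    have h2 : π ((ι' g)⁻¹ * (x * y⁻¹)) = 1 := by
      rw [map_mul, map_inv, h.emb, hg, inv_mul_cancel]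
    refine ⟨(ι' g)⁻¹ * (x * y⁻¹) * y, ?_, ?_⟩
    · change π ((ι' g)⁻¹ * (x * y⁻¹) * y) ∈ Stx κ σ θ
      rw [map_mul, h2, one_mul]
      exact hs
    · simp only [map_mul, map_inv, Pool.Agent.RCB.rho_iota h.up]
      simp

end LDC

theorem LDC_thm (h1 : Stmt_BETW) (h2 : Stmt_CXR) : Stmt_LDC := by
  intro G B C B' C' _ _ _ _ _ _ _ _ 𝔐 ι κ ρ ι' κ' ρ' π h hV P₁ χ ψ hχ hψ R hRχ hRψ _ f f₁
    hf hf₁ hcg hW
  have e1 := LDC.map_Stx h ∅ χ R hRχ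
  have e2 := LDC.map_Stx h {P₁} ψ R hRψ
  refine ⟨e1, e2, ?_⟩
  intro L hL
  obtain ⟨a1, a2, a3⟩ := h2 G B' C' 𝔐 ι' κ' ρ' h.up (RC ρ ρ' π R) ∅ χ f hf
  obtain ⟨b1, b2, b3⟩ := h2 G B' C' 𝔐 ι' κ' ρ' h.up (RC ρ ρ' π R) {P₁} ψ f₁ hf₁
  have hWC : WC ι' π.ker := by
    refine ⟨inferInstance, fun g hg => ?_⟩
    rw [MonoidHom.mem_ker, h.emb] at hg
    exact h.lo.cl.inj (by rw [hg, map_one])
  have f1 : f 1 ≠ 0 := by
    have h3 : f 1 = χ 1 := by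
      have h4 := hf.2 1
      rwa [map_one] at h4
    rw [h3]
    exact hχ.1.one_ne_zero
  have f2 : f₁ 1 ≠ 0 := by
    have h3 : f₁ 1 = ψ 1 := by
      have h4 := hf₁.2 1
      rwa [map_one] at h4
    rw [h3]
    exact hψ.1.one_ne_zero
  have g1 : ext0 f 1 = f 1 := ext0_of_mem f (Subgroup.one_mem _)
  have g2 : ext0 f₁ 1 = f₁ 1 := ext0_of_mem f₁ (Subgroup.one_mem _)
  have key : cgW 𝔐 ι' π.ker (ext0 f) = cgW 𝔐 ι' π.ker (ext0 f₁) := by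
    funext x
    unfold cgW
    refine Prod.ext ?_ ?_
    · by_cases hx : x ∈ (RC ρ ρ' π R).comap ρ'
      · exact (a2 ⟨x, hx⟩).trans ((hcg ⟨x, hx⟩).trans (b2 ⟨x, hx⟩).symm)
      · exact (a3 x hx).trans (b3 x hx).symm
    · by_cases hx : x ∈ π.ker
      · simp only [if_pos hx]
        have hx' : x ∈ (RC ρ ρ' π R).comap ρ' :=
          Pool.Agent.RCB.ker_le_RC R ⟨x, hx, rfl⟩
        rw [g1, g2, ext0_of_mem f hx', ext0_of_mem f₁ hx', div_eq_div_iff f1 f2]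
        refine hW ⟨x, hx'⟩ ?_
        apply Subtype.ext
        exact hx
      · simp only [if_neg hx]
  have c1 := (EXTV_thm G B' C' ι' κ' ρ' hV ∅ χ hχ (RC ρ ρ' π R)).2.2.2.2.2 L hL (ext0 f) a1
  have c2 := (EXTV_thm G B' C' ι' κ' ρ' hV {P₁} ψ hψ (RC ρ ρ' π R)).2.2.2.2.2 L hL (ext0 f₁) b1
  refine (h1 G B' C' 𝔐 ι' κ' ρ' hV π.ker hWC).2.1 ∅ {P₁} χ ψ hχ hψ L (by rw [e1]; exact hL)
    (by rw [e2]; exact hL) (trn ρ' L (ext0 f)) (trn ρ' L (ext0 f₁)) c1 c2 ?_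
  funext x
  by_cases hx : ρ' x ∈ L
  · rw [(BETW.cgW_trn 𝔐 hV.cl π.ker L (ext0 f) x).1 hx,
      (BETW.cgW_trn 𝔐 hV.cl π.ker L (ext0 f₁) x).1 hx, key]
  · rw [(BETW.cgW_trn 𝔐 hV.cl π.ker L (ext0 f) x).2 hx,
      (BETW.cgW_trn 𝔐 hV.cl π.ker L (ext0 f₁) x).2 hx]

end Pool.Agent.RCW
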